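import Pool.Agent.MP_ca1109_lc.Xr.AP
import Pool.Agent.MP_ca1109_lc.Xd.FQ

/-!
# Gates with real weights over conjunctions of arbitrary literals: strings and leaves

* `Gr U r q B g`: `g` is a question for a value in a finite group, all characters of which are
  products in `BP U r q 0`, or a threshold gate with real weights over terms.
* `str_gr`: every string which fools the products fools the Boolean functions of `k` such gates.
* `leaf_gr`: such functions at the leaves.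
-/

namespace Pool.Agent.MP_ca1109_lc.Xr

open Finset Pool.Agent.H66 Pool.Agent.MP_ca1109_lc.Mpg Pool.Agent.MP_ca1109_lc.Agp
open Pool.Agent.MP_ca1109_lc.Dnf (Cube ch one Term)
open Pool.Agent.MP_ca1109_lc.Xl (Tr tm pr Rd)
open Pool.Agent.MP_ca1109_lc.Xt (rs BP)
open Pool.Agent.MP_ca1109_lc.Xa (PB FP Gt Apx apx_char xpb_bool lt fu_rd)
open Pool.Agent.MP_ca1109_lc.Xv (vio lsn litSum_lsn char_bp)
open Pool.Agent.MP_ca1109_lc.Xu (litSum)
open Pool.Agent.MP_ca1109_lc.Xd (Lf lf LeafGen fl_gen fl_cond fl_norm fx ft_leaf ft_unif ft_ofReal)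

variable {n : ℕ}

/-- A question for a value in a finite group all characters of which are products in `BP U r q 0`, or
a threshold gate with real weights over terms. -/
def Gr (U : Submonoid (Cube n → ℂ)) (r q B : ℕ) (g : Cube n → Bool) : Prop :=
  (∃ (G : Type) (_ : AddCommGroup G) (_ : Fintype G) (v : Cube n → G) (A : Finset G),
    A.card ≤ B ∧ (∀ χ : AddChar G ℂ, BP U r q 0 fun x => χ (v x)) ∧ ∀ x, g x = true ↔ v x ∈ A) ∨
  ∃ (ι : Type) (_ : DecidableEq ι) (T : ι → Term n) (M : Finset ι) (w : ι → ℝ) (θ : ℝ),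
    Rd r T M ∧ ∀ x, g x = true ↔ θ ≤ rs T w M x

/-- Such gates are approximable. -/
theorem apx_gr (r q B : ℕ) {ε₁ : ℝ} (h1 : 0 < ε₁) :
    ∃ (R : ℕ) (K V C ε₀ : ℝ), 0 ≤ K ∧ 0 ≤ V ∧ 0 ≤ C ∧ 0 < ε₀ ∧
      ∀ (n : ℕ) (U : Submonoid (Cube n → ℂ)) (g : Cube n → Bool), Gr U r q B g →
        Apx U R q K V C ε₀ ε₁ g := by
  obtain ⟨R, K, V, C, ε₀, hK, hV, hC, hε₀, H⟩ := apx_lit r h1
  have hB : (0 : ℝ) ≤ B := Nat.cast_nonneg B
  refine ⟨r + R, K, V, B + C, ε₀, hK, hV, by positivity, hε₀, ?_⟩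
  intro n U g hg
  rcases hg with ⟨G, i1, i2, v, A, hA, hv, hg⟩ | ⟨ι, i1, T, M, w, θ, hM, hg⟩
  · have hA' : (A.card : ℝ) ≤ B := by exact_mod_cast hA
    exact (apx_char (ε₀ := ε₀) le_rfl v hv A g hg).mono (Nat.le_add_right _ _) dvd_rfl hK
      hV (by linarith) le_rfl h1.le
  · exact (H n U T M w θ hM q g hg).mono (Nat.le_add_left _ _) dvd_rfl le_rfl le_rfl
      (by linarith) le_rfl le_rfl

/-- Every string which fools the products fools the functions of `k` gates. -/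
theorem str_gr (r q B k : ℕ) {ε : ℝ} (hε : 0 < ε) : ∃ (R : ℕ) (K V ε₀ : ℝ),
    0 ≤ K ∧ 0 ≤ V ∧ 0 < ε₀ ∧ ∀ (n : ℕ) (U : Submonoid (Cube n → ℂ))
      (g : Fin k → Cube n → Bool) (F : (Fin k → Bool) → Bool), (∀ j, Gr U r q B (g j)) →
      ∀ {Ω : Type} [Fintype Ω] [Nonempty Ω] (X : Ω → Cube n), FP U R q K V ε₀ X →
        |(avg fun ω => ind (F fun j => g j (X ω))) - avg fun x : Cube n => ind (F fun j => g j x)| ≤
          ε := by
  classical
  obtain ⟨R, K, V, C, ε₀, hK, hV, hC, hε₀, hg⟩ := apx_gr r q B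
    (ε₁ := ε / (4 * (2 ^ k * (3 ^ k * ((k : ℝ) + 1))))) (by positivity)
  obtain ⟨ε₂, hε₂⟩ : ∃ ε₂ : ℝ, ε₂ = min ε₀ (ε / (2 * (2 ^ k * (1 + C) ^ k))) := ⟨_, rfl⟩
  have hε₂0 : 0 < ε₂ := by rw [hε₂]; exact lt_min hε₀ (by positivity)
  have hε₂1 : ε₂ ≤ ε₀ := by rw [hε₂]; exact min_le_left _ _
  have hε₂2 : ε₂ ≤ ε / (2 * (2 ^ k * (1 + C) ^ k)) := by rw [hε₂]; exact min_le_right _ _
  refine ⟨k * R + R, k * K + K, k * V + V, ε₂, by positivity, by positivity, hε₂0, ?_⟩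
  intro n U g F hgate Ω _ _ X hX
  choose Gj h01 hPC happ using fun j => hg n U (g j) (hgate j)
  have hkK : 0 ≤ (k : ℝ) * K := by positivity
  have hkV : 0 ≤ (k : ℝ) * V := by positivity
  have key := xpb_bool (ε₁ := ε / (4 * (2 ^ k * (3 ^ k * ((k : ℝ) + 1))))) hε₂0.le hK hV hC
    F g Gj h01 hPC (hX.mono (Nat.le_add_right _ _) dvd_rfl (by linarith) (by linarith) le_rfl)
    (fun j => happ j (fun x : Cube n => x) (FP.id _ _ _ _ hε₀.le))
    (fun j => happ j _ (hX.mono (Nat.le_add_left _ _) dvd_rfl (by linarith) (by linarith) hε₂1))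
  refine key.trans ?_
  have e3 : 2 * (2 ^ k * (3 ^ k * ((k : ℝ) * (ε / (4 * (2 ^ k * (3 ^ k * ((k : ℝ) + 1)))))))) ≤
      ε / 2 := by
    rw [show 2 * (2 ^ k * (3 ^ k * ((k : ℝ) * (ε / (4 * (2 ^ k * (3 ^ k * ((k : ℝ) + 1)))))))) =
      ε / 2 * ((k : ℝ) / ((k : ℝ) + 1)) by field_simp; ring]
    have : (k : ℝ) / ((k : ℝ) + 1) ≤ 1 := by
      rw [div_le_one (by positivity)]
      linarith
    nlinarith
  have e4 : 2 ^ k * (1 + C) ^ k * ε₂ ≤ ε / 2 := by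
    calc 2 ^ k * (1 + C) ^ k * ε₂ ≤ 2 ^ k * (1 + C) ^ k * (ε / (2 * (2 ^ k * (1 + C) ^ k))) :=
          mul_le_mul_of_nonneg_left hε₂2 (by positivity)
      _ = ε / 2 := by field_simp
  linarith

/-- The statistic of a list of conjunctions. -/
theorem fu_rs {N : ℕ} (S : Fin N → Finset (Fin n)) (y : Fin N → Fin n → Bool) (w : Fin N → ℝ)
    (x : Cube n) : litSum S y w x = rs (lt S y) w univ x := by
  classical
  unfold litSum Xt.rs
  refine sum_congr rfl fun m _ => ?_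
  by_cases h : ∀ i ∈ S m, x i = y m i
  · rw [if_pos h, show tm (lt S y m).S (lt S y m).a x = 1 from Dnf.one_true h, mul_one]
  · rw [if_neg h, show tm (lt S y m).S (lt S y m).a x = 0 from Dnf.one_false h, mul_zero]

/-- The questions of the first kind are gates in the sense of `Gr`. -/
theorem gr_mod {q d r B N : ℕ} {S : Fin N → Finset (Fin n)} {y : Fin N → Fin n → Bool}
    {G : Type} [AddCommGroup G] [Finite G] {c : Fin N → G} {A : Finset G} {g : Cube n → Bool}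
    (hq : ∀ v : G, q • v = 0) (hA : A.card ≤ B)
    (hr : ∀ i, {m | i ∈ S m ∧ (d < (S m).card ∨ 2 ^ q • c m ≠ 0)}.ncard ≤ r)
    (hgx : ∀ x, g x = true ↔ litSum S y c x ∈ A) : Gr (vio q d n) r q B g := by
  classical
  have i3 : Fintype G := Fintype.ofFinite G
  obtain ⟨κ, hκ⟩ := litSum_lsn S y c
  refine Or.inl ⟨G, inferInstance, i3, lsn S y c, A.image fun a => a - κ,
    card_image_le.trans hA, fun χ => char_bp q d r S y c hq hr le_rfl χ, fun x => ?_⟩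
  rw [hgx, hκ, mem_image]
  constructor
  · intro h
    exact ⟨_, h, by abel⟩
  · rintro ⟨a, ha, he⟩
    rw [← he, add_sub_cancel]
    exact ha

/-- The thresholds are gates in the sense of `Gr`. -/
theorem gr_real {r B q N : ℕ} {U : Submonoid (Cube n → ℂ)} {S : Fin N → Finset (Fin n)}
    {y : Fin N → Fin n → Bool} {w : Fin N → ℝ} {θ : ℝ} {g : Cube n → Bool}
    (hr : ∀ i, {m | i ∈ S m}.ncard ≤ r) (hgx : ∀ x, g x = true ↔ θ ≤ litSum S y w x) :
    Gr U r q B g := by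
  refine Or.inr ⟨Fin N, inferInstance, lt S y, univ, w, θ, ?_, fun x => ?_⟩
  · exact fu_rd (P := fun _ => True) (by simpa using hr) _ fun _ _ _ _ => trivial
  · rw [hgx, fu_rs]

/-- Functions of `k` such gates at the leaves, for a class `P` which is closed under restrictions. -/
theorem leaf_gr {P : ∀ n : ℕ, ((Fin n → Bool) → Bool) → Prop} (q d r B k e : ℕ) (hq : 0 < q)
    (hP : ∀ n f, P n f → ∀ (L : Finset (Fin n)) (a : Cube n),
      ∃ (g : Fin k → Cube n → Bool) (F : (Fin k → Bool) → Bool),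
        (∀ j, Gr (vio q d n) r q B (g j)) ∧ ∀ x, f (fx L a x) = F fun j => g j x)
    {ε : ℝ} (hε : 0 < ε) : LeafGen P e ε := by
  classical
  obtain ⟨R, K, V, ε₀, hK, hV, hε₀, HS⟩ := str_gr r q B k (show 0 < ε / 2 by positivity)
  obtain ⟨ε₁, hε₁⟩ : ∃ ε₁ : ℝ, ε₁ = min (1 / 2) (min (ε₀ / 4) (ε / 2)) := ⟨_, rfl⟩
  have hε₁0 : 0 < ε₁ := by
    rw [hε₁]
    exact lt_min (by norm_num) (lt_min (by positivity) (by positivity))
  have hε₁1 : ε₁ ≤ 1 / 2 := by rw [hε₁]; exact min_le_left _ _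
  have hε₁2 : 4 * ε₁ ≤ ε₀ := by
    have h : ε₁ ≤ ε₀ / 4 := by rw [hε₁]; exact (min_le_right _ _).trans (min_le_left _ _)
    linarith
  have hε₁3 : ε₁ ≤ ε / 2 := by rw [hε₁]; exact (min_le_right _ _).trans (min_le_right _ _)
  obtain ⟨E, G, hNG, n₀, HG⟩ := fl_gen q d R q e K V hq hK hV hε₁0
  refine ⟨E, G, hNG, n₀, fun n hn L a hL => ?_⟩
  have hne : Nonempty (Fin (2 ^ E n)) := ⟨⟨0, by positivity⟩⟩
  have hX := HG n hn
  obtain ⟨hPr, Ω', i1, i2, X', hX', hlf⟩ := fl_cond hK hV hε₁0.le hε₁1 hX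
    (fun f hf x => fl_norm hq hf x) L hL a
  obtain ⟨D, hD⟩ : ∃ D : ℝ, D = (1 / 2) ^ L.card := ⟨_, rfl⟩
  have hD0 : 0 < D := by rw [hD]; positivity
  refine ⟨hPr.trans (mul_le_mul_of_nonneg_right (by linarith) (by positivity)), fun f hf => ?_⟩
  obtain ⟨g, F, hg, hgF⟩ := hP n f hf L a
  have h1 := HS n (vio q d n) g F hg X' (hX'.mono le_rfl dvd_rfl le_rfl le_rfl hε₁2)
  simp only [← hgF] at h1
  have h2 := hlf (fun y => ((ind (f (fx L a y)) : ℝ) : ℂ))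
  simp only [ft_leaf] at h2
  rw [ft_ofReal, ft_ofReal, ← Complex.ofReal_mul] at h2
  have h3 := Complex.ofReal_injective h2
  rw [h3, ft_unif]
  obtain ⟨Pr, hPd⟩ : ∃ Pr : ℝ, Pr = avg fun p : Fin (2 ^ E n) => one (Tr L a (out G n p)) :=
    ⟨_, rfl⟩
  obtain ⟨A', hA'⟩ : ∃ A' : ℝ, A' = avg fun ω' : Ω' => ind (f (fx L a (X' ω'))) := ⟨_, rfl⟩
  obtain ⟨A, hA⟩ : ∃ A : ℝ, A = avg fun x : Cube n => ind (f (fx L a x)) := ⟨_, rfl⟩
  have hA0 : 0 ≤ A' := by
    rw [hA']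
    exact avg_nonneg fun ω => by unfold ind; split_ifs <;> norm_num
  have hA1 : A' ≤ 1 := by
    rw [hA']
    refine (avg_mono (g := fun _ => (1 : ℝ)) fun ω => ?_).trans (le_of_eq (avg_const _))
    unfold ind
    split_ifs <;> norm_num
  rw [← hPd, ← hA', ← hA, ← hD]
  rw [← hPd, ← hD] at hPr
  rw [← hA', ← hA] at h1
  have h4 : Pr * A' - D * A = (Pr - D) * A' + D * (A' - A) := by ring
  rw [h4]
  refine (abs_add_le _ _).trans ?_
  rw [abs_mul, abs_mul, abs_of_nonneg hA0, abs_of_pos hD0]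
  have h5 : |Pr - D| * A' ≤ ε / 2 * D := by
    calc |Pr - D| * A' ≤ |Pr - D| * 1 := mul_le_mul_of_nonneg_left hA1 (abs_nonneg _)
      _ ≤ ε₁ * D := by rw [mul_one]; exact hPr
      _ ≤ ε / 2 * D := mul_le_mul_of_nonneg_right hε₁3 hD0.le
  have h6 : D * |A' - A| ≤ D * (ε / 2) := mul_le_mul_of_nonneg_left h1 hD0.le
  linarith

end Pool.Agent.MP_ca1109_lc.Xr
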