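import Pool.Agent.MP_ca1109_lc.Xr.SMU
import Pool.Agent.MP_ca1109_lc.Xh.AN

/-!
# Anticoncentration of real statistics of terms
-/

namespace Pool.Agent.MP_ca1109_lc.Xr

open Finset Pool.Agent.H66 Pool.Agent.MP_ca1109_lc.Mpg Pool.Agent.MP_ca1109_lc.Agp
open Pool.Agent.MP_ca1109_lc.Dnf (Cube ch one Term)
open Pool.Agent.MP_ca1109_lc.Xp (fl)
open Pool.Agent.MP_ca1109_lc.Xl (Tr tm pr Rd)
open Pool.Agent.MP_ca1109_lc.Xt (rs rv ph)

variable {n : ℕ} {ι β : Type}

/-- Most phases have large mass, so the statistic is spread at scale `D`. -/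
theorem anti (r : ℕ) {c : ℝ} (hc : 0 < c) (hc1 : c ≤ 1) {ε : ℝ} (hε : 0 < ε) : ∃ K : ℝ,
    ∀ (n : ℕ) {ι : Type} [DecidableEq ι] (T : ι → Term n) (M : Finset ι) (u : ι → ℝ) (D : ℝ),
      Rd r T M → (∀ m ∈ M, (T m).S ≠ ∅) → Gapu c T M → 0 < D → K ≤ vd T M u D →
      ∀ θ : ℝ, (avg fun x : Cube n => one (|rs T u M x - θ| ≤ D)) ≤ ε := by
  obtain ⟨V₀, hV₀⟩ := small_avu r hc hc1 (show 0 < ε / 16 by positivity)
  set η : ℝ := min 1 (ε / 512) with hη
  have hη0 : 0 < η := lt_min one_pos (by positivity)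
  have hη1 : η ≤ 1 := min_le_left _ _
  have hη2 : η ≤ ε / 512 := min_le_right _ _
  refine ⟨max 1 (2 * (4 * V₀) / η ^ 2), fun n ι _ T M u D hM h0 hg hD hK θ => ?_⟩
  have hK1 : 1 ≤ vd T M u D := (le_max_left _ _).trans hK
  have hK2 : 2 * (4 * V₀) / η ^ 2 ≤ vd T M u D := (le_max_right _ _).trans hK
  have h := Xh.anticonc M (fun m => (1 / 2 : ℝ) ^ (T m).S.card) u (fun m _ => by positivity)
    (D := D) (η := η) (V₀ := 4 * V₀) (ε := ε / 16) hD hη0 hη1 (by positivity)
    (show 0 < vd T M u D by linarith) (by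
      show 4 * V₀ ≤ η ^ 2 / 2 * vd T M u D
      rw [div_le_iff₀ (by positivity)] at hK2
      linarith) (fun x : Cube n => rs T u M x) θ (by
      intro t ht
      have h1 : ‖av (pr T (ph t u) M)‖ ≤ ε / 16 := by
        refine hV₀ n T (ph t u) M hM h0 (fun m => Xt.norm_ph t u m) hg ?_
        have h3 : ∑ m ∈ M, (1 / 2 : ℝ) ^ (T m).S.card * (‖1 - ph t u m‖ ^ 2 / 4) =
            (∑ m ∈ M, (1 / 2 : ℝ) ^ (T m).S.card *
              ‖1 - Complex.exp ((t * u m : ℝ) * Complex.I)‖ ^ 2) / 4 := by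
          rw [sum_div]
          refine sum_congr rfl fun m _ => ?_
          have h4 : ph t u m = Complex.exp ((t * u m : ℝ) * Complex.I) := by
            unfold Xt.ph
            congr 1
            push_cast
            ring
          rw [h4]
          ring
        rw [h3]
        linarith
      have h2 : (fun x : Cube n => Complex.exp ((t * rs T u M x : ℝ) * Complex.I)) =
          pr T (ph t u) M := by
        funext x
        rw [Xt.pr_ph, mul_comm]
      rw [h2]
      exact h1)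
  linarith

end Pool.Agent.MP_ca1109_lc.Xr
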