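import Pool.Agent.MP_ca1109_lc.Xl.Defs

/-!
# Values in an additive group: the sum of the coefficients of the true terms
-/

namespace Pool.Agent.MP_ca1109_lc.Xr

open Finset Pool.Agent.MP_ca1109_lc.Mpg Pool.Agent.MP_ca1109_lc.Agp
open Pool.Agent.MP_ca1109_lc.Dnf (Cube Term)
open Pool.Agent.MP_ca1109_lc.Xl (Tr pr)

variable {n : ℕ} {ι : Type}

open Classical in
/-- The sum of the coefficients of the true terms. -/
noncomputable def vt {G : Type} [AddCommGroup G] (T : ι → Term n) (v : ι → G) (M : Finset ι)
    (x : Cube n) : G := ∑ m ∈ M, if Tr (T m).S (T m).a x then v m else 0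

theorem map_vt {G : Type} [AddCommGroup G] (T : ι → Term n) (v : ι → G) (M : Finset ι)
    (χ : AddChar G ℂ) (x : Cube n) : χ (vt T v M x) = pr T (fun m => χ (v m)) M x := by
  classical
  unfold vt pr
  induction M using Finset.induction_on with
  | empty => rw [sum_empty, prod_empty, AddChar.map_zero_eq_one]
  | insert a s ha ih =>
    rw [sum_insert ha, prod_insert ha, AddChar.map_add_eq_mul, ih]
    congr 1
    split_ifs
    · rfl
    · exact AddChar.map_zero_eq_one χ

end Pool.Agent.MP_ca1109_lc.Xr
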