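import Pool.Agent.MP_ca1109_lc.Xr.BAS
import Pool.Agent.MP_ca1109_lc.Xr.VT

/-!
# The basis, for coefficients in a group
-/

namespace Pool.Agent.MP_ca1109_lc.Xr

open Finset Pool.Agent.MP_ca1109_lc.Mpg Pool.Agent.MP_ca1109_lc.Agp
open Pool.Agent.MP_ca1109_lc.Dnf (Cube ch one Term)
open Pool.Agent.MP_ca1109_lc.Xp (fl)
open Pool.Agent.MP_ca1109_lc.Xl (Tr tm pr Rd)

variable {n : ℕ} {ι β : Type}

open Classical in
/-- The indicator, as an integer. -/
noncomputable def tz (S : Finset (Fin n)) (a x : Cube n) : ℤ := if Tr S a x then 1 else 0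

theorem bag_tz (S : Finset (Fin n)) (a x : Cube n) :
    tz S a x = ∏ i ∈ S, (if x i = a i then (1 : ℤ) else 0) := by
  unfold tz
  by_cases h : Tr S a x
  · rw [if_pos h]
    exact (Finset.prod_eq_one fun i hi => if_pos (h i hi)).symm
  · rw [if_neg h]
    unfold Tr at h
    push Not at h
    obtain ⟨i, hi, hx⟩ := h
    exact (Finset.prod_eq_zero hi (if_neg hx)).symm

theorem bag_union {S S' : Finset (Fin n)} (h : Disjoint S S') (a x : Cube n) :
    tz (S ∪ S') a x = tz S a x * tz S' a x := by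
  rw [bag_tz, bag_tz, bag_tz, Finset.prod_union h]

theorem bag_congr {S : Finset (Fin n)} {a a' : Cube n} (h : ∀ i ∈ S, a i = a' i) (x : Cube n) :
    tz S a x = tz S a' x := by
  rw [bag_tz, bag_tz]
  exact Finset.prod_congr rfl fun i hi => by rw [h i hi]

theorem expandZ (K : Finset (Fin n)) (y : Cube n) (t : Term n) (hK : K ⊆ t.S)
    (hy : ∀ i ∈ K, t.a i = y i) : ∃ co : Finset (Fin n) → ℤ, ∀ x : Cube n,
      tz t.S t.a x = ∑ B ∈ (t.S \ K).powerset, co B * tz (bt K y B).S (bt K y B).a x := by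
  classical
  refine ⟨fun B => (∏ i ∈ B, if t.a i = true then (1 : ℤ) else -1) *
    ∏ i ∈ (t.S \ K) \ B, if t.a i = true then (0 : ℤ) else 1, fun x => ?_⟩
  have h1 : tz t.S t.a x = tz K y x * tz (t.S \ K) t.a x := by
    have h2 : t.S = K ∪ (t.S \ K) := (Finset.union_sdiff_of_subset hK).symm
    calc tz t.S t.a x = tz (K ∪ (t.S \ K)) t.a x := by rw [← h2]
      _ = tz K t.a x * tz (t.S \ K) t.a x := bag_union disjoint_sdiff _ _
      _ = _ := by rw [bag_congr hy]
  have h3 : tz (t.S \ K) t.a x = ∏ i ∈ t.S \ K,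
      ((if t.a i = true then (1 : ℤ) else -1) * (if x i = true then (1 : ℤ) else 0) +
        (if t.a i = true then (0 : ℤ) else 1)) := by
    rw [bag_tz]
    refine Finset.prod_congr rfl fun i _ => ?_
    cases x i <;> cases t.a i <;> simp
  rw [h1, h3, Finset.prod_add, Finset.mul_sum]
  refine Finset.sum_congr rfl fun B hB => ?_
  rw [Finset.mem_powerset] at hB
  have hd : Disjoint K B := Finset.disjoint_of_subset_right hB disjoint_sdiff
  have h4 : tz (bt K y B).S (bt K y B).a x = tz K y x * ∏ i ∈ B, (if x i = true then (1 : ℤ) else 0) := by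
    show tz (K ∪ B) (fun i => if i ∈ K then y i else true) x = _
    rw [bag_union hd, bag_congr (a' := y) (fun i hi => if_pos hi),
      bag_congr (S := B) (a' := fun _ => true)
        (fun i hi => if_neg (Finset.disjoint_right.1 hd hi)), bag_tz B]
  rw [h4, Finset.prod_mul_distrib]
  ring

section Grp

variable {G : Type} [AddCommGroup G] {κ : Type} {T' : κ → Term n} {M' : Finset κ}

theorem bag_vt (T : ι → Term n) (v : ι → G) (M : Finset ι) (x : Cube n) :
    vt T v M x = ∑ m ∈ M, tz (T m).S (T m).a x • v m := by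
  unfold vt tz
  refine Finset.sum_congr rfl fun m _ => ?_
  split_ifs
  · rw [one_smul]
  · rw [zero_smul]

/-- The function is a constant and a sum over the terms of `M'`. -/
def BRep (T' : κ → Term n) (M' : Finset κ) (F : Cube n → G) : Prop :=
  ∃ (v' : κ → G) (v₀ : G), ∀ x, F x = v₀ + vt T' v' M' x

theorem BRep.add {F H : Cube n → G} (hF : BRep T' M' F) (hH : BRep T' M' H) :
    BRep T' M' (fun x => F x + H x) := by
  obtain ⟨u, a, hu⟩ := hF
  obtain ⟨v, b, hv⟩ := hH
  refine ⟨fun k => u k + v k, a + b, fun x => ?_⟩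
  show F x + H x = _
  rw [hu, hv, bag_vt, bag_vt, bag_vt, Finset.sum_congr rfl fun m _ => smul_add _ (u m) (v m),
    Finset.sum_add_distrib]
  abel

theorem BRep.const (c : G) : BRep T' M' (fun _ : Cube n => c) := by
  refine ⟨fun _ => 0, c, fun x => ?_⟩
  rw [bag_vt, Finset.sum_congr rfl fun m _ => smul_zero _, Finset.sum_const_zero, add_zero]

theorem BRep.sum {α : Type*} (s : Finset α) (F : α → Cube n → G) (hF : ∀ i ∈ s, BRep T' M' (F i)) :
    BRep T' M' (fun x => ∑ i ∈ s, F i x) := by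
  classical
  induction s using Finset.induction_on with
  | empty => simpa using (BRep.const (T' := T') (M' := M') (0 : G))
  | insert a s ha ih =>
    have h1 := (hF a (Finset.mem_insert_self a s)).add
      (ih fun i hi => hF i (Finset.mem_insert_of_mem hi))
    obtain ⟨u, c, hu⟩ := h1
    refine ⟨u, c, fun x => ?_⟩
    show ∑ i ∈ insert a s, F i x = _
    rw [Finset.sum_insert ha]
    exact hu x

theorem BRep.single [DecidableEq κ] {k : κ} (hk : k ∈ M') (c : G) :
    BRep T' M' (fun x => tz (T' k).S (T' k).a x • c) := by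
  refine ⟨fun k' => if k' = k then c else 0, 0, fun x => ?_⟩
  rw [bag_vt, zero_add, Finset.sum_eq_single k]
  · rw [if_pos rfl]
  · intro b _ hb
    rw [if_neg hb, smul_zero]
  · exact fun h => absurd hk h

end Grp

theorem basisG (r : ℕ) : ∃ (R : ℕ) (c : ℝ), 0 < c ∧ c ≤ 1 ∧ ∀ {n : ℕ} {ι : Type} [DecidableEq ι]
    (T : ι → Term n) (M : Finset ι), Rd r T M →
    ∃ (κ : Type) (_ : DecidableEq κ) (T' : κ → Term n) (M' : Finset κ), Rd R T' M' ∧
      (∀ m ∈ M', (T' m).S ≠ ∅) ∧ Gapu c T' M' ∧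
      ∀ {G : Type} [AddCommGroup G] (v : ι → G), ∃ (v' : κ → G) (v₀ : G), ∀ x,
        vt T v M x = v₀ + vt T' v' M' x := by
  classical
  obtain ⟨s, R, hsR⟩ := struc r
  refine ⟨R, gapc s R, (bas_gapc s R).1, (bas_gapc s R).2, fun {n ι} _ T M hM => ?_⟩
  have hrd : Rd r T (M.filter fun m => (T m).S ≠ ∅) := fun i =>
    (Finset.card_le_card (Finset.filter_subset_filter _ (Finset.filter_subset _ _))).trans (hM i)
  obtain ⟨β, hβ, K, y, M', hd, hne, hR, hI, hq⟩ := hsR T (M.filter fun m => (T m).S ≠ ∅) hrd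
    (fun m hm => (Finset.mem_filter.1 hm).2)
  refine ⟨β × Finset (Fin n), inferInstance, bf K y, M', hR, hne, gi hd hR hI, fun {G} _ v => ?_⟩
  have hrep : BRep (bf K y) M' (fun x => ∑ m ∈ M, tz (T m).S (T m).a x • v m) := by
    refine BRep.sum M _ fun m hm => ?_
    by_cases h0 : (T m).S = ∅
    · obtain ⟨u, c, hu⟩ := BRep.const (T' := bf K y) (M' := M') (v m)
      refine ⟨u, c, fun x => ?_⟩
      show tz (T m).S (T m).a x • v m = _
      rw [h0, bag_tz, Finset.prod_empty, one_smul]
      exact hu x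
    · obtain ⟨q, h1, h2, h3⟩ := hq m (Finset.mem_filter.2 ⟨hm, h0⟩)
      obtain ⟨co, hco⟩ := expandZ (K q) (y q) (T m) h1 h2
      obtain ⟨u, c, hu⟩ := BRep.sum (T' := bf K y) (M' := M') ((T m).S \ K q).powerset
        (fun B x => tz (bt (K q) (y q) B).S (bt (K q) (y q) B).a x • (co B • v m)) fun B hB => by
          rw [Finset.mem_powerset] at hB
          by_cases hKB : K q ∪ B = ∅
          · obtain ⟨u, c, hu⟩ := BRep.const (T' := bf K y) (M' := M') (co B • v m)
            refine ⟨u, c, fun x => ?_⟩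
            have h4 : (bt (K q) (y q) B).S = ∅ := hKB
            show tz (bt (K q) (y q) B).S (bt (K q) (y q) B).a x • (co B • v m) = _
            rw [h4, bag_tz, Finset.prod_empty, one_smul]
            exact hu x
          · exact BRep.single (T' := bf K y) (k := (q, B)) (h3 B hB hKB) (co B • v m)
      refine ⟨u, c, fun x => ?_⟩
      show tz (T m).S (T m).a x • v m = _
      rw [hco, Finset.sum_smul, ← hu x]
      refine Finset.sum_congr rfl fun B _ => ?_
      rw [smul_smul, mul_comm]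
  obtain ⟨v', v₀, h⟩ := hrep
  exact ⟨v', v₀, fun x => by rw [bag_vt]; exact h x⟩

end Pool.Agent.MP_ca1109_lc.Xr
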