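import Pool.Agent.MP_ca1109_lc.Xr.PAT
import Pool.Agent.MP_ca1109_lc.Xt.SM

/-!
# The uniform distribution: products of large weight have small averages
-/

namespace Pool.Agent.MP_ca1109_lc.Xr

open Finset Pool.Agent.MP_ca1109_lc.Mpg Pool.Agent.MP_ca1109_lc.Agp
open Pool.Agent.MP_ca1109_lc.Dnf (Cube ch one Term)
open Pool.Agent.MP_ca1109_lc.Xl (Tr tm pr Rd)
open Pool.Agent.MP_ca1109_lc.Xt (rs rv ph Pat Piv)

theorem small_avu (r : ℕ) {c : ℝ} (hc : 0 < c) (hc1 : c ≤ 1) {ε : ℝ} (hε : 0 < ε) : ∃ V₀ : ℝ,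
    ∀ (n : ℕ) {ι : Type} [DecidableEq ι] (T : ι → Term n) (ζ : ι → ℂ) (M : Finset ι),
      Rd r T M → (∀ m ∈ M, (T m).S ≠ ∅) → (∀ m, ‖ζ m‖ = 1) → Gapu c T M →
      V₀ ≤ ∑ m ∈ M, (1 / 2 : ℝ) ^ (T m).S.card * (‖1 - ζ m‖ ^ 2 / 4) → ‖av (pr T ζ M)‖ ≤ ε := by
  obtain ⟨K, hrK, hK⟩ := patu r
  obtain ⟨V, hV⟩ := Xt.small_av r K hrK hε
  refine ⟨max 1 (r * V / c ^ 2), fun n ι _ T ζ M hM h0 hζ hg hV₀ => ?_⟩
  have h1 : (1 : ℝ) ≤ ∑ m ∈ M, (1 / 2 : ℝ) ^ (T m).S.card * (‖1 - ζ m‖ ^ 2 / 4) :=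
    (le_max_left _ _).trans hV₀
  have h2 : r * V / c ^ 2 ≤ ∑ m ∈ M, (1 / 2 : ℝ) ^ (T m).S.card * (‖1 - ζ m‖ ^ 2 / 4) :=
    (le_max_right _ _).trans hV₀
  have hr : 1 ≤ r := by
    rcases Nat.eq_zero_or_pos r with rfl | h
    · exfalso
      have h3 : M = ∅ := by
        rw [Finset.eq_empty_iff_forall_notMem]
        intro m hm
        obtain ⟨i, hi⟩ := Finset.nonempty_iff_ne_empty.2 (h0 m hm)
        have h4 := Nat.le_zero.1 (hM i)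
        rw [Finset.card_eq_zero, Finset.filter_eq_empty_iff] at h4
        exact h4 hm hi
      rw [h3, Finset.sum_empty] at h1
      linarith
    · exact h
  have hr1 : (1 : ℝ) ≤ r := by exact_mod_cast hr
  have hc2 : 0 < c ^ 2 := by positivity
  have hc3 : c ^ 2 ≤ 1 := pow_le_one₀ hc.le hc1
  obtain ⟨Q, D, a, hQ, hp⟩ := hK T ζ M c hM hζ hc.le hg
  refine hV n T ζ M M (fun m => c ^ 2 * ‖1 - ζ m‖ ^ 2 / (4 * r)) Q D a hM
    (Finset.Subset.refl M) h0 (fun m _ => hζ m) hQ hp (fun m _ => by positivity)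
    (fun m _ => ?_) ?_
  · show c ^ 2 * ‖1 - ζ m‖ ^ 2 / (4 * r) ≤ 1
    have h3 : ‖1 - ζ m‖ ≤ 2 := by
      have := norm_sub_le (1 : ℂ) (ζ m)
      rw [norm_one, hζ m] at this
      linarith
    have h4 : ‖1 - ζ m‖ ^ 2 ≤ 4 := by
      have := norm_nonneg (1 - ζ m)
      nlinarith
    rw [div_le_one (by positivity)]
    have h5 : c ^ 2 * ‖1 - ζ m‖ ^ 2 ≤ 1 * 4 := mul_le_mul hc3 h4 (by positivity) zero_le_one
    linarith
  · have h3 : ∑ m ∈ M, (fun m => c ^ 2 * ‖1 - ζ m‖ ^ 2 / (4 * r)) m * (1 / 2 : ℝ) ^ (T m).S.card =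
        (c ^ 2 / r) * ∑ m ∈ M, (1 / 2 : ℝ) ^ (T m).S.card * (‖1 - ζ m‖ ^ 2 / 4) := by
      rw [Finset.mul_sum]
      refine Finset.sum_congr rfl fun m _ => ?_
      have hr0 : (r : ℝ) ≠ 0 := by positivity
      field_simp
    rw [h3]
    have h4 := mul_le_mul_of_nonneg_left h2 (show (0 : ℝ) ≤ c ^ 2 / r by positivity)
    have h5 : c ^ 2 / r * (r * V / c ^ 2) = V := by
      have hr0 : (r : ℝ) ≠ 0 := by positivity
      field_simp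
    rw [h5] at h4
    exact h4

end Pool.Agent.MP_ca1109_lc.Xr
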