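import Pool.Agent.MP_ca1109_lc.Xr.WDT
import Pool.Agent.MP_ca1109_lc.Xr.BAG
import Pool.Agent.MP_ca1109_lc.Xr.SMU
import Pool.Agent.MP_ca1109_lc.Xa.FP
import Pool.Agent.MP_ca1109_lc.Xl.MA
import Pool.Agent.MP_ca1109_lc.Xw.AG
import Pool.Agent.MP_ca1109_lc.Xw.GD2

/-!
# Questions for values in an arbitrary finite abelian group, over terms with any literals

* `FT r Q c C C' ε X`: the string `X` fools the products in `BigT r c C n` and in `MixT r Q C' n`.
* `apx_grpT`: a question for a value of a sum of coefficients, in a finite abelian group of any order,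
  of terms of a family with `Gapu` is close to a combination of products.
* `Gg r B g`: `g` is such a question over an arbitrary family of terms.
* `str_gg`: every string which fools the products fools the Boolean functions of `k` gates.
-/

namespace Pool.Agent.MP_ca1109_lc.Xr

open Finset Pool.Agent.H66 Pool.Agent.MP_ca1109_lc.Mpg Pool.Agent.MP_ca1109_lc.Agp
open Pool.Agent.MP_ca1109_lc.Dnf (Cube one one_le one_nonneg one_true one_false Term)
open Pool.Agent.MP_ca1109_lc.Xl (Tr pr Rd ml_norm_pr)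
open Pool.Agent.MP_ca1109_lc.Xa (PB PC FP Apx xpb_bool)
open Pool.Agent.MP_ca1109_lc.Pb (At tt)
open Pool.Agent.MP_ca1109_lc.Xw (En xag_expand xag_av_le grp_dich grp_dich2)

variable {n : ℕ}

/-- The string `X` fools the products in `BigT r c C n` and in `MixT r Q C' n` with error at most
`ε`. -/
def FT (r Q : ℕ) (c C C' ε : ℝ) {Ω : Type*} [Fintype Ω] (X : Ω → Cube n) : Prop :=
  ∀ f : Cube n → ℂ, f ∈ BigT r c C n ∨ f ∈ MixT r Q C' n → ‖av (fun ω => f (X ω)) - av f‖ ≤ ε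

theorem FT.mono {r r' Q Q' : ℕ} {c C C' ε ε' : ℝ} (hr : r ≤ r') (hQ : Q ∣ Q') (hε : ε' ≤ ε)
    {Ω : Type*} [Fintype Ω] {X : Ω → Cube n} (h : FT r' Q' c C C' ε' X) : FT r Q c C C' ε X := by
  intro f hf
  refine (h f ?_).trans hε
  rcases hf with ⟨ι, i1, T, M, ζ, h1, h2, h3, h4, h5, h6⟩ |
    ⟨ι, i1, T, M, N, ζ, h1, h2, h3, h4, h5, h6, h7⟩
  · exact Or.inl ⟨ι, i1, T, M, ζ, fun i => (h1 i).trans hr, h2, h3, h4, h5, h6⟩
  · refine Or.inr ⟨ι, i1, T, M, N, ζ, fun i => (h1 i).trans hr, h2, h3, h4, fun m hm hmN => ?_,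
      h6, h7⟩
    obtain ⟨b, rfl⟩ := hQ
    rw [pow_mul, h5 m hm hmN, one_pow]

theorem FT.id (r Q : ℕ) (c C C' : ℝ) {ε : ℝ} (hε : 0 ≤ ε) :
    FT r Q c C C' ε (fun x : Cube n => x) := by
  intro f _
  rw [show (av fun ω : Cube n => f ω) = av f from rfl, sub_self, norm_zero]
  exact hε

/-- Questions when the averages of almost all characters are small. -/
theorem agt_far {e δ : ℝ} {G : Type} [AddCommGroup G] [Fintype G] {ι : Type} {T : ι → Term n}
    {M : Finset ι} {v : ι → G} (he : 0 ≤ e)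
    {Ω : Type} [Fintype Ω] [Nonempty Ω] (X : Ω → Cube n) (bad : AddChar G ℂ → Prop)
    (hbig : ∀ χ : AddChar G ℂ, ¬ bad χ → ‖av (fun ω => pr T (fun m => χ (v m)) M (X ω))‖ ≤ e)
    (hfew : (Nat.card {χ : AddChar G ℂ // bad χ} : ℝ) ≤ δ * Fintype.card G) (a : G) :
    (avg fun ω => one (vt T v M (X ω) = a)) ≤ δ + e := by
  classical
  have hc : (0 : ℝ) < Fintype.card G := by exact_mod_cast Fintype.card_pos
  have h1 : (((avg fun ω => one (vt T v M (X ω) = a)) : ℝ) : ℂ) =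
      ∑ χ : AddChar G ℂ, χ (-a) / (Fintype.card G : ℂ) *
        av (fun ω => pr T (fun m => χ (v m)) M (X ω)) := by
    rw [Xg.xth_ofReal_avg]
    unfold av
    simp only [xag_expand, map_vt]
    rw [sum_comm, sum_div]
    refine sum_congr rfl fun χ _ => ?_
    rw [← mul_sum, mul_div_assoc]
  have h2 : ∀ χ : AddChar G ℂ, ‖av (fun ω => pr T (fun m => χ (v m)) M (X ω))‖ ≤
      (if bad χ then 1 else 0) + e := by
    intro χ
    by_cases hE : bad χ
    · rw [if_pos hE]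
      have h5 : ‖av (fun ω => pr T (fun m => χ (v m)) M (X ω))‖ ≤ 1 :=
        xag_av_le fun ω => (ml_norm_pr (fun m _ => AddChar.norm_apply χ (v m)) _).le
      linarith
    · rw [if_neg hE, zero_add]
      exact hbig χ hE
  have h3 : |avg fun ω => one (vt T v M (X ω) = a)| ≤ δ + e := by
    rw [← Real.norm_eq_abs, ← Complex.norm_real, h1]
    refine (norm_sum_le _ _).trans ?_
    have h4 : ∀ χ ∈ (univ : Finset (AddChar G ℂ)), ‖χ (-a) / (Fintype.card G : ℂ) *
        av (fun ω => pr T (fun m => χ (v m)) M (X ω))‖ ≤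
        ((if bad χ then 1 else 0) + e) / Fintype.card G := by
      intro χ _
      rw [norm_mul, norm_div, AddChar.norm_apply, Complex.norm_natCast, one_div, div_eq_mul_inv,
        mul_comm]
      exact mul_le_mul_of_nonneg_right (h2 χ) (by positivity)
    refine (sum_le_sum h4).trans ?_
    rw [← sum_div, sum_add_distrib, sum_boole, sum_const, card_univ, AddChar.card_eq, nsmul_eq_mul,
      div_le_iff₀ hc]
    have h5 : (((univ.filter fun χ : AddChar G ℂ => bad χ).card : ℕ) : ℝ) ≤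
        δ * Fintype.card G := by
      refine le_trans (le_of_eq ?_) hfew
      rw [Nat.card_eq_fintype_card, Fintype.card_subtype]
    calc _ ≤ δ * Fintype.card G + (Fintype.card G : ℝ) * e := by linarith
      _ = _ := by ring
  exact (le_abs_self _).trans h3

theorem agt_or {G : Type} [AddCommGroup G] [Fintype G] {δ : ℝ} {P P' : AddChar G ℂ → Prop}
    (h : (Nat.card {χ : AddChar G ℂ // P χ} : ℝ) ≤ δ * Fintype.card G)
    (h' : (Nat.card {χ : AddChar G ℂ // P' χ} : ℝ) ≤ δ * Fintype.card G) :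
    (Nat.card {χ : AddChar G ℂ // P χ ∨ P' χ} : ℝ) ≤ (2 * δ) * Fintype.card G := by
  classical
  rw [Nat.card_eq_fintype_card, Fintype.card_subtype] at h h' ⊢
  rw [filter_or]
  have h1 : (((univ.filter fun χ : AddChar G ℂ => P χ) ∪
      (univ.filter fun χ : AddChar G ℂ => P' χ)).card : ℝ) ≤
      ((univ.filter fun χ : AddChar G ℂ => P χ).card : ℝ) +
        ((univ.filter fun χ : AddChar G ℂ => P' χ).card : ℝ) := by
    exact_mod_cast card_union_le _ _
  linarith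

/-- The case of a small subgroup which contains most of the coefficients. -/
theorem agt_near {U : Submonoid (Cube n → ℂ)} {r Q : ℕ} {K C δ : ℝ} {G : Type} [AddCommGroup G]
    {ι : Type} [DecidableEq ι] {T : ι → Term n} {M N : Finset ι} {c : ι → G} (hδ : 0 < δ)
    (hC : 1 / δ ≤ C) (hQ : Q = (⌊1 / δ⌋₊).factorial) (hM : Rd r T M) (h0 : ∀ m ∈ M, (T m).S ≠ ∅)
    (Γ₀ : AddSubgroup G) [Finite Γ₀] (hN : N ⊆ M) (hcard : δ * (Nat.card Γ₀ : ℝ) ≤ 1)
    (hΓ : ∀ m ∈ M, m ∉ N → c m ∈ Γ₀) (hK : ∑ m ∈ N, (1 / 2 : ℝ) ^ (T m).S.card ≤ K)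
    (A : Finset G) : PC U r Q K 0 C (fun x => ((one (vt T c M x ∈ A) : ℝ) : ℂ)) := by
  classical
  have _i : Fintype Γ₀ := Fintype.ofFinite Γ₀
  have hcz : (Fintype.card Γ₀ : ℂ) ≠ 0 := by exact_mod_cast Fintype.card_ne_zero
  have hcard' : ((Fintype.card Γ₀ : ℕ) : ℝ) ≤ 1 / δ := by
    rw [Nat.card_eq_fintype_card] at hcard
    rw [le_div_iff₀ hδ, mul_comm]
    exact hcard
  -- the coefficients in the small group
  obtain ⟨c₀, hc₀⟩ : ∃ c₀ : ι → Γ₀, ∀ m ∈ M, m ∉ N → ((c₀ m : Γ₀) : G) = c m := by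
    refine ⟨fun m => if h : c m ∈ Γ₀ then ⟨c m, h⟩ else 0, fun m hm hmN => ?_⟩
    show (((if h : c m ∈ Γ₀ then ⟨c m, h⟩ else 0 : Γ₀)) : G) = c m
    rw [dif_pos (hΓ m hm hmN)]
  have hQc : ∀ a : Γ₀, Q • a = 0 := by
    intro a
    have h1 : Fintype.card Γ₀ ∣ Q := by
      rw [hQ]
      refine Nat.dvd_factorial Fintype.card_pos (Nat.le_floor hcard')
    obtain ⟨b, hb⟩ := h1
    rw [hb, mul_comm, mul_smul, card_nsmul_eq_zero, smul_zero]
  have hSat : ∀ (m : ι) (x : Cube n), (T m).Sat x ↔ Tr (T m).S (T m).a x := fun m x => Iff.rfl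
  -- the split
  have hsplit : ∀ y : Cube n, vt T c M y =
      ((vt T c₀ (M \ N) y : Γ₀) : G) +
        ∑ j : {m // m ∈ N}, if Tr (T j.1).S (T j.1).a y then c j.1 else 0 := by
    intro y
    rw [Finset.sum_coe_sort N fun m => if Tr (T m).S (T m).a y then c m else 0]
    unfold vt
    rw [← sum_sdiff hN]
    congr 1
    rw [AddSubgroup.val_finsetSum]
    refine sum_congr rfl fun m hm => ?_
    have hm' := mem_sdiff.1 hm
    split_ifs
    · exact (hc₀ m hm'.1 hm'.2).symm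
    · rfl
  set ψ : AddChar Γ₀ ℂ → Finset {m // m ∈ N} → ℂ := fun χ B =>
    (∑ a : Γ₀, χ (-a) * ((one ((a : G) + ∑ j ∈ B, c j.1 ∈ A) : ℝ) : ℂ)) / (Fintype.card Γ₀ : ℂ)
    with hψ
  have hψ1 : ∀ χ B, ‖ψ χ B‖ ≤ 1 := by
    intro χ B
    rw [hψ]
    show ‖(∑ a : Γ₀, χ (-a) * ((one ((a : G) + ∑ j ∈ B, c j.1 ∈ A) : ℝ) : ℂ)) /
      (Fintype.card Γ₀ : ℂ)‖ ≤ 1
    have hcp : (0 : ℝ) < Fintype.card Γ₀ := by exact_mod_cast Fintype.card_pos
    rw [norm_div, Complex.norm_natCast, div_le_one hcp]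
    refine (norm_sum_le _ _).trans ?_
    refine (sum_le_sum (g := fun _ => (1 : ℝ)) fun a _ => ?_).trans (le_of_eq ?_)
    · rw [norm_mul, AddChar.norm_apply, one_mul, Complex.norm_real,
        Real.norm_of_nonneg (one_nonneg _)]
      exact one_le _
    · rw [sum_const, card_univ, nsmul_eq_mul, mul_one]
  refine ⟨AddChar Γ₀ ℂ, inferInstance, fun _ => 1,
    fun χ x => χ (vt T c₀ (M \ N) x) *
      ψ χ ((univ : Finset {m // m ∈ N}).filter fun j => (T j.1).Sat x), fun χ => ?_, ?_,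
    fun x => ?_⟩
  · refine ⟨1, U.one_mem, ι, inferInstance, T, M \ N, fun m => χ (c₀ m),
      fun x => ψ χ ((univ : Finset {m // m ∈ N}).filter fun j => (T j.1).Sat x), ?_, ?_, ?_, ?_,
      fun x => ?_⟩
    · intro i
      exact (card_le_card (filter_subset_filter _ sdiff_subset)).trans (hM i)
    · intro m hm
      exact h0 m (mem_sdiff.1 hm).1
    · intro m _
      rw [← AddChar.map_nsmul_eq_pow, hQc, AddChar.map_zero_eq_one]
    · refine ⟨{m // m ∈ N}, inferInstance, fun j => T j.1, fun _ => 1, univ, ψ χ,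
        fun j => nonempty_iff_ne_empty.2 (h0 j.1 (hN j.2)), fun v => ?_, fun _ => norm_one, hψ1 χ, ?_,
        ?_, fun x => ?_⟩
      · refine le_trans (le_of_eq ?_) ((card_le_card (filter_subset_filter _ hN)).trans (hM v))
        rw [← card_map (Function.Embedding.subtype _)]
        congr 1
        ext m
        simp only [mem_map, mem_filter, mem_univ, true_and, Function.Embedding.subtype_apply]
        constructor
        · rintro ⟨j, hj, rfl⟩
          exact ⟨j.2, hj⟩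
        · rintro ⟨hm, hv⟩
          exact ⟨⟨m, hm⟩, hv, rfl⟩
      · refine le_of_eq (sum_eq_zero fun j _ => ?_)
        show _ * ‖(1 : ℂ) - 1‖ ^ 2 = 0
        rw [sub_self, norm_zero]
        ring
      · rw [Finset.sum_coe_sort N fun m => (1 / 2 : ℝ) ^ (T m).S.card]
        exact hK
      · unfold tt
        simp only [ite_self, prod_const_one, mul_one]
    · show χ (vt T c₀ (M \ N) x) * _ = 1 * (pr T (fun m => χ (c₀ m)) (M \ N) x * _)
      rw [one_mul, map_vt]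
  · simp only [norm_one, sum_const, card_univ, AddChar.card_eq, nsmul_eq_mul, mul_one]
    exact hcard'.trans hC
  · show ((one (vt T c M x ∈ A) : ℝ) : ℂ) = ∑ χ : AddChar Γ₀ ℂ, 1 *
      (χ (vt T c₀ (M \ N) x) *
        ψ χ ((univ : Finset {m // m ∈ N}).filter fun j => (T j.1).Sat x))
    obtain ⟨v, hv⟩ : ∃ v : Γ₀, v = vt T c₀ (M \ N) x := ⟨_, rfl⟩
    obtain ⟨w, hw⟩ : ∃ w : G, w = ∑ j ∈ (univ : Finset {m // m ∈ N}).filter
      (fun j => (T j.1).Sat x), c j.1 := ⟨_, rfl⟩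
    have e1 : vt T c M x = (v : G) + w := by
      rw [hsplit, hv, hw, sum_filter]
      congr 1
    rw [e1, ← hv, hψ]
    simp only [one_mul]
    rw [← hw]
    have e2 : ∀ χ : AddChar Γ₀ ℂ, χ v * ((∑ a : Γ₀, χ (-a) *
        ((one ((a : G) + w ∈ A) : ℝ) : ℂ)) / (Fintype.card Γ₀ : ℂ)) =
        ∑ a : Γ₀, ((one ((a : G) + w ∈ A) : ℝ) : ℂ) *
          (χ (-a) / (Fintype.card Γ₀ : ℂ) * χ v) := by
      intro χ
      rw [sum_div, mul_sum]
      refine sum_congr rfl fun a _ => ?_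
      ring
    rw [sum_congr rfl fun χ _ => e2 χ, sum_comm]
    have e3 : ∀ a : Γ₀, ∑ χ : AddChar Γ₀ ℂ, ((one ((a : G) + w ∈ A) : ℝ) : ℂ) *
        (χ (-a) / (Fintype.card Γ₀ : ℂ) * χ v) =
        ((one ((a : G) + w ∈ A) : ℝ) : ℂ) * ((one (v = a) : ℝ) : ℂ) := by
      intro a
      rw [← mul_sum, ← xag_expand]
    rw [sum_congr rfl fun a _ => e3 a, Fintype.sum_eq_single v]
    · rw [one_true rfl]
      push_cast
      ring
    · intro a ha
      rw [one_false (Ne.symm ha)]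
      push_cast
      ring

/-- Questions for values in a finite abelian group of any order are approximable: families with
`Gapu`. -/
theorem apx_grpT (r B : ℕ) {c : ℝ} (hc : 0 < c) (hc1 : c ≤ 1) {ε₁ : ℝ} (h1 : 0 < ε₁) :
    ∃ (Q : ℕ) (K C₀ κ ε₀ : ℝ), 0 < Q ∧ 0 ≤ K ∧
    0 ≤ C₀ ∧ 0 ≤ κ ∧ 0 < ε₀ ∧ ∀ (C : ℝ), 0 ≤ C → ∀ (n : ℕ) (U : Submonoid (Cube n → ℂ))
      (G : Type) [AddCommGroup G] [Fintype G] {ι : Type} [DecidableEq ι] (T : ι → Term n)
      (M : Finset ι) (v : ι → G) (A : Finset G), Rd r T M → (∀ m ∈ M, (T m).S ≠ ∅) →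
      Gapu c T M → A.card ≤ B → ∀ g : Cube n → Bool, (∀ x, g x = true ↔ vt T v M x ∈ A) →
        ∃ f : Cube n → ℂ, (∀ x, ‖f x‖ ≤ 2) ∧ PC U r Q K 0 C₀ f ∧
          ∀ {Ω : Type} [Fintype Ω] [Nonempty Ω] (X : Ω → Cube n), FT r Q c C (κ * C) ε₀ X →
            (avg fun ω => ‖((ind (g (X ω)) : ℝ) : ℂ) - f (X ω)‖) ≤ ε₁ := by
  classical
  obtain ⟨δ, hδ⟩ : ∃ δ : ℝ, δ = ε₁ / (4 * ((B : ℝ) + 1)) := ⟨_, rfl⟩
  have hδ0 : 0 < δ := by rw [hδ]; positivity
  obtain ⟨V₀, hV₀⟩ := small_avu r hc hc1 hδ0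
  obtain ⟨K, hK0, hK⟩ := grp_dich hδ0 (le_max_right (4 * V₀) 0)
  obtain ⟨κ, hκ0, hκ⟩ := grp_dich2 hδ0
  refine ⟨(⌊1 / δ⌋₊).factorial, K, 1 / δ, κ, δ, Nat.factorial_pos _, hK0, by positivity, hκ0, hδ0,
    fun C hC n U G _ _ ι _ T M v A hM h0 hgap hA g hg => ?_⟩
  have hind : ∀ x, ind (g x) = one (vt T v M x ∈ A) := by
    intro x
    by_cases h : vt T v M x ∈ A
    · rw [one_true h, (hg x).2 h]
      rfl
    · rw [one_false h]
      have : g x = false := by
        cases hgx : g x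
        · rfl
        · exact absurd ((hg x).1 hgx) h
      rw [this]
      rfl
  rcases hK M (fun m => (1 / 2 : ℝ) ^ (T m).S.card) v (fun m _ => by positivity) with h | h
  · refine ⟨fun _ => 0, fun x => by simp, ?_, fun {Ω} _ _ X hX => ?_⟩
    · refine (Xa.PC.const (n := n) (U := U) r _ hK0 le_rfl (0 : ℂ)).mono le_rfl dvd_rfl le_rfl
        le_rfl ?_
      rw [norm_zero]
      positivity
    · -- almost all characters have small average
      have hsm : ∀ χ : AddChar G ℂ,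
          ¬ En M (fun m => (1 / 2 : ℝ) ^ (T m).S.card) v χ ≤ max (4 * V₀) 0 →
          ‖av (fun ω => pr T (fun m => χ (v m)) M (X ω)) -
            av (pr T (fun m => χ (v m)) M)‖ ≤ δ →
          ‖av (fun ω => pr T (fun m => χ (v m)) M (X ω))‖ ≤ δ + δ := by
        intro χ hE h3
        have h4 : ‖av (pr T (fun m => χ (v m)) M)‖ ≤ δ := by
          refine hV₀ n T _ M hM h0 (fun m => AddChar.norm_apply χ (v m)) hgap ?_
          push Not at hE
          have h5 : 4 * V₀ ≤ En M (fun m => (1 / 2 : ℝ) ^ (T m).S.card) v χ :=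
            (le_max_left _ _).trans hE.le
          have h6 : ∑ m ∈ M, (1 / 2 : ℝ) ^ (T m).S.card * (‖1 - χ (v m)‖ ^ 2 / 4) =
              En M (fun m => (1 / 2 : ℝ) ^ (T m).S.card) v χ / 4 := by
            unfold En
            rw [sum_div]
            exact sum_congr rfl fun m _ => by ring
          rw [h6]
          linarith
        calc ‖av (fun ω => pr T (fun m => χ (v m)) M (X ω))‖ =
            ‖(av (fun ω => pr T (fun m => χ (v m)) M (X ω)) -
              av (pr T (fun m => χ (v m)) M)) + av (pr T (fun m => χ (v m)) M)‖ := by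
              ring_nf
          _ ≤ δ + δ := (norm_add_le _ _).trans (add_le_add h3 h4)
      have hfar : ∀ b : G, (avg fun ω => one (vt T v M (X ω) = b)) ≤ 2 * δ + (δ + δ) := by
        intro b
        have hV2 : (0 : ℝ) ≤ C * ((Nat.clog 2 n : ℝ) + 1) := by positivity
        rcases hκ (C * ((Nat.clog 2 n : ℝ) + 1)) hV2 M
          (fun m => ((T m).S.card : ℝ) * (1 / 2 : ℝ) ^ (T m).S.card) v
          (fun m _ => by positivity) with h' | h'
        · refine agt_far (by positivity) X _ (fun χ hχ => ?_) (agt_or h h') b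
          rw [not_or] at hχ
          refine hsm χ hχ.1 ?_
          refine hX (pr T (fun m => χ (v m)) M) (Or.inl ⟨ι, inferInstance, T, M,
            fun m => χ (v m), hM, h0, hgap, fun m => AddChar.norm_apply χ (v m), ?_, rfl⟩)
          have h6 := hχ.2
          push Not at h6
          refine h6.le.trans (le_of_eq ?_)
          unfold En
          rfl
        · obtain ⟨Γ₀, N, hN, hcard, hΓ, hmass⟩ := h'
          refine agt_far (by positivity) X _ (fun χ hχ => hsm χ hχ ?_)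
            (h.trans (mul_le_mul_of_nonneg_right (by linarith) (Nat.cast_nonneg _))) b
          refine hX (pr T (fun m => χ (v m)) M) (Or.inr ⟨ι, inferInstance, T, M, N,
            fun m => χ (v m), hM, h0, hN, fun m => AddChar.norm_apply χ (v m), ?_, ?_, rfl⟩)
          · intro m hm hmN
            have _i : Fintype Γ₀ := Fintype.ofFinite Γ₀
            have hcard' : ((Fintype.card Γ₀ : ℕ) : ℝ) ≤ 1 / δ := by
              rw [Nat.card_eq_fintype_card] at hcard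
              rw [le_div_iff₀ hδ0, mul_comm]
              exact hcard
            have h7 : Fintype.card Γ₀ ∣ (⌊1 / δ⌋₊).factorial :=
              Nat.dvd_factorial Fintype.card_pos (Nat.le_floor hcard')
            obtain ⟨b', hb'⟩ := h7
            have h8 : Fintype.card Γ₀ • (⟨v m, hΓ m hm hmN⟩ : Γ₀) = 0 := card_nsmul_eq_zero
            have h9 : Fintype.card Γ₀ • v m = 0 := congrArg Subtype.val h8
            rw [← AddChar.map_nsmul_eq_pow, hb', mul_comm, mul_smul, h9, smul_zero,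
              AddChar.map_zero_eq_one]
          · rw [mul_assoc]
            exact hmass
      have e : (avg fun ω => ‖((ind (g (X ω)) : ℝ) : ℂ) - 0‖) =
          ∑ b ∈ A, avg fun ω => one (vt T v M (X ω) = b) := by
        unfold avg
        rw [← sum_div, sum_comm]
        congr 1
        refine sum_congr rfl fun ω _ => ?_
        show ‖((ind (g (X ω)) : ℝ) : ℂ) - 0‖ = ∑ b ∈ A, one (vt T v M (X ω) = b)
        rw [sub_zero, Complex.norm_real, Real.norm_of_nonneg (ind_nonneg _), hind]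
        by_cases h : vt T v M (X ω) ∈ A
        · rw [one_true h, sum_eq_single (vt T v M (X ω))]
          · exact (one_true rfl).symm
          · intro b _ hb
            exact one_false (Ne.symm hb)
          · intro h'
            exact absurd h h'
        · rw [one_false h]
          refine (sum_eq_zero fun b hb => one_false fun h' => h ?_).symm
          rw [h']
          exact hb
      rw [e]
      refine (sum_le_sum fun b _ => hfar b).trans ?_
      rw [sum_const, nsmul_eq_mul]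
      have hA' : (A.card : ℝ) ≤ B := by exact_mod_cast hA
      have h3 : 2 * δ + (δ + δ) = ε₁ / ((B : ℝ) + 1) := by
        rw [hδ]
        field_simp
        ring
      rw [h3]
      calc (A.card : ℝ) * (ε₁ / ((B : ℝ) + 1)) ≤ ((B : ℝ) + 1) * (ε₁ / ((B : ℝ) + 1)) :=
            mul_le_mul_of_nonneg_right (by linarith) (by positivity)
        _ = ε₁ := by field_simp
  · obtain ⟨Γ₀, N, hN, hcard, hΓ, hmass⟩ := h
    refine ⟨fun x => ((one (vt T v M x ∈ A) : ℝ) : ℂ), fun x => ?_,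
      agt_near hδ0 le_rfl rfl hM h0 Γ₀ hN hcard hΓ hmass A, fun {Ω} _ _ X _ => ?_⟩
    · rw [Complex.norm_real, Real.norm_of_nonneg (one_nonneg _)]
      linarith [one_le (vt T v M x ∈ A)]
    · have e : (fun ω => ‖((ind (g (X ω)) : ℝ) : ℂ) - ((one (vt T v M (X ω) ∈ A) : ℝ) : ℂ)‖) =
          fun _ => 0 := by
        funext ω
        rw [hind, sub_self, norm_zero]
      rw [e, avg_const]
      exact h1.le

/-- A question for a value in a finite abelian group of any order, over terms with any literals. -/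
def Gg (r B : ℕ) (g : Cube n → Bool) : Prop :=
  ∃ (G : Type) (_ : AddCommGroup G) (_ : Fintype G) (ι : Type) (_ : DecidableEq ι)
    (T : ι → Term n) (M : Finset ι) (v : ι → G) (A : Finset G), Rd r T M ∧ A.card ≤ B ∧
    ∀ x, g x = true ↔ vt T v M x ∈ A

/-- The first kind of gates is approximable. -/
def Apx1 (P₁ : ∀ n : ℕ, Submonoid (Cube n → ℂ) → (Cube n → Bool) → Prop) : Prop :=
  ∀ ε₁ : ℝ, 0 < ε₁ → ∃ (R Q : ℕ) (K V C ε₀ : ℝ), 0 < Q ∧ 0 ≤ K ∧ 0 ≤ V ∧ 0 ≤ C ∧ 0 < ε₀ ∧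
    ∀ (n : ℕ) (U : Submonoid (Cube n → ℂ)) (g : Cube n → Bool), P₁ n U g →
      Apx U R Q K V C ε₀ ε₁ g

/-- All gates are approximable. -/
theorem apx_gg {P₁ : ∀ n : ℕ, Submonoid (Cube n → ℂ) → (Cube n → Bool) → Prop} (hP₁ : Apx1 P₁)
    (r B : ℕ) : ∃ c : ℝ, 0 < c ∧ c ≤ 1 ∧ ∀ {ε₁ : ℝ}, 0 < ε₁ →
    ∃ (R Q : ℕ) (K V C₀ κ ε₀ : ℝ), 0 < Q ∧ 0 ≤ K ∧ 0 ≤ V ∧ 0 ≤ C₀ ∧ 0 ≤ κ ∧ 0 < ε₀ ∧
      ∀ (C : ℝ), 0 ≤ C → ∀ (n : ℕ) (U : Submonoid (Cube n → ℂ)) (g : Cube n → Bool),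
        P₁ n U g ∨ Gg r B g →
        ∃ G : Cube n → ℂ, (∀ x, ‖G x‖ ≤ 2) ∧ PC U R Q K V C₀ G ∧
          ∀ {Ω : Type} [Fintype Ω] [Nonempty Ω] (X : Ω → Cube n), FP U R Q K V ε₀ X →
            FT R Q c C (κ * C) ε₀ X →
            (avg fun ω => ‖((ind (g (X ω)) : ℝ) : ℂ) - G (X ω)‖) ≤ ε₁ := by
  classical
  obtain ⟨R', c, hc, hc1, hbas⟩ := basisG r
  refine ⟨c, hc, hc1, fun {ε₁} h1 => ?_⟩
  obtain ⟨R, Q, K, V, C₀, ε₀, hQ, hK, hV, hC₀, hε₀, H⟩ := hP₁ ε₁ h1
  obtain ⟨Q', K', C₀', κ, ε₀', hQ', hK', hC₀', hκ, hε₀', H'⟩ := apx_grpT R' B hc hc1 h1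
  refine ⟨R + R', Q * Q', K + K', V, C₀ + C₀', κ, min ε₀ ε₀', Nat.mul_pos hQ hQ', by positivity,
    hV, by positivity, hκ, lt_min hε₀ hε₀', fun C hC n U g hg => ?_⟩
  rcases hg with hg | ⟨G, i1, i2, ι, i3, T, M, v, A, hM, hA, hgx⟩
  · obtain ⟨f, h2, h3, h4⟩ := H n U g hg
    refine ⟨f, h2, h3.mono (Nat.le_add_right _ _) (dvd_mul_right Q Q') (by linarith) le_rfl
      (by linarith), fun {Ω} _ _ X hX _ => h4 X (hX.mono (Nat.le_add_right _ _)
        (dvd_mul_right Q Q') (by linarith) le_rfl (min_le_left _ _))⟩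
  · obtain ⟨κ', i4, T', M', hM', h0, hgap, hv⟩ := hbas T M hM
    obtain ⟨v', v₀, hvx⟩ := hv v
    obtain ⟨f, h2, h3, h4⟩ := H' C hC n U G T' M' v' (A.image fun a => a - v₀) hM' h0 hgap
      (card_image_le.trans hA) g (fun x => by
        rw [hgx, hvx, mem_image]
        constructor
        · intro h
          exact ⟨_, h, by abel⟩
        · rintro ⟨a, ha, he⟩
          rw [← he, add_sub_cancel]
          exact ha)
    refine ⟨f, h2, h3.mono (Nat.le_add_left _ _) (dvd_mul_left Q' Q) (by linarith) hV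
      (by linarith), fun {Ω} _ _ X _ hX => h4 X (hX.mono (Nat.le_add_left _ _)
        (dvd_mul_left Q' Q) (min_le_right _ _))⟩

/-- Every string which fools the products fools the Boolean functions of `k` gates. -/
theorem str_gg {P₁ : ∀ n : ℕ, Submonoid (Cube n → ℂ) → (Cube n → Bool) → Prop} (hP₁ : Apx1 P₁)
    (r B k : ℕ) {ε : ℝ} (hε : 0 < ε) :
    ∃ (R Q : ℕ) (K V c κ ε₀ : ℝ), 0 < Q ∧ 0 ≤ K ∧ 0 ≤ V ∧ 0 < c ∧ c ≤ 1 ∧ 0 ≤ κ ∧ 0 < ε₀ ∧
      ∀ (C : ℝ), 0 ≤ C → ∀ (n : ℕ) (U : Submonoid (Cube n → ℂ))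
        (g : Fin k → Cube n → Bool) (F : (Fin k → Bool) → Bool),
      (∀ j, P₁ n U (g j) ∨ Gg r B (g j)) →
      ∀ {Ω : Type} [Fintype Ω] [Nonempty Ω] (X : Ω → Cube n), FP U R Q K V ε₀ X →
        FT R Q c C (κ * C) ε₀ X →
        |(avg fun ω => ind (F fun j => g j (X ω))) - avg fun x : Cube n => ind (F fun j => g j x)| ≤
          ε := by
  classical
  obtain ⟨c, hc, hc1, HG⟩ := apx_gg hP₁ r B
  obtain ⟨R, Q, K, V, C₀, κ, ε₀, hQ, hK, hV, hC₀, hκ, hε₀, hg⟩ := HG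
    (ε₁ := ε / (4 * (2 ^ k * (3 ^ k * ((k : ℝ) + 1))))) (by positivity)
  obtain ⟨ε₂, hε₂⟩ : ∃ ε₂ : ℝ, ε₂ = min ε₀ (ε / (2 * (2 ^ k * (1 + C₀) ^ k))) := ⟨_, rfl⟩
  have hε₂0 : 0 < ε₂ := by rw [hε₂]; exact lt_min hε₀ (by positivity)
  have hε₂1 : ε₂ ≤ ε₀ := by rw [hε₂]; exact min_le_left _ _
  have hε₂2 : ε₂ ≤ ε / (2 * (2 ^ k * (1 + C₀) ^ k)) := by rw [hε₂]; exact min_le_right _ _
  have hkK : 0 ≤ (k : ℝ) * K := by positivity
  have hkV : 0 ≤ (k : ℝ) * V := by positivity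
  refine ⟨k * R + R, Q, k * K + K, k * V + V, c, κ, ε₂, hQ, by linarith, by linarith, hc, hc1, hκ,
    hε₂0, fun C hC n U g F hgate {Ω} _ _ X hX hXM => ?_⟩
  choose Gj h01 hPC happ using fun j => hg C hC n U (g j) (hgate j)
  have key := xpb_bool (ε₁ := ε / (4 * (2 ^ k * (3 ^ k * ((k : ℝ) + 1))))) hε₂0.le hK hV hC₀
    F g Gj h01 hPC (hX.mono (Nat.le_add_right _ _) dvd_rfl (by linarith) (by linarith) le_rfl)
    (fun j => happ j (fun x : Cube n => x) (FP.id _ _ _ _ hε₀.le) (FT.id _ _ _ _ _ hε₀.le))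
    (fun j => happ j _ (hX.mono (Nat.le_add_left _ _) dvd_rfl (by linarith) (by linarith) hε₂1)
      (hXM.mono (Nat.le_add_left _ _) dvd_rfl hε₂1))
  refine key.trans ?_
  have e3 : 2 * (2 ^ k * (3 ^ k * ((k : ℝ) * (ε / (4 * (2 ^ k * (3 ^ k * ((k : ℝ) + 1)))))))) ≤
      ε / 2 := by
    rw [show 2 * (2 ^ k * (3 ^ k * ((k : ℝ) * (ε / (4 * (2 ^ k * (3 ^ k * ((k : ℝ) + 1)))))))) =
      ε / 2 * ((k : ℝ) / ((k : ℝ) + 1)) by field_simp; ring]
    have : (k : ℝ) / ((k : ℝ) + 1) ≤ 1 := by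
      rw [div_le_one (by positivity)]
      linarith
    nlinarith
  have e4 : 2 ^ k * (1 + C₀) ^ k * ε₂ ≤ ε / 2 := by
    calc 2 ^ k * (1 + C₀) ^ k * ε₂ ≤ 2 ^ k * (1 + C₀) ^ k * (ε / (2 * (2 ^ k * (1 + C₀) ^ k))) :=
          mul_le_mul_of_nonneg_left hε₂2 (by positivity)
      _ = ε / 2 := by field_simp
  linarith

end Pool.Agent.MP_ca1109_lc.Xr
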