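import Pool.Agent.MP_ca1109_lc.Xu.Test

/-!
# Sums in an abelian group and sums in a finite abelian group
-/

namespace Pool.Agent.MP_ca1109_lc.Xr

open Finset
open Pool.Agent.MP_ca1109_lc.Xu (litSum)

/-- A finitely generated abelian group has finite quotients which are injective on a given finite
set. -/
theorem any_fin (H : Type) [AddCommGroup H] [AddGroup.FG H] (F : Finset H) :
    ∃ (G' : Type) (_ : AddCommGroup G') (_ : Finite G') (φ : H →+ G'),
      Function.Surjective φ ∧ Set.InjOn φ (F : Set H) := by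
  classical
  obtain ⟨n, ι, hι, p, hp, e, ⟨E⟩⟩ := AddCommGroup.equiv_free_prod_directSum_zmod H
  have : Fintype ι := hι
  obtain ⟨N, hN⟩ : ∃ N : ℕ, N = 1 + 2 * ∑ g ∈ F, ∑ i, ((E g).1 i).natAbs := ⟨_, rfl⟩
  have hN0 : N ≠ 0 := by omega
  have : NeZero N := ⟨hN0⟩
  have : ∀ i, NeZero (p i ^ e i) := fun i => ⟨pow_ne_zero _ (hp i).ne_zero⟩
  let α : (Fin n →₀ ℤ) →+ (Fin n → ZMod N) :=
    AddMonoidHom.mk' (fun v i => ((v i : ℤ) : ZMod N)) (by
      intro a b
      funext i
      simp)
  let β : H →+ (Fin n → ZMod N) × ((i : ι) → ZMod (p i ^ e i)) :=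
    (AddMonoidHom.prodMap α (DirectSum.addEquivProd fun i => ZMod (p i ^ e i)).toAddMonoidHom).comp
      E.toAddMonoidHom
  have : Finite (β.range) := inferInstance
  refine ⟨β.range, inferInstance, inferInstance, β.rangeRestrict, β.rangeRestrict_surjective, ?_⟩
  intro u hu v hv huv
  have h1 : β u = β v := congrArg Subtype.val huv
  have h2 : α (E u).1 = α (E v).1 := congrArg Prod.fst h1
  have h3 : (DirectSum.addEquivProd fun i => ZMod (p i ^ e i)) (E u).2 =
      (DirectSum.addEquivProd fun i => ZMod (p i ^ e i)) (E v).2 := congrArg Prod.snd h1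
  have h4 : (E u).2 = (E v).2 := (DirectSum.addEquivProd fun i => ZMod (p i ^ e i)).injective h3
  have hb : ∀ g ∈ F, ∀ i, 2 * ((E g).1 i).natAbs < N := by
    intro g hg i
    have h5 : ((E g).1 i).natAbs ≤ ∑ i, ((E g).1 i).natAbs :=
      single_le_sum (f := fun i => ((E g).1 i).natAbs) (fun _ _ => Nat.zero_le _) (mem_univ i)
    have h6 : ∑ i, ((E g).1 i).natAbs ≤ ∑ g ∈ F, ∑ i, ((E g).1 i).natAbs :=
      single_le_sum (f := fun g => ∑ i, ((E g).1 i).natAbs) (fun _ _ => Nat.zero_le _) hg
    omega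
  have h5 : (E u).1 = (E v).1 := by
    ext i
    have h6 : (((E u).1 i : ℤ) : ZMod N) = (((E v).1 i : ℤ) : ZMod N) := congrFun h2 i
    have h7 : (N : ℤ) ∣ (E v).1 i - (E u).1 i := (ZMod.intCast_eq_intCast_iff_dvd_sub _ _ _).1 h6
    have h8 := hb u hu i
    have h9 := hb v hv i
    obtain ⟨k, hk⟩ := h7
    have h10 : |(E v).1 i - (E u).1 i| < (N : ℤ) := by
      rw [abs_lt]
      constructor <;> omega
    rw [hk, abs_mul, Nat.abs_cast] at h10
    have h11 : |k| < 1 := by
      by_contra hc
      push Not at hc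
      have : (N : ℤ) * 1 ≤ (N : ℤ) * |k| := mul_le_mul_of_nonneg_left hc (by positivity)
      omega
    have h12 : k = 0 := Int.abs_lt_one_iff.1 h11
    rw [h12, mul_zero] at hk
    omega
  exact E.injective (Prod.ext h5 h4)

/-- A test of a sum in an abelian group is a test of a sum in a finite abelian group. -/
theorem fin_red {n N : ℕ} {G : Type} [AddCommGroup G] (S : Fin N → Finset (Fin n))
    (y : Fin N → Fin n → Bool) (c : Fin N → G) (A : Finset G) :
    ∃ (G' : Type) (_ : AddCommGroup G') (_ : Finite G') (c' : Fin N → G') (A' : Finset G'),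
      A'.card ≤ A.card ∧ (∀ x, litSum S y c x ∈ A ↔ litSum S y c' x ∈ A') ∧
      (∀ k : ℕ, (∀ v : G, k • v = 0) → ∀ v : G', k • v = 0) ∧
      ∀ (k : ℕ) (m : Fin N), k • c m = 0 → k • c' m = 0 := by
  classical
  let H : AddSubgroup G := AddSubgroup.closure (Set.range c)
  have hc : ∀ m, c m ∈ H := fun m => AddSubgroup.subset_closure ⟨m, rfl⟩
  let cH : Fin N → H := fun m => ⟨c m, hc m⟩
  have hval : ∀ x, ((litSum S y cH x : H) : G) = litSum S y c x := by
    intro x
    unfold litSum
    rw [AddSubgroup.val_finsetSum]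
    refine sum_congr rfl fun m _ => ?_
    split_ifs <;> rfl
  let AH : Finset H := A.preimage (fun h : H => (h : G)) Subtype.val_injective.injOn
  have : AddGroup.FG H := AddGroup.closure_finite_fg _
  obtain ⟨G', i1, i2, φ, hφ, hinj⟩ := any_fin H (univ.image (litSum S y cH) ∪ AH)
  have hmap : ∀ x, litSum S y (fun m => φ (cH m)) x = φ (litSum S y cH x) := by
    intro x
    unfold litSum
    rw [map_sum]
    refine sum_congr rfl fun m _ => ?_
    split_ifs
    · rfl
    · exact (map_zero φ).symm
  refine ⟨G', i1, i2, fun m => φ (cH m), AH.image φ, ?_, ?_, ?_, ?_⟩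
  · refine card_image_le.trans ?_
    rw [← card_image_of_injective AH Subtype.val_injective]
    refine card_le_card fun g hg => ?_
    obtain ⟨h, hh, rfl⟩ := mem_image.1 hg
    exact mem_preimage.1 hh
  · intro x
    rw [hmap]
    constructor
    · intro h
      refine mem_image_of_mem φ ?_
      rw [mem_preimage, hval]
      exact h
    · intro h
      obtain ⟨g, hg, he⟩ := mem_image.1 h
      have h1 : g = litSum S y cH x := hinj (by
          rw [mem_coe, mem_union]
          exact Or.inr hg) (by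
          rw [mem_coe, mem_union]
          exact Or.inl (mem_image_of_mem _ (mem_univ x))) he
      rw [h1, mem_preimage, hval] at hg
      exact hg
  · intro k hk v
    obtain ⟨h, rfl⟩ := hφ v
    rw [← map_nsmul]
    have h1 : k • h = 0 := Subtype.ext (by
      rw [AddSubgroup.coe_nsmul, hk]
      rfl)
    rw [h1, map_zero]
  · intro k m hk
    change k • φ (cH m) = 0
    rw [← map_nsmul]
    have h1 : k • cH m = 0 := Subtype.ext (by
      rw [AddSubgroup.coe_nsmul]
      exact hk)
    rw [h1, map_zero]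

end Pool.Agent.MP_ca1109_lc.Xr
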