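import Pool.Agent.MP_ca1109_lc.Xu.Part

/-!
# Group gates and threshold gates with real weights over conjunctions of literals: the class
-/

namespace Pool.Agent.MP_ca1109_lc.Xr

open Pool.Agent.MP_ca1109_lc.Xu (litSum Part)

/-- A gate over a list of conjunctions of literals, of any length and any widths, in which every
variable occurs in at most `r` conjunctions. It tests one of the following:
* the sum of the coefficients of the true conjunctions, in a finite abelian group killed by `q`,
  lies in a set of at most `B` elements; here the conjunctions of at most `d` literals with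
  coefficients killed by `2 ^ q` do not count for the bound `r`;
* the sum of the coefficients of the true conjunctions, in a finite abelian group of any order, lies
  in a set of at most `B` elements;
* the sum of the real weights of the true conjunctions is at least `θ`. -/
def GateG (q d r B : ℕ) {n : ℕ} (g : (Fin n → Bool) → Bool) : Prop :=
  ∃ (N : ℕ) (S : Fin N → Finset (Fin n)) (y : Fin N → Fin n → Bool),
    (∃ (G : Type) (_ : AddCommGroup G) (_ : Finite G) (c : Fin N → G) (A : Finset G),
      (∀ v : G, q • v = 0) ∧ A.card ≤ B ∧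
      (∀ i, {m | i ∈ S m ∧ (d < (S m).card ∨ 2 ^ q • c m ≠ 0)}.ncard ≤ r) ∧
      ∀ x, g x = true ↔ litSum S y c x ∈ A) ∨
    (∃ (G : Type) (_ : AddCommGroup G) (_ : Finite G) (c : Fin N → G) (A : Finset G),
      A.card ≤ B ∧ (∀ i, {m | i ∈ S m}.ncard ≤ r) ∧ ∀ x, g x = true ↔ litSum S y c x ∈ A) ∨
    ∃ (w : Fin N → ℝ) (θ : ℝ), (∀ i, {m | i ∈ S m}.ncard ≤ r) ∧
      ∀ x, g x = true ↔ θ ≤ litSum S y w x

/-- `f` is a Boolean function of `k` gates. -/
def GateTestG (q d r B k n : ℕ) (f : (Fin n → Bool) → Bool) : Prop :=
  ∃ (g : Fin k → (Fin n → Bool) → Bool) (F : (Fin k → Bool) → Bool),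
    (∀ j, GateG q d r B (g j)) ∧ ∀ x, f x = F fun j => g j x

/-- On each of at most `n ^ h` subcubes, `f` is an arbitrary Boolean function of `k` gates. -/
def PartTestG (q d r B k h n : ℕ) (f : (Fin n → Bool) → Bool) : Prop :=
  Part (GateTestG q d r B k n) (n ^ h) f

end Pool.Agent.MP_ca1109_lc.Xr
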