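import Pool.Agent.MP_ca1109_lc.Xr.ANY
import Pool.Agent.MP_ca1109_lc.Xr.TestA
import Pool.Agent.MP_ca1109_lc.Xr.TestG

/-!
# Gates over any abelian group are gates over finite abelian groups
-/

namespace Pool.Agent.MP_ca1109_lc.Xr

open Finset
open Pool.Agent.MP_ca1109_lc.Xu (litSum Part)

variable {n : ℕ}

theorem GateA.toG {q d r B : ℕ} {g : (Fin n → Bool) → Bool} (h : GateA q d r B g) :
    GateG q d r B g := by
  obtain ⟨N, S, y, h⟩ := h
  rcases h with ⟨G, i1, c, A, hq, hA, hr, hg⟩ | ⟨G, i1, c, A, hA, hr, hg⟩ | h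
  · obtain ⟨G', j1, j2, c', A', h1, h2, h3, h4⟩ := fin_red S y c A
    refine ⟨N, S, y, Or.inl ⟨G', j1, j2, c', A', h3 q hq, h1.trans hA, fun i => ?_, fun x => ?_⟩⟩
    · refine (Set.ncard_le_ncard ?_ (Set.toFinite _)).trans (hr i)
      rintro m ⟨h5, h6⟩
      refine ⟨h5, h6.imp_right fun h7 h8 => h7 (h4 _ _ h8)⟩
    · rw [hg, h2]
  · obtain ⟨G', j1, j2, c', A', h1, h2, -, -⟩ := fin_red S y c A
    exact ⟨N, S, y, Or.inr (Or.inl ⟨G', j1, j2, c', A', h1.trans hA, hr, fun x => by rw [hg, h2]⟩)⟩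
  · exact ⟨N, S, y, Or.inr (Or.inr h)⟩

theorem GateTestA.toG {q d r B k : ℕ} {f : (Fin n → Bool) → Bool} (h : GateTestA q d r B k n f) :
    GateTestG q d r B k n f := by
  obtain ⟨g, F, hg, hf⟩ := h
  exact ⟨g, F, fun j => (hg j).toG, hf⟩

theorem PartTestA.toG {q d r B k h : ℕ} {f : (Fin n → Bool) → Bool}
    (hf : PartTestA q d r B k h n f) : PartTestG q d r B k h n f := by
  obtain ⟨N, L, a, g, h1, h2, h3, h4⟩ := hf
  exact ⟨N, L, a, g, h1, h2, fun j => (h3 j).toG, h4⟩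

end Pool.Agent.MP_ca1109_lc.Xr
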