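import Pool.Agent.MP_ca1109_lc.Xr.TR
import Pool.Agent.MP_ca1109_lc.Xr.AC
import Pool.Agent.MP_ca1109_lc.Xr.SC
import Pool.Agent.MP_ca1109_lc.Xa.FP

/-!
# Threshold gates with real weights over terms
-/

namespace Pool.Agent.MP_ca1109_lc.Xr

open Finset Pool.Agent.H66 Pool.Agent.MP_ca1109_lc.Mpg Pool.Agent.MP_ca1109_lc.Agp
open Pool.Agent.MP_ca1109_lc.Dnf (Cube ch one Term)
open Pool.Agent.MP_ca1109_lc.Xl (Tr tm pr Rd)
open Pool.Agent.MP_ca1109_lc.Xt (rs rv ph tconc)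
open Pool.Agent.MP_ca1109_lc.Xg (hx)
open Pool.Agent.MP_ca1109_lc.Xh (ramp)
open Pool.Agent.MP_ca1109_lc.Xa (Apx PC ind_one)
open Pool.Agent.MP_ca1109_lc.Pb (At HCt FoolA tt cl cl_test cl_bump tb_avg_re)

variable {n : ℕ} {κ : Type}

theorem th_sub {c : ℝ} {T : κ → Term n} {M M' : Finset κ} (h : Gapu c T M) (hM : M' ⊆ M) :
    Gapu c T M' := fun ζ hζ i C hC => h ζ hζ i C (hC.trans hM)

theorem th_pr1 (T : κ → Term n) (M : Finset κ) (x : Cube n) : pr T (fun _ => (1 : ℂ)) M x = 1 := by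
  unfold pr
  simp

theorem th_neg {r : ℕ} {K V B : ℝ} {f g : Cube n → ℂ} (hf : HCt r K V B f) (hg : HCt r K V B g) :
    HCt r K V (B + B) (fun x => f x - g x) := by
  have h := hf.add (hg.smul (-1))
  rw [norm_neg, norm_one, one_mul] at h
  exact h.of_eq fun x => by ring

/-- Thresholds are close to combinations, for every string which fools phases of bounded mass. -/
theorem th_main (r : ℕ) {c : ℝ} (hc : 0 < c) (hc1 : c ≤ 1) {ε : ℝ} (hε : 0 < ε) :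
    ∃ K V B ε₀ : ℝ, 0 ≤ K ∧ 0 ≤ V ∧ 0 ≤ B ∧ 0 < ε₀ ∧
    ∀ (n : ℕ) {κ : Type} [DecidableEq κ] (T : κ → Term n) (M : Finset κ) (u : κ → ℝ) (θ : ℝ),
      Rd r T M → (∀ m ∈ M, (T m).S ≠ ∅) → Gapu c T M →
      ∃ f : Cube n → ℂ, HCt r K V B f ∧ (∀ x, ‖f x‖ ≤ 1 + ε) ∧
        ∀ {Ω : Type} [Fintype Ω] [Nonempty Ω] (Y : Ω → Cube n), FoolA r K V ε₀ Y →
          (avg fun ω => ‖((one (θ ≤ rs T u M (Y ω)) : ℝ) : ℂ) - f (Y ω)‖) ≤ ε := by
  classical
  -- the constants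
  obtain ⟨ε₁, hε₁⟩ : ∃ ε₁ : ℝ, ε₁ = min (ε / 44) 1 := ⟨_, rfl⟩
  have hε₁0 : 0 < ε₁ := by rw [hε₁]; exact lt_min (by positivity) one_pos
  have hε₁1 : ε₁ ≤ 1 := by rw [hε₁]; exact min_le_right _ _
  have hε₁2 : ε₁ ≤ ε / 44 := by rw [hε₁]; exact min_le_left _ _
  obtain ⟨K₀, hanti⟩ := anti r hc hc1 hε₁0
  obtain ⟨K₁, hK₁⟩ : ∃ K₁ : ℝ, K₁ = max 1 K₀ := ⟨_, rfl⟩
  have hK1 : 1 ≤ K₁ := by rw [hK₁]; exact le_max_left _ _
  have hK10 : K₀ ≤ K₁ := by rw [hK₁]; exact le_max_right _ _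
  obtain ⟨R, hR0, hconc⟩ := tconc r (4 * K₁) hε₁0
  obtain ⟨N, P, φ, b, hP, hb1, hb2⟩ := ramp R hR0 hε₁0
  obtain ⟨B₀, hB₀⟩ : ∃ B₀ : ℝ, B₀ = 1 + ∑ j, ‖φ j‖ := ⟨_, rfl⟩
  have hB01 : 1 ≤ B₀ := by
    have : (0 : ℝ) ≤ ∑ j, ‖φ j‖ := sum_nonneg fun _ _ => norm_nonneg _
    rw [hB₀]
    linarith
  obtain ⟨V₀, hV₀⟩ : ∃ V₀ : ℝ, V₀ = 4 * K₁ * ∑ j, (2 * Real.pi * b j / P) ^ 2 := ⟨_, rfl⟩
  have hV00 : 0 ≤ V₀ := by
    rw [hV₀]
    exact mul_nonneg (by positivity) (sum_nonneg fun j _ => sq_nonneg _)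
  refine ⟨4 * K₁, V₀ + 4 * K₁, B₀ + B₀, ε / (4 * B₀ + 72), by positivity, by positivity,
    by positivity, by positivity, fun n κ _ T M u θ hM hM0 hG => ?_⟩
  obtain ⟨ε₀, hε₀⟩ : ∃ ε₀ : ℝ, ε₀ = ε / (4 * B₀ + 72) := ⟨_, rfl⟩
  have hε₀0 : 0 < ε₀ := by rw [hε₀]; positivity
  rw [← hε₀]
  -- the reduced family
  set M₀ := M.filter fun m => u m ≠ 0 with hM₀
  have hM₀M : M₀ ⊆ M := filter_subset _ _
  have hM₀r : Rd r T M₀ := fun i => (card_le_card (filter_subset_filter _ hM₀M)).trans (hM i)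
  have hne : ∀ m ∈ M₀, (T m).S ≠ ∅ := fun m hm => hM0 m (hM₀M hm)
  have hu0 : ∀ m ∈ M₀, u m ≠ 0 := fun m hm => (mem_filter.1 hm).2
  have hG₀ : Gapu c T M₀ := th_sub hG hM₀M
  have hI : ∀ x : Cube n, rs T u M x = rs T u M₀ x := fun x => tr_rs_core T M u x
  rcases le_or_gt (Xl.lam T M₀) (4 * K₁) with hlam | hlam
  · -- small mass: the test is a function of the true terms
    have hψ : ∀ A : Finset κ, ‖((one (θ ≤ ∑ m ∈ A, u m) : ℝ) : ℂ)‖ ≤ 1 := by
      intro A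
      rw [Complex.norm_real, Real.norm_eq_abs, abs_of_nonneg (Dnf.one_nonneg _)]
      exact Dnf.one_le _
    have hAt : At r (4 * K₁) (V₀ + 4 * K₁)
        (fun x => ((one (θ ≤ ∑ m ∈ hx M₀ T x, u m) : ℝ) : ℂ) * pr T (fun _ => (1 : ℂ)) M₀ x) := by
      refine tr_at (ψ := fun A => ((one (θ ≤ ∑ m ∈ A, u m) : ℝ) : ℂ)) hM₀r hne (Subset.refl _)
        (fun m _ => norm_one) hψ ?_ hlam
      refine le_trans (le_of_eq (sum_eq_zero fun m _ => ?_)) (by positivity)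
      simp
    refine ⟨fun x => ((one (θ ≤ ∑ m ∈ hx M₀ T x, u m) : ℝ) : ℂ) * pr T (fun _ => (1 : ℂ)) M₀ x,
      ⟨Unit, inferInstance, fun _ => 1, fun _ => _, fun _ => hAt, ?_, fun x => ?_⟩, fun x => ?_,
      fun Y _ => ?_⟩
    · simp only [Finset.univ_unique, sum_const, card_singleton, one_smul, norm_one]
      linarith
    · simp
    · beta_reduce
      rw [th_pr1, mul_one]
      linarith [hψ (hx M₀ T x)]
    · have h1 : (fun ω => ‖((one (θ ≤ rs T u M (Y ω)) : ℝ) : ℂ) -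
          ((one (θ ≤ ∑ m ∈ hx M₀ T (Y ω), u m) : ℝ) : ℂ) * pr T (fun _ => (1 : ℂ)) M₀ (Y ω)‖) =
          fun _ => (0 : ℝ) := by
        funext ω
        rw [th_pr1, mul_one, hI, tr_rs_hx, sub_self, norm_zero]
      rw [h1, avg_const]
      exact hε.le
  · -- the scale
    obtain ⟨D, hD, hD1, hD2⟩ := scale T M₀ u (show 0 < 4 * K₁ by positivity) hu0 hlam
    have hD3 : K₀ ≤ vd T M₀ u D := by linarith
    obtain ⟨f₁, hf₁, hf₁b, hf₁e⟩ := tbt_ramp hR0 hε₁0 hε₁1 φ b hP hb1 hb2 hM₀r hne hD hD1 θ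
    obtain ⟨f₂, hf₂, hf₂b, hf₂e⟩ := tbt_ramp hR0 hε₁0 hε₁1 φ b hP hb1 hb2 hM₀r hne hD hD1 (θ - D)
    obtain ⟨f₃, hf₃, hf₃b, hf₃e⟩ := tbt_ramp hR0 hε₁0 hε₁1 φ b hP hb1 hb2 hM₀r hne hD hD1
      (θ + 2 * D)
    rw [← hV₀, ← hB₀] at hf₁ hf₂ hf₃
    set L := M₀.filter fun m => ¬ D < |u m| with hL
    have hLM : L ⊆ M₀ := filter_subset _ _
    have hLr : Rd r T L := fun i => (card_le_card (filter_subset_filter _ hLM)).trans (hM₀r i)
    have hLK : vd T L u D ≤ 4 * K₁ := (tr_vd_sub T hLM u D).trans hD1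
    have hLD : ∀ m ∈ L, |u m| ≤ D := fun m hm => not_lt.1 (mem_filter.1 hm).2
    have hLv : rv T u L ≤ 4 * K₁ * D ^ 2 := by
      rw [tr_rv T hD hLD]
      exact mul_le_mul_of_nonneg_right hLK (by positivity)
    set τ : Cube n → ℝ := fun x => one (R * D ≤ |rs T u L x - avg (rs T u L)|) with hτ
    -- the closeness of the phases
    have hph : ∀ {Ω : Type} [Fintype Ω] (Y : Ω → Cube n) {ε₂ : ℝ},
        FoolA r (4 * K₁) (V₀ + 4 * K₁) ε₂ Y → ∀ t : ℝ, |t| * D ≤ 1 →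
          ‖(av fun ω => pr T (ph t u) L (Y ω)) - av (pr T (ph t u) L)‖ ≤ ε₂ := by
      intro Ω _ Y ε₂ hY t ht
      have h2 : At r (4 * K₁) (V₀ + 4 * K₁)
          (fun x => (1 : ℂ) * pr T (ph t u) L x) := by
        refine tr_at (H := ∅) (ψ := fun _ => 1) hLr (fun m hm => hne m (hLM hm)) (empty_subset _)
          (fun m _ => Xt.norm_ph t u m) (fun _ => norm_one.le) ?_ ?_
        · have h3 := tr_mass T hD hLD (t * D)
          have h4 : ∑ m ∈ L, (1 / 2 : ℝ) ^ (T m).S.card * ‖1 - ph t u m‖ ^ 2 =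
              ∑ m ∈ L, (1 / 2 : ℝ) ^ (T m).S.card *
                ‖1 - Complex.exp ((t * D * (u m / D) : ℝ) * Complex.I)‖ ^ 2 := by
            refine sum_congr rfl fun m _ => ?_
            unfold Xt.ph
            have h5 : t * D * (u m / D) = t * u m := by field_simp
            rw [h5]
            congr 4
            push_cast
            ring_nf
          rw [h4]
          refine h3.trans ?_
          have h6 : (t * D) ^ 2 ≤ 1 := by
            have h7 : |t * D| ≤ 1 := by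
              rw [abs_mul, abs_of_pos hD]
              exact ht
            have h8 := abs_le.1 h7
            nlinarith
          have h7 : (t * D) ^ 2 * vd T L u D ≤ 1 * (4 * K₁) :=
            mul_le_mul h6 hLK (tr_vd_nonneg T L u D) (by norm_num)
          linarith
        · rw [sum_empty]
          positivity
      have h3 := hY _ h2
      simpa only [one_mul] using h3
    -- the uniform distribution
    have hU1 : ∀ θ₁ : ℝ, (avg fun x : Cube n => one (|rs T u M₀ x - θ₁| ≤ D)) ≤ ε₁ := fun θ₁ =>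
      hanti n T M₀ u D hM₀r hne hG₀ hD hD3 θ₁
    have hU2 : (avg τ) ≤ ε₁ := by
      have h1 := hconc n T L u D hLr hD hLv (id : Cube n → Cube n) 0 (fun t _ => by simp)
      simpa [hτ] using h1
    -- the bump
    have hg : HCt r (4 * K₁) (V₀ + 4 * K₁) (B₀ + B₀) (fun x => f₂ x - f₃ x) :=
      (th_neg hf₂ hf₃).mono le_rfl le_rfl (by linarith) le_rfl
    have hβ : ∀ x, cl ((rs T u M₀ x - θ) / D + 2) - cl ((rs T u M₀ x - θ) / D - 1) ≤
        (f₂ x - f₃ x).re + 6 * τ x + 2 * ε₁ ∧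
        (f₂ x - f₃ x).re ≤ cl ((rs T u M₀ x - θ) / D + 2) - cl ((rs T u M₀ x - θ) / D - 1) +
          6 * τ x + 2 * ε₁ := by
      intro x
      have h2 := hf₂e x
      have h3 := hf₃e x
      have e2 : (rs T u M₀ x - (θ - D)) / D + 1 = (rs T u M₀ x - θ) / D + 2 := by
        field_simp
        ring
      have e3 : (rs T u M₀ x - (θ + 2 * D)) / D + 1 = (rs T u M₀ x - θ) / D - 1 := by
        field_simp
        ring
      rw [e2] at h2
      rw [e3] at h3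
      have k2 := (Complex.abs_re_le_norm _).trans h2
      have k3 := (Complex.abs_re_le_norm _).trans h3
      rw [Complex.sub_re, Complex.ofReal_re, abs_le] at k2 k3
      rw [Complex.sub_re]
      unfold cl
      simp only [hτ]
      constructor <;> linarith [k2.1, k2.2, k3.1, k3.2]
    refine ⟨f₁, hf₁.mono le_rfl le_rfl (by linarith) (by linarith), fun x => ?_,
      fun {Ω} _ _ Y hY => ?_⟩
    · refine (hf₁b x).trans ?_
      linarith
    · have hY2 : (avg fun ω => τ (Y ω)) ≤ ε₁ + 2 * ε₀ :=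
        hconc n T L u D hLr hD hLv Y ε₀ (hph Y hY)
      -- the pointwise estimate
      have hpt : ∀ x : Cube n, ‖((one (θ ≤ rs T u M x) : ℝ) : ℂ) - f₁ x‖ ≤
          (f₂ x - f₃ x).re + 9 * τ x + 3 * ε₁ := by
        intro x
        have h1 := hf₁e x
        have h2 := (hβ x).1
        have h3 := cl_test ((rs T u M₀ x - θ) / D)
        have h4 : one (θ ≤ rs T u M x) = one (0 ≤ (rs T u M₀ x - θ) / D) := by
          congr 1
          rw [hI x, le_div_iff₀ hD, zero_mul, sub_nonneg]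
        have h5 : ((one (θ ≤ rs T u M x) : ℝ) : ℂ) - f₁ x =
            ((one (0 ≤ (rs T u M₀ x - θ) / D) - cl ((rs T u M₀ x - θ) / D + 1) : ℝ) : ℂ) +
              (((cl ((rs T u M₀ x - θ) / D + 1) : ℝ) : ℂ) - f₁ x) := by
          rw [h4]
          push_cast
          ring
        rw [h5]
        refine (norm_add_le _ _).trans ?_
        rw [Complex.norm_real, Real.norm_eq_abs]
        have h6 : ‖((cl ((rs T u M₀ x - θ) / D + 1) : ℝ) : ℂ) - f₁ x‖ ≤ 3 * τ x + ε₁ := h1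
        linarith
      have k1 := avg_mono (f := fun ω => ‖((one (θ ≤ rs T u M (Y ω)) : ℝ) : ℂ) - f₁ (Y ω)‖)
        (g := fun ω => (f₂ (Y ω) - f₃ (Y ω)).re + 9 * τ (Y ω) + 3 * ε₁) fun ω => hpt (Y ω)
      rw [avg_add, avg_add, avg_mul_left, avg_const, tb_avg_re] at k1
      have k2 := hY.err hε₀0.le hg
      have k3 : (av fun ω => f₂ (Y ω) - f₃ (Y ω)).re ≤ (av fun x => f₂ x - f₃ x).re +
          (B₀ + B₀) * ε₀ := by
        have h1 := (Complex.re_le_norm _).trans k2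
        rw [Complex.sub_re] at h1
        linarith
      have k4 : (av fun x : Cube n => f₂ x - f₃ x).re ≤ 10 * ε₁ := by
        rw [← tb_avg_re]
        have h1 := avg_mono (f := fun x : Cube n => (f₂ x - f₃ x).re)
          (g := fun x => one (|rs T u M₀ x - (θ + D)| ≤ D) + one (|rs T u M₀ x - (θ - D)| ≤ D) +
            6 * τ x + 2 * ε₁) fun x => by
          have h2 := (hβ x).2
          have h3 := cl_bump ((rs T u M₀ x - θ) / D)
          have e1 : (|(rs T u M₀ x - θ) / D - 1| ≤ 1) = (|rs T u M₀ x - (θ + D)| ≤ D) := by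
            have : (rs T u M₀ x - θ) / D - 1 = (rs T u M₀ x - (θ + D)) / D := by
              field_simp
              ring
            rw [this, abs_div, abs_of_pos hD, div_le_iff₀ hD, one_mul]
          have e2 : (|(rs T u M₀ x - θ) / D + 1| ≤ 1) = (|rs T u M₀ x - (θ - D)| ≤ D) := by
            have : (rs T u M₀ x - θ) / D + 1 = (rs T u M₀ x - (θ - D)) / D := by
              field_simp
              ring
            rw [this, abs_div, abs_of_pos hD, div_le_iff₀ hD, one_mul]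
          rw [e1, e2] at h3
          linarith
        rw [avg_add, avg_add, avg_add, avg_mul_left, avg_const] at h1
        linarith [hU1 (θ + D), hU1 (θ - D)]
      have k5 : (2 * B₀ + 36) * ε₀ = ε / 2 := by
        rw [hε₀]
        field_simp
        ring
      linarith

theorem thrt (r : ℕ) {c : ℝ} (hc : 0 < c) (hc1 : c ≤ 1) {ε₁ : ℝ} (h1 : 0 < ε₁) :
    ∃ (K V C ε₀ : ℝ), 0 ≤ K ∧ 0 ≤ V ∧ 0 ≤ C ∧ 0 < ε₀ ∧ ∀ (n : ℕ) (U : Submonoid (Cube n → ℂ))
      {κ : Type} [DecidableEq κ] (T : κ → Term n) (M : Finset κ) (u : κ → ℝ) (θ : ℝ), Rd r T M →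
      (∀ m ∈ M, (T m).S ≠ ∅) → Gapu c T M →
      ∀ (q : ℕ) (g : Cube n → Bool), (∀ x, g x = true ↔ θ ≤ rs T u M x) →
        Apx U r q K V C ε₀ ε₁ g := by
  obtain ⟨K, V, B, ε₀, hK, hV, hB, hε₀, H⟩ :=
    th_main r hc hc1 (show 0 < min 1 ε₁ from lt_min one_pos h1)
  refine ⟨K, V, B, ε₀, hK, hV, hB, hε₀, fun n U κ _ T M u θ hM h0 hG q g hg => ?_⟩
  obtain ⟨f, h2, h3, h4⟩ := H n T M u θ hM h0 hG
  refine ⟨f, fun x => (h3 x).trans (by linarith [min_le_left (1 : ℝ) ε₁]), PC.hct h2,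
    fun X hX => ?_⟩
  have e : (fun ω => ‖((ind (g (X ω)) : ℝ) : ℂ) - f (X ω)‖) =
      fun ω => ‖((one (θ ≤ rs T u M (X ω)) : ℝ) : ℂ) - f (X ω)‖ := by
    funext ω
    rw [ind_one (θ ≤ rs T u M (X ω)) (g (X ω)) (hg _)]
  rw [e]
  exact (h4 X hX.foolA).trans (min_le_right _ _)

end Pool.Agent.MP_ca1109_lc.Xr
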