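import Pool.Agent.MP_ca1109_lc.Xr.BAS
import Pool.Agent.MP_ca1109_lc.Xr.TB

/-!
# Thresholds over all families of bounded read
-/

namespace Pool.Agent.MP_ca1109_lc.Xr

open Finset Pool.Agent.H66 Pool.Agent.MP_ca1109_lc.Mpg Pool.Agent.MP_ca1109_lc.Agp
open Pool.Agent.MP_ca1109_lc.Dnf (Cube ch one Term)
open Pool.Agent.MP_ca1109_lc.Xp (fl)
open Pool.Agent.MP_ca1109_lc.Xl (Tr tm pr Rd)
open Pool.Agent.MP_ca1109_lc.Xt (rs rv ph Pat Piv)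
open Pool.Agent.MP_ca1109_lc.Xa (Apx)

variable {n : ℕ} {ι β : Type}

/-- Threshold gates with arbitrary real weights over arbitrary literals. -/
theorem apx_lit (r : ℕ) {ε₁ : ℝ} (h1 : 0 < ε₁) : ∃ (R : ℕ) (K V C ε₀ : ℝ), 0 ≤ K ∧ 0 ≤ V ∧
    0 ≤ C ∧ 0 < ε₀ ∧ ∀ (n : ℕ) (U : Submonoid (Cube n → ℂ)) {ι : Type} [DecidableEq ι]
      (T : ι → Term n) (M : Finset ι) (u : ι → ℝ) (θ : ℝ), Rd r T M →
      ∀ (q : ℕ) (g : Cube n → Bool), (∀ x, g x = true ↔ θ ≤ rs T u M x) →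
        Apx U R q K V C ε₀ ε₁ g := by
  obtain ⟨R, c, hc, hc1, hb⟩ := basis r
  obtain ⟨K, V, C, ε₀, hK, hV, hC, hε₀, ht⟩ := thrt R hc hc1 h1
  refine ⟨R, K, V, C, ε₀, hK, hV, hC, hε₀, fun n U ι _ T M u θ hM q g hg => ?_⟩
  obtain ⟨κ, _, T', M', hR, h0, hG, hu⟩ := hb T M hM
  obtain ⟨u', u₀, hu'⟩ := hu u
  refine ht n U T' M' u' (θ - u₀) hR h0 hG q g fun x => ?_
  rw [hg x, hu' x, sub_le_iff_le_add']

end Pool.Agent.MP_ca1109_lc.Xr
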