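import Pool.Agent.MP_ca1109_lc.Xr.Defs

/-!
# Rows DF and BAL: the distance of terms, and stable balls

Two terms are compared as partial assignments; few terms are close to a wide term. Every wide term is
the center of a ball whose radius may be enlarged by a factor without new members; a greedy choice
gives disjoint balls of this kind which cover all wide terms.
-/

namespace Pool.Agent.MP_ca1109_lc.Xr

open Finset Pool.Agent.MP_ca1109_lc.Mpg Pool.Agent.MP_ca1109_lc.Agp
open Pool.Agent.MP_ca1109_lc.Dnf (Cube ch one Term)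
open Pool.Agent.MP_ca1109_lc.Xp (fl)
open Pool.Agent.MP_ca1109_lc.Xl (Tr tm pr Rd)

variable {n : ℕ} {ι β : Type}

/-! ## DF: the distance -/

theorem df_comm (T : ι → Term n) (m m' : ι) : df T m m' = df T m' m := by
  ext i
  unfold df
  simp only [mem_filter, mem_union]
  constructor
  · rintro ⟨h1, h2⟩
    exact ⟨h1.symm, fun h => h2 ⟨h.2.1, h.1, h.2.2.symm⟩⟩
  · rintro ⟨h1, h2⟩
    exact ⟨h1.symm, fun h => h2 ⟨h.2.1, h.1, h.2.2.symm⟩⟩

theorem df_off {T : ι → Term n} {m m' : ι} {i : Fin n} (h : i ∉ df T m m') :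
    (i ∈ (T m).S → i ∈ (T m').S ∧ (T m).a i = (T m').a i) ∧
      (i ∈ (T m').S → i ∈ (T m).S ∧ (T m).a i = (T m').a i) := by
  unfold df at h
  rw [mem_filter, mem_union] at h
  constructor
  · intro h1
    by_contra h2
    exact h ⟨Or.inl h1, fun h3 => h2 h3.2⟩
  · intro h1
    by_contra h2
    exact h ⟨Or.inr h1, fun h3 => h2 ⟨h3.1, h3.2.2⟩⟩

theorem df_tri (T : ι → Term n) (m m' m'' : ι) : df T m m'' ⊆ df T m m' ∪ df T m' m'' := by
  intro i hi
  by_contra h
  rw [mem_union, not_or] at h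
  have h1 := df_off h.1
  have h2 := df_off h.2
  unfold df at hi
  rw [mem_filter, mem_union] at hi
  rcases hi.1 with h3 | h3
  · have h4 := h1.1 h3
    have h5 := h2.1 h4.1
    exact hi.2 ⟨h3, h5.1, h4.2.trans h5.2⟩
  · have h4 := h2.2 h3
    have h5 := h1.2 h4.1
    exact hi.2 ⟨h5.1, h3, h5.2.trans h4.2⟩

theorem df_self (T : ι → Term n) (m : ι) : df T m m = ∅ := by
  unfold df
  rw [filter_eq_empty_iff]
  intro i hi
  rw [mem_union, or_self] at hi
  exact fun h => h ⟨hi, hi, rfl⟩

theorem df_card_tri (T : ι → Term n) (m m' m'' : ι) :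
    (df T m m'').card ≤ (df T m m').card + (df T m' m'').card :=
  (card_le_card (df_tri T m m' m'')).trans (card_union_le _ _)

/-- Few terms are close to a wide term. -/
theorem df_few [DecidableEq ι] {r : ℕ} {T : ι → Term n} {M : Finset ι} (hM : Rd r T M) {m : ι}
    (h0 : (T m).S ≠ ∅) {t : ℕ} (ht : 2 * t ≤ (T m).S.card) :
    (M.filter fun m' => (df T m m').card ≤ t).card ≤ 2 * r := by
  obtain ⟨F, hF⟩ : ∃ F, F = M.filter fun m' => (df T m m').card ≤ t := ⟨_, rfl⟩
  rw [← hF]
  have hpos : 0 < (T m).S.card := card_pos.2 (nonempty_iff_ne_empty.2 h0)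
  have h1 : ∀ m' ∈ F, (T m).S.card ≤ 2 * ((T m).S.filter fun i => i ∈ (T m').S).card := by
    intro m' hm'
    rw [hF, mem_filter] at hm'
    have h2 : ((T m).S.filter fun i => i ∉ (T m').S).card ≤ t := by
      refine (card_le_card ?_).trans hm'.2
      intro i hi
      rw [mem_filter] at hi
      unfold df
      rw [mem_filter, mem_union]
      exact ⟨Or.inl hi.1, fun h => hi.2 h.2.1⟩
    have h3 := card_filter_add_card_filter_not (s := (T m).S) (p := fun i => i ∈ (T m').S)
    omega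
  have h4 : ∑ m' ∈ F, ((T m).S.filter fun i => i ∈ (T m').S).card ≤ (T m).S.card * r := by
    have h5 : ∑ m' ∈ F, ((T m).S.filter fun i => i ∈ (T m').S).card =
        ∑ i ∈ (T m).S, (F.filter fun m' => i ∈ (T m').S).card := by
      simp only [card_filter]
      exact sum_comm
    rw [h5]
    refine (sum_le_card_nsmul _ _ r fun i _ => ?_).trans (le_of_eq (smul_eq_mul _ _))
    refine (card_le_card ?_).trans (hM i)
    rw [hF]
    exact filter_subset_filter _ (filter_subset _ _)
  have h6 : F.card * (T m).S.card ≤ 2 * ((T m).S.card * r) := by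
    calc F.card * (T m).S.card = ∑ _m' ∈ F, (T m).S.card := by rw [sum_const, smul_eq_mul]
      _ ≤ ∑ m' ∈ F, 2 * ((T m).S.filter fun i => i ∈ (T m').S).card := sum_le_sum h1
      _ = 2 * ∑ m' ∈ F, ((T m).S.filter fun i => i ∈ (T m').S).card := by rw [mul_sum]
      _ ≤ 2 * ((T m).S.card * r) := Nat.mul_le_mul_left _ h4
  have h7 : F.card * (T m).S.card ≤ (2 * r) * (T m).S.card := by
    calc _ ≤ _ := h6
      _ = _ := by ring
  exact Nat.le_of_mul_le_mul_right h7 hpos

/-! ## BAL: the balls -/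

theorem sc_le_succ (r j : ℕ) : 3 * sc r j ≤ sc r (j + 1) := by
  show 3 * sc r j ≤ 8 * (r + 1) * sc r j + 3 * r + 4
  have h : 8 * (r + 1) * sc r j = 8 * sc r j + 8 * r * sc r j := by ring
  rw [h]
  have h2 : 0 ≤ 8 * r * sc r j := Nat.zero_le _
  omega

theorem sc_mono (r : ℕ) : Monotone (sc r) :=
  monotone_nat_of_le_succ fun j => by
    have := sc_le_succ r j
    omega

/-- A stable scale. -/
theorem bal_stable [DecidableEq ι] {r : ℕ} {T : ι → Term n} {M : Finset ι} (hM : Rd r T M)
    {c : ι} (hc : c ∈ M) (h0 : (T c).S ≠ ∅) (hw : 2 * sc r (2 * r + 1) ≤ (T c).S.card) :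
    ∃ j ≤ 2 * r, ∀ m ∈ M, (df T c m).card ≤ sc r (j + 1) → (df T c m).card ≤ sc r j := by
  by_contra hcon
  push Not at hcon
  have key : ∀ j, j ≤ 2 * r + 1 → j + 1 ≤ (M.filter fun m => (df T c m).card ≤ sc r j).card := by
    intro j
    induction j with
    | zero =>
      intro _
      refine card_pos.2 ⟨c, ?_⟩
      rw [mem_filter, df_self, card_empty]
      exact ⟨hc, Nat.zero_le _⟩
    | succ j ih =>
      intro hj
      have h1 := ih (by omega)
      obtain ⟨m, hm, h2, h3⟩ := hcon j (by omega)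
      have h4 : (M.filter fun m => (df T c m).card ≤ sc r j) ⊂
          (M.filter fun m => (df T c m).card ≤ sc r (j + 1)) := by
        rw [ssubset_iff_of_subset]
        · refine ⟨m, mem_filter.2 ⟨hm, h2⟩, fun h => ?_⟩
          have := (mem_filter.1 h).2
          omega
        · intro m' hm'
          rw [mem_filter] at hm' ⊢
          exact ⟨hm'.1, hm'.2.trans (sc_mono r (Nat.le_succ j))⟩
      have h5 := card_lt_card h4
      omega
  have h1 := key (2 * r + 1) le_rfl
  have h2 := df_few hM h0 (t := sc r (2 * r + 1)) hw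
  omega

/-- Greedy choice of disjoint balls. -/
theorem bal_greedy [DecidableEq ι] {B : ι → ι → Prop} {j : ι → ℕ} (hself : ∀ c, B c c)
    (hsub : ∀ c c' p q, j c ≤ j c' → B c p → B c' p → B c q → B c' q) (N : ℕ) :
    ∀ A : Finset ι, A.card ≤ N → ∃ X ⊆ A, (∀ m ∈ A, ∃ c ∈ X, B c m) ∧
      ∀ c ∈ X, ∀ c' ∈ X, ∀ p, B c p → B c' p → c = c' := by
  classical
  induction N with
  | zero =>
    intro A hA
    have hA' : A = ∅ := card_eq_zero.1 (Nat.le_zero.1 hA)
    subst hA'
    exact ⟨∅, Subset.refl _, fun m hm => absurd hm (notMem_empty m),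
      fun c hc => absurd hc (notMem_empty c)⟩
  | succ N ih =>
    intro A hA
    rcases A.eq_empty_or_nonempty with rfl | hne
    · exact ⟨∅, Subset.refl _, fun m hm => absurd hm (notMem_empty m),
        fun c hc => absurd hc (notMem_empty c)⟩
    · obtain ⟨c, hc, hmax⟩ := exists_max_image A j hne
      obtain ⟨A', hA'⟩ : ∃ A', A' = A.filter fun m => ¬ ∃ p, B m p ∧ B c p := ⟨_, rfl⟩
      have hcA' : c ∉ A' := by
        rw [hA', mem_filter]
        exact fun h => h.2 ⟨c, hself c, hself c⟩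
      have hss : A' ⊆ A := by
        rw [hA']
        exact filter_subset _ _
      have hlt : A'.card < A.card := card_lt_card ((ssubset_iff_of_subset hss).2 ⟨c, hc, hcA'⟩)
      obtain ⟨X, hX, h1, h2⟩ := ih A' (by omega)
      have hd : ∀ c' ∈ X, ∀ p, B c' p → B c p → False := by
        intro c' hc' p h3 h4
        have h5 := hX hc'
        rw [hA', mem_filter] at h5
        exact h5.2 ⟨p, h3, h4⟩
      refine ⟨insert c X, ?_, ?_, ?_⟩
      · intro m hm
        rcases mem_insert.1 hm with rfl | hm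
        · exact hc
        · exact hss (hX hm)
      · intro m hm
        by_cases hmA : m ∈ A'
        · obtain ⟨c', hc', h3⟩ := h1 m hmA
          exact ⟨c', mem_insert_of_mem hc', h3⟩
        · have h3 : ∃ p, B m p ∧ B c p := by
            by_contra h
            exact hmA (by rw [hA', mem_filter]; exact ⟨hm, h⟩)
          obtain ⟨p, h4, h5⟩ := h3
          exact ⟨c, mem_insert_self _ _, hsub m c p m (hmax m hm) h4 h5 (hself m)⟩
      · intro c₁ h3 c₂ h4 p h5 h6
        rw [mem_insert] at h3 h4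
        rcases h3 with h3 | h3
        · rcases h4 with h4 | h4
          · rw [h3, h4]
          · rw [h3] at h5
            exact (hd c₂ h4 p h6 h5).elim
        · rcases h4 with h4 | h4
          · rw [h4] at h6
            exact (hd c₁ h3 p h5 h6).elim
          · exact h2 c₁ h3 c₂ h4 p h5 h6

/-- Stable balls `B(c, s_j) = B(c, s_(j+1))`, `j ≤ 2 r`; the maximal ones are disjoint and cover
everything; `X` is the set of their centers (one for each). -/
theorem bal [DecidableEq ι] {r : ℕ} {T : ι → Term n} {M : Finset ι} (hM : Rd r T M)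
    (h0 : ∀ m ∈ M, (T m).S ≠ ∅) (hw : ∀ m ∈ M, 2 * sc r (2 * r + 1) ≤ (T m).S.card) :
    ∃ (X : Finset ι) (j : ι → ℕ), X ⊆ M ∧ (∀ c ∈ X, j c ≤ 2 * r) ∧
      (∀ m ∈ M, ∃ c ∈ X, (df T c m).card ≤ sc r (j c)) ∧
      (∀ c ∈ X, ∀ c' ∈ X, c ≠ c' → sc r (max (j c) (j c') + 1) < (df T c c').card) ∧
      (∀ c ∈ X, ∀ c' ∈ X, ∀ m ∈ M, (df T c m).card ≤ sc r (j c) → (df T c' m).card ≤ sc r (j c') →
        c = c') ∧
      ∀ c ∈ X, (M.filter fun m => (df T c m).card ≤ sc r (j c)).card ≤ 2 * r := by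
  classical
  have hst : ∀ c : M, ∃ j ≤ 2 * r, ∀ m ∈ M, (df T c m).card ≤ sc r (j + 1) →
      (df T c m).card ≤ sc r j := fun c => bal_stable hM c.2 (h0 c c.2) (hw c c.2)
  choose j hj1 hj2 using hst
  -- the balls, on the subtype
  have hsub : ∀ c c' p q : M, j c ≤ j c' → (df T c p).card ≤ sc r (j c) →
      (df T c' p).card ≤ sc r (j c') → (df T c q).card ≤ sc r (j c) →
      (df T c' q).card ≤ sc r (j c') := by
    intro c c' p q h1 h2 h3 h4
    refine hj2 c' q q.2 ?_
    have h5 := df_card_tri T c' p q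
    have h6 := df_card_tri T p c q
    rw [df_comm T p c] at h6
    have h7 := sc_mono r h1
    have h8 := sc_le_succ r (j c')
    omega
  obtain ⟨X, -, h1, h2⟩ := bal_greedy (B := fun c m : M => (df T c m).card ≤ sc r (j c)) (j := j)
    (fun c => by rw [df_self, card_empty]; exact Nat.zero_le _) hsub (univ : Finset M).card univ
    le_rfl
  refine ⟨X.map (Function.Embedding.subtype _), fun c => if h : c ∈ M then j ⟨c, h⟩ else 0,
    ?_, ?_, ?_, ?_, ?_, ?_⟩
  · intro c hc
    rw [mem_map] at hc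
    obtain ⟨c', _, rfl⟩ := hc
    exact c'.2
  · intro c hc
    rw [mem_map] at hc
    obtain ⟨c', _, rfl⟩ := hc
    show (if h : (c' : ι) ∈ M then j ⟨c', h⟩ else 0) ≤ 2 * r
    rw [dif_pos c'.2]
    exact hj1 c'
  · intro m hm
    obtain ⟨c, hc, h3⟩ := h1 ⟨m, hm⟩ (mem_univ _)
    refine ⟨c, mem_map.2 ⟨c, hc, rfl⟩, ?_⟩
    show (df T c m).card ≤ sc r (if h : (c : ι) ∈ M then j ⟨c, h⟩ else 0)
    rw [dif_pos c.2]
    exact h3
  · intro c hc c' hc' hne
    rw [mem_map] at hc hc'
    obtain ⟨c, hcX, rfl⟩ := hc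
    obtain ⟨c', hcX', rfl⟩ := hc'
    show sc r (max (if h : (c : ι) ∈ M then j ⟨c, h⟩ else 0)
      (if h : (c' : ι) ∈ M then j ⟨c', h⟩ else 0) + 1) < (df T c c').card
    rw [dif_pos c.2, dif_pos c'.2]
    by_contra hlt
    push Not at hlt
    have hne' : c ≠ c' := fun h => hne (by rw [h])
    rcases le_total (j c) (j c') with h | h
    · rw [max_eq_right h, df_comm] at hlt
      exact hne' (h2 c hcX c' hcX' c (by
        show (df T c c).card ≤ sc r (j c)
        rw [df_self, card_empty]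
        exact Nat.zero_le _) (hj2 c' c c.2 hlt))
    · rw [max_eq_left h] at hlt
      exact hne' (h2 c hcX c' hcX' c' (hj2 c c' c'.2 hlt) (by
        show (df T c' c').card ≤ sc r (j c')
        rw [df_self, card_empty]
        exact Nat.zero_le _))
  · intro c hc c' hc' m hm h3 h4
    rw [mem_map] at hc hc'
    obtain ⟨c, hcX, rfl⟩ := hc
    obtain ⟨c', hcX', rfl⟩ := hc'
    have h3' : (df T c m).card ≤ sc r (if h : (c : ι) ∈ M then j ⟨c, h⟩ else 0) := h3
    have h4' : (df T c' m).card ≤ sc r (if h : (c' : ι) ∈ M then j ⟨c', h⟩ else 0) := h4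
    rw [dif_pos c.2] at h3'
    rw [dif_pos c'.2] at h4'
    have h5 := h2 c hcX c' hcX' ⟨m, hm⟩ h3' h4'
    rw [h5]
  · intro c hc
    rw [mem_map] at hc
    obtain ⟨c, hcX, rfl⟩ := hc
    have h3 : (M.filter fun m => (df T c m).card ≤
        sc r (if h : (c : ι) ∈ M then j ⟨c, h⟩ else 0)).card ≤ 2 * r := by
      rw [dif_pos c.2]
      refine df_few hM (h0 c c.2) ((Nat.mul_le_mul_left 2 (sc_mono r ?_)).trans (hw c c.2))
      exact (hj1 c).trans (Nat.le_succ _)
    exact h3

end Pool.Agent.MP_ca1109_lc.Xr
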