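import Pool.Agent.MP_ca1109_lc.Xr.ISO

/-!
# Row GI: induction over the blocks
-/

namespace Pool.Agent.MP_ca1109_lc.Xr

open Finset Pool.Agent.MP_ca1109_lc.Mpg Pool.Agent.MP_ca1109_lc.Agp
open Pool.Agent.MP_ca1109_lc.Dnf (Cube ch one Term)
open Pool.Agent.MP_ca1109_lc.Xp (fl)
open Pool.Agent.MP_ca1109_lc.Xl (Tr tm pr Rd)

variable {n : ℕ} {ι β : Type}

/-- The change of a product through `v`. -/
theorem gi_small [DecidableEq ι] {T : ι → Term n} {ζ : ι → ℂ} (hζ : ∀ m, ‖ζ m‖ = 1) (B : Finset ι)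
    {v : Fin n} (hB : ∀ m ∈ B, v ∈ (T m).S) (x : Cube n) :
    ‖pr T ζ B (fl v x) - pr T ζ B x‖ ≤ ∑ m ∈ B, ‖1 - ζ m‖ := by
  classical
  induction B using Finset.induction_on with
  | empty => simp [pr]
  | insert a B ha ih =>
    have h1 := ih fun m hm => hB m (mem_insert_of_mem hm)
    have h2 : ∀ z : Cube n, pr T ζ (insert a B) z =
        (if Tr (T a).S (T a).a z then ζ a else 1) * pr T ζ B z := by
      intro z
      unfold pr
      rw [prod_insert ha]
    rw [h2, h2, sum_insert ha]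
    have hn : ∀ z, ‖pr T ζ B z‖ = 1 := iso_norm_pr hζ B
    have h3 : ‖(if Tr (T a).S (T a).a (fl v x) then ζ a else 1) -
        (if Tr (T a).S (T a).a x then ζ a else 1)‖ ≤ ‖1 - ζ a‖ := by
      have hv := hB a (mem_insert_self a B)
      split_ifs with h4 h5 h5
      · rw [sub_self, norm_zero]; exact norm_nonneg _
      · rw [norm_sub_rev]
      · exact le_rfl
      · rw [sub_self, norm_zero]; exact norm_nonneg _
    have h4 : ‖(if Tr (T a).S (T a).a (fl v x) then ζ a else (1 : ℂ))‖ = 1 := by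
      split_ifs
      · exact hζ a
      · exact norm_one
    have h5 : (if Tr (T a).S (T a).a (fl v x) then ζ a else 1) * pr T ζ B (fl v x) -
        (if Tr (T a).S (T a).a x then ζ a else 1) * pr T ζ B x =
        (if Tr (T a).S (T a).a (fl v x) then ζ a else 1) * (pr T ζ B (fl v x) - pr T ζ B x) +
        ((if Tr (T a).S (T a).a (fl v x) then ζ a else 1) -
          (if Tr (T a).S (T a).a x then ζ a else 1)) * pr T ζ B x := by ring
    rw [h5]
    refine (norm_add_le _ _).trans ?_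
    rw [norm_mul, norm_mul, h4, one_mul, hn x, mul_one]
    linarith

/-- If a part of small change is removed. -/
theorem gi_part [DecidableEq ι] {T : ι → Term n} {ζ : ι → ℂ} (hζ : ∀ m, ‖ζ m‖ = 1)
    {B C : Finset ι} (hd : Disjoint B C) (x z : Cube n) :
    ‖pr T ζ C z - pr T ζ C x‖ ≤ ‖pr T ζ (B ∪ C) z - pr T ζ (B ∪ C) x‖ +
      ‖pr T ζ B z - pr T ζ B x‖ := by
  classical
  have h1 : ∀ z : Cube n, pr T ζ (B ∪ C) z = pr T ζ B z * pr T ζ C z := by
    intro z
    unfold pr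
    rw [prod_union hd]
  rw [h1, h1]
  have hn : ∀ (B : Finset ι) z, ‖pr T ζ B z‖ = 1 := fun B => iso_norm_pr hζ B
  have h2 : ‖pr T ζ C z - pr T ζ C x‖ = ‖pr T ζ B z * (pr T ζ C z - pr T ζ C x)‖ := by
    rw [norm_mul, hn, one_mul]
  have h3 : pr T ζ B z * (pr T ζ C z - pr T ζ C x) =
      (pr T ζ B z * pr T ζ C z - pr T ζ B x * pr T ζ C x) -
        (pr T ζ B z - pr T ζ B x) * pr T ζ C x := by ring
  rw [h2, h3]
  refine (norm_sub_le _ _).trans ?_
  rw [norm_mul (pr T ζ B z - pr T ζ B x), hn, mul_one]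

theorem gi_ind [DecidableEq β] {s R : ℕ} {K : β → Finset (Fin n)} {y : β → Cube n}
    {M : Finset (β × Finset (Fin n))} (hd : ∀ m ∈ M, Disjoint (K m.1) m.2)
    (hR : Rd R (bf K y) M)
    (hI : ∀ (v : Fin n) (C : Finset (β × Finset (Fin n))), C ⊆ M → C.Nonempty →
      (∀ m ∈ C, v ∈ K m.1 ∪ m.2) → ∃ m ∈ C, Isl s K y v C m.1)
    {ζ : β × Finset (Fin n) → ℂ} (hζ : ∀ m, ‖ζ m‖ = 1) (v : Fin n) : ∀ (k : ℕ)
      (C : Finset (β × Finset (Fin n))), C.card ≤ k → C ⊆ M → (∀ m ∈ C, v ∈ K m.1 ∪ m.2) →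
      ∀ δ : ℝ, (∀ x, ‖pr (bf K y) ζ C (fl v x) - pr (bf K y) ζ C x‖ ≤ δ) →
        ∀ m ∈ C, ‖1 - ζ m‖ ≤ (2 ^ s * (1 + R * 2 ^ s)) ^ k * δ := by
  classical
  intro k
  induction k with
  | zero =>
    intro C hC _ _ _ _ m hm
    have : C = ∅ := card_eq_zero.1 (Nat.le_zero.1 hC)
    rw [this] at hm
    exact absurd hm (notMem_empty m)
  | succ k ih =>
    intro C hC hCM hv δ hδ m hm
    have hδ0 : 0 ≤ δ := (norm_nonneg _).trans (hδ fun _ => false)
    obtain ⟨m₁, hm₁, hIs⟩ := hI v C hCM ⟨m, hm⟩ hv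
    have hblock := iso hζ hv (fun m hm => hd m (hCM hm)) hIs hδ
    have h1s : (1 : ℝ) ≤ 2 ^ s := one_le_pow₀ one_le_two
    have hR0 : (0 : ℝ) ≤ R := Nat.cast_nonneg R
    set Γ : ℝ := 2 ^ s * (1 + R * 2 ^ s) with hΓ
    have hΓ1 : 2 ^ s ≤ Γ := by
      rw [hΓ]
      nlinarith [mul_nonneg hR0 (le_trans zero_le_one h1s)]
    have hΓ0 : 1 ≤ Γ := h1s.trans hΓ1
    by_cases hmq : m.1 = m₁.1
    · refine (hblock m hm hmq).trans (mul_le_mul_of_nonneg_right ?_ hδ0)
      calc (2 : ℝ) ^ s ≤ Γ := hΓ1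
        _ = Γ ^ 1 := (pow_one _).symm
        _ ≤ Γ ^ (k + 1) := pow_le_pow_right₀ hΓ0 (by omega)
    · set B := C.filter fun m => m.1 = m₁.1 with hB
      set C' := C.filter fun m => ¬ m.1 = m₁.1 with hC'
      have hun : B ∪ C' = C := filter_union_filter_not_eq _ _
      have hdis : Disjoint B C' := disjoint_filter_filter_not _ _ _
      have hcard : C'.card ≤ k := by
        have h2 : C' ⊂ C := by
          refine Finset.ssubset_iff_subset_ne.2 ⟨filter_subset _ _, fun h => ?_⟩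
          rw [← h] at hm₁
          exact (mem_filter.1 hm₁).2 rfl
        have := card_lt_card h2
        omega
      have hBR : B.card ≤ R := by
        refine (card_le_card ?_).trans (hR v)
        intro m hm
        have := (mem_filter.1 hm).1
        exact mem_filter.2 ⟨hCM this, hv m this⟩
      have hδ' : ∀ x, ‖pr (bf K y) ζ C' (fl v x) - pr (bf K y) ζ C' x‖ ≤ (1 + R * 2 ^ s) * δ := by
        intro x
        have h2 := gi_part (T := bf K y) hζ hdis x (fl v x)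
        rw [hun] at h2
        have h3 := gi_small (T := bf K y) hζ B (v := v)
          (fun m hm => hv m (mem_filter.1 hm).1) x
        have h4 : ∑ m ∈ B, ‖1 - ζ m‖ ≤ R * (2 ^ s * δ) := by
          calc ∑ m ∈ B, ‖1 - ζ m‖ ≤ ∑ _m ∈ B, 2 ^ s * δ :=
                sum_le_sum fun m hm => hblock m (mem_filter.1 hm).1 (mem_filter.1 hm).2
            _ = B.card * (2 ^ s * δ) := by rw [sum_const, nsmul_eq_mul]
            _ ≤ R * (2 ^ s * δ) :=
                mul_le_mul_of_nonneg_right (by exact_mod_cast hBR) (by positivity)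
        have h5 := hδ x
        linarith
      have h6 := ih C' hcard ((filter_subset _ _).trans hCM)
        (fun m hm => hv m (mem_filter.1 hm).1) _ hδ' m (mem_filter.2 ⟨hm, hmq⟩)
      refine h6.trans ?_
      have h7 : (1 + R * 2 ^ s) * δ ≤ Γ * δ := by
        refine mul_le_mul_of_nonneg_right ?_ hδ0
        rw [hΓ]
        have : (0 : ℝ) ≤ 1 + R * 2 ^ s := by positivity
        nlinarith
      calc Γ ^ k * ((1 + R * 2 ^ s) * δ) ≤ Γ ^ k * (Γ * δ) :=
            mul_le_mul_of_nonneg_left h7 (by positivity)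
        _ = Γ ^ (k + 1) * δ := by ring

theorem gi [DecidableEq β] {s R : ℕ} {K : β → Finset (Fin n)} {y : β → Cube n}
    {M : Finset (β × Finset (Fin n))} (hd : ∀ m ∈ M, Disjoint (K m.1) m.2)
    (hR : Rd R (bf K y) M)
    (hI : ∀ (v : Fin n) (C : Finset (β × Finset (Fin n))), C ⊆ M → C.Nonempty →
      (∀ m ∈ C, v ∈ K m.1 ∪ m.2) → ∃ m ∈ C, Isl s K y v C m.1) :
    Gapu (gapc s R) (bf K y) M := by
  classical
  intro ζ hζ v C hC hv m₀ hm₀
  obtain ⟨x₀, _, hx₀⟩ := exists_max_image (univ : Finset (Cube n))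
    (fun x => ‖pr (bf K y) ζ C (fl v x) - pr (bf K y) ζ C x‖) univ_nonempty
  refine ⟨x₀, ?_⟩
  have hcard : C.card ≤ R + 1 := by
    refine (card_le_card ?_).trans ((hR v).trans (Nat.le_succ R))
    intro m hm
    exact mem_filter.2 ⟨hC hm, hv m hm⟩
  have h1 := gi_ind hd hR hI hζ v (R + 1) C hcard hC hv _ (fun x => hx₀ x (mem_univ x)) m₀ hm₀
  have h2 : (0 : ℝ) < (2 ^ s * (1 + R * 2 ^ s)) ^ (R + 1) := by positivity
  unfold gapc
  rw [div_mul_eq_mul_div, one_mul, div_le_iff₀ h2]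
  linarith

end Pool.Agent.MP_ca1109_lc.Xr
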