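import Pool.Agent.MP_ca1109_lc.Xr.Defs

/-!
# The narrow terms

`N₀` = the terms of width at most `W`, `N_(j+1)` = `N_j` and the terms `m` with
`|S_m \ S_m'| ≤ b` for some `m' ∈ N_j`. A term which is new in round `j` comes with `j` other terms
which contain all but `j b` of its variables each. So `N_r` is closed.
-/

namespace Pool.Agent.MP_ca1109_lc.Xr

open Finset Pool.Agent.MP_ca1109_lc.Mpg Pool.Agent.MP_ca1109_lc.Agp
open Pool.Agent.MP_ca1109_lc.Dnf (Cube ch one Term)
open Pool.Agent.MP_ca1109_lc.Xl (Tr tm pr Rd)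

variable {n : ℕ} {ι : Type}

open Classical in
/-- The rounds. -/
noncomputable def ncN (T : ι → Term n) (M : Finset ι) (b W : ℕ) : ℕ → Finset ι
  | 0 => M.filter fun m => (T m).S.card ≤ W
  | j + 1 => ncN T M b W j ∪ M.filter fun m =>
      ∃ m' ∈ ncN T M b W j, ((T m).S \ (T m').S).card ≤ b

variable {T : ι → Term n} {M : Finset ι} {b W : ℕ}

theorem ncN_sub (j : ℕ) : ncN T M b W j ⊆ M := by
  classical
  induction j with
  | zero => exact Finset.filter_subset _ _
  | succ j ih => exact Finset.union_subset ih (Finset.filter_subset _ _)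

theorem ncN_succ (j : ℕ) : ncN T M b W j ⊆ ncN T M b W (j + 1) := by
  classical
  exact Finset.subset_union_left

theorem ncN_mono {i j : ℕ} (h : i ≤ j) : ncN T M b W i ⊆ ncN T M b W j := by
  induction h with
  | refl => exact Finset.Subset.refl _
  | step _ ih => exact ih.trans (ncN_succ _)

theorem ncN_mem {j : ℕ} {m m' : ι} (hm : m ∈ M) (hm' : m' ∈ ncN T M b W j)
    (h : ((T m).S \ (T m').S).card ≤ b) : m ∈ ncN T M b W (j + 1) := by
  classical
  exact Finset.mem_union_right _ (Finset.mem_filter.2 ⟨hm, m', hm', h⟩)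

theorem ncN_new {j : ℕ} {m : ι} (hm : m ∈ ncN T M b W (j + 1)) (h : m ∉ ncN T M b W j) :
    ∃ m' ∈ ncN T M b W j, ((T m).S \ (T m').S).card ≤ b := by
  classical
  rcases Finset.mem_union.1 hm with h1 | h1
  · exact absurd h1 h
  · exact (Finset.mem_filter.1 h1).2

theorem ncN_tri (m m' m'' : ι) : ((T m).S \ (T m'').S).card ≤
    ((T m).S \ (T m').S).card + ((T m').S \ (T m'').S).card := by
  refine (Finset.card_le_card ?_).trans (Finset.card_union_le _ _)
  intro i hi
  rw [Finset.mem_sdiff] at hi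
  by_cases h : i ∈ (T m').S
  · exact Finset.mem_union_right _ (Finset.mem_sdiff.2 ⟨h, hi.2⟩)
  · exact Finset.mem_union_left _ (Finset.mem_sdiff.2 ⟨hi.1, h⟩)

/-- A term which is new in round `j`. -/
theorem ncN_chain (j : ℕ) : ∀ m ∈ ncN T M b W j, (∀ i < j, m ∉ ncN T M b W i) →
    ∃ P ⊆ ncN T M b W j, m ∈ P ∧ P.card = j + 1 ∧
      ∀ m' ∈ P, ((T m).S \ (T m').S).card ≤ j * b := by
  classical
  induction j with
  | zero =>
    intro m hm _
    refine ⟨{m}, Finset.singleton_subset_iff.2 hm, Finset.mem_singleton_self m,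
      Finset.card_singleton _, ?_⟩
    intro m' hm'
    rw [Finset.mem_singleton.1 hm']
    simp
  | succ j ih =>
    intro m hm hn
    obtain ⟨m', hm', h'⟩ := ncN_new hm (hn j (Nat.lt_succ_self j))
    have hmM : m ∈ M := ncN_sub _ hm
    obtain ⟨P, hP, _, hc, hd⟩ := ih m' hm' fun i hi hi' => hn (i + 1) (by omega) (ncN_mem hmM hi' h')
    have hmP : m ∉ P := fun h => hn j (Nat.lt_succ_self j) (hP h)
    refine ⟨insert m P, ?_, Finset.mem_insert_self m P, ?_, ?_⟩
    · intro x hx
      rcases Finset.mem_insert.1 hx with rfl | hx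
      · exact hm
      · exact ncN_succ j (hP hx)
    · rw [Finset.card_insert_of_notMem hmP, hc]
    · intro x hx
      rcases Finset.mem_insert.1 hx with rfl | hx
      · simp
      · have h1 := ncN_tri (T := T) m m' x
        have h2 := hd x hx
        have h3 : (j + 1) * b = j * b + b := by ring
        omega

theorem ncN_width (j : ℕ) : ∀ m ∈ ncN T M b W j, (T m).S.card ≤ W + j * b := by
  classical
  induction j with
  | zero =>
    intro m hm
    have := (Finset.mem_filter.1 hm).2
    omega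
  | succ j ih =>
    intro m hm
    have h3 : (j + 1) * b = j * b + b := by ring
    by_cases h : m ∈ ncN T M b W j
    · have := ih m h
      omega
    · obtain ⟨m', hm', h'⟩ := ncN_new hm h
      have h1 := ih m' hm'
      have h2 : (T m).S.card ≤ ((T m).S \ (T m').S).card + (T m').S.card := by
        refine (Finset.card_le_card ?_).trans (Finset.card_union_le _ _)
        intro i hi
        by_cases h : i ∈ (T m').S
        · exact Finset.mem_union_right _ h
        · exact Finset.mem_union_left _ (Finset.mem_sdiff.2 ⟨hi, h⟩)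
      omega

/-- `N₀` = the terms of width at most `W`, `N_(j+1)` = `N_j` and the terms `m` with
`|S_m \ S_m'| ≤ b` for some `m' ∈ N_j`; `N = N_r` is closed, since a new term in round `r + 1` has
`r + 1` other terms which contain all but `(r + 1) b` of its variables. -/
theorem ncl {r b W : ℕ} {T : ι → Term n} {M : Finset ι} (hM : Rd r T M)
    (hW : (r + 1) ^ 2 * b ≤ W) : ∃ N ⊆ M, (∀ m ∈ N, (T m).S.card ≤ W + r * b) ∧
      ∀ m ∈ M, m ∉ N → W < (T m).S.card ∧ ∀ m' ∈ N, b < ((T m).S \ (T m').S).card := by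
  classical
  refine ⟨ncN T M b W r, ncN_sub r, ncN_width r, ?_⟩
  intro m hm hn
  have hw : W < (T m).S.card := by
    by_contra h
    exact hn (ncN_mono (Nat.zero_le r) (Finset.mem_filter.2 ⟨hm, not_lt.1 h⟩))
  refine ⟨hw, ?_⟩
  intro m' hm'
  by_contra hb
  have h1 := ncN_mem hm hm' (not_lt.1 hb)
  obtain ⟨P, hP, hmP, hc, hd⟩ :=
    ncN_chain (r + 1) m h1 fun i hi h => hn (ncN_mono (by omega) h)
  have hPM : P ⊆ M := hP.trans (ncN_sub _)
  -- a common variable
  have hu : ((P.erase m).biUnion fun m' => (T m).S \ (T m').S).card < (T m).S.card := by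
    refine lt_of_le_of_lt (Finset.card_biUnion_le_card_mul _ _ ((r + 1) * b) ?_) ?_
    · intro m' hm'
      exact hd m' (Finset.mem_of_mem_erase hm')
    · rw [Finset.card_erase_of_mem hmP, hc]
      have h3 : (r + 1 + 1 - 1) * ((r + 1) * b) = (r + 1) ^ 2 * b := by
        rw [Nat.add_sub_cancel]
        ring
      omega
  obtain ⟨v, hv, hvn⟩ := Finset.exists_mem_notMem_of_card_lt_card hu
  have hall : ∀ m' ∈ P, v ∈ (T m').S := by
    intro m' hm'
    by_cases h : m' = m
    · rw [h]
      exact hv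
    · by_contra hc'
      exact hvn (Finset.mem_biUnion.2 ⟨m', Finset.mem_erase.2 ⟨h, hm'⟩,
        Finset.mem_sdiff.2 ⟨hv, hc'⟩⟩)
  have h4 : P.card ≤ r := (Finset.card_le_card fun m' hm' =>
    Finset.mem_filter.2 ⟨hPM hm', hall m' hm'⟩).trans (hM v)
  omega

end Pool.Agent.MP_ca1109_lc.Xr
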