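import Pool.Agent.MP_ca1109_lc.Xr.BAL
import Pool.Agent.MP_ca1109_lc.Xr.NCL

/-!
# Row STR: the blocks

The narrow terms form one block with empty core; every chosen ball of wide terms is a block, whose
core is the set of the common literals of its members. The terms of a block through a variable can be
isolated: the narrow terms by variables of the core which they miss, the other wide blocks by one
false literal each.
-/

namespace Pool.Agent.MP_ca1109_lc.Xr

open Finset Pool.Agent.MP_ca1109_lc.Mpg Pool.Agent.MP_ca1109_lc.Agp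
open Pool.Agent.MP_ca1109_lc.Dnf (Cube ch one Term)
open Pool.Agent.MP_ca1109_lc.Xp (fl)
open Pool.Agent.MP_ca1109_lc.Xl (Tr tm pr Rd)

variable {n : ℕ} {ι β : Type}

section blocks

variable [DecidableEq ι]

/-- The variables at which the members of the ball of `c` differ from `c`. -/
def dd (T : ι → Term n) (M : Finset ι) (r : ℕ) (j : ι → ℕ) (c : ι) : Finset (Fin n) :=
  (M.filter fun m => (df T c m).card ≤ sc r (j c)).biUnion fun m => df T c m

/-- The core of the ball of `c`. -/
def kk (T : ι → Term n) (M : Finset ι) (r : ℕ) (j : ι → ℕ) (c : ι) : Finset (Fin n) :=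
  (T c).S \ dd T M r j c

variable {T : ι → Term n} {M : Finset ι} {r : ℕ} {j : ι → ℕ} {c c' m : ι} {v : Fin n}

theorem dd_card (hc : (M.filter fun m => (df T c m).card ≤ sc r (j c)).card ≤ 2 * r) :
    (dd T M r j c).card ≤ 2 * r * sc r (j c) := by
  unfold dd
  refine (card_biUnion_le_card_mul _ _ (sc r (j c)) fun m hm => (mem_filter.1 hm).2).trans ?_
  exact Nat.mul_le_mul_right _ hc

theorem df_sub_dd (hm : m ∈ M) (h : (df T c m).card ≤ sc r (j c)) : df T c m ⊆ dd T M r j c :=
  subset_biUnion_of_mem (fun m => df T c m) (mem_filter.2 ⟨hm, h⟩)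

theorem kk_sub (hm : m ∈ M) (h : (df T c m).card ≤ sc r (j c)) {i : Fin n}
    (hi : i ∈ kk T M r j c) : i ∈ (T m).S ∧ (T m).a i = (T c).a i := by
  unfold kk at hi
  rw [mem_sdiff] at hi
  have h1 := (df_off fun h2 => hi.2 (df_sub_dd hm h h2)).1 hi.1
  exact ⟨h1.1, h1.2.symm⟩

theorem sdiff_kk_sub (hm : m ∈ M) (h : (df T c m).card ≤ sc r (j c)) :
    (T m).S \ kk T M r j c ⊆ dd T M r j c := by
  intro i hi
  rw [mem_sdiff] at hi
  by_contra h1
  have h2 := (df_off fun h2 => h1 (df_sub_dd hm h h2)).2 hi.1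
  exact hi.2 (mem_sdiff.2 ⟨h2.1, h1⟩)

/-- A variable of a block occurs in a member. -/
theorem block_mem (hc : c ∈ M) (hv : v ∈ kk T M r j c ∪ dd T M r j c) :
    ∃ m ∈ M, (df T c m).card ≤ sc r (j c) ∧ v ∈ (T m).S := by
  have hself : (df T c c).card ≤ sc r (j c) := by
    rw [df_self, card_empty]
    exact Nat.zero_le _
  rw [mem_union] at hv
  rcases hv with hv | hv
  · exact ⟨c, hc, hself, (mem_sdiff.1 hv).1⟩
  · unfold dd at hv
    rw [mem_biUnion] at hv
    obtain ⟨m, hm, h1⟩ := hv
    rw [mem_filter] at hm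
    unfold df at h1
    rw [mem_filter, mem_union] at h1
    rcases h1.1 with h2 | h2
    · exact ⟨c, hc, hself, h2⟩
    · exact ⟨m, hm.1, hm.2, h2⟩

/-- Every variable occurs in few blocks. -/
theorem few_blocks {M₀ : Finset ι} (hM : Rd r T M₀) (hsub : M ⊆ M₀) {X : Finset ι} (hX : X ⊆ M)
    (hd : ∀ c ∈ X, ∀ c' ∈ X, ∀ m ∈ M, (df T c m).card ≤ sc r (j c) →
      (df T c' m).card ≤ sc r (j c') → c = c') (v : Fin n) :
    (X.filter fun c => v ∈ kk T M r j c ∪ dd T M r j c).card ≤ r := by
  classical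
  have h1 : ∀ c ∈ X.filter fun c => v ∈ kk T M r j c ∪ dd T M r j c,
      ∃ m ∈ M, (df T c m).card ≤ sc r (j c) ∧ v ∈ (T m).S := by
    intro c hc
    rw [mem_filter] at hc
    exact block_mem (hX hc.1) hc.2
  choose! g hg using h1
  refine le_trans (card_le_card_of_injOn g (t := M₀.filter fun m => v ∈ (T m).S) ?_ ?_) (hM v)
  · intro c hc
    have h2 := hg c hc
    exact mem_filter.2 ⟨hsub h2.1, h2.2.2⟩
  · intro c hc c' hc' h
    have h2 := hg c hc
    have h3 := hg c' hc'
    rw [← h] at h3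
    exact hd c (mem_filter.1 hc).1 c' (mem_filter.1 hc').1 _ h2.1 h2.2.1 h3.2.1

/-- Two blocks differ at many variables. -/
theorem df_blocks : df T c c' ⊆ ((kk T M r j c \ kk T M r j c') ∪ (kk T M r j c' \ kk T M r j c)) ∪
    ((((kk T M r j c ∩ kk T M r j c').filter fun i => (T c).a i ≠ (T c').a i)) ∪
      (dd T M r j c ∪ dd T M r j c')) := by
  intro i hi
  by_cases h1 : i ∈ dd T M r j c
  · exact mem_union_right _ (mem_union_right _ (mem_union_left _ h1))
  by_cases h2 : i ∈ dd T M r j c'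
  · exact mem_union_right _ (mem_union_right _ (mem_union_right _ h2))
  unfold df at hi
  rw [mem_filter, mem_union] at hi
  by_cases h3 : i ∈ (T c).S
  · have h5 : i ∈ kk T M r j c := mem_sdiff.2 ⟨h3, h1⟩
    by_cases h4 : i ∈ (T c').S
    · have h6 : i ∈ kk T M r j c' := mem_sdiff.2 ⟨h4, h2⟩
      refine mem_union_right _ (mem_union_left _ ?_)
      rw [mem_filter, mem_inter]
      exact ⟨⟨h5, h6⟩, fun h7 => hi.2 ⟨h3, h4, h7⟩⟩
    · exact mem_union_left _ (mem_union_left _ (mem_sdiff.2 ⟨h5, fun h6 =>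
        h4 (mem_sdiff.1 h6).1⟩))
  · have h4 : i ∈ (T c').S := hi.1.resolve_left h3
    exact mem_union_left _ (mem_union_right _ (mem_sdiff.2 ⟨mem_sdiff.2 ⟨h4, h2⟩, fun h6 =>
      h3 (mem_sdiff.1 h6).1⟩))

/-- Many killers. -/
theorem many_killers {U : Finset (Fin n)} (hU : U.card ≤ r)
    (hd : (dd T M r j c).card ≤ 2 * r * sc r (j c))
    (hd' : (dd T M r j c').card ≤ 2 * r * sc r (j c'))
    (hfar : sc r (max (j c) (j c') + 1) < (df T c c').card)
    (hle : (kk T M r j c).card ≤ (kk T M r j c').card)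
    (hconf : ∀ u ∈ kk T M r j c, u ∈ kk T M r j c' → (T c).a u ≠ (T c').a u → u ∈ U ∨ u = v) :
    r ≤ (kk T M r j c' \ (kk T M r j c ∪ (dd T M r j c ∪ {v}))).card := by
  obtain ⟨J, hJ⟩ : ∃ J, J = max (j c) (j c') := ⟨_, rfl⟩
  rw [← hJ] at hfar
  have hS1 : sc r (j c) ≤ sc r J := sc_mono r (by rw [hJ]; exact le_max_left _ _)
  have hS2 : sc r (j c') ≤ sc r J := sc_mono r (by rw [hJ]; exact le_max_right _ _)
  have h1 : (dd T M r j c).card ≤ 2 * (r * sc r J) :=
    hd.trans (by rw [mul_assoc]; exact Nat.mul_le_mul_left _ (Nat.mul_le_mul_left _ hS1))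
  have h2 : (dd T M r j c').card ≤ 2 * (r * sc r J) :=
    hd'.trans (by rw [mul_assoc]; exact Nat.mul_le_mul_left _ (Nat.mul_le_mul_left _ hS2))
  have h3 : sc r (J + 1) = 8 * (r * sc r J) + 8 * sc r J + 3 * r + 4 := by
    show 8 * (r + 1) * sc r J + 3 * r + 4 = _
    ring
  have h4 : (((kk T M r j c ∩ kk T M r j c').filter fun i => (T c).a i ≠ (T c').a i)).card ≤
      r + 1 := by
    refine (card_le_card (t := insert v U) ?_).trans ((card_insert_le _ _).trans (by omega))
    intro u hu
    rw [mem_filter, mem_inter] at hu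
    rcases hconf u hu.1.1 hu.1.2 hu.2 with h5 | h5
    · exact mem_insert_of_mem h5
    · rw [h5]
      exact mem_insert_self _ _
  have h5 : (kk T M r j c \ kk T M r j c').card ≤ (kk T M r j c' \ kk T M r j c).card := by
    have h6 := card_sdiff_add_card_inter (kk T M r j c) (kk T M r j c')
    have h7 := card_sdiff_add_card_inter (kk T M r j c') (kk T M r j c)
    rw [inter_comm] at h7
    omega
  have h6 : (df T c c').card ≤ ((kk T M r j c \ kk T M r j c').card +
      (kk T M r j c' \ kk T M r j c).card) + ((r + 1) +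
        ((dd T M r j c).card + (dd T M r j c').card)) := by
    refine (card_le_card (df_blocks (M := M) (r := r) (j := j))).trans ?_
    refine (card_union_le _ _).trans (Nat.add_le_add (card_union_le _ _) ?_)
    refine (card_union_le _ _).trans (Nat.add_le_add h4 (card_union_le _ _))
  have h7 : (kk T M r j c' \ kk T M r j c).card ≤
      (kk T M r j c' \ (kk T M r j c ∪ (dd T M r j c ∪ {v}))).card + (dd T M r j c ∪ {v}).card := by
    have h8 : kk T M r j c' \ kk T M r j c ⊆
        (kk T M r j c' \ (kk T M r j c ∪ (dd T M r j c ∪ {v}))) ∪ (dd T M r j c ∪ {v}) := by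
      intro i hi
      rw [mem_sdiff] at hi
      by_cases h9 : i ∈ dd T M r j c ∪ {v}
      · exact mem_union_right _ h9
      · refine mem_union_left _ (mem_sdiff.2 ⟨hi.1, fun h10 => ?_⟩)
        rcases mem_union.1 h10 with h11 | h11
        · exact hi.2 h11
        · exact h9 h11
    exact (card_le_card h8).trans (card_union_le _ _)
  have h8 : (dd T M r j c ∪ {v}).card ≤ (dd T M r j c).card + 1 := by
    refine (card_union_le _ _).trans ?_
    rw [card_singleton]
  omega

end blocks

/-- Distinct representatives of large sets. -/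
theorem hall_large {α γ : Type} [DecidableEq α] [DecidableEq γ] (Z : Finset α) (A : α → Finset γ)
    (h : ∀ c ∈ Z, Z.card ≤ (A c).card) : ∃ f : α → Option γ, (∀ c ∈ Z, ∃ u ∈ A c, f c = some u) ∧
      ∀ c ∈ Z, ∀ c' ∈ Z, f c = f c' → c = c' := by
  classical
  have h1 : ∀ s : Finset {x // x ∈ Z}, s.card ≤ (s.biUnion fun x => A x).card := by
    intro s
    rcases s.eq_empty_or_nonempty with rfl | ⟨x, hx⟩
    · simp
    · have h2 : s.card ≤ Z.card := by
        have h3 := card_le_univ s
        rwa [Fintype.card_coe] at h3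
      exact h2.trans ((h x x.2).trans (card_le_card (subset_biUnion_of_mem (fun x : {x // x ∈ Z} =>
        A x) hx)))
  obtain ⟨f, hf, hf'⟩ := (Finset.all_card_le_biUnion_card_iff_exists_injective
    (fun x : {x // x ∈ Z} => A x)).1 h1
  refine ⟨fun c => if hc : c ∈ Z then some (f ⟨c, hc⟩) else none, fun c hc => ?_,
    fun c hc c' hc' h2 => ?_⟩
  · refine ⟨f ⟨c, hc⟩, hf' ⟨c, hc⟩, ?_⟩
    show (if hc : c ∈ Z then some (f ⟨c, hc⟩) else none) = _
    rw [dif_pos hc]
  · have h3 : (if hc : c ∈ Z then some (f ⟨c, hc⟩) else none) =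
        (if hc : c' ∈ Z then some (f ⟨c', hc⟩) else none) := h2
    rw [dif_pos hc, dif_pos hc'] at h3
    have h4 := hf (Option.some.inj h3)
    exact congrArg Subtype.val h4

/-! ## STR: the blocks -/

theorem struc (r : ℕ) : ∃ s R : ℕ, ∀ {n : ℕ} {ι : Type} [DecidableEq ι] (T : ι → Term n)
    (M : Finset ι), Rd r T M → (∀ m ∈ M, (T m).S ≠ ∅) →
    ∃ (β : Type) (_ : DecidableEq β) (K : β → Finset (Fin n)) (y : β → Cube n)
      (M' : Finset (β × Finset (Fin n))),
      (∀ m ∈ M', Disjoint (K m.1) m.2) ∧ (∀ m ∈ M', K m.1 ∪ m.2 ≠ ∅) ∧ Rd R (bf K y) M' ∧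
      (∀ (v : Fin n) (C : Finset (β × Finset (Fin n))), C ⊆ M' → C.Nonempty →
        (∀ m ∈ C, v ∈ K m.1 ∪ m.2) → ∃ m ∈ C, Isl s K y v C m.1) ∧
      ∀ m ∈ M, ∃ q, K q ⊆ (T m).S ∧ (∀ i ∈ K q, (T m).a i = y q i) ∧
        ∀ B ⊆ (T m).S \ K q, K q ∪ B ≠ ∅ → (q, B) ∈ M' := by
  obtain ⟨w, hw⟩ : ∃ w, w = 2 * r * sc r (2 * r) := ⟨_, rfl⟩
  obtain ⟨b, hb⟩ : ∃ b, b = w + 1 := ⟨_, rfl⟩
  obtain ⟨W, hW⟩ : ∃ W, W = (r + 1) ^ 2 * b + 2 * sc r (2 * r + 1) := ⟨_, rfl⟩
  refine ⟨(r + w) + (W + r * b), r * 2 ^ (W + r * b) + r * 2 ^ w, ?_⟩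
  intro n ι _ T M hM h0
  classical
  obtain ⟨N, hNM, hN1, hN2⟩ := ncl (b := b) (W := W) hM (by rw [hW]; exact Nat.le_add_right _ _)
  obtain ⟨Mw, hMw⟩ : ∃ Mw, Mw = M \ N := ⟨_, rfl⟩
  have hMwM : Mw ⊆ M := by
    rw [hMw]
    exact sdiff_subset
  have hMwN : ∀ m ∈ Mw, m ∈ M ∧ m ∉ N := fun m hm => by
    rw [hMw] at hm
    exact mem_sdiff.1 hm
  have hRw : Rd r T Mw := fun i => (card_le_card (filter_subset_filter _ hMwM)).trans (hM i)
  obtain ⟨X, j, hX, hj, hcov, hfar, hdis, hball⟩ := bal hRw (fun m hm => h0 m (hMwM hm))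
    (fun m hm => by
      have h1 := (hN2 m (hMwN m hm).1 (hMwN m hm).2).1
      have h2 : 2 * sc r (2 * r + 1) ≤ W := by
        rw [hW]
        exact Nat.le_add_left _ _
      omega)
  -- sizes
  have hdd : ∀ c ∈ X, (dd T Mw r j c).card ≤ w := by
    intro c hc
    refine (dd_card (hball c hc)).trans ?_
    rw [hw]
    exact Nat.mul_le_mul_left _ (sc_mono r (hj c hc))
  have hkk : ∀ c ∈ X, ∀ m' ∈ N, 2 ≤ (kk T Mw r j c \ (T m').S).card := by
    intro c hc m' hm'
    have hc' := hMwN c (hX hc)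
    have h1 := (hN2 c hc'.1 hc'.2).2 m' hm'
    have h2 : (T c).S \ (T m').S ⊆ (kk T Mw r j c \ (T m').S) ∪ dd T Mw r j c := by
      intro i hi
      rw [mem_sdiff] at hi
      by_cases h3 : i ∈ dd T Mw r j c
      · exact mem_union_right _ h3
      · exact mem_union_left _ (mem_sdiff.2 ⟨mem_sdiff.2 ⟨hi.1, h3⟩, hi.2⟩)
    have h3 := (card_le_card h2).trans (card_union_le _ _)
    have h4 := hdd c hc
    omega
  have hkne : ∀ c ∈ X, kk T Mw r j c ≠ ∅ := by
    intro c hc h1
    have hc' := hMwN c (hX hc)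
    have h2 := (hN2 c hc'.1 hc'.2).1
    have h3 : (T c).S ⊆ dd T Mw r j c := sdiff_eq_empty_iff_subset.1 h1
    have h4 := card_le_card h3
    have h5 := hdd c hc
    have h6 : b ≤ W := by
      rw [hW]
      have : 1 ≤ (r + 1) ^ 2 := Nat.one_le_pow _ _ (Nat.succ_pos r)
      nlinarith
    omega
  obtain ⟨K, hK⟩ : ∃ K : Option ι → Finset (Fin n), K = fun q =>
    match q with
    | none => ∅
    | some c => kk T Mw r j c := ⟨_, rfl⟩
  have hKn : K none = ∅ := by rw [hK]
  have hKs : ∀ c, K (some c) = kk T Mw r j c := fun c => by rw [hK]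
  obtain ⟨y, hy⟩ : ∃ y : Option ι → Cube n, y = fun q =>
    match q with
    | none => fun _ => true
    | some c => (T c).a := ⟨_, rfl⟩
  have hys : ∀ c, y (some c) = (T c).a := fun c => by rw [hy]
  obtain ⟨P1, hP1⟩ : ∃ P1 : Finset (Option ι × Finset (Fin n)), P1 =
    N.biUnion fun m => ((T m).S.powerset.filter fun B => B ≠ ∅).image (Prod.mk none) := ⟨_, rfl⟩
  obtain ⟨P2, hP2⟩ : ∃ P2 : Finset (Option ι × Finset (Fin n)), P2 =
    X.biUnion fun c => (dd T Mw r j c).powerset.image (Prod.mk (some c)) := ⟨_, rfl⟩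
  have hmem1 : ∀ p, p ∈ P1 ↔ p.1 = none ∧ p.2 ≠ ∅ ∧ ∃ m ∈ N, p.2 ⊆ (T m).S := by
    rintro ⟨q, B⟩
    rw [hP1, mem_biUnion]
    constructor
    · rintro ⟨m, hm, h1⟩
      rw [mem_image] at h1
      obtain ⟨B', h2, h3⟩ := h1
      rw [mem_filter, mem_powerset] at h2
      obtain ⟨h4, h5⟩ := Prod.mk.inj h3
      subst h5
      exact ⟨h4.symm, h2.2, m, hm, h2.1⟩
    · rintro ⟨h1, h2, m, hm, h3⟩
      have h1' : q = none := h1
      subst h1'
      exact ⟨m, hm, mem_image.2 ⟨B, mem_filter.2 ⟨mem_powerset.2 h3, h2⟩, rfl⟩⟩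
  have hmem2 : ∀ p, p ∈ P2 ↔ ∃ c ∈ X, p.1 = some c ∧ p.2 ⊆ dd T Mw r j c := by
    rintro ⟨q, B⟩
    rw [hP2, mem_biUnion]
    constructor
    · rintro ⟨c, hc, h1⟩
      rw [mem_image] at h1
      obtain ⟨B', h2, h3⟩ := h1
      rw [mem_powerset] at h2
      obtain ⟨h4, h5⟩ := Prod.mk.inj h3
      subst h5
      exact ⟨c, hc, h4.symm, h2⟩
    · rintro ⟨c, hc, h1, h2⟩
      have h1' : q = some c := h1
      subst h1'
      exact ⟨c, hc, mem_image.2 ⟨B, mem_powerset.2 h2, rfl⟩⟩
  refine ⟨Option ι, inferInstance, K, y, P1 ∪ P2, ?_, ?_, ?_, ?_, ?_⟩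
  · -- disjoint
    intro p hp
    rcases mem_union.1 hp with hp | hp
    · rw [((hmem1 p).1 hp).1, hKn]
      exact disjoint_empty_left _
    · obtain ⟨c, hc, h1, h2⟩ := (hmem2 p).1 hp
      rw [h1, hKs]
      exact disjoint_of_subset_right h2 sdiff_disjoint
  · -- nonempty
    intro p hp h1
    rcases mem_union.1 hp with hp | hp
    · rw [union_eq_empty] at h1
      exact ((hmem1 p).1 hp).2.1 h1.2
    · obtain ⟨c, hc, h2, -⟩ := (hmem2 p).1 hp
      rw [union_eq_empty, h2, hKs] at h1
      exact hkne c hc h1.1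
  · -- the read
    intro i
    rw [filter_union]
    refine (card_union_le _ _).trans (Nat.add_le_add ?_ ?_)
    · have h1 : (P1.filter fun p => i ∈ (bf K y p).S) ⊆ (N.filter fun m => i ∈ (T m).S).biUnion
          fun m => (T m).S.powerset.image (Prod.mk none) := by
        rintro ⟨q, B⟩ hp
        rw [mem_filter] at hp
        obtain ⟨h2, h3, m, hm, h4⟩ := (hmem1 _).1 hp.1
        have h2' : q = none := h2
        subst h2'
        have h5 : i ∈ K none ∪ B := hp.2
        rw [hKn, empty_union] at h5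
        exact mem_biUnion.2 ⟨m, mem_filter.2 ⟨hm, h4 h5⟩, mem_image.2 ⟨B, mem_powerset.2 h4, rfl⟩⟩
      refine (card_le_card h1).trans ((card_biUnion_le_card_mul _ _ (2 ^ (W + r * b))
        fun m hm => ?_).trans (Nat.mul_le_mul_right _ ?_))
      · refine card_image_le.trans ?_
        rw [card_powerset]
        exact Nat.pow_le_pow_right (by norm_num) (hN1 m (mem_filter.1 hm).1)
      · exact (card_le_card (filter_subset_filter _ hNM)).trans (hM i)
    · have h1 : (P2.filter fun p => i ∈ (bf K y p).S) ⊆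
          (X.filter fun c => i ∈ kk T Mw r j c ∪ dd T Mw r j c).biUnion
            fun c => (dd T Mw r j c).powerset.image (Prod.mk (some c)) := by
        rintro ⟨q, B⟩ hp
        rw [mem_filter] at hp
        obtain ⟨c, hc, h2, h3⟩ := (hmem2 _).1 hp.1
        have h2' : q = some c := h2
        subst h2'
        have h5 : i ∈ K (some c) ∪ B := hp.2
        rw [hKs] at h5
        exact mem_biUnion.2 ⟨c, mem_filter.2 ⟨hc, union_subset_union_right h3 h5⟩,
          mem_image.2 ⟨B, mem_powerset.2 h3, rfl⟩⟩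
      refine (card_le_card h1).trans ((card_biUnion_le_card_mul _ _ (2 ^ w)
        fun c hc => ?_).trans (Nat.mul_le_mul_right _ ?_))
      · refine card_image_le.trans ?_
        rw [card_powerset]
        exact Nat.pow_le_pow_right (by norm_num) (hdd c (mem_filter.1 hc).1)
      · exact few_blocks hM hMwM hX hdis i
  · -- isolation
    intro v C hC hCne hv
    by_cases hnone : ∀ m ∈ C, m.1 = none
    · obtain ⟨m, hm⟩ := hCne
      refine ⟨m, hm, univ, ∅, fun _ => true, ?_, empty_subset _, notMem_empty v, ?_, ?_, ?_⟩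
      · rw [hnone m hm, hKn]
        exact disjoint_empty_left _
      · intro p hp _
        refine ⟨subset_univ _, ?_⟩
        have h1 : p ∈ P1 := by
          rcases mem_union.1 (hC hp) with h | h
          · exact h
          · obtain ⟨c, -, h2, -⟩ := (hmem2 p).1 h
            rw [hnone p hp] at h2
            exact absurd h2 (by simp)
        obtain ⟨-, -, m', hm', h2⟩ := (hmem1 p).1 h1
        have h3 := (card_le_card h2).trans (hN1 m' hm')
        rw [card_empty]
        omega
      · intro i hi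
        rw [hnone m hm, hKn] at hi
        exact absurd hi (notMem_empty i)
      · intro p hp h1
        exact absurd ((hnone p hp).trans (hnone m hm).symm) h1
    · push Not at hnone
      obtain ⟨m₁, hm₁, hne₁⟩ := hnone
      have hw1 : ∀ p ∈ C, ∀ c, p.1 = some c → c ∈ X ∧ p.2 ⊆ dd T Mw r j c := by
        intro p hp c h1
        rcases mem_union.1 (hC hp) with h | h
        · have h2 := ((hmem1 p).1 h).1
          rw [h1] at h2
          exact absurd h2 (by simp)
        · obtain ⟨c', hc', h2, h3⟩ := (hmem2 p).1 h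
          rw [h1] at h2
          have h4 := Option.some.inj h2
          rw [h4]
          exact ⟨hc', h3⟩
      obtain ⟨Xc, hXc⟩ : ∃ Xc, Xc = X.filter fun c => ∃ m ∈ C, m.1 = some c := ⟨_, rfl⟩
      have hXcne : Xc.Nonempty := by
        obtain ⟨c, hc⟩ := Option.ne_none_iff_exists'.1 hne₁
        refine ⟨c, ?_⟩
        rw [hXc, mem_filter]
        exact ⟨(hw1 m₁ hm₁ c hc).1, m₁, hm₁, hc⟩
      obtain ⟨c, hcXc, hmin⟩ := exists_min_image Xc (fun c => (kk T Mw r j c).card) hXcne
      have hcX : c ∈ X := by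
        rw [hXc, mem_filter] at hcXc
        exact hcXc.1
      obtain ⟨m₀, hm₀, hm₀c⟩ : ∃ m ∈ C, m.1 = some c := by
        rw [hXc, mem_filter] at hcXc
        exact hcXc.2
      -- the blocks through `v`
      have hthru : Xc ⊆ X.filter fun c => v ∈ kk T Mw r j c ∪ dd T Mw r j c := by
        intro c' hc'
        rw [hXc, mem_filter] at hc'
        obtain ⟨h1, p, hp, h2⟩ := hc'
        refine mem_filter.2 ⟨h1, ?_⟩
        have h3 := hv p hp
        rw [h2, hKs] at h3
        exact union_subset_union_right (hw1 p hp c' h2).2 h3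
      -- the variables for the narrow terms
      have hg : ∀ m' ∈ N, ∃ u, u ∈ kk T Mw r j c ∧ u ∉ (T m').S ∧ u ≠ v := by
        intro m' hm'
        have h1 := hkk c hcX m' hm'
        obtain ⟨u, hu, hne⟩ := exists_mem_ne (by omega : 1 < (kk T Mw r j c \ (T m').S).card) v
        rw [mem_sdiff] at hu
        exact ⟨u, hu.1, hu.2, hne⟩
      have hg' : ∀ m' : ι, ∃ u : Option (Fin n), m' ∈ N → ∃ x, u = some x ∧ x ∈ kk T Mw r j c ∧
          x ∉ (T m').S ∧ x ≠ v := by
        intro m'
        by_cases hm' : m' ∈ N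
        · obtain ⟨x, hx⟩ := hg m' hm'
          exact ⟨some x, fun _ => ⟨x, rfl, hx⟩⟩
        · exact ⟨none, fun h => absurd h hm'⟩
      choose g hg1 using hg'
      obtain ⟨U, hU⟩ : ∃ U : Finset (Fin n), U =
        (N.filter fun m' => v ∈ (T m').S).biUnion fun m' => (g m').toFinset := ⟨_, rfl⟩
      have hUc : U.card ≤ r := by
        rw [hU]
        refine (card_biUnion_le_card_mul _ _ 1 fun m' _ => ?_).trans ?_
        · cases g m' <;> simp
        · rw [mul_one]
          exact (card_le_card (filter_subset_filter _ hNM)).trans (hM v)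
      have hUm : ∀ u ∈ U, u ∈ kk T Mw r j c ∧ u ≠ v := by
        intro u hu
        rw [hU, mem_biUnion] at hu
        obtain ⟨m', hm', h1⟩ := hu
        obtain ⟨x, h2, h3, -, h4⟩ := hg1 m' (mem_filter.1 hm').1
        rw [h2, Option.toFinset_some, mem_singleton] at h1
        rw [h1]
        exact ⟨h3, h4⟩
      -- the blocks without conflicts
      obtain ⟨Z, hZ⟩ : ∃ Z, Z = Xc.filter fun c' => c' ≠ c ∧ ∀ u ∈ kk T Mw r j c,
        u ∈ kk T Mw r j c' → (T c).a u ≠ (T c').a u → u ∈ U ∨ u = v := ⟨_, rfl⟩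
      have hZr : Z.card ≤ r := by
        rw [hZ]
        exact (card_le_card ((filter_subset _ _).trans hthru)).trans
          (few_blocks hM hMwM hX hdis v)
      obtain ⟨f, hf1, hf2⟩ := hall_large Z
        (fun c' => kk T Mw r j c' \ (kk T Mw r j c ∪ (dd T Mw r j c ∪ {v}))) (fun c' hc' => by
          rw [hZ, mem_filter] at hc'
          have hc'X : c' ∈ X := by
            have h1 := hc'.1
            rw [hXc, mem_filter] at h1
            exact h1.1
          exact hZr.trans (many_killers hUc (dd_card (hball c hcX)) (dd_card (hball c' hc'X))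
            (hfar c hcX c' hc'X (Ne.symm hc'.2.1)) (hmin c' hc'.1) hc'.2.2))
      obtain ⟨p, hp⟩ : ∃ p : Cube n, p = fun i => if i ∈ kk T Mw r j c then (T c).a i else
        if h : ∃ c' ∈ Z, f c' = some i then !((T h.choose).a i) else true := ⟨_, rfl⟩
      have hpk : ∀ i ∈ kk T Mw r j c, p i = (T c).a i := by
        intro i hi
        rw [hp]
        show (if i ∈ kk T Mw r j c then (T c).a i else _) = _
        rw [if_pos hi]
      have hpz : ∀ c' ∈ Z, ∀ u, f c' = some u → u ∉ kk T Mw r j c → p u ≠ (T c').a u := by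
        intro c' hc' u hu hnu
        have hex : ∃ c'' ∈ Z, f c'' = some u := ⟨c', hc', hu⟩
        have h1 : p u = !((T hex.choose).a u) := by
          rw [hp]
          show (if u ∈ kk T Mw r j c then (T c).a u else
            if h : ∃ c' ∈ Z, f c' = some u then !((T h.choose).a u) else true) = _
          rw [if_neg hnu, dif_pos hex]
        have h2 : hex.choose = c' :=
          hf2 _ hex.choose_spec.1 _ hc' (hex.choose_spec.2.trans hu.symm)
        rw [h1, h2]
        cases (T c').a u <;> decide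
      refine ⟨m₀, hm₀, dd T Mw r j c, U, p, ?_, ?_, ?_, ?_, ?_, ?_⟩
      · rw [hm₀c, hKs]
        exact sdiff_disjoint
      · rw [hm₀c, hKs]
        exact fun u hu => (hUm u hu).1
      · exact fun h => (hUm v h).2 rfl
      · intro m hm h1
        rw [hm₀c] at h1
        have h2 := (hw1 m hm c h1).2
        have h3 := (card_le_card h2).trans (hdd c hcX)
        exact ⟨h2, by omega⟩
      · intro i hi _
        rw [hm₀c, hKs] at hi
        rw [hm₀c, hys]
        exact hpk i hi
      · intro m hm h1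
        rcases hm1 : m.1 with _ | c'
        · -- a narrow term
          right
          have h2 : m ∈ P1 := by
            rcases mem_union.1 (hC hm) with h | h
            · exact h
            · obtain ⟨c', -, h3, -⟩ := (hmem2 m).1 h
              rw [hm1] at h3
              exact absurd h3 (by simp)
          obtain ⟨-, -, m', hm', h3⟩ := (hmem1 m).1 h2
          have h4 := hv m hm
          rw [hm1, hKn, empty_union] at h4
          obtain ⟨x, h5, h6, h7, h8⟩ := hg1 m' hm'
          refine ⟨x, ?_, ?_⟩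
          · rw [hU, mem_biUnion]
            refine ⟨m', mem_filter.2 ⟨hm', h3 h4⟩, ?_⟩
            rw [h5, Option.toFinset_some]
            exact mem_singleton_self x
          · rw [hKn, empty_union]
            exact fun h => h7 (h3 h)
        · left
          have hc'X := (hw1 m hm c' hm1).1
          have hne : c' ≠ c := by
            intro h
            apply h1
            rw [hm1, h, hm₀c]
          have hc'Xc : c' ∈ Xc := by
            rw [hXc, mem_filter]
            exact ⟨hc'X, m, hm, hm1⟩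
          rw [hKs, hys]
          by_cases hcz : ∀ u ∈ kk T Mw r j c, u ∈ kk T Mw r j c' → (T c).a u ≠ (T c').a u →
              u ∈ U ∨ u = v
          · have hz : c' ∈ Z := by
              rw [hZ, mem_filter]
              exact ⟨hc'Xc, hne, hcz⟩
            obtain ⟨u, h2, h3⟩ := hf1 c' hz
            rw [mem_sdiff, mem_union, mem_union, mem_singleton] at h2
            push Not at h2
            obtain ⟨h4, h5, h6, h7⟩ := h2
            exact ⟨u, h4, h7, fun h => h5 (hUm u h).1, h6, hpz c' hz u h3 h5⟩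
          · push Not at hcz
            obtain ⟨u, h2, h3, h4, h5, h6⟩ := hcz
            refine ⟨u, h3, h6, h5, fun h => (mem_sdiff.1 h2).2 h, ?_⟩
            rw [hpk u h2]
            exact h4
  · -- the cover
    intro m hm
    by_cases hmN : m ∈ N
    · refine ⟨none, ?_, ?_, ?_⟩
      · rw [hKn]
        exact empty_subset _
      · intro i hi
        rw [hKn] at hi
        exact absurd hi (notMem_empty i)
      · intro B hB h1
        rw [hKn, sdiff_empty] at hB
        rw [hKn, empty_union] at h1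
        exact mem_union_left _ ((hmem1 _).2 ⟨rfl, h1, m, hmN, hB⟩)
    · have hmw : m ∈ Mw := by
        rw [hMw]
        exact mem_sdiff.2 ⟨hm, hmN⟩
      obtain ⟨c, hc, h1⟩ := hcov m hmw
      refine ⟨some c, ?_, ?_, ?_⟩
      · rw [hKs]
        exact fun i hi => (kk_sub hmw h1 hi).1
      · intro i hi
        rw [hKs] at hi
        rw [hys]
        exact (kk_sub hmw h1 hi).2
      · intro B hB _
        rw [hKs] at hB
        exact mem_union_right _ ((hmem2 _).2 ⟨c, hc, rfl, hB.trans (sdiff_kk_sub hmw h1)⟩)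

end Pool.Agent.MP_ca1109_lc.Xr
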