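import Pool.Agent.MP_ca1109_lc.Xr.EXP
import Pool.Agent.MP_ca1109_lc.Xr.GI
import Pool.Agent.MP_ca1109_lc.Xr.STR

/-!
# The basis
-/

namespace Pool.Agent.MP_ca1109_lc.Xr

open Finset Pool.Agent.MP_ca1109_lc.Mpg Pool.Agent.MP_ca1109_lc.Agp
open Pool.Agent.MP_ca1109_lc.Dnf (Cube ch one Term)
open Pool.Agent.MP_ca1109_lc.Xp (fl)
open Pool.Agent.MP_ca1109_lc.Xl (Tr tm pr Rd)
open Pool.Agent.MP_ca1109_lc.Xt (rs)

variable {n : ℕ} {ι β : Type}

theorem bas_gapc (s R : ℕ) : 0 < gapc s R ∧ gapc s R ≤ 1 := by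
  unfold gapc
  have h1 : (1 : ℝ) ≤ 2 ^ s := one_le_pow₀ (by norm_num)
  have h2 : (1 : ℝ) ≤ 2 ^ s * (1 + R * 2 ^ s) := by
    have h3 : (0 : ℝ) ≤ R * 2 ^ s := by positivity
    nlinarith
  have h4 : (1 : ℝ) ≤ (2 ^ s * (1 + R * 2 ^ s)) ^ (R + 1) := one_le_pow₀ h2
  exact ⟨by positivity, by rw [div_le_one (by linarith)]; exact h4⟩

/-- Combinations of the terms in `M'` and of constants. -/
theorem bas_add {κ : Type} {T' : κ → Term n} {M' : Finset κ} {F G : Cube n → ℝ}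
    (hF : ∃ (u' : κ → ℝ) (u₀ : ℝ), ∀ x, F x = u₀ + rs T' u' M' x)
    (hG : ∃ (u' : κ → ℝ) (u₀ : ℝ), ∀ x, G x = u₀ + rs T' u' M' x) :
    ∃ (u' : κ → ℝ) (u₀ : ℝ), ∀ x, F x + G x = u₀ + rs T' u' M' x := by
  obtain ⟨u, a, hu⟩ := hF
  obtain ⟨v, b, hv⟩ := hG
  refine ⟨fun k => u k + v k, a + b, fun x => ?_⟩
  rw [hu, hv]
  unfold rs
  rw [Finset.sum_congr rfl fun m _ => add_mul (u m) (v m) _, Finset.sum_add_distrib]
  ring

theorem bas_smul {κ : Type} {T' : κ → Term n} {M' : Finset κ} {F : Cube n → ℝ} (c : ℝ)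
    (hF : ∃ (u' : κ → ℝ) (u₀ : ℝ), ∀ x, F x = u₀ + rs T' u' M' x) :
    ∃ (u' : κ → ℝ) (u₀ : ℝ), ∀ x, c * F x = u₀ + rs T' u' M' x := by
  obtain ⟨u, a, hu⟩ := hF
  refine ⟨fun k => c * u k, c * a, fun x => ?_⟩
  rw [hu]
  unfold rs
  rw [Finset.sum_congr rfl fun m _ => mul_assoc c (u m) _, ← Finset.mul_sum]
  ring

theorem bas_sum {α : Type*} {κ' : Type} {T' : κ' → Term n} {M' : Finset κ'} (s : Finset α)
    (F : α → Cube n → ℝ)
    (hF : ∀ i ∈ s, ∃ (u' : κ' → ℝ) (u₀ : ℝ), ∀ x, F i x = u₀ + rs T' u' M' x) :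
    ∃ (u' : κ' → ℝ) (u₀ : ℝ), ∀ x, ∑ i ∈ s, F i x = u₀ + rs T' u' M' x := by
  classical
  induction s using Finset.induction_on with
  | empty => exact ⟨fun _ => 0, 0, fun x => by simp [rs]⟩
  | insert a s ha ih =>
    have h1 := bas_add (hF a (Finset.mem_insert_self a s))
      (ih fun i hi => hF i (Finset.mem_insert_of_mem hi))
    obtain ⟨u, c, hu⟩ := h1
    exact ⟨u, c, fun x => by rw [Finset.sum_insert ha, hu]⟩

theorem basis (r : ℕ) : ∃ (R : ℕ) (c : ℝ), 0 < c ∧ c ≤ 1 ∧ ∀ {n : ℕ} {ι : Type} [DecidableEq ι]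
    (T : ι → Term n) (M : Finset ι), Rd r T M →
    ∃ (κ : Type) (_ : DecidableEq κ) (T' : κ → Term n) (M' : Finset κ), Rd R T' M' ∧
      (∀ m ∈ M', (T' m).S ≠ ∅) ∧ Gapu c T' M' ∧
      ∀ u : ι → ℝ, ∃ (u' : κ → ℝ) (u₀ : ℝ), ∀ x, rs T u M x = u₀ + rs T' u' M' x := by
  classical
  obtain ⟨s, R, hsR⟩ := struc r
  refine ⟨R, gapc s R, (bas_gapc s R).1, (bas_gapc s R).2, fun {n ι} _ T M hM => ?_⟩
  have hrd : Rd r T (M.filter fun m => (T m).S ≠ ∅) := fun i =>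
    (Finset.card_le_card (Finset.filter_subset_filter _ (Finset.filter_subset _ _))).trans (hM i)
  obtain ⟨β, hβ, K, y, M', hd, hne, hR, hI, hq⟩ := hsR T (M.filter fun m => (T m).S ≠ ∅) hrd
    (fun m hm => (Finset.mem_filter.1 hm).2)
  refine ⟨β × Finset (Fin n), inferInstance, bf K y, M', hR, hne, gi hd hR hI, fun u => ?_⟩
  unfold rs
  refine bas_sum M (fun m x => u m * tm (T m).S (T m).a x) fun m hm => bas_smul (u m) ?_
  by_cases h0 : (T m).S = ∅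
  · refine ⟨fun _ => 0, 1, fun x => ?_⟩
    rw [h0, exp_tm]
    simp [rs]
  · obtain ⟨q, h1, h2, h3⟩ := hq m (Finset.mem_filter.2 ⟨hm, h0⟩)
    obtain ⟨co, hco⟩ := expand (K q) (y q) (T m) h1 h2
    obtain ⟨u', u₀, hu⟩ := bas_sum (T' := bf K y) (M' := M') ((T m).S \ K q).powerset
      (fun B x => co B * tm (bt (K q) (y q) B).S (bt (K q) (y q) B).a x) fun B hB =>
        bas_smul (co B) (by
          rw [Finset.mem_powerset] at hB
          by_cases hKB : K q ∪ B = ∅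
          · refine ⟨fun _ => 0, 1, fun x => ?_⟩
            have h4 : (bt (K q) (y q) B).S = ∅ := hKB
            rw [h4, exp_tm]
            simp [rs]
          · refine ⟨fun k => if k = (q, B) then 1 else 0, 0, fun x => ?_⟩
            unfold rs
            have h5 : ∀ k ∈ M', (if k = (q, B) then (1 : ℝ) else 0) * tm (bf K y k).S (bf K y k).a x =
                if k = (q, B) then tm (bf K y (q, B)).S (bf K y (q, B)).a x else 0 := by
              intro k _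
              split_ifs with hk
              · rw [hk, one_mul]
              · rw [zero_mul]
            rw [Finset.sum_congr rfl h5, Finset.sum_ite_eq' M' (q, B), if_pos (h3 B hB hKB), zero_add]
            rfl)
    exact ⟨u', u₀, fun x => by rw [hco, hu]⟩

end Pool.Agent.MP_ca1109_lc.Xr
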