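import Pool.Agent.MP_ca1109_lc.Xg.BB
import Pool.Agent.MP_ca1109_lc.Xt.Defs

/-!
# Small bias fools products of unimodular weights of terms with bounded quadratic mass
-/

namespace Pool.Agent.MP_ca1109_lc.Xr

open Finset Pool.Agent.MP_ca1109_lc.Mpg Pool.Agent.MP_ca1109_lc.Agp
open Pool.Agent.MP_ca1109_lc.Xp (Bias mq)
open Pool.Agent.MP_ca1109_lc.Dnf (Cube ch one E Term)
open Pool.Agent.MP_ca1109_lc.Xl (Tr pr Rd)
open Pool.Agent.MP_ca1109_lc.Xg (tj bbn)
open Pool.Agent.MP_ca1109_lc.Xt (hw)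

variable {n : ℕ} {ι : Type}

/-- The weight of `m`. -/
noncomputable def gp (ζ : ι → ℂ) (m : ι) : ℝ := ‖1 - ζ m‖ ^ 2 / 4

theorem gp_nonneg (ζ : ι → ℂ) (m : ι) : 0 ≤ gp ζ m := by
  unfold gp
  positivity

theorem gp_le {ζ : ι → ℂ} {m : ι} (h : ‖ζ m‖ = 1) : gp ζ m ≤ 1 := by
  have h1 : ‖1 - ζ m‖ ≤ 2 := by
    refine (norm_sub_le _ _).trans ?_
    rw [norm_one, h]
    norm_num
  have h2 : ‖1 - ζ m‖ ^ 2 ≤ 2 ^ 2 := pow_le_pow_left₀ (norm_nonneg _) h1 2
  unfold gp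
  linarith

/-- Case 1. -/
theorem bb_one (r : ℕ) (V : ℝ) {ε : ℝ} (hε : 0 < ε) : ∃ C n₀ : ℕ, ∀ n ≥ n₀,
    ∀ {ι : Type} (T : ι → Term n) (M : Finset ι) (ζ : ι → ℂ), (∀ m ∈ M, (T m).S ≠ ∅) → Rd r T M →
      (∀ m ∈ M, ‖ζ m‖ = 1) → ∑ m ∈ M, gp ζ m * (1 / 2 : ℝ) ^ (T m).S.card ≤ V →
      ∀ {Ω : Type} [Fintype Ω] [Nonempty Ω] (Y : Ω → Cube n) (δ : ℝ), 0 ≤ δ → δ * (n : ℝ) ^ C ≤ 1 →
        Bias δ Y → ‖(av fun ω => pr T ζ M (Y ω)) - av (pr T ζ M)‖ ≤ ε := by
  obtain ⟨C, n₀, hC⟩ := bbn r (4 * V) hε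
  refine ⟨C, n₀, ?_⟩
  intro n hn ι T M ζ h0 hM hζ hV Ω _ _ Y δ hδ hδn hY
  have h1 := hC n hn M T ζ (fun m hm => nonempty_iff_ne_empty.2 (h0 m hm)) hM hζ (by
      calc ∑ m ∈ M, (1 / 2 : ℝ) ^ (T m).S.card * ‖1 - ζ m‖ ^ 2
          = 4 * ∑ m ∈ M, gp ζ m * (1 / 2 : ℝ) ^ (T m).S.card := by
            rw [mul_sum]
            exact sum_congr rfl fun m _ => by unfold gp; ring
        _ ≤ 4 * V := by linarith) Y δ hδ hδn hY
  exact h1

theorem bbt_mq (t : Term n) (η : Finset (Fin n)) (y v : Cube n) :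
    Tr t.S t.a (mq y η v) ↔ (⟨t.S, fun i => xor (t.a i) (decide (i ∈ η) && v i)⟩ : Term n).Sat y := by
  unfold Tr Term.Sat mq
  refine forall_congr' fun i => forall_congr' fun _ => ?_
  simp only
  cases y i <;> cases (decide (i ∈ η) && v i) <;> cases t.a i <;> decide

theorem bbt_mq_disj {t : Term n} {η : Finset (Fin n)} (h : Disjoint t.S η) (y v : Cube n) :
    Tr t.S t.a (mq y η v) ↔ Tr t.S t.a y := by
  unfold Tr mq
  refine forall_congr' fun i => forall_congr' fun hi => ?_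
  have : i ∉ η := disjoint_left.1 h hi
  simp [this]

/-- Case 2: the pairs. -/
theorem bb_two (r : ℕ) (V : ℝ) {ε : ℝ} (hε : 0 < ε) : ∃ C n₀ : ℕ, ∀ n ≥ n₀,
    ∀ {ι : Type} (T : ι → Term n) (M : Finset ι) (ζ : ι → ℂ), (∀ m ∈ M, (T m).S ≠ ∅) → Rd r T M →
      (∀ m ∈ M, ‖ζ m‖ = 1) → ∀ (η : Finset (Fin n)) (v v' : Cube n), hw (gp ζ) T M η ≤ V →
      ∀ {Ω : Type} [Fintype Ω] [Nonempty Ω] (Y : Ω → Cube n) (δ : ℝ), 0 ≤ δ → δ * (n : ℝ) ^ C ≤ 1 →
        Bias δ Y →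
        ‖(av fun ω => pr T ζ M (mq (Y ω) η v) * (starRingEnd ℂ) (pr T ζ M (mq (Y ω) η v'))) -
          av fun y : Cube n => pr T ζ M (mq y η v) * (starRingEnd ℂ) (pr T ζ M (mq y η v'))‖ ≤ ε := by
  classical
  obtain ⟨C, n₀, hC⟩ := bbn (2 * r) (8 * V) hε
  refine ⟨C, n₀, ?_⟩
  intro n hn ι T M ζ h0 hM hζ η v v' hV Ω _ _ Y δ hδ hδn hY
  set M' : Finset ι := M.filter fun m => ¬ Disjoint (T m).S η with hM'
  set J : Finset (ι × Bool) := M' ×ˢ (univ : Finset Bool) with hJ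
  set T' : ι × Bool → Term n := fun j =>
    ⟨(T j.1).S, fun i => xor ((T j.1).a i) (decide (i ∈ η) && (if j.2 then v i else v' i))⟩ with hT
  set z : ι × Bool → ℂ := fun j => if j.2 then ζ j.1 else (starRingEnd ℂ) (ζ j.1) with hz
  have hsub : ∀ m ∈ M', m ∈ M := fun m hm => (mem_filter.1 hm).1
  have hkey : ∀ y : Cube n, pr T ζ M (mq y η v) * (starRingEnd ℂ) (pr T ζ M (mq y η v')) =
      tj J T' z y := by
    intro y
    have h1 : pr T ζ M (mq y η v) * (starRingEnd ℂ) (pr T ζ M (mq y η v')) =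
        ∏ m ∈ M, ((if Tr (T m).S (T m).a (mq y η v) then ζ m else 1) *
          (if Tr (T m).S (T m).a (mq y η v') then (starRingEnd ℂ) (ζ m) else 1)) := by
      unfold pr
      rw [map_prod, ← prod_mul_distrib]
      refine prod_congr rfl fun m _ => ?_
      congr 1
      split_ifs
      · rfl
      · exact map_one _
    have h2 : ∏ m ∈ M, ((if Tr (T m).S (T m).a (mq y η v) then ζ m else 1) *
          (if Tr (T m).S (T m).a (mq y η v') then (starRingEnd ℂ) (ζ m) else 1)) =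
        ∏ m ∈ M', ((if Tr (T m).S (T m).a (mq y η v) then ζ m else 1) *
          (if Tr (T m).S (T m).a (mq y η v') then (starRingEnd ℂ) (ζ m) else 1)) := by
      rw [hM']
      refine (prod_subset (filter_subset _ _) fun m hm hm' => ?_).symm
      have hd : Disjoint (T m).S η := by
        by_contra hd
        exact hm' (mem_filter.2 ⟨hm, hd⟩)
      simp only [bbt_mq_disj hd]
      split_ifs
      · rw [Complex.mul_conj, Complex.normSq_eq_norm_sq, hζ m hm]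
        simp
      · simp
    rw [h1, h2]
    unfold tj
    rw [hJ, prod_product]
    refine prod_congr rfl fun m _ => ?_
    rw [Fintype.prod_bool]
    have e1 : (T' (m, true)).Sat y ↔ Tr (T m).S (T m).a (mq y η v) := by
      rw [hT]
      simp only [if_true]
      exact (bbt_mq (T m) η y v).symm
    have e2 : (T' (m, false)).Sat y ↔ Tr (T m).S (T m).a (mq y η v') := by
      rw [hT]
      simp only [Bool.false_eq_true, if_false]
      exact (bbt_mq (T m) η y v').symm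
    simp only [e1, e2, hz, if_true, Bool.false_eq_true, if_false]
  have hread : ∀ u, (J.filter fun j => u ∈ (T' j).S).card ≤ 2 * r := by
    intro u
    have h1 : (J.filter fun j => u ∈ (T' j).S) ⊆
        (M.filter fun m => u ∈ (T m).S) ×ˢ (univ : Finset Bool) := by
      intro j hj
      rw [mem_filter] at hj
      rw [mem_product, mem_filter]
      rw [hJ, mem_product] at hj
      exact ⟨⟨hsub _ hj.1.1, hj.2⟩, mem_univ _⟩
    refine (card_le_card h1).trans ?_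
    rw [card_product, card_univ, Fintype.card_bool]
    have := hM u
    omega
  have hzn : ∀ j ∈ J, ‖z j‖ = 1 := by
    intro j hj
    rw [hJ, mem_product] at hj
    have h1 := hζ j.1 (hsub _ hj.1)
    rw [hz]
    simp only
    split_ifs
    · exact h1
    · rw [RCLike.norm_conj]; exact h1
  have hne : ∀ j ∈ J, (T' j).S.Nonempty := by
    intro j hj
    rw [hJ, mem_product] at hj
    exact nonempty_iff_ne_empty.2 (h0 j.1 (hsub _ hj.1))
  have hmass : ∑ j ∈ J, (1 / 2 : ℝ) ^ (T' j).S.card * ‖1 - z j‖ ^ 2 ≤ 8 * V := by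
    rw [hJ, sum_product]
    have h1 : ∀ m ∈ M', ∑ b : Bool, (1 / 2 : ℝ) ^ (T' (m, b)).S.card * ‖1 - z (m, b)‖ ^ 2 =
        8 * (gp ζ m * (1 / 2 : ℝ) ^ (T m).S.card) := by
      intro m _
      rw [Fintype.sum_bool]
      have h2 : ‖1 - (starRingEnd ℂ) (ζ m)‖ = ‖1 - ζ m‖ := by
        rw [show (1 : ℂ) - (starRingEnd ℂ) (ζ m) = (starRingEnd ℂ) (1 - ζ m) by rw [map_sub, map_one],
          RCLike.norm_conj]
      simp only [hz, hT, if_true, Bool.false_eq_true, if_false, h2]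
      unfold gp
      ring
    rw [sum_congr rfl h1, ← mul_sum]
    refine mul_le_mul_of_nonneg_left (le_trans (le_of_eq ?_) hV) (by norm_num)
    unfold hw
    rw [hM', sum_filter]
    refine sum_congr rfl fun m _ => ?_
    by_cases hd : ¬ Disjoint (T m).S η
    · rw [if_pos hd, Dnf.one_true hd, mul_one]
    · rw [if_neg hd, Dnf.one_false hd, mul_zero, mul_zero]
  have h1 := hC n hn J T' z hne hread hzn hmass Y δ hδ hδn hY
  rw [show (fun ω => pr T ζ M (mq (Y ω) η v) * (starRingEnd ℂ) (pr T ζ M (mq (Y ω) η v'))) =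
    fun ω => tj J T' z (Y ω) from funext fun ω => hkey _,
    show (fun y : Cube n => pr T ζ M (mq y η v) * (starRingEnd ℂ) (pr T ζ M (mq y η v'))) =
      tj J T' z from funext hkey]
  exact h1

end Pool.Agent.MP_ca1109_lc.Xr
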