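import Pool.Agent.MP_ca1109_lc.Xt.TC
import Pool.Agent.MP_ca1109_lc.Xt.KI

/-!
# Real statistics of terms with literals: definitions

* `Gapu c T M`: for every variable `i`, every set `C` of terms of `M` through `i`, every `m₀ ∈ C` and
  all unimodular weights `ζ`, the product over `C` changes by at least `c * ‖1 - ζ m₀‖` at some
  point, if the bit `i` is flipped.
* `bt K y B`: the term `x = y` on `K` and `x = true` on `B`; `bf K y` the family of these terms, for
  blocks `q` with core `K q`.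
* `Isl s K y v C q`: the terms of the block `q` can be isolated among the terms in `C`.
* `df T m m'`: the variables at which two terms differ, as partial assignments.
-/

namespace Pool.Agent.MP_ca1109_lc.Xr

open Finset Pool.Agent.MP_ca1109_lc.Mpg Pool.Agent.MP_ca1109_lc.Agp
open Pool.Agent.MP_ca1109_lc.Dnf (Cube ch one Term)
open Pool.Agent.MP_ca1109_lc.Xp (fl)
open Pool.Agent.MP_ca1109_lc.Xl (Tr tm pr Rd)

variable {n : ℕ} {ι β : Type}

/-- For every set `C` of terms through `i` and every `m₀ ∈ C`, the product over `C` changes by at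
least `c * ‖1 - ζ m₀‖` at some point, if the bit `i` is flipped. -/
def Gapu (c : ℝ) (T : ι → Term n) (M : Finset ι) : Prop :=
  ∀ ζ : ι → ℂ, (∀ m, ‖ζ m‖ = 1) → ∀ (i : Fin n) (C : Finset ι), C ⊆ M →
    (∀ m ∈ C, i ∈ (T m).S) → ∀ m₀ ∈ C,
      ∃ x : Cube n, c * ‖1 - ζ m₀‖ ≤ ‖pr T ζ C (fl i x) - pr T ζ C x‖

/-- The mass at scale `D`. -/
noncomputable def vd (T : ι → Term n) (M : Finset ι) (u : ι → ℝ) (D : ℝ) : ℝ :=
  ∑ m ∈ M, (1 / 2 : ℝ) ^ (T m).S.card * min 1 ((u m / D) ^ 2)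

/-- The term `x = y` on `K` and `x = true` on `B`. -/
def bt (K : Finset (Fin n)) (y : Cube n) (B : Finset (Fin n)) : Term n :=
  ⟨K ∪ B, fun i => if i ∈ K then y i else true⟩

/-- The block terms. -/
def bf (K : β → Finset (Fin n)) (y : β → Cube n) (m : β × Finset (Fin n)) : Term n :=
  bt (K m.1) (y m.1) m.2

/-- The terms of the block `q` can be isolated among the terms in `C` through `v`. -/
def Isl (s : ℕ) (K : β → Finset (Fin n)) (y : β → Cube n) (v : Fin n)
    (C : Finset (β × Finset (Fin n))) (q : β) : Prop :=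
  ∃ (D U : Finset (Fin n)) (p : Cube n), Disjoint (K q) D ∧ U ⊆ K q ∧ v ∉ U ∧
    (∀ m ∈ C, m.1 = q → m.2 ⊆ D ∧ U.card + m.2.card ≤ s) ∧
    (∀ i ∈ K q, i ≠ v → p i = y q i) ∧
    ∀ m ∈ C, m.1 ≠ q → (∃ u ∈ K m.1, u ≠ v ∧ u ∉ U ∧ u ∉ D ∧ p u ≠ y m.1 u) ∨
      ∃ u ∈ U, u ∉ K m.1 ∪ m.2

/-- The constant. -/
noncomputable def gapc (s R : ℕ) : ℝ := 1 / (2 ^ s * (1 + R * 2 ^ s)) ^ (R + 1)

/-- The variables at which two terms differ, as partial assignments. -/
def df (T : ι → Term n) (m m' : ι) : Finset (Fin n) :=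
  ((T m).S ∪ (T m').S).filter fun i => ¬ (i ∈ (T m).S ∧ i ∈ (T m').S ∧ (T m).a i = (T m').a i)

/-- The scales. -/
def sc (r : ℕ) : ℕ → ℕ
  | 0 => 0
  | j + 1 => 8 * (r + 1) * sc r j + 3 * r + 4

end Pool.Agent.MP_ca1109_lc.Xr
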