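import Pool.Agent.MP_ca1109_lc.Xd.Defs
import Pool.Agent.MP_ca1109_lc.Xr.Defs

/-!
# Products of unimodular weights of terms with any literals at the leaves: definitions

* `BigT r c C n`: products of unimodular weights of a family of terms with `Gapu`, of large energy.
* `MixT r Q C n`: products of weights of order `Q` and of unimodular weights of bounded mass.
-/

namespace Pool.Agent.MP_ca1109_lc.Xr

open Finset Pool.Agent.MP_ca1109_lc.Mpg Pool.Agent.MP_ca1109_lc.Agp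
open Pool.Agent.MP_ca1109_lc.Dnf (Cube Term)
open Pool.Agent.MP_ca1109_lc.Xl (pr Rd)

/-- Products of unimodular weights of terms; the energy, where the term `m` counts `|m|` times, is at
least `C (⌈log₂ n⌉ + 1)`. -/
def BigT (r : ℕ) (c C : ℝ) (n : ℕ) : Set (Cube n → ℂ) :=
  {f | ∃ (ι : Type) (_ : DecidableEq ι) (T : ι → Term n) (M : Finset ι) (ζ : ι → ℂ), Rd r T M ∧
    (∀ m ∈ M, (T m).S ≠ ∅) ∧ Gapu c T M ∧ (∀ m, ‖ζ m‖ = 1) ∧
    C * ((Nat.clog 2 n : ℝ) + 1) ≤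
      ∑ m ∈ M, ((T m).S.card : ℝ) * (1 / 2 : ℝ) ^ (T m).S.card * ‖1 - ζ m‖ ^ 2 ∧
    f = pr T ζ M}

/-- Products of unimodular weights of terms; the weights outside `N` are of order `Q`, and the mass of
`N`, where the term `m` counts `|m|` times, is at most `C (⌈log₂ n⌉ + 1)`. -/
def MixT (r Q : ℕ) (C : ℝ) (n : ℕ) : Set (Cube n → ℂ) :=
  {f | ∃ (ι : Type) (_ : DecidableEq ι) (T : ι → Term n) (M N : Finset ι) (ζ : ι → ℂ), Rd r T M ∧
    (∀ m ∈ M, (T m).S ≠ ∅) ∧ N ⊆ M ∧ (∀ m, ‖ζ m‖ = 1) ∧ (∀ m ∈ M, m ∉ N → ζ m ^ Q = 1) ∧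
    ∑ m ∈ N, ((T m).S.card : ℝ) * (1 / 2 : ℝ) ^ (T m).S.card ≤ C * ((Nat.clog 2 n : ℝ) + 1) ∧
    f = pr T ζ M}

end Pool.Agent.MP_ca1109_lc.Xr
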