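import Pool.Agent.MP_ca1109_lc.Xd.BH0
import Pool.Agent.MP_ca1109_lc.Xd.GL
import Pool.Agent.MP_ca1109_lc.Xr.WDT
import Pool.Agent.MP_ca1109_lc.Xl.MA

/-!
# From the sources to the leaves
-/

namespace Pool.Agent.MP_ca1109_lc.Xr

open Finset Pool.Agent.H66 Pool.Agent.MP_ca1109_lc.Mpg Pool.Agent.MP_ca1109_lc.Agp
open Pool.Agent.MP_ca1109_lc.Dnf (Cube ch one E mix Term one_nonneg one_le one_true one_false)
open Pool.Agent.MP_ca1109_lc.Xp (Bias xo Miss mq uv gq gq_xo qgen)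
open Pool.Agent.MP_ca1109_lc.Xl (Tr pr Rd Fam ml_norm_pr ml_drop card_le)
open Pool.Agent.MP_ca1109_lc.Xg (yma_norm_av yma_close yma_av_const yma_av_mul_left yma_unif
  yma_clog' yma_clog_le yma_err)
open Pool.Agent.MP_ca1109_lc.Xd (Pqc pqc_close pqc_level miss_hit bg_wide bg_pow lf LFooled cz
  gl_lf_xo gl_bias)

variable {n : ℕ} {ι : Type}

/-! ## From the sources to the leaves -/

/-- From the sources to the leaves. -/
theorem gq_of (r k : ℕ) {𝒯 : ∀ n : ℕ, Set ((Fin n → Bool) → ℂ)}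
    (h𝒯 : ∀ n, ∀ f ∈ 𝒯 n, ∀ x, ‖f x‖ ≤ 1) {ε : ℝ} (hε : 0 < ε)
    (Hs : ∃ c KK n₁ : ℕ, ∀ n ≥ n₁, ∀ D : Finset (Fin n), D.card ≤ k * Nat.clog 2 n →
      ∀ {Ω₁ Ω₂ Ω₃ : Type} [Fintype Ω₁] [Nonempty Ω₁] [Fintype Ω₂] [Nonempty Ω₂]
        [Fintype Ω₃] [Nonempty Ω₃] (Y : Cube n → Ω₁ → Cube n)
        (η : Fin (Nat.clog 2 n + r + 1) → Ω₂ → Finset (Fin n))
        (H : Ω₃ → Fin n → Fin c → Bool),
        (∀ t, Bias (1 / ((n : ℝ) + 1) ^ KK) (Y t)) →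
        (∀ t t', (∀ i ∈ D, t i = t' i) → Y t = Y t') →
        (∀ (l : Fin (Nat.clog 2 n + r + 1)) (s : ℕ),
          Miss s ((1 / 2 : ℝ) ^ ((l : ℕ) + 1)) (2 ^ s / ((n : ℝ) + 1) ^ KK) (η l)) →
        Xp.Hs ((1 / 2) ^ c + 1 / ((n : ℝ) + 1) ^ KK) H →
        ∀ f ∈ 𝒯 n, ‖Pqc Y η H f - av f‖ ≤ ε / 4) : LFooled 𝒯 k ε := by
  classical
  obtain ⟨c, KK, n₁, Hx⟩ := Hs
  obtain ⟨E, G, hG, hgen⟩ := qgen r c (KK + (k + 1))
  obtain ⟨n₂, hn₂⟩ := exists_nat_gt ((2 : ℝ) ^ k * (2 + 2 / ε))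
  refine ⟨E, G, hG, max n₁ n₂, fun n hn L a hL f hf => ?_⟩
  have hn1 : n₁ ≤ n := (le_max_left _ _).trans hn
  have hn2 : (n₂ : ℝ) ≤ n := by exact_mod_cast (le_max_right _ _).trans hn
  have hn0 : (0 : ℝ) ≤ n := Nat.cast_nonneg n
  have hp0 : (0 : ℝ) < (n : ℝ) + 1 := by linarith
  have hp1 : (1 : ℝ) ≤ (n : ℝ) + 1 := by linarith
  obtain ⟨M₁, M₂, M₃, hM₁, hM₂, hM₃, Y, η, H, hY, hη, hH, hf'⟩ := hgen n
  have : Nonempty (Fin M₁) := ⟨⟨0, hM₁⟩⟩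
  have : Nonempty (Fin M₂) := ⟨⟨0, hM₂⟩⟩
  have : Nonempty (Fin M₃) := ⟨⟨0, hM₃⟩⟩
  obtain ⟨δ, hδ⟩ : ∃ δ : ℝ, δ = 1 / ((n : ℝ) + 1) ^ (KK + (k + 1)) := ⟨_, rfl⟩
  rw [← hδ] at hY hH
  have hδ0 : 0 ≤ δ := by rw [hδ]; positivity
  -- the numbers
  have hbig : (2 : ℝ) ^ k * (2 + 2 / ε) ≤ (n : ℝ) + 1 := by linarith
  have h2k : (0 : ℝ) < 2 ^ k := by positivity
  have hb1 : (2 : ℝ) ^ k * 2 ≤ (n : ℝ) + 1 := by
    have h3 : (0 : ℝ) ≤ 2 ^ k * (2 / ε) := by positivity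
    nlinarith
  have hb2 : (2 : ℝ) ^ k * (2 / ε) ≤ (n : ℝ) + 1 := by nlinarith
  have hL2 : (2 : ℝ) ^ L.card ≤ 2 ^ k * ((n : ℝ) + 1) ^ k := by
    calc (2 : ℝ) ^ L.card ≤ 2 ^ (k * Nat.clog 2 n) := pow_le_pow_right₀ (by norm_num) hL
      _ = ((2 : ℝ) ^ Nat.clog 2 n) ^ k := by rw [mul_comm, pow_mul]
      _ ≤ (2 * ((n : ℝ) + 1)) ^ k := pow_le_pow_left₀ (by positivity) (Xp.ma_clog n) k
      _ = 2 ^ k * ((n : ℝ) + 1) ^ k := mul_pow _ _ _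
  have hδL : δ * 2 ^ L.card ≤ 2 ^ k / ((n : ℝ) + 1) * (1 / ((n : ℝ) + 1) ^ KK) := by
    calc δ * 2 ^ L.card ≤ δ * (2 ^ k * ((n : ℝ) + 1) ^ k) := mul_le_mul_of_nonneg_left hL2 hδ0
      _ = 2 ^ k / ((n : ℝ) + 1) * (1 / ((n : ℝ) + 1) ^ KK) := by
        rw [hδ, pow_add, pow_add, pow_one]
        field_simp
  have hKK : 1 / ((n : ℝ) + 1) ^ KK ≤ 1 := by
    rw [div_le_one (by positivity)]
    exact one_le_pow₀ hp1
  have hKK0 : 0 ≤ 1 / ((n : ℝ) + 1) ^ KK := by positivity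
  have hq1 : (2 : ℝ) ^ k / ((n : ℝ) + 1) ≤ 1 / 2 := by
    rw [div_le_iff₀ hp0]
    linarith
  have hq2 : (2 : ℝ) ^ k / ((n : ℝ) + 1) ≤ ε / 2 := by
    rw [div_le_iff₀ hp0]
    have h3 : (2 : ℝ) ^ k * (2 / ε) * (ε / 2) = 2 ^ k := by field_simp
    nlinarith
  have hδL1 : δ * 2 ^ L.card ≤ 1 / 2 := hδL.trans (by nlinarith)
  have hδL2 : δ * 2 ^ L.card ≤ ε / 2 := hδL.trans (by nlinarith)
  have hδL3 : 2 ^ (L.card + 1) * δ ≤ 1 / ((n : ℝ) + 1) ^ KK := by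
    have h3 : 2 ^ (L.card + 1) * δ = 2 * (δ * 2 ^ L.card) := by ring
    rw [h3]
    nlinarith
  have hδK : δ ≤ 1 / ((n : ℝ) + 1) ^ KK := by
    have h3 : (1 : ℝ) ≤ 2 ^ (L.card + 1) := one_le_pow₀ (by norm_num)
    nlinarith
  have hηK : ∀ (l : Fin (Nat.clog 2 n + r + 1)) (s : ℕ),
      Miss s ((1 / 2 : ℝ) ^ ((l : ℕ) + 1)) (2 ^ s / ((n : ℝ) + 1) ^ KK) (η l) := by
    intro l s A hA
    refine (hη l s A hA).trans ?_
    rw [div_eq_mul_one_div, div_eq_mul_one_div ((2 : ℝ) ^ s), ← hδ]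
    exact mul_le_mul_of_nonneg_left hδK (by positivity)
  have hHK : Xp.Hs ((1 / 2) ^ c + 1 / ((n : ℝ) + 1) ^ KK) H := fun Q hQ =>
    (hH Q hQ).trans (by linarith)
  -- the conditioned string
  obtain ⟨hP, Ω', i1, i2, Y', hY', hloc, hlf⟩ := cz hδ0 hY L hδL1
  have hnorm : ∀ x, ‖f x‖ ≤ 1 := h𝒯 n f hf
  have key := Hx n hn1 L hL (fun t => Y' (xo a t)) η H (fun t => gl_bias (hY' _) hδL3)
    (fun t t' ht => hloc _ _ fun j hj => by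
      show xor (a j) (t j) = xor (a j) (t' j)
      rw [ht j hj])
    hηK hHK f hf
  have hav : (av fun p : Fin (2 ^ E n) => lf L a f (out G n p)) =
      av fun b : Fin (Nat.clog 2 n + r + 1) → Fin c → Bool => av fun ω₂ => av fun ω₃ =>
        av fun ω₁ => lf L a f (gq (Y ω₁) (fun l => η l ω₂) (H ω₃) b) := by
    rw [← hf' (lf L a f)]
    exact (Xv.na_eq_av (2 ^ E n) fun p => lf L a f (out G n p)).symm
  have hin : ∀ (b : Fin (Nat.clog 2 n + r + 1) → Fin c → Bool) (ω₂ : Fin M₂) (ω₃ : Fin M₃),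
      ‖(av fun ω₁ => lf L a f (gq (Y ω₁) (fun l => η l ω₂) (H ω₃) b)) -
        (1 / 2) ^ L.card * av fun ω₁ : Ω' =>
          f (xo (Y' (xo a (gq (fun _ => false) (fun l => η l ω₂) (H ω₃) b)) ω₁)
            (gq (fun _ => false) (fun l => η l ω₂) (H ω₃) b))‖ ≤ δ := by
    intro b ω₂ ω₃
    obtain ⟨t, ht⟩ : ∃ t : Cube n, t = gq (fun _ => false) (fun l => η l ω₂) (H ω₃) b := ⟨_, rfl⟩
    have h1 : (av fun ω₁ => lf L a f (gq (Y ω₁) (fun l => η l ω₂) (H ω₃) b)) =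
        av fun ω₁ => lf L (xo a t) (fun z => f (xo z t)) (Y ω₁) := by
      congr 1
      funext ω₁
      rw [gq_xo (Y ω₁), ← ht, gl_lf_xo]
    rw [h1, hlf, ← ht]
    have h2 : ‖av fun ω' => f (xo (Y' (xo a t) ω') t)‖ ≤ 1 := Xp.ma_norm_av fun ω' => hnorm _
    have h3 := hP (xo a t)
    have h4 : ((avg fun ω => one (Tr L (xo a t) (Y ω)) : ℝ) : ℂ) *
        (av fun ω' => f (xo (Y' (xo a t) ω') t)) -
        (1 / 2) ^ L.card * (av fun ω' => f (xo (Y' (xo a t) ω') t)) =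
        (((avg fun ω => one (Tr L (xo a t) (Y ω))) - (1 / 2) ^ L.card : ℝ) : ℂ) *
          av fun ω' => f (xo (Y' (xo a t) ω') t) := by
      push_cast
      ring
    rw [h4, norm_mul, Complex.norm_real, Real.norm_eq_abs]
    calc |(avg fun ω => one (Tr L (xo a t) (Y ω))) - (1 / 2) ^ L.card| *
        ‖av fun ω' => f (xo (Y' (xo a t) ω') t)‖ ≤ δ * 1 :=
          mul_le_mul h3 h2 (norm_nonneg _) hδ0
      _ = δ := mul_one _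
  have hPqc : (1 / 2 : ℂ) ^ L.card * Pqc (fun t => Y' (xo a t)) η H f =
      av fun b : Fin (Nat.clog 2 n + r + 1) → Fin c → Bool => av fun ω₂ => av fun ω₃ =>
        (1 / 2) ^ L.card * av fun ω₁ : Ω' =>
          f (xo (Y' (xo a (gq (fun _ => false) (fun l => η l ω₂) (H ω₃) b)) ω₁)
            (gq (fun _ => false) (fun l => η l ω₂) (H ω₃) b)) := by
    unfold Pqc
    simp only [yma_av_mul_left]
  have h1 : ‖(av fun p : Fin (2 ^ E n) => lf L a f (out G n p)) -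
      (1 / 2) ^ L.card * Pqc (fun t => Y' (xo a t)) η H f‖ ≤ δ := by
    rw [hav, hPqc]
    exact yma_close fun b => yma_close fun ω₂ => yma_close fun ω₃ => hin b ω₂ ω₃
  have h2 : ‖(1 / 2 : ℂ) ^ L.card * Pqc (fun t => Y' (xo a t)) η H f -
      (1 / 2) ^ L.card * av f‖ ≤ (1 / 2) ^ L.card * (ε / 4) := by
    rw [← mul_sub, norm_mul]
    refine mul_le_mul (le_of_eq ?_) key (norm_nonneg _) (by positivity)
    rw [norm_pow]
    norm_num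
  have h3 : δ ≤ ε / 2 * (1 / 2) ^ L.card := by
    have h4 : δ = δ * 2 ^ L.card * (1 / 2) ^ L.card := by
      rw [mul_assoc, ← mul_pow]
      norm_num
    rw [h4]
    exact mul_le_mul_of_nonneg_right hδL2 (by positivity)
  have h5 : (0 : ℝ) < (1 / 2) ^ L.card := by positivity
  calc ‖(av fun p : Fin (2 ^ E n) => lf L a f (out G n p)) - (1 / 2) ^ L.card * av f‖ ≤
      ‖(av fun p : Fin (2 ^ E n) => lf L a f (out G n p)) -
        (1 / 2) ^ L.card * Pqc (fun t => Y' (xo a t)) η H f‖ +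
      ‖(1 / 2 : ℂ) ^ L.card * Pqc (fun t => Y' (xo a t)) η H f - (1 / 2) ^ L.card * av f‖ :=
        norm_sub_le_norm_sub_add_norm_sub _ _ _
    _ ≤ ε * (1 / 2) ^ L.card := by nlinarith

end Pool.Agent.MP_ca1109_lc.Xr
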