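import Pool.Agent.MP_ca1109_lc.Xr.BGU
import Pool.Agent.MP_ca1109_lc.Xr.BGV

/-!
# Products of unimodular weights of terms with any literals, of large energy, at the leaves
-/

namespace Pool.Agent.MP_ca1109_lc.Xr

open Finset Pool.Agent.H66 Pool.Agent.MP_ca1109_lc.Mpg Pool.Agent.MP_ca1109_lc.Agp
open Pool.Agent.MP_ca1109_lc.Dnf (Cube ch one E mix Term one_nonneg one_le one_true one_false)
open Pool.Agent.MP_ca1109_lc.Xp (Bias xo Miss mq uv gq gq_xo qgen)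
open Pool.Agent.MP_ca1109_lc.Xl (Tr pr Rd Fam ml_norm_pr ml_drop card_le)
open Pool.Agent.MP_ca1109_lc.Xg (yma_norm_av yma_close yma_av_const yma_av_mul_left yma_unif
  yma_clog' yma_clog_le yma_err)
open Pool.Agent.MP_ca1109_lc.Xd (Pqc pqc_close pqc_level miss_hit bg_wide bg_pow lf LFooled cz
  gl_lf_xo gl_bias)

variable {n : ℕ} {ι : Type}

/-- **Row BGT.** -/
theorem bigT (r k : ℕ) {c : ℝ} (hc : 0 < c) (hc1 : c ≤ 1) {ε : ℝ} (hε : 0 < ε) :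
    ∃ C : ℝ, 0 ≤ C ∧ LFooled (BigT r c C) k ε := by
  obtain ⟨c', K, n₀, C, hC, H⟩ := bgxT r k hc hc1 (show 0 < ε / 4 by positivity)
  refine ⟨C, hC, gq_of r k ?_ hε ⟨c', K, n₀, H⟩⟩
  rintro n f ⟨ι, _, T, M, ζ, -, -, -, hζ, -, rfl⟩ x
  exact (ml_norm_pr (fun m _ => hζ m) x).le

end Pool.Agent.MP_ca1109_lc.Xr
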