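import Pool.Agent.MP_ca1109_lc.Xr.Defs

/-!
# Row PAT: patterns, if the size of the change depends on the term
-/

namespace Pool.Agent.MP_ca1109_lc.Xr

open Finset Pool.Agent.MP_ca1109_lc.Mpg Pool.Agent.MP_ca1109_lc.Agp
open Pool.Agent.MP_ca1109_lc.Dnf (Cube ch one Term)
open Pool.Agent.MP_ca1109_lc.Xp (fl later)
open Pool.Agent.MP_ca1109_lc.Xl (Tr tm pr Rd)
open Pool.Agent.MP_ca1109_lc.Xt

variable {n : ℕ} {ι β : Type}

/-- The jump. -/
theorem pat_jump [DecidableEq ι] {T : ι → Term n} {A : Finset ι} {ζ : ι → ℂ} {g : ℝ}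
    (hζ : ∀ m, ‖ζ m‖ = 1) {v : Fin n} {C : Finset ι}
    (hC : C ⊆ A.filter (fun m => v ∈ (T m).S)) {x0 x : Cube n}
    (hg : g ≤ ‖pr T ζ C (fl v x0) - pr T ζ C x0‖)
    (hx : ∀ u ∈ C.biUnion fun m => (T m).S, u ≠ v → x u = x0 u)
    (hF : ∀ m ∈ A.filter (fun m => v ∈ (T m).S) \ C, ∃ w ∈ (T m).S, w ≠ v ∧ x w ≠ (T m).a w) :
    g ≤ ‖pr T ζ A (fl v x) - pr T ζ A x‖ := by
  classical
  obtain ⟨F, hFe⟩ : ∃ F, F = A.filter (fun m => v ∈ (T m).S) \ C := ⟨_, rfl⟩
  obtain ⟨N, hN⟩ : ∃ N, N = A.filter (fun m => v ∉ (T m).S) := ⟨_, rfl⟩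
  rw [← hFe] at hF
  have hA : A = N ∪ (F ∪ C) := by
    rw [hFe, sdiff_union_of_subset hC, hN, union_comm, filter_union_filter_not_eq]
  have hd2 : Disjoint F C := by
    rw [hFe]
    exact sdiff_disjoint
  have hsubV : ∀ m ∈ F ∪ C, m ∈ A ∧ v ∈ (T m).S := by
    intro m hm
    rcases mem_union.1 hm with h | h
    · rw [hFe] at h
      exact mem_filter.1 (mem_sdiff.1 h).1
    · exact mem_filter.1 (hC h)
  have hd3 : Disjoint N (F ∪ C) := by
    rw [disjoint_left]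
    intro m h1 h2
    rw [hN] at h1
    exact (mem_filter.1 h1).2 (hsubV m h2).2
  have hexp : ∀ y, pr T ζ A y = pr T ζ N y * (pr T ζ F y * pr T ζ C y) := by
    intro y
    conv_lhs => rw [hA]
    rw [ki_pr_union hd3, ki_pr_union hd2]
  have hNe : pr T ζ N (fl v x) = pr T ζ N x := by
    refine ki_pr_congr fun m hm => ki_tr_congr fun u hu => ki_fl_ne ?_ x
    rintro rfl
    rw [hN] at hm
    exact (mem_filter.1 hm).2 hu
  have hF1 : ∀ y : Cube n, (∀ u, u ≠ v → y u = x u) → pr T ζ F y = 1 := by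
    intro y hy
    unfold pr
    refine prod_eq_one fun m hm => if_neg fun h => ?_
    obtain ⟨w, hw1, hw2, hw3⟩ := hF m hm
    exact hw3 ((hy w hw2).symm.trans (h w hw1))
  rw [hexp, hexp, hNe, hF1 _ (fun u hu => ki_fl_ne hu x), hF1 x (fun _ _ => rfl), one_mul, one_mul,
    ← mul_sub, norm_mul, ki_norm_pr (fun m _ => hζ m), one_mul]
  refine hg.trans (le_of_eq ?_)
  have hU : ∀ m ∈ C, ∀ u ∈ (T m).S, u ∈ C.biUnion fun m => (T m).S := fun m hm u hu =>
    mem_biUnion.2 ⟨m, hm, hu⟩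
  by_cases hv : x v = x0 v
  · have e1 : pr T ζ C x = pr T ζ C x0 := by
      refine ki_pr_congr fun m hm => ki_tr_congr fun u hu => ?_
      by_cases h : u = v
      · rw [h, hv]
      · exact hx u (hU m hm u hu) h
    have e2 : pr T ζ C (fl v x) = pr T ζ C (fl v x0) := by
      refine ki_pr_congr fun m hm => ki_tr_congr fun u hu => ?_
      by_cases h : u = v
      · rw [h, ki_fl_self, ki_fl_self, hv]
      · rw [ki_fl_ne h, ki_fl_ne h]
        exact hx u (hU m hm u hu) h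
    rw [e1, e2]
  · have hv' : x v = !(x0 v) := by
      generalize x v = b at hv
      generalize x0 v = b' at hv
      cases b <;> cases b' <;> first | rfl | exact absurd rfl hv
    have e1 : pr T ζ C x = pr T ζ C (fl v x0) := by
      refine ki_pr_congr fun m hm => ki_tr_congr fun u hu => ?_
      by_cases h : u = v
      · rw [h, ki_fl_self, hv']
      · rw [ki_fl_ne h]
        exact hx u (hU m hm u hu) h
    have e2 : pr T ζ C (fl v x) = pr T ζ C x0 := by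
      refine ki_pr_congr fun m hm => ki_tr_congr fun u hu => ?_
      by_cases h : u = v
      · rw [h, ki_fl_self, hv', Bool.not_not]
      · rw [ki_fl_ne h]
        exact hx u (hU m hm u hu) h
    rw [e1, e2, norm_sub_rev]

theorem patu (r : ℕ) : ∃ K : ℕ, r ≤ K ∧ ∀ {n : ℕ} {ι : Type} [DecidableEq ι] (T : ι → Term n)
    (ζ : ι → ℂ) (A : Finset ι) (c : ℝ), Rd r T A → (∀ m, ‖ζ m‖ = 1) → 0 ≤ c → Gapu c T A →
    ∃ (Q : ι → Fin n → Finset (Fin n)) (D : ι → Finset (Fin n)) (a : ι → Fin n → Cube n),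
      Pat K T A Q D ∧ Piv r T ζ A A (fun m => c ^ 2 * ‖1 - ζ m‖ ^ 2 / (4 * r)) Q a := by
  refine ⟨(1 + r) ^ r * (1 + r ^ 3 + r + r * (r * (r ^ 2 + 1))) + r ^ 2 + r, by omega, ?_⟩
  intro n ι _ T ζ A c hA hζ hc0 hG
  classical
  choose σ hσ _ using fun s : Finset (Fin n) => Finset.exists_cycleOn s
  have key : ∀ (m0 : ι) (v : Fin n), m0 ∈ A → v ∈ (T m0).S → ∃ (Q : Finset (Fin n)) (a : Cube n),
      (T m0).S ⊆ Q ∧ (Q \ (T m0).S).card ≤ r ^ 2 ∧
      Q ⊆ (ki_nx σ T A)^[r] (ki_D0 r T A m0) ∧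
      (∀ (η : Finset (Fin n)) (x : Cube n),
        (v ∈ η ∧ Disjoint η (later (T m0).S v ∪ (Q \ (T m0).S))) → Tr (Q.erase v) a x →
        Priv T A η v x) ∧
      ∀ x : Cube n, Tr (Q.erase v) a x → c * ‖1 - ζ m0‖ ≤ ‖pr T ζ A (fl v x) - pr T ζ A x‖ := by
    intro m0 v hm0 hv
    obtain ⟨C, hC1, hC2, hC3, hC4⟩ := ki_cluster (A := A) hm0 hv r
    obtain ⟨x0, hx0⟩ := hG ζ hζ v C (hC1.trans (filter_subset _ _))
      (fun m hm => (mem_filter.1 (hC1 hm)).2) m0 hC2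
    obtain ⟨U, hU⟩ : ∃ U, U = C.biUnion fun m => (T m).S := ⟨_, rfl⟩
    rw [← hU] at hC3 hC4
    obtain ⟨F, hF⟩ : ∃ F, F = A.filter (fun m => v ∈ (T m).S) \ C := ⟨_, rfl⟩
    rw [← hF] at hC4
    have hFC : F.card + C.card ≤ r := by
      rw [hF, card_sdiff_add_card_eq_card hC1]
      exact hA v
    have hvU : v ∈ U := by
      rw [hU]
      exact mem_biUnion.2 ⟨m0, hC2, hv⟩
    have hSU : (T m0).S ⊆ U := by
      rw [hU]
      exact subset_biUnion_of_mem (fun m => (T m).S) hC2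
    have hC0 : 1 ≤ C.card := card_pos.2 ⟨m0, hC2⟩
    obtain ⟨Q, a, hQ1, hQ2, hQ3, hQ4, hQ5⟩ := ki_killers (A := A) hσ (v := v) F
      (fun m hm => by rw [hF] at hm; exact (mem_filter.1 (mem_sdiff.1 hm).1).1)
      (fun m hm => by rw [hF] at hm; exact (mem_filter.1 (mem_sdiff.1 hm).1).2) U hvU
      (fun m hm => by have := hC4 m hm; omega) x0
    refine ⟨Q, a, hSU.trans hQ1, ?_, ?_, ?_, ?_⟩
    · have h1 : Q \ (T m0).S ⊆ (Q \ U) ∪ (U \ (T m0).S) := by
        intro u hu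
        obtain ⟨hu1, hu2⟩ := mem_sdiff.1 hu
        by_cases h : u ∈ U
        · exact mem_union_right _ (mem_sdiff.2 ⟨h, hu2⟩)
        · exact mem_union_left _ (mem_sdiff.2 ⟨hu1, h⟩)
      have h2 := (card_le_card h1).trans (card_union_le _ _)
      obtain ⟨c, hc⟩ : ∃ c, C.card = c + 1 := ⟨C.card - 1, by omega⟩
      rw [hc] at hC3 hFC
      rw [Nat.add_sub_cancel] at hC3
      have hr1 : 1 ≤ r := by omega
      nlinarith
    · refine hQ3.trans ((ki_it_le (by omega : F.card ≤ r) _).trans (ki_it_mono ?_ _))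
      rw [hU]
      intro u hu
      obtain ⟨m, hm, hum⟩ := mem_biUnion.1 hu
      unfold ki_D0
      refine mem_union_right _ (mem_biUnion.2 ⟨m, mem_filter.2 ⟨(mem_filter.1 (hC1 hm)).1, ?_, ?_⟩,
        hum⟩)
      · exact not_disjoint_iff.2 ⟨v, hv, (mem_filter.1 (hC1 hm)).2⟩
      · have h1 : (T m).S \ (T m0).S ⊆ U \ (T m0).S := by
          refine sdiff_subset_sdiff ?_ Subset.rfl
          rw [hU]
          exact subset_biUnion_of_mem (fun m => (T m).S) hm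
        have h2 := card_le_card h1
        obtain ⟨c, hc⟩ : ∃ c, C.card = c + 1 := ⟨C.card - 1, by omega⟩
        rw [hc] at hC3 hFC
        rw [Nat.add_sub_cancel] at hC3
        nlinarith
    · rintro η x ⟨hvη, hdis⟩ hx
      refine ⟨hvη, fun m hm hvm htr u hu huη => ?_⟩
      rw [disjoint_left] at hdis
      by_cases hmC : m ∈ C
      · have huQ : u ∈ Q := hQ1 (by rw [hU]; exact mem_biUnion.2 ⟨m, hmC, hu⟩)
        have h1 := hdis huη
        rw [mem_union, not_or] at h1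
        have h2 : u ∈ (T m0).S := by
          by_contra h
          exact h1.2 (mem_sdiff.2 ⟨huQ, h⟩)
        by_contra h3
        push Not at h3
        exact h1.1 (mem_filter.2 ⟨h2, h3⟩)
      · exfalso
        have hmF : m ∈ F := by
          rw [hF]
          exact mem_sdiff.2 ⟨mem_filter.2 ⟨hm, hvm⟩, hmC⟩
        obtain ⟨w, hw1, hw2, hw3⟩ := hQ5 m hmF
        obtain ⟨hw4, hw5⟩ := mem_sdiff.1 hw1
        have hwη : w ∉ η := fun h => by
          have h1 := hdis h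
          rw [mem_union, not_or] at h1
          exact h1.2 (mem_sdiff.2 ⟨hw4, fun h2 => hw5 (hSU h2)⟩)
        have hwv : w ≠ v := fun h => hw5 (h ▸ hvU)
        exact hw3 ((hx w (mem_erase.2 ⟨hwv, hw4⟩)).symm.trans
          (htr w (mem_sdiff.2 ⟨hw2, hwη⟩)))
    · intro x hx
      refine pat_jump hζ hC1 hx0 (fun u hu huv => ?_) (fun m hm => ?_)
      · rw [← hU] at hu
        rw [hx u (mem_erase.2 ⟨huv, hQ1 hu⟩), hQ4 u hu]
      · rw [← hF] at hm
        obtain ⟨w, hw1, hw2, hw3⟩ := hQ5 m hm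
        obtain ⟨hw4, hw5⟩ := mem_sdiff.1 hw1
        have hwv : w ≠ v := fun h => hw5 (h ▸ hvU)
        exact ⟨w, hw2, hwv, fun h => hw3 ((hx w (mem_erase.2 ⟨hwv, hw4⟩)).symm.trans h)⟩
  choose! Q a h1 h2 h3 h4 h5 using key
  refine ⟨Q, fun m => (ki_nx σ T A)^[r] (ki_D0 r T A m), a, ⟨?_, ?_, ?_, ?_, ?_⟩, ⟨?_, ?_⟩⟩
  · exact fun m hm i hi => h1 m i hm hi
  · intro m hm i hi
    have := h2 m i hm hi
    omega
  · exact fun m hm i hi => h3 m i hm hi
  · intro m hm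
    refine (ki_it_card hA _ _).trans ?_
    calc (1 + r) ^ r * (ki_D0 r T A m).card ≤ (1 + r) ^ r * ((1 + r ^ 3) * (T m).S.card) :=
          Nat.mul_le_mul_left _ (ki_D0_card hA m)
      _ = ((1 + r) ^ r * (1 + r ^ 3)) * (T m).S.card := by ring
      _ ≤ _ := Nat.mul_le_mul_right _ (by
          have : (1 + r) ^ r * (1 + r ^ 3) ≤
              (1 + r) ^ r * (1 + r ^ 3 + r + r * (r * (r ^ 2 + 1))) :=
            Nat.mul_le_mul_left _ (by omega)
          omega)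
  · intro v
    refine (ki_it_read (F := ki_D0 r T A) hσ hA (ki_D0_read hA Subset.rfl) r v).trans ?_
    have : (1 + r) ^ r * (r + r * (r * (r ^ 2 + 1))) ≤
        (1 + r) ^ r * (1 + r ^ 3 + r + r * (r * (r ^ 2 + 1))) := Nat.mul_le_mul_left _ (by omega)
    omega
  · exact fun m hm i hi η x hE hX => h4 m i hm hi η x hE hX
  · intro m hm i hi x hX
    have h6 := h5 m i hm hi x hX
    have hr : 1 ≤ r := by
      have h7 := hA i
      have h8 : 1 ≤ (A.filter fun m => i ∈ (T m).S).card := card_pos.2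
        ⟨m, mem_filter.2 ⟨hm, hi⟩⟩
      omega
    have hr0 : (r : ℝ) ≠ 0 := by
      have : (1 : ℝ) ≤ r := by exact_mod_cast hr
      positivity
    have h9 : 4 * (r : ℝ) * (c ^ 2 * ‖1 - ζ m‖ ^ 2 / (4 * r)) = (c * ‖1 - ζ m‖) ^ 2 := by
      field_simp
    rw [h9]
    exact pow_le_pow_left₀ (mul_nonneg hc0 (norm_nonneg _)) h6 2

end Pool.Agent.MP_ca1109_lc.Xr
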