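import Pool.Agent.MP_ca1109_lc.Xr.BBT
import Pool.Agent.MP_ca1109_lc.Xr.PAT
import Pool.Agent.MP_ca1109_lc.Xt.OS
import Pool.Agent.MP_ca1109_lc.Xt.PV
import Pool.Agent.MP_ca1109_lc.Xt.HT
import Pool.Agent.MP_ca1109_lc.Xg.CO

/-!
# Case 2 for terms with literals and arbitrary phases
-/

namespace Pool.Agent.MP_ca1109_lc.Xr

open Finset Pool.Agent.MP_ca1109_lc.Mpg Pool.Agent.MP_ca1109_lc.Agp
open Pool.Agent.MP_ca1109_lc.Xp (Bias mq uv Miss Hs cs_step parseval_step)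
open Pool.Agent.MP_ca1109_lc.Dnf (Cube ch one E mix Term one_nonneg one_le one_true one_false)
open Pool.Agent.MP_ca1109_lc.Xl (Tr pr Rd Fam)
open Pool.Agent.MP_ca1109_lc.Xt (hw mw cw Pat Piv hit_avg restr_le pv tos_norm_pr)
open Pool.Agent.MP_ca1109_lc.Xg (xco_av_norm xco_miss_mono xco_markov)

variable {n : ℕ} {ι : Type}

theorem cot_mw (p : ℝ) (c : ι → ℝ) (a : ℝ) (T : ι → Term n) (M : Finset ι) :
    mw p (fun m => a * c m) T M = a * mw p c T M := by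
  unfold mw
  rw [mul_sum]
  exact sum_congr rfl fun m _ => by ring

/-- Case 2 for terms; the first string may depend on the other ones. -/
theorem coreT (r : ℕ) {c₀ : ℝ} (hc₀ : 0 < c₀) (hc₁ : c₀ ≤ 1) {ε : ℝ} (hε : 0 < ε) :
    ∃ (c C n₀ K : ℕ) (t : ℝ), 1 ≤ t ∧ ∀ n ≥ n₀, ∀ (W : ℕ) {ι : Type} [DecidableEq ι]
      (T : ι → Term n) (M : Finset ι) (ζ : ι → ℂ), Fam r W T M → (∀ m, ‖ζ m‖ = 1) →
      Gapu c₀ T M →
      ∀ p δ : ℝ, 0 ≤ p → p ≤ 1 / 2 → t / 2 ≤ mw p (gp ζ) T M → mw p (gp ζ) T M ≤ t →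
      0 ≤ δ → C * δ * (n : ℝ) ^ C ≤ 1 → δ * ((M.card : ℝ) + 1) ^ 2 * ((W : ℝ) + 1) ^ 2 ≤ 1 →
      ∀ {Ω₁ Ω₂ Ω₃ : Type} [Fintype Ω₁] [Nonempty Ω₁] [Fintype Ω₂] [Nonempty Ω₂]
        [Fintype Ω₃] [Nonempty Ω₃] (Y : Ω₂ → Ω₃ → Ω₁ → Cube n) (η : Ω₂ → Finset (Fin n))
        (H : Ω₃ → Fin n → Fin c → Bool), (∀ ω₂ ω₃, Bias δ (Y ω₂ ω₃)) →
        Miss (2 * (W + K)) p δ η → Hs ((1 / 2) ^ c + δ) H →
        ‖(av fun ω₂ => av fun ω₃ => av fun ω₁ => av fun b : Fin c → Bool =>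
          pr T ζ M (mq (Y ω₂ ω₃ ω₁) (η ω₂) (uv b (H ω₃))))‖ ≤ ε := by
  classical
  rcases Nat.eq_zero_or_pos r with hr | hr
  · refine ⟨0, 0, 0, 0, 1, le_rfl, ?_⟩
    intro n _ W ι _ T M ζ hM hζ hG p δ hp hp2 ht1 ht2
    exfalso
    subst hr
    have hM0 : M = ∅ := by
      rw [Finset.eq_empty_iff_forall_notMem]
      intro m hm
      obtain ⟨i, hi⟩ := Finset.nonempty_iff_ne_empty.2 (hM.ne m hm)
      have h1 := hM.rd i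
      have h2 : m ∈ M.filter fun m => i ∈ (T m).S := Finset.mem_filter.2 ⟨hm, hi⟩
      have h3 := Finset.card_pos.2 ⟨m, h2⟩
      omega
    rw [hM0] at ht1
    unfold mw at ht1
    rw [Finset.sum_empty] at ht1
    norm_num at ht1
  obtain ⟨e, he⟩ : ∃ e : ℝ, e = ε ^ 2 / 8 := ⟨_, rfl⟩
  have he0 : 0 < e := by rw [he]; positivity
  obtain ⟨K, hrK, hpat⟩ := patu r
  obtain ⟨t₁, ht₁, hpv⟩ := pv r K hrK he0
  have hr1 : (1 : ℝ) ≤ r := by exact_mod_cast hr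
  obtain ⟨a, ha⟩ : ∃ a : ℝ, a = c₀ ^ 2 / r := ⟨_, rfl⟩
  have ha0 : 0 < a := by rw [ha]; positivity
  have ha1 : a ≤ 1 := by
    rw [ha, div_le_one (by linarith)]
    have : c₀ ^ 2 ≤ 1 := pow_le_one₀ hc₀.le hc₁
    linarith
  obtain ⟨t, ht⟩ : ∃ t : ℝ, t = 2 * (t₁ / a) := ⟨_, rfl⟩
  have hta : t₁ ≤ t₁ / a := by
    rw [le_div_iff₀ ha0]
    nlinarith
  have ht1 : 1 ≤ t := by rw [ht]; linarith
  obtain ⟨V, hV⟩ : ∃ V : ℝ, V = (t + 1) / e := ⟨_, rfl⟩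
  have hV0 : 0 < V := by rw [hV]; positivity
  obtain ⟨C₁, n₁, hbb⟩ := bb_two r V he0
  obtain ⟨c, hc⟩ := exists_pow_lt_of_lt_one he0 (show (1 / 2 : ℝ) < 1 by norm_num)
  obtain ⟨C₂, hC₂⟩ := exists_nat_ge (1 / e)
  refine ⟨c, C₁ + C₂ + 1, max n₁ 1, K, t, ht1, ?_⟩
  intro n hn W ι _ T M ζ hM hζ hG p δ hp hp2 hmt hmt' hδ hCδ hδM Ω₁ Ω₂ Ω₃ _ _ _ _ _ _ Y η H hY hη hH
  have hn1 : n₁ ≤ n := (le_max_left _ _).trans hn
  have hn0 : 1 ≤ n := (le_max_right _ _).trans hn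
  have hnR : (1 : ℝ) ≤ n := by exact_mod_cast hn0
  obtain ⟨Q, D, pt, hQ, hPv⟩ := hpat T ζ M c₀ hM.rd hζ hc₀.le hG
  have hcm : (fun m => c₀ ^ 2 * ‖1 - ζ m‖ ^ 2 / (4 * r)) = fun m => a * gp ζ m := by
    funext m
    rw [ha]
    unfold gp
    field_simp
  rw [hcm] at hPv
  have hpw : (1 : ℝ) ≤ (n : ℝ) ^ (C₁ + C₂ + 1) := one_le_pow₀ hnR
  have hCR : (1 : ℝ) ≤ ((C₁ + C₂ + 1 : ℕ) : ℝ) := by
    push_cast
    linarith [Nat.cast_nonneg (α := ℝ) C₁, Nat.cast_nonneg (α := ℝ) C₂]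
  have hδ1 : δ * (n : ℝ) ^ C₁ ≤ 1 := by
    calc δ * (n : ℝ) ^ C₁ ≤ δ * (n : ℝ) ^ (C₁ + C₂ + 1) :=
          mul_le_mul_of_nonneg_left (pow_le_pow_right₀ hnR (by omega)) hδ
      _ = 1 * (δ * (n : ℝ) ^ (C₁ + C₂ + 1)) := (one_mul _).symm
      _ ≤ ((C₁ + C₂ + 1 : ℕ) : ℝ) * (δ * (n : ℝ) ^ (C₁ + C₂ + 1)) :=
          mul_le_mul_of_nonneg_right hCR (by positivity)
      _ = ((C₁ + C₂ + 1 : ℕ) : ℝ) * δ * (n : ℝ) ^ (C₁ + C₂ + 1) := by ring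
      _ ≤ 1 := hCδ
  have hδe : δ ≤ e := by
    have h1 : (1 / e) * δ ≤ 1 := by
      calc (1 / e) * δ ≤ ((C₁ + C₂ + 1 : ℕ) : ℝ) * δ := by
            refine mul_le_mul_of_nonneg_right (hC₂.trans ?_) hδ
            push_cast
            linarith [Nat.cast_nonneg (α := ℝ) C₁]
        _ = ((C₁ + C₂ + 1 : ℕ) : ℝ) * δ * 1 := (mul_one _).symm
        _ ≤ ((C₁ + C₂ + 1 : ℕ) : ℝ) * δ * (n : ℝ) ^ (C₁ + C₂ + 1) :=
            mul_le_mul_of_nonneg_left hpw (by positivity)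
        _ ≤ 1 := hCδ
    have h2 : δ = e * ((1 / e) * δ) := by field_simp
    rw [h2]
    calc e * ((1 / e) * δ) ≤ e * 1 := mul_le_mul_of_nonneg_left h1 he0.le
      _ = e := mul_one e
  have hgap0 : ∀ m ∈ M, 0 ≤ gp ζ m := fun m _ => gp_nonneg ζ m
  have hgap1 : ∀ m ∈ M, gp ζ m ≤ 1 := fun m _ => gp_le (hζ m)
  have hgc0 : ∀ m ∈ M, 0 ≤ a * gp ζ m := fun m _ => mul_nonneg ha0.le (gp_nonneg ζ m)
  have hgc1 : ∀ m ∈ M, a * gp ζ m ≤ 1 := fun m _ => mul_le_one₀ ha1 (gp_nonneg ζ m) (gp_le (hζ m))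
  have hmgc : t₁ ≤ mw p (fun m => a * gp ζ m) T M := by
    rw [cot_mw]
    have h1 : t / 2 = t₁ / a := by rw [ht]; ring
    rw [h1, div_le_iff₀ ha0] at hmt
    linarith
  have hpv' := hpv n W T M Q D pt (fun m => a * gp ζ m) hM hQ hgc0 hgc1 p δ hp hp2 hδ hmgc hδM η hη
  have hhit := hit_avg (c := gp ζ) hM.wd hgap0 hgap1 hδ
    (xco_miss_mono hη (by omega : W ≤ 2 * (W + K)))
  have hcardδ : δ * (M.card : ℝ) ≤ 1 := by
    have h1 : (M.card : ℝ) ≤ ((M.card : ℝ) + 1) ^ 2 * ((W : ℝ) + 1) ^ 2 := by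
      have h2 : (0 : ℝ) ≤ M.card := Nat.cast_nonneg _
      have h3 : (0 : ℝ) ≤ W := Nat.cast_nonneg _
      have h4 : (1 : ℝ) ≤ ((W : ℝ) + 1) ^ 2 := one_le_pow₀ (by linarith)
      have h5 : (M.card : ℝ) ≤ ((M.card : ℝ) + 1) ^ 2 := by nlinarith
      have h6 : (0:ℝ) ≤ ((M.card : ℝ) + 1) ^ 2 := by positivity
      nlinarith
    calc δ * (M.card : ℝ) ≤ δ * (((M.card : ℝ) + 1) ^ 2 * ((W : ℝ) + 1) ^ 2) :=
          mul_le_mul_of_nonneg_left h1 hδ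
      _ = δ * ((M.card : ℝ) + 1) ^ 2 * ((W : ℝ) + 1) ^ 2 := by ring
      _ ≤ 1 := hδM
  have hhw0 : ∀ ω, 0 ≤ hw (gp ζ) T M (η ω) := fun ω => by
    unfold hw
    exact Finset.sum_nonneg fun m hm =>
      mul_nonneg (hgap0 m hm) (mul_nonneg (by positivity) (one_nonneg _))
  have hmark : (avg fun ω => one (V < hw (gp ζ) T M (η ω))) ≤ e := by
    refine (xco_markov hV0 hhw0).trans ?_
    rw [div_le_iff₀ hV0]
    have h1 : e * V = t + 1 := by rw [hV]; field_simp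
    rw [h1]
    linarith
  have hnorm : ∀ x, ‖pr T ζ M x‖ = 1 := fun x => tos_norm_pr (fun m _ => hζ m) x
  -- the pointwise bound
  have hpt : ∀ (ω₂ : Ω₂) (ω₃ : Ω₃) (b b' : Fin c → Bool),
      (av fun ω₁ => pr T ζ M (mq (Y ω₂ ω₃ ω₁) (η ω₂) (uv b (H ω₃))) *
        (starRingEnd ℂ) (pr T ζ M (mq (Y ω₂ ω₃ ω₁) (η ω₂) (uv b' (H ω₃))))).re ≤
      (av fun y : Cube n => pr T ζ M (mq y (η ω₂) (uv b (H ω₃))) *
        (starRingEnd ℂ) (pr T ζ M (mq y (η ω₂) (uv b' (H ω₃))))).re + e +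
        2 * one (V < hw (gp ζ) T M (η ω₂)) := by
    intro ω₂ ω₃ b b'
    obtain ⟨P, hP⟩ : ∃ P : ℂ, P = av fun ω₁ => pr T ζ M (mq (Y ω₂ ω₃ ω₁) (η ω₂) (uv b (H ω₃))) *
        (starRingEnd ℂ) (pr T ζ M (mq (Y ω₂ ω₃ ω₁) (η ω₂) (uv b' (H ω₃)))) := ⟨_, rfl⟩
    obtain ⟨R, hR⟩ : ∃ R : ℂ, R = av fun y : Cube n => pr T ζ M (mq y (η ω₂) (uv b (H ω₃))) *
        (starRingEnd ℂ) (pr T ζ M (mq y (η ω₂) (uv b' (H ω₃)))) := ⟨_, rfl⟩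
    rw [← hP, ← hR]
    by_cases hbig : V < hw (gp ζ) T M (η ω₂)
    · rw [one_true hbig]
      have h1 : ‖P‖ ≤ 1 := by
        rw [hP]
        exact xco_av_norm fun ω => by
          rw [norm_mul, RCLike.norm_conj, hnorm, hnorm, one_mul]
      have h2 : ‖R‖ ≤ 1 := by
        rw [hR]
        exact xco_av_norm fun ω => by
          rw [norm_mul, RCLike.norm_conj, hnorm, hnorm, one_mul]
      have h3 := Complex.re_le_norm P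
      have h4 := Complex.abs_re_le_norm R
      have h5 := (abs_le.1 h4).1
      linarith
    · rw [one_false hbig]
      have h1 := hbb n hn1 T M ζ hM.ne hM.rd (fun m _ => hζ m) (η ω₂) (uv b (H ω₃)) (uv b' (H ω₃))
        (not_lt.1 hbig) (Y ω₂ ω₃) δ hδ hδ1 (hY ω₂ ω₃)
      rw [← hP, ← hR] at h1
      have h2 := Complex.re_le_norm (P - R)
      rw [Complex.sub_re] at h2
      linarith
  have hcs := cs_step (c := c) (fun (ω₂ : Ω₂) (ω₃ : Ω₃) (ω₁ : Ω₁) (b : Fin c → Bool) =>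
    pr T ζ M (mq (Y ω₂ ω₃ ω₁) (η ω₂) (uv b (H ω₃))))
  have hδc : (0 : ℝ) ≤ (1 / 2) ^ c + δ := by positivity
  have hkey : ∀ ω₂ : Ω₂, (avg fun ω₃ => avg fun b : Fin c → Bool => avg fun b' : Fin c → Bool =>
      (av fun ω₁ => pr T ζ M (mq (Y ω₂ ω₃ ω₁) (η ω₂) (uv b (H ω₃))) *
        (starRingEnd ℂ) (pr T ζ M (mq (Y ω₂ ω₃ ω₁) (η ω₂) (uv b' (H ω₃))))).re) ≤
      (E fun x => Real.exp (-(cw (fun m => a * gp ζ m) T M Q pt (η ω₂) x) / 2)) +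
        ((1 / 2) ^ c + δ + e) + 2 * one (V < hw (gp ζ) T M (η ω₂)) := by
    intro ω₂
    have h1 := parseval_step (η ω₂) H hδc hH (pr T ζ M) hnorm
    have h2 := restr_le hM.rd subset_rfl (fun m _ => hζ m) hPv hgc0 (η ω₂)
    have h3 : (avg fun ω₃ => avg fun b : Fin c → Bool => avg fun b' : Fin c → Bool =>
      (av fun ω₁ => pr T ζ M (mq (Y ω₂ ω₃ ω₁) (η ω₂) (uv b (H ω₃))) *
        (starRingEnd ℂ) (pr T ζ M (mq (Y ω₂ ω₃ ω₁) (η ω₂) (uv b' (H ω₃))))).re) ≤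
        (avg fun ω₃ => avg fun b : Fin c → Bool => avg fun b' : Fin c → Bool =>
          ((av fun y : Cube n => pr T ζ M (mq y (η ω₂) (uv b (H ω₃))) *
            (starRingEnd ℂ) (pr T ζ M (mq y (η ω₂) (uv b' (H ω₃))))).re +
            (e + 2 * one (V < hw (gp ζ) T M (η ω₂))))) := by
      refine avg_mono fun ω₃ => avg_mono fun b => avg_mono fun b' => ?_
      have := hpt ω₂ ω₃ b b'
      linarith
    refine h3.trans ?_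
    simp only [avg_add, avg_const]
    linarith
  have hsq : ‖(av fun ω₂ => av fun ω₃ => av fun ω₁ => av fun b : Fin c → Bool =>
      pr T ζ M (mq (Y ω₂ ω₃ ω₁) (η ω₂) (uv b (H ω₃))))‖ ^ 2 ≤ ε ^ 2 := by
    refine hcs.trans ?_
    refine (avg_mono fun ω₂ => hkey ω₂).trans ?_
    simp only [avg_add, avg_const, avg_mul_left]
    have h8 : ε ^ 2 = 8 * e := by rw [he]; ring
    rw [h8]
    linarith
  exact cot_sq hsq hε.le
where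
  cot_sq {a b : ℝ} (h : a ^ 2 ≤ b ^ 2) (hb : 0 ≤ b) : a ≤ b := by
    exact le_of_not_gt fun hlt => by nlinarith

end Pool.Agent.MP_ca1109_lc.Xr
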