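import Pool.Agent.MP_ca1109_lc.Xd.BH0
import Pool.Agent.MP_ca1109_lc.Xr.COT
import Pool.Agent.MP_ca1109_lc.Xr.WDT
import Pool.Agent.MP_ca1109_lc.Xl.MA

/-!
# Products of unimodular weights of terms with any literals, of large energy: the sources
-/

namespace Pool.Agent.MP_ca1109_lc.Xr

open Finset Pool.Agent.H66 Pool.Agent.MP_ca1109_lc.Mpg Pool.Agent.MP_ca1109_lc.Agp
open Pool.Agent.MP_ca1109_lc.Dnf (Cube ch one E mix Term one_nonneg one_le one_true one_false)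
open Pool.Agent.MP_ca1109_lc.Xp (Bias xo Miss mq uv gq gq_xo qgen)
open Pool.Agent.MP_ca1109_lc.Xl (Tr pr Rd Fam ml_norm_pr ml_drop card_le)
open Pool.Agent.MP_ca1109_lc.Xt (mw level)
open Pool.Agent.MP_ca1109_lc.Xg (yma_norm_av yma_close yma_av_const yma_av_mul_left yma_unif
  yma_clog' yma_clog_le yma_err)
open Pool.Agent.MP_ca1109_lc.Xd (Pqc pqc_close pqc_level miss_hit bg_wide bg_pow)

variable {n : ℕ} {ι : Type}

theorem gapu_sub {c : ℝ} {T : ι → Term n} {M N : Finset ι} (h : Gapu c T M) (hs : N ⊆ M) :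
    Gapu c T N := fun ζ hζ i C hC => h ζ hζ i C (hC.trans hs)

/-! ## The energy -/

/-- The wide terms have bounded energy. -/
theorem bt_cut {r : ℕ} {T : ι → Term n} {M : Finset ι} {ζ : ι → ℂ} (hM : Rd r T M)
    (h0 : ∀ m ∈ M, (T m).S ≠ ∅) (hζ : ∀ m, ‖ζ m‖ = 1) :
    ∑ m ∈ M, ((T m).S.card : ℝ) * (1 / 2 : ℝ) ^ (T m).S.card * ‖1 - ζ m‖ ^ 2 ≤
      ∑ m ∈ M.filter (fun m => (T m).S.card ≤ 2 * Nat.clog 2 n),
        ((T m).S.card : ℝ) * (1 / 2 : ℝ) ^ (T m).S.card * ‖1 - ζ m‖ ^ 2 + 8 * r := by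
  classical
  rw [← Finset.sum_filter_add_sum_filter_not M fun m => (T m).S.card ≤ 2 * Nat.clog 2 n]
  refine add_le_add le_rfl ?_
  have h1 : ∀ m ∈ M.filter (fun m => ¬ (T m).S.card ≤ 2 * Nat.clog 2 n),
      ((T m).S.card : ℝ) * (1 / 2 : ℝ) ^ (T m).S.card * ‖1 - ζ m‖ ^ 2 ≤
        8 * (1 / 2 : ℝ) ^ Nat.clog 2 n := by
    intro m hm
    have hm' := Finset.mem_filter.1 hm
    have h2 := bg_wide (T m).S.card (Nat.clog 2 n) (by omega)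
    have h3 : ‖1 - ζ m‖ ≤ 2 := by
      calc ‖1 - ζ m‖ ≤ ‖(1 : ℂ)‖ + ‖ζ m‖ := norm_sub_le _ _
        _ = 2 := by rw [hζ m, norm_one]; norm_num
    have h4 : ‖1 - ζ m‖ ^ 2 ≤ 4 := (pow_le_pow_left₀ (norm_nonneg _) h3 2).trans (by norm_num)
    calc ((T m).S.card : ℝ) * (1 / 2 : ℝ) ^ (T m).S.card * ‖1 - ζ m‖ ^ 2 ≤
          2 * (1 / 2 : ℝ) ^ Nat.clog 2 n * 4 :=
          mul_le_mul h2 h4 (by positivity) (by positivity)
      _ = 8 * (1 / 2 : ℝ) ^ Nat.clog 2 n := by ring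
  have h2 : ((M.filter fun m => ¬ (T m).S.card ≤ 2 * Nat.clog 2 n).card : ℝ) ≤ r * n := by
    have h3 := (Finset.card_le_card (filter_subset (fun m => ¬ (T m).S.card ≤ 2 * Nat.clog 2 n) M)).trans
      (card_le h0 hM)
    exact_mod_cast h3
  have h3 : (n : ℝ) * (1 / 2 : ℝ) ^ Nat.clog 2 n ≤ 1 := by
    calc (n : ℝ) * (1 / 2 : ℝ) ^ Nat.clog 2 n ≤ 2 ^ Nat.clog 2 n * (1 / 2 : ℝ) ^ Nat.clog 2 n :=
          mul_le_mul_of_nonneg_right (yma_clog' n) (by positivity)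
      _ = 1 := by rw [← mul_pow]; norm_num
  calc ∑ m ∈ M.filter (fun m => ¬ (T m).S.card ≤ 2 * Nat.clog 2 n),
        ((T m).S.card : ℝ) * (1 / 2 : ℝ) ^ (T m).S.card * ‖1 - ζ m‖ ^ 2 ≤
        ∑ _m ∈ M.filter (fun m => ¬ (T m).S.card ≤ 2 * Nat.clog 2 n),
          8 * (1 / 2 : ℝ) ^ Nat.clog 2 n := Finset.sum_le_sum h1
    _ = (M.filter fun m => ¬ (T m).S.card ≤ 2 * Nat.clog 2 n).card *
          (8 * (1 / 2 : ℝ) ^ Nat.clog 2 n) := by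
        rw [Finset.sum_const, nsmul_eq_mul]
    _ ≤ r * n * (8 * (1 / 2 : ℝ) ^ Nat.clog 2 n) :=
        mul_le_mul_of_nonneg_right h2 (by positivity)
    _ = 8 * r * (n * (1 / 2 : ℝ) ^ Nat.clog 2 n) := by ring
    _ ≤ 8 * r * 1 := mul_le_mul_of_nonneg_left h3 (by positivity)
    _ = 8 * r := mul_one _

/-- The mass at rate `p` and the energy. -/
theorem bt_mw {W : ℕ} {T : ι → Term n} {M : Finset ι} {ζ : ι → ℂ} {p : ℝ} (hp : 0 ≤ p)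
    (hp1 : p ≤ 1) (hW : ∀ m ∈ M, (T m).S.card ≤ W) :
    p * (∑ m ∈ M, ((T m).S.card : ℝ) * (1 / 2 : ℝ) ^ (T m).S.card * ‖1 - ζ m‖ ^ 2) ≤
      4 * (1 + W * p) * mw p (gp ζ) T M := by
  unfold mw
  rw [Finset.mul_sum, Finset.mul_sum]
  refine Finset.sum_le_sum fun m hm => ?_
  have h1 := bg_pow p hp hp1 (T m).S.card
  have hk : ((T m).S.card : ℝ) ≤ W := by exact_mod_cast hW m hm
  have h3 : (0 : ℝ) ≤ (T m).S.card * p := by positivity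
  rw [div_le_iff₀ (by linarith)] at h1
  have h4 : (0 : ℝ) ≤ 1 - (1 - p) ^ (T m).S.card := by
    have : (1 - p) ^ (T m).S.card ≤ 1 := pow_le_one₀ (by linarith) (by linarith)
    linarith
  have h5 : ((T m).S.card : ℝ) * p ≤ (1 - (1 - p) ^ (T m).S.card) * (1 + W * p) := by
    refine h1.trans (mul_le_mul_of_nonneg_left ?_ h4)
    linarith only [mul_le_mul_of_nonneg_right hk hp]
  have h6 : (0 : ℝ) ≤ (1 / 2 : ℝ) ^ (T m).S.card * ‖1 - ζ m‖ ^ 2 := by positivity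
  calc p * (((T m).S.card : ℝ) * (1 / 2 : ℝ) ^ (T m).S.card * ‖1 - ζ m‖ ^ 2) =
        (((T m).S.card : ℝ) * p) * ((1 / 2 : ℝ) ^ (T m).S.card * ‖1 - ζ m‖ ^ 2) := by ring
    _ ≤ ((1 - (1 - p) ^ (T m).S.card) * (1 + W * p)) *
          ((1 / 2 : ℝ) ^ (T m).S.card * ‖1 - ζ m‖ ^ 2) :=
        mul_le_mul_of_nonneg_right h5 h6
    _ = 4 * (1 + W * p) * (gp ζ m * ((1 / 2 : ℝ) ^ (T m).S.card *
          (1 - (1 - p) ^ (T m).S.card))) := by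
        unfold gp
        ring

/-! ## The sources fool the products of large energy -/

theorem bgxT (r k : ℕ) {c₀ : ℝ} (hc₀ : 0 < c₀) (hc₁ : c₀ ≤ 1) {ε : ℝ} (hε : 0 < ε) :
    ∃ (c K n₀ : ℕ) (C : ℝ), 0 ≤ C ∧
    ∀ n ≥ n₀, ∀ D : Finset (Fin n), D.card ≤ k * Nat.clog 2 n →
    ∀ {Ω₁ Ω₂ Ω₃ : Type} [Fintype Ω₁] [Nonempty Ω₁] [Fintype Ω₂] [Nonempty Ω₂]
      [Fintype Ω₃] [Nonempty Ω₃] (Y : Cube n → Ω₁ → Cube n)
      (η : Fin (Nat.clog 2 n + r + 1) → Ω₂ → Finset (Fin n))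
      (H : Ω₃ → Fin n → Fin c → Bool),
      (∀ t, Bias (1 / ((n : ℝ) + 1) ^ K) (Y t)) →
      (∀ t t', (∀ i ∈ D, t i = t' i) → Y t = Y t') →
      (∀ (l : Fin (Nat.clog 2 n + r + 1)) (s : ℕ),
        Miss s ((1 / 2 : ℝ) ^ ((l : ℕ) + 1)) (2 ^ s / ((n : ℝ) + 1) ^ K) (η l)) →
      Xp.Hs ((1 / 2) ^ c + 1 / ((n : ℝ) + 1) ^ K) H →
      ∀ f ∈ BigT r c₀ C n, ‖Pqc Y η H f - av f‖ ≤ ε := by
  classical
  obtain ⟨c, C₁, n₁, Kx, t, ht, hcore⟩ := coreT r hc₀ hc₁ (show 0 < ε / 16 by positivity)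
  obtain ⟨K, hK⟩ : ∃ K : ℕ, K = C₁ + 14 := ⟨_, rfl⟩
  obtain ⟨a, ha⟩ : ∃ a : ℝ, a = 16 * 4 ^ Kx := ⟨_, rfl⟩
  have ha0 : 0 ≤ a := by rw [ha]; positivity
  obtain ⟨n₀, hn₀⟩ := exists_nat_gt (a + a * C₁ + a * (4 * ((r : ℝ) + 1) ^ 2) +
    (8 * r * (1 + a)) / ε + 128 * k / ε)
  obtain ⟨D₀, hD₀⟩ : ∃ D₀ : ℝ, D₀ = 64 * k * t / ε := ⟨_, rfl⟩
  have hD₀0 : 0 ≤ D₀ := by rw [hD₀]; positivity
  have hk0 : (0 : ℝ) ≤ k := Nat.cast_nonneg _
  have hr0 : (0 : ℝ) ≤ r := Nat.cast_nonneg _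
  refine ⟨c, K, max n₁ (max n₀ 1), 8 * r + 8 * t + 4 * D₀ + 8, by positivity, ?_⟩
  rintro n hn D hD Ω₁ Ω₂ Ω₃ _ _ _ _ _ _ Y η H hY₀ hYD hη hH f
    ⟨ι, _, T, M, ζ, hM, h0, hG, hζ, hen, rfl⟩
  have hn1 : n₁ ≤ n := (le_max_left _ _).trans hn
  have hn0 : n₀ ≤ n := (le_max_left _ _).trans ((le_max_right _ _).trans hn)
  have hn3 : 1 ≤ n := (le_max_right _ _).trans ((le_max_right _ _).trans hn)
  have hnn : (n₀ : ℝ) ≤ n := by exact_mod_cast hn0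
  have hnr : (1 : ℝ) ≤ n := by exact_mod_cast hn3
  have hC₁0 : (0 : ℝ) ≤ C₁ := Nat.cast_nonneg _
  have hbig := hn₀.le.trans hnn
  have g1 : (0 : ℝ) ≤ a * C₁ := by positivity
  have g2 : (0 : ℝ) ≤ a * (4 * ((r : ℝ) + 1) ^ 2) := by positivity
  have g3 : (0 : ℝ) ≤ (8 * r * (1 + a)) / ε := by positivity
  have g4 : (0 : ℝ) ≤ 128 * k / ε := by positivity
  -- the widths and the errors
  obtain ⟨W, hW⟩ : ∃ W : ℕ, W = 2 * Nat.clog 2 n := ⟨_, rfl⟩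
  obtain ⟨δ, hδ⟩ : ∃ δ : ℝ, δ = 2 ^ (2 * (W + Kx)) / ((n : ℝ) + 1) ^ K := ⟨_, rfl⟩
  have hδ0 : 0 ≤ δ := by rw [hδ]; positivity
  have hδ' : 1 / ((n : ℝ) + 1) ^ K ≤ δ := by
    rw [hδ]
    exact div_le_div_of_nonneg_right (one_le_pow₀ (by norm_num)) (by positivity)
  have hδ2 : δ = 2 ^ (2 * (2 * Nat.clog 2 n + Kx)) / ((n : ℝ) + 1) ^ K := by rw [hδ, hW]
  have e2 : C₁ * δ * (n : ℝ) ^ C₁ ≤ 1 := by
    have h1 := yma_err n Kx C₁ K (by omega) hC₁0 (X := C₁ * (n : ℝ) ^ C₁) (by positivity)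
      (mul_le_mul_of_nonneg_left (pow_le_pow_left₀ (by linarith) (by linarith) _) hC₁0)
    rw [← hδ2, ← ha] at h1
    calc C₁ * δ * (n : ℝ) ^ C₁ = δ * (C₁ * (n : ℝ) ^ C₁) := by ring
      _ ≤ a * C₁ / ((n : ℝ) + 1) := h1
      _ ≤ 1 := by
        rw [div_le_one (by linarith)]
        linarith
  have e3 : ∀ N : ℕ, N ≤ r * n → δ * ((N : ℝ) + 1) ^ 2 * ((W : ℝ) + 1) ^ 2 ≤ 1 := by
    intro N hN
    have hN' : (N : ℝ) ≤ r * n := by exact_mod_cast hN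
    have hN0 : (0 : ℝ) ≤ N := Nat.cast_nonneg _
    have hW0 : (0 : ℝ) ≤ W := Nat.cast_nonneg _
    have hW' : (W : ℝ) ≤ 2 * n := by
      rw [hW]
      exact_mod_cast Nat.mul_le_mul_left 2 (yma_clog_le n)
    have h2 : ((N : ℝ) + 1) ^ 2 ≤ (((r : ℝ) + 1) * ((n : ℝ) + 1)) ^ 2 :=
      pow_le_pow_left₀ (by linarith only [hN0]) (by linarith only [hN', hr0, hnr]) 2
    have h3 : ((W : ℝ) + 1) ^ 2 ≤ (2 * ((n : ℝ) + 1)) ^ 2 :=
      pow_le_pow_left₀ (by linarith) (by linarith) 2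
    have h1 := yma_err n Kx 4 K (by omega) (show (0 : ℝ) ≤ 4 * ((r : ℝ) + 1) ^ 2 by positivity)
      (X := ((N : ℝ) + 1) ^ 2 * ((W : ℝ) + 1) ^ 2) (by positivity) (by
        calc ((N : ℝ) + 1) ^ 2 * ((W : ℝ) + 1) ^ 2 ≤
              (((r : ℝ) + 1) * ((n : ℝ) + 1)) ^ 2 * (2 * ((n : ℝ) + 1)) ^ 2 :=
              mul_le_mul h2 h3 (by positivity) (by positivity)
          _ = 4 * ((r : ℝ) + 1) ^ 2 * ((n : ℝ) + 1) ^ 4 := by ring)
    rw [← hδ2, ← ha] at h1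
    calc δ * ((N : ℝ) + 1) ^ 2 * ((W : ℝ) + 1) ^ 2 =
          δ * (((N : ℝ) + 1) ^ 2 * ((W : ℝ) + 1) ^ 2) := by ring
      _ ≤ a * (4 * ((r : ℝ) + 1) ^ 2) / ((n : ℝ) + 1) := h1
      _ ≤ 1 := by
        rw [div_le_one (by linarith)]
        linarith
  have e4 : ∀ N : ℕ, N ≤ r * n → 2 * (N : ℝ) * ((1 / 2) ^ W + δ) ≤ ε / 4 := by
    intro N hN
    have hN' : (N : ℝ) ≤ r * n := by exact_mod_cast hN
    have h1 : ((1 : ℝ) / 2) ^ W ≤ 1 / n ^ 2 := by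
      have h2 : ((1 : ℝ) / 2) ^ W = 1 / ((2 : ℝ) ^ Nat.clog 2 n) ^ 2 := by
        rw [hW, one_div_pow, mul_comm 2 (Nat.clog 2 n), pow_mul]
      rw [h2]
      apply one_div_le_one_div_of_le (by positivity)
      exact pow_le_pow_left₀ (by linarith) (yma_clog' n) 2
    have h3 : δ ≤ a / n ^ 2 := by
      have h4 := yma_err n Kx 1 K (by omega) zero_le_one (X := (n : ℝ)) (by linarith)
        (by rw [one_mul, pow_one]; linarith)
      rw [← hδ2, ← ha, mul_one] at h4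
      rw [le_div_iff₀ (by positivity)]
      have h5 : δ * n * (n : ℝ) ≤ a / ((n : ℝ) + 1) * n :=
        mul_le_mul_of_nonneg_right h4 (by linarith)
      have h6 : a / ((n : ℝ) + 1) * n ≤ a := by
        rw [div_mul_eq_mul_div, div_le_iff₀ (by linarith)]
        linarith only [ha0]
      calc δ * (n : ℝ) ^ 2 = δ * n * n := by ring
        _ ≤ a := h5.trans h6
    have h7 : (8 * r * (1 + a)) ≤ ε * n := by
      have h8 : (8 * r * (1 + a)) / ε ≤ n := by linarith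
      rw [div_le_iff₀ hε] at h8
      linarith
    calc 2 * (N : ℝ) * ((1 / 2) ^ W + δ) ≤ 2 * (r * n) * (1 / n ^ 2 + a / n ^ 2) := by
          refine mul_le_mul (by linarith) (add_le_add h1 h3) (by positivity) (by positivity)
      _ = 2 * r * (1 + a) / n := by
          field_simp
      _ ≤ ε / 4 := by
          rw [div_le_div_iff₀ (by linarith) (by norm_num)]
          linarith
  -- the strings
  have hY' : ∀ t, Bias δ (Y t) := fun t => Bias.mono (hY₀ t) hδ'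
  have hU : Bias δ (fun x : Cube n => x) := Bias.mono Bias.unif hδ0
  have hH' : Xp.Hs ((1 / 2) ^ c + δ) H := fun Q hQ => (hH Q hQ).trans (by linarith)
  have hPc := card_le h0 hM
  -- the wide monomials
  obtain ⟨N, hN⟩ : ∃ N, N = M.filter fun m => (T m).S.card ≤ W := ⟨_, rfl⟩
  have hNs : N ⊆ M := by rw [hN]; exact Finset.filter_subset _ _
  have hNζ : ∀ m ∈ N, ‖ζ m‖ = 1 := fun m _ => hζ m
  have hNr : Rd r T N := fun i =>
    (Finset.card_le_card (Finset.filter_subset_filter _ hNs)).trans (hM i)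
  have hN0 : ∀ m ∈ N, (T m).S ≠ ∅ := fun m hm => h0 m (hNs hm)
  have hNw : ∀ m ∈ N, (T m).S.card ≤ W := fun m hm => by
    rw [hN] at hm
    exact (Finset.mem_filter.1 hm).2
  have hNc := card_le hN0 hNr
  have hPcr : (M.card : ℝ) ≤ (M.card : ℝ) := le_rfl
  have d1 : ‖Pqc Y η H (pr T ζ M) - Pqc Y η H (pr T ζ N)‖ ≤ ε / 4 := by
    refine (pqc_close Y η H fun t s => ?_).trans (e4 _ hPc)
    rw [hN]
    exact ml_drop (fun m _ => hζ m) hδ0 hPcr ((hY' t).xo s)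
  have d2 : ‖av (pr T ζ M) - av (pr T ζ N)‖ ≤ ε / 4 := by
    refine le_trans ?_ (e4 _ hPc)
    rw [hN]
    exact ml_drop (fun m _ => hζ m) hδ0 hPcr hU
  -- the level
  have hgap0 : ∀ m ∈ N, 0 ≤ gp ζ m := fun m _ => gp_nonneg ζ m
  have hgap1 : ∀ m ∈ N, gp ζ m ≤ 1 := fun m _ => gp_le (hζ m)
  obtain ⟨A, hA⟩ : ∃ A : ℝ, A = ∑ m ∈ N, ((T m).S.card : ℝ) * (1 / 2 : ℝ) ^ (T m).S.card *
    ‖1 - ζ m‖ ^ 2 := ⟨_, rfl⟩
  obtain ⟨cl, hcl⟩ : ∃ cl : ℝ, cl = (Nat.clog 2 n : ℝ) := ⟨_, rfl⟩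
  have hcl0 : 0 ≤ cl := by rw [hcl]; positivity
  have hWr : (W : ℝ) = 2 * cl := by rw [hW, hcl]; push_cast; ring
  have hAl : (8 * t + 4 * D₀ + 8) * (cl + 1) ≤ A := by
    have h1 := bt_cut hM h0 hζ
    rw [← hW, ← hN, ← hA] at h1
    rw [← hcl] at hen
    linarith only [h1, hen, mul_nonneg hr0 hcl0]
  have hmw : t < mw (1 / 2) (gp ζ) T N := by
    have h1 := bt_mw (p := 1 / 2) (ζ := ζ) (by norm_num) (by norm_num) hNw
    rw [← hA, hWr] at h1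
    have h2 : 4 * (1 + 2 * cl * (1 / 2)) * mw (1 / 2) (gp ζ) T N =
      4 * (cl + 1) * mw (1 / 2) (gp ζ) T N := by ring
    rw [h2] at h1
    by_contra hcon
    rw [not_lt] at hcon
    have h3 : 4 * (cl + 1) * mw (1 / 2) (gp ζ) T N ≤ 4 * (cl + 1) * t :=
      mul_le_mul_of_nonneg_left hcon (by positivity)
    have h4 : (4 * t + 2 * D₀ + 4) * (cl + 1) ≤ 4 * t * (cl + 1) := by
      linarith only [h1, h3, hAl]
    linarith only [h4, hD₀0, hcl0, mul_nonneg hD₀0 hcl0]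
  have hL : N.card ≤ 2 ^ (Nat.clog 2 n + r + 1) := by
    have h1 : n ≤ 2 ^ Nat.clog 2 n := Nat.le_pow_clog one_lt_two n
    have h2 : r ≤ 2 ^ r := Nat.lt_two_pow_self.le
    calc N.card ≤ r * n := hNc
      _ ≤ 2 ^ r * 2 ^ Nat.clog 2 n := Nat.mul_le_mul h2 h1
      _ = 2 ^ (Nat.clog 2 n + r) := by rw [pow_add, mul_comm]
      _ ≤ 2 ^ (Nat.clog 2 n + r + 1) := Nat.pow_le_pow_right (by norm_num) (by omega)
  obtain ⟨l, hl, hl1, hl2⟩ := level ht hgap0 hgap1 hL hmw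
  obtain ⟨p, hp⟩ : ∃ p : ℝ, p = (1 / 2) ^ (l + 1) := ⟨_, rfl⟩
  rw [← hp] at hl1 hl2
  have hp0 : (0 : ℝ) ≤ p := by rw [hp]; positivity
  have hp1 : p ≤ 1 / 2 := by
    rw [hp]
    calc (1 / 2 : ℝ) ^ (l + 1) ≤ (1 / 2) ^ 1 :=
          pow_le_pow_of_le_one (by norm_num) (by norm_num) (by omega)
      _ = 1 / 2 := pow_one _
  have hpc : (D₀ + 1) * (p * (cl + 1)) ≤ t := by
    have h1 := bt_mw (p := p) (ζ := ζ) hp0 (by linarith) hNw
    rw [← hA, hWr] at h1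
    have h2 : p * ((8 * t + 4 * D₀ + 8) * (cl + 1)) ≤ p * A := mul_le_mul_of_nonneg_left hAl hp0
    have h3 : 4 * (1 + 2 * cl * p) * mw p (gp ζ) T N ≤ 4 * (1 + 2 * cl * p) * t :=
      mul_le_mul_of_nonneg_left hl2 (by positivity)
    have h4 : 0 ≤ p * t := by positivity
    linarith only [h1, h2, h3, h4, hp0, mul_nonneg hp0 hcl0]
  have hmiss : Miss (2 * (W + Kx)) p δ (η ⟨l, hl⟩) := by
    rw [hδ, hp]
    exact hη ⟨l, hl⟩ (2 * (W + Kx))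
  have hfam : Fam r W T N := ⟨hN0, hNr, hNw⟩
  -- the leaf is not met
  have hhit : (avg fun ω₂ => one (¬ Disjoint (η ⟨l, hl⟩ ω₂) D)) ≤ ε / 32 := by
    have h1 := miss_hit (hη ⟨l, hl⟩ 1) D
    rw [← hp, pow_one] at h1
    have h2 : (D.card : ℝ) ≤ k * cl := by rw [hcl]; exact_mod_cast hD
    have h3 : (2 : ℝ) / ((n : ℝ) + 1) ^ K ≤ 2 / ((n : ℝ) + 1) ^ 2 := by
      apply div_le_div_of_nonneg_left (by norm_num) (by positivity)
      exact pow_le_pow_right₀ (by linarith) (by omega)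
    have h4 : cl ≤ n := by
      rw [hcl]
      exact_mod_cast yma_clog_le n
    have h5 : (k : ℝ) * cl * (2 / ((n : ℝ) + 1) ^ 2) ≤ ε / 64 := by
      have h6 : 128 * k ≤ ε * n := by
        have h8 : 128 * k / ε ≤ n := by linarith
        rw [div_le_iff₀ hε] at h8
        linarith
      calc (k : ℝ) * cl * (2 / ((n : ℝ) + 1) ^ 2) ≤ k * n * (2 / ((n : ℝ) + 1) ^ 2) :=
            mul_le_mul_of_nonneg_right (mul_le_mul_of_nonneg_left h4 hk0) (by positivity)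
        _ = 2 * k * n / ((n : ℝ) + 1) ^ 2 := by ring
        _ ≤ ε / 64 := by
          rw [div_le_div_iff₀ (by positivity) (by norm_num)]
          have h9 : 128 * k * (n : ℝ) ≤ ε * n * n := mul_le_mul_of_nonneg_right h6 (by linarith)
          linarith only [h9, hε, mul_nonneg hε.le (show (0 : ℝ) ≤ n by linarith only [hnr])]
    have h7 : (k : ℝ) * cl * p ≤ ε / 64 := by
      have h8 : (k : ℝ) * cl * p * (D₀ + 1) ≤ k * t := by
        have h9 : (k : ℝ) * ((D₀ + 1) * (p * (cl + 1))) ≤ k * t := mul_le_mul_of_nonneg_left hpc hk0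
        have h10 : (0 : ℝ) ≤ k * ((D₀ + 1) * p) := by positivity
        linarith only [h9, h10]
      have h9 : (k : ℝ) * t ≤ ε / 64 * (D₀ + 1) := by
        have : (k : ℝ) * t = ε / 64 * D₀ := by
          rw [hD₀]
          field_simp
        linarith only [this, hε]
      exact le_of_mul_le_mul_right (h8.trans h9) (by positivity)
    calc (avg fun ω₂ => one (¬ Disjoint (η ⟨l, hl⟩ ω₂) D)) ≤
          D.card * (p + 2 / ((n : ℝ) + 1) ^ K) := h1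
      _ ≤ k * cl * (p + 2 / ((n : ℝ) + 1) ^ 2) := by
          refine mul_le_mul h2 (by linarith) (by positivity) (by positivity)
      _ = k * cl * p + k * cl * (2 / ((n : ℝ) + 1) ^ 2) := by ring
      _ ≤ ε / 32 := by linarith
  have hNG : Gapu c₀ T N := gapu_sub hG hNs
  have k1 : ‖Pqc Y η H (pr T ζ N)‖ ≤ ε / 8 := by
    have h1 := pqc_level Y η H ⟨l, hl⟩ (f := pr T ζ N) (ε := ε / 16) (ε' := ε / 32) D
      (fun x => (ml_norm_pr hNζ x).le) hYD hhit fun sh =>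
        hcore n hn1 W T N ζ hfam hζ hNG p δ hp0 hp1 hl1 hl2 hδ0 e2
          (e3 _ hNc) (fun ω₂ ω₃ ω₁ => xo (Y (sh ω₂ ω₃) ω₁) (sh ω₂ ω₃)) (η ⟨l, hl⟩) H
          (fun ω₂ ω₃ => (hY' _).xo _) hmiss hH'
    linarith
  have k2 : ‖av (pr T ζ N)‖ ≤ ε / 16 := by
    have h1 := hcore n hn1 W T N ζ hfam hζ hNG p δ hp0 hp1 hl1 hl2 hδ0 e2
      (e3 _ hNc) (fun _ _ x => xo x fun _ => false) (η ⟨l, hl⟩) H
      (fun _ _ => hU.xo _) hmiss hH'
    have h2 : (av fun ω₂ : Ω₂ => av fun ω₃ : Ω₃ => av fun x : Cube n =>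
        av fun b : Fin c → Bool =>
        pr T ζ N (mq (xo x fun _ => false) (η ⟨l, hl⟩ ω₂) (uv b (H ω₃)))) = av (pr T ζ N) := by
      have h3 : ∀ (ω₂ : Ω₂) (ω₃ : Ω₃), (av fun x : Cube n => av fun b : Fin c → Bool =>
          pr T ζ N (mq (xo x fun _ => false) (η ⟨l, hl⟩ ω₂) (uv b (H ω₃)))) =
          av (pr T ζ N) := by
        intro ω₂ ω₃
        rw [av_comm]
        simp only [yma_unif]
        exact yma_av_const _
      simp only [h3]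
      rw [yma_av_const, yma_av_const]
    rw [h2] at h1
    exact h1
  have d3 : ‖Pqc Y η H (pr T ζ N) - av (pr T ζ N)‖ ≤ ε / 4 := by
    refine (norm_sub_le _ _).trans ?_
    linarith
  calc ‖Pqc Y η H (pr T ζ M) - av (pr T ζ M)‖
      = ‖(Pqc Y η H (pr T ζ M) - Pqc Y η H (pr T ζ N)) +
          (Pqc Y η H (pr T ζ N) - av (pr T ζ N)) - (av (pr T ζ M) - av (pr T ζ N))‖ := by
        congr 1
        ring
    _ ≤ ‖(Pqc Y η H (pr T ζ M) - Pqc Y η H (pr T ζ N)) +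
          (Pqc Y η H (pr T ζ N) - av (pr T ζ N))‖ +
          ‖av (pr T ζ M) - av (pr T ζ N)‖ := norm_sub_le _ _
    _ ≤ (‖Pqc Y η H (pr T ζ M) - Pqc Y η H (pr T ζ N)‖ +
          ‖Pqc Y η H (pr T ζ N) - av (pr T ζ N)‖) +
          ‖av (pr T ζ M) - av (pr T ζ N)‖ := add_le_add (norm_add_le _ _) le_rfl
    _ ≤ ε := by linarith

end Pool.Agent.MP_ca1109_lc.Xr
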