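import Pool.Agent.MP_ca1109_lc.Xr.Defs

/-!
# The expansion of a term in block terms
-/

namespace Pool.Agent.MP_ca1109_lc.Xr

open Finset Pool.Agent.MP_ca1109_lc.Mpg Pool.Agent.MP_ca1109_lc.Agp
open Pool.Agent.MP_ca1109_lc.Dnf (Cube ch one Term)
open Pool.Agent.MP_ca1109_lc.Xl (Tr tm pr Rd)

variable {n : ℕ} {ι β : Type}

theorem exp_tm (S : Finset (Fin n)) (a x : Cube n) :
    tm S a x = ∏ i ∈ S, (if x i = a i then (1 : ℝ) else 0) := by
  unfold tm
  by_cases h : Tr S a x
  · rw [Dnf.one_true h]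
    exact (Finset.prod_eq_one fun i hi => if_pos (h i hi)).symm
  · rw [Dnf.one_false h]
    unfold Tr at h
    push Not at h
    obtain ⟨i, hi, hx⟩ := h
    exact (Finset.prod_eq_zero hi (if_neg hx)).symm

theorem exp_tm_union {S S' : Finset (Fin n)} (h : Disjoint S S') (a x : Cube n) :
    tm (S ∪ S') a x = tm S a x * tm S' a x := by
  rw [exp_tm, exp_tm, exp_tm, Finset.prod_union h]

theorem exp_tm_congr {S : Finset (Fin n)} {a a' : Cube n} (h : ∀ i ∈ S, a i = a' i) (x : Cube n) :
    tm S a x = tm S a' x := by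
  rw [exp_tm, exp_tm]
  exact Finset.prod_congr rfl fun i hi => by rw [h i hi]

theorem expand (K : Finset (Fin n)) (y : Cube n) (t : Term n) (hK : K ⊆ t.S)
    (hy : ∀ i ∈ K, t.a i = y i) : ∃ co : Finset (Fin n) → ℝ, ∀ x : Cube n,
      tm t.S t.a x = ∑ B ∈ (t.S \ K).powerset, co B * tm (bt K y B).S (bt K y B).a x := by
  classical
  refine ⟨fun B => (∏ i ∈ B, if t.a i = true then (1 : ℝ) else -1) *
    ∏ i ∈ (t.S \ K) \ B, if t.a i = true then (0 : ℝ) else 1, fun x => ?_⟩
  have h1 : tm t.S t.a x = tm K y x * tm (t.S \ K) t.a x := by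
    have h2 : t.S = K ∪ (t.S \ K) := (Finset.union_sdiff_of_subset hK).symm
    calc tm t.S t.a x = tm (K ∪ (t.S \ K)) t.a x := by rw [← h2]
      _ = tm K t.a x * tm (t.S \ K) t.a x := exp_tm_union disjoint_sdiff _ _
      _ = _ := by rw [exp_tm_congr hy]
  have h3 : tm (t.S \ K) t.a x = ∏ i ∈ t.S \ K,
      ((if t.a i = true then (1 : ℝ) else -1) * (if x i = true then (1 : ℝ) else 0) +
        (if t.a i = true then (0 : ℝ) else 1)) := by
    rw [exp_tm]
    refine Finset.prod_congr rfl fun i _ => ?_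
    cases x i <;> cases t.a i <;> simp
  rw [h1, h3, Finset.prod_add, Finset.mul_sum]
  refine Finset.sum_congr rfl fun B hB => ?_
  rw [Finset.mem_powerset] at hB
  have hd : Disjoint K B := Finset.disjoint_of_subset_right hB disjoint_sdiff
  have h4 : tm (bt K y B).S (bt K y B).a x = tm K y x * ∏ i ∈ B, (if x i = true then (1 : ℝ) else 0) := by
    show tm (K ∪ B) (fun i => if i ∈ K then y i else true) x = _
    rw [exp_tm_union hd, exp_tm_congr (a' := y) (fun i hi => if_pos hi),
      exp_tm_congr (S := B) (a' := fun _ => true)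
        (fun i hi => if_neg (Finset.disjoint_right.1 hd hi)), exp_tm B]
  rw [h4, Finset.prod_mul_distrib]
  ring

end Pool.Agent.MP_ca1109_lc.Xr
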