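import Pool.Agent.MP_ca1109_lc.Xr.FWT
import Pool.Agent.MP_ca1109_lc.Xr.ANYG

/-!
# Sums in any abelian group and real weights over arbitrary conjunctions of literals: the theorem
-/

namespace Pool.Agent.MP_ca1109_lc.Xr

open Pool.Agent.MP_ca1109_lc.Mpg

/-- One explicit generator with logarithmic seeds fools all functions which, on each of at most
`n ^ h` subcubes which partition the cube, are functions of `k` gates. -/
theorem final_any (q d r B k h : ℕ) (hq : 0 < q) {ε : ℝ} (hε : 0 < ε) :
    LogGen (PartTestA q d r B k h) ε :=
  (final_g q d r B k h hq hε).mono fun _ _ hf => hf.toG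

end Pool.Agent.MP_ca1109_lc.Xr
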