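import Pool.Agent.MP_ca1109_lc.Xr.IN
import Pool.Agent.MP_ca1109_lc.Xr.RS

/-!
# Partitions into subcubes with functions of gates, real weights over arbitrary literals: the theorem
-/

namespace Pool.Agent.MP_ca1109_lc.Xr

open Pool.Agent.MP_ca1109_lc.Mpg Pool.Agent.MP_ca1109_lc.Agp
open Pool.Agent.MP_ca1109_lc.Xv (vio)
open Pool.Agent.MP_ca1109_lc.Xd (LeafGen part_of fx)

variable {n : ℕ}

/-- The gates of the class are gates in the sense of `Gr`. -/
theorem gate_gr {q d r B : ℕ} {g : (Fin n → Bool) → Bool} (hg : Gate q d r B g) :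
    Gr (vio q d n) r q B g := by
  obtain ⟨N, S, y, hg⟩ := hg
  rcases hg with ⟨G, i1, i2, c, A, hq, hA, hr, hgx⟩ | ⟨w, θ, hr, hgx⟩
  · exact gr_mod hq hA hr hgx
  · exact gr_real hr hgx

theorem leaf_real (q d r B k e : ℕ) (hq : 0 < q) {ε : ℝ} (hε : 0 < ε) :
    LeafGen (GateTest q d r B k) e ε := by
  refine leaf_gr q d r B k e hq (fun n f hf L a => ?_) hε
  obtain ⟨g, F, hg, hgF⟩ := GateTest.fx hf L a
  exact ⟨g, F, fun j => gate_gr (hg j), hgF⟩

/-- One explicit generator with logarithmic seeds fools all functions which, on each of at most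
`n ^ h` subcubes which partition the cube, are functions of `k` gates. -/
theorem final_real (q d r B k h : ℕ) (hq : 0 < q) {ε : ℝ} (hε : 0 < ε) :
    LogGen (PartTest q d r B k h) ε :=
  part_of h (fun _ hε => leaf_real q d r B k (h + 1) hq hε) hε

end Pool.Agent.MP_ca1109_lc.Xr
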