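import Pool.Agent.MP_ca1109_lc.Xr.WDT
import Pool.Agent.MP_ca1109_lc.Xd.MX

/-!
# Row MX for terms: weights of bounded order times unimodular weights of bounded mass, at the leaves
-/

namespace Pool.Agent.MP_ca1109_lc.Xr

open Finset Pool.Agent.H66 Pool.Agent.MP_ca1109_lc.Mpg Pool.Agent.MP_ca1109_lc.Agp
open Pool.Agent.MP_ca1109_lc.Dnf (Cube Term)
open Pool.Agent.MP_ca1109_lc.Xl (pr Rd A1 ml_norm_pr)
open Pool.Agent.MP_ca1109_lc.Xd (LFooled gl_of gxm)

theorem mixT (r Q k : ℕ) (hQ : 0 < Q) (C : ℝ) {ε : ℝ} (hε : 0 < ε) :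
    LFooled (MixT r Q C) k ε := by
  classical
  refine gl_of r k ?_ hε ?_
  · rintro n f ⟨ι, i1, T, M, N, ζ, -, -, -, h1, -, -, rfl⟩ x
    exact (ml_norm_pr (fun m _ => h1 m) x).le
  · obtain ⟨s, KK, n₀, H⟩ := gxm r Q k hQ (le_max_right C 0) (show 0 < ε / 4 by positivity)
    refine ⟨s, KK, n₀, ?_⟩
    rintro n hn L hL Ω₁ Ω₂ _ _ _ _ Y η h hY hYL hS f
      ⟨ι, i1, T, M, N, ζ, hM, hne, hNM, h1, h2, h3, rfl⟩
    have hsub : ∀ {A : Finset ι}, A ⊆ M → Rd r T A := fun {A} hA i =>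
      (Finset.card_le_card (Finset.filter_subset_filter _ hA)).trans (hM i)
    have key := H n hn L hL Y η h hY hYL hS T (M \ N) ζ T N ζ
      (hsub Finset.sdiff_subset) (fun m hm => hne m (Finset.sdiff_subset hm))
      (fun m hm => h2 m (Finset.mem_sdiff.1 hm).1 (Finset.mem_sdiff.1 hm).2)
      (hsub hNM) (fun m hm => hne m (hNM hm)) (fun m _ => h1 m) (by
        refine h3.trans ?_
        exact mul_le_mul_of_nonneg_right (le_max_left _ _) (by positivity))
    have h4 : pr T ζ M = fun x => pr T ζ (M \ N) x * pr T ζ N x := by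
      funext x
      unfold Xl.pr
      exact (Finset.prod_sdiff hNM).symm
    rw [h4]
    exact key

end Pool.Agent.MP_ca1109_lc.Xr
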