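import Pool.Agent.MP_ca1109_lc.Xr.TestG
import Pool.Agent.MP_ca1109_lc.Xr.RS

/-!
# Restricted gates, with group gates of any order
-/

namespace Pool.Agent.MP_ca1109_lc.Xr

open Finset
open Pool.Agent.MP_ca1109_lc.Xu (litSum)
open Pool.Agent.MP_ca1109_lc.Xd (fx rS rc rS_mem rS_card litSum_fx)

variable {n : ℕ}

/-- Restricted gates. -/
theorem GateG.fx {q d r B : ℕ} {g : (Fin n → Bool) → Bool} (h : GateG q d r B g)
    (L : Finset (Fin n)) (a : Fin n → Bool) : GateG q d r B fun x => g (Xd.fx L a x) := by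
  obtain ⟨N, S, y, h⟩ := h
  refine ⟨N, rS L a S y, y, ?_⟩
  rcases h with ⟨G, i1, i2, c, A, hq, hA, hr, hg⟩ | ⟨G, i1, i2, c, A, hA, hr, hg⟩ | ⟨w, θ, hr, hg⟩
  · refine Or.inl ⟨G, i1, i2, rc L a S y c, A, hq, hA, fun i => ?_, fun x => ?_⟩
    · refine (Set.ncard_le_ncard ?_ (Set.toFinite _)).trans (hr i)
      rintro m ⟨h1, h2⟩
      have h3 := rS_mem h1
      refine ⟨h3.2.1, ?_⟩
      rcases h2 with h2 | h2
      · exact Or.inl (h2.trans_le rS_card)
      · refine Or.inr ?_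
        have h4 : rc L a S y c m = c m := if_pos h3.1
        rwa [h4] at h2
    · rw [hg, litSum_fx]
  · refine Or.inr (Or.inl ⟨G, i1, i2, rc L a S y c, A, hA, fun i => ?_, fun x => ?_⟩)
    · refine (Set.ncard_le_ncard ?_ (Set.toFinite _)).trans (hr i)
      intro m h1
      exact (rS_mem h1).2.1
    · rw [hg, litSum_fx]
  · refine Or.inr (Or.inr ⟨rc L a S y w, θ, fun i => ?_, fun x => ?_⟩)
    · refine (Set.ncard_le_ncard ?_ (Set.toFinite _)).trans (hr i)
      intro m h1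
      exact (rS_mem h1).2.1
    · rw [hg, litSum_fx]

/-- Restricted functions of gates. -/
theorem GateTestG.fx {q d r B k : ℕ} {f : (Fin n → Bool) → Bool} (h : GateTestG q d r B k n f)
    (L : Finset (Fin n)) (a : Fin n → Bool) :
    GateTestG q d r B k n fun x => f (Xd.fx L a x) := by
  obtain ⟨g, F, hg, hf⟩ := h
  exact ⟨fun j x => g j (Xd.fx L a x), F, fun j => GateG.fx (hg j) L a, fun x => hf _⟩

/-- The gates of `Gate` are in the class. -/
theorem GateG.of_gate {q d r B : ℕ} {g : (Fin n → Bool) → Bool} (h : Gate q d r B g) :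
    GateG q d r B g := by
  obtain ⟨N, S, y, h⟩ := h
  rcases h with h | h
  · exact ⟨N, S, y, Or.inl h⟩
  · exact ⟨N, S, y, Or.inr (Or.inr h)⟩

end Pool.Agent.MP_ca1109_lc.Xr
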