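import Pool.Agent.MP_ca1109_lc.Xr.AGT
import Pool.Agent.MP_ca1109_lc.Xr.BGT
import Pool.Agent.MP_ca1109_lc.Xr.MXT
import Pool.Agent.MP_ca1109_lc.Xr.FR
import Pool.Agent.MP_ca1109_lc.Xr.RSG
import Pool.Agent.MP_ca1109_lc.Xw.FW0

/-!
# Functions of gates on the subcubes of a partition, any group and any literals: the theorem
-/

namespace Pool.Agent.MP_ca1109_lc.Xr

open Finset Pool.Agent.H66 Pool.Agent.MP_ca1109_lc.Mpg Pool.Agent.MP_ca1109_lc.Agp
open Pool.Agent.MP_ca1109_lc.Dnf (Cube one Term)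
open Pool.Agent.MP_ca1109_lc.Xp (xo fl ma_norm_av ma_av_const)
open Pool.Agent.MP_ca1109_lc.Xl (Tr pr Rd ml_norm_pr)
open Pool.Agent.MP_ca1109_lc.Xa (PB FP lt fu_rd)
open Pool.Agent.MP_ca1109_lc.Xv (vio)
open Pool.Agent.MP_ca1109_lc.Xu (litSum)
open Pool.Agent.MP_ca1109_lc.Xw (Sc fw_union fw_cond sc_pb sc_union)
open Pool.Agent.MP_ca1109_lc.Xd (lf Lf LFooled fl_gen fl_norm ft_leaf ft_ofReal ft_unif LeafGen
  part_of)

variable {n : ℕ} {ι : Type}

/-! ## Shifts -/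

/-- The shifted terms. -/
def ts (T : ι → Term n) (s : Cube n) : ι → Term n :=
  fun m => ⟨(T m).S, fun i => xor ((T m).a i) (s i)⟩

theorem ts_tr (T : ι → Term n) (s x : Cube n) (m : ι) :
    Tr (ts T s m).S (ts T s m).a x ↔ Tr (T m).S (T m).a (xo x s) := by
  refine forall₂_congr fun i _ => ?_
  show x i = xor ((T m).a i) (s i) ↔ xor (x i) (s i) = (T m).a i
  cases x i <;> cases s i <;> cases (T m).a i <;> decide

theorem ts_pr (T : ι → Term n) (ζ : ι → ℂ) (M : Finset ι) (s x : Cube n) :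
    pr (ts T s) ζ M x = pr T ζ M (xo x s) := by
  classical
  unfold Xl.pr
  refine prod_congr rfl fun m _ => ?_
  by_cases h : Tr (T m).S (T m).a (xo x s)
  · rw [if_pos ((ts_tr T s x m).2 h), if_pos h]
  · rw [if_neg fun h' => h ((ts_tr T s x m).1 h'), if_neg h]

theorem xo_fl (i : Fin n) (x s : Cube n) : xo (fl i x) s = fl i (xo x s) := by
  funext j
  unfold xo Xp.fl
  by_cases h : j = i
  · subst h
    rw [Function.update_self, Function.update_self]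
    show xor (!(x j)) (s j) = !(xor (x j) (s j))
    cases x j <;> cases s j <;> rfl
  · rw [Function.update_of_ne h, Function.update_of_ne h]

theorem ts_gapu {c : ℝ} {T : ι → Term n} {M : Finset ι} (h : Gapu c T M) (s : Cube n) :
    Gapu c (ts T s) M := by
  intro ζ hζ i C hC hi m₀ hm₀
  obtain ⟨x, hx⟩ := h ζ hζ i C hC hi m₀ hm₀
  refine ⟨xo x s, ?_⟩
  rw [ts_pr, ts_pr, xo_fl, Xp.spb_xo_xo]
  exact hx

theorem sc_bigT (r : ℕ) (c C : ℝ) (n : ℕ) : Sc (BigT r c C n) := by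
  rintro f ⟨ι, i1, T, M, ζ, h1, h2, h3, h4, h5, rfl⟩ s
  refine ⟨ι, i1, ts T s, M, ζ, h1, h2, ts_gapu h3 s, h4, h5, ?_⟩
  funext x
  exact (ts_pr T ζ M s x).symm

theorem sc_mixT (r Q : ℕ) (C : ℝ) (n : ℕ) : Sc (MixT r Q C n) := by
  rintro f ⟨ι, i1, T, M, N, ζ, h1, h2, h3, h4, h5, h6, rfl⟩ s
  refine ⟨ι, i1, ts T s, M, N, ζ, h1, h2, h3, h4, h5, h6, ?_⟩
  funext x
  exact (ts_pr T ζ M s x).symm

/-! ## The gates -/

theorem fu_vt {N : ℕ} {G : Type} [AddCommGroup G] (S : Fin N → Finset (Fin n))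
    (y : Fin N → Fin n → Bool) (c : Fin N → G) (x : Cube n) :
    litSum S y c x = vt (lt S y) c univ x := by
  classical
  unfold litSum vt
  refine sum_congr rfl fun m _ => ?_
  by_cases h : ∀ i ∈ S m, x i = y m i
  · rw [if_pos h, if_pos (show Tr (lt S y m).S (lt S y m).a x from h)]
  · rw [if_neg h, if_neg (show ¬ Tr (lt S y m).S (lt S y m).a x from h)]

theorem gate_g {q d r B : ℕ} {g : (Fin n → Bool) → Bool} (hg : GateG q d r B g) :
    Gr (vio q d n) r q B g ∨ Gg r B g := by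
  classical
  obtain ⟨N, S, y, hg⟩ := hg
  rcases hg with ⟨G, i1, i2, c, A, hq, hA, hr, hgx⟩ | ⟨G, i1, i2, c, A, hA, hr, hgx⟩ |
    ⟨w, θ, hr, hgx⟩
  · exact Or.inl (gr_mod hq hA hr hgx)
  · have i3 : Fintype G := Fintype.ofFinite G
    refine Or.inr ⟨G, i1, i3, Fin N, inferInstance, lt S y, univ, c, A, ?_, hA, fun x => ?_⟩
    · exact fu_rd (P := fun _ => True) (by simpa using hr) _ fun _ _ _ _ => trivial
    · rw [hgx, fu_vt]
  · exact Or.inl (gr_real hr hgx)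

theorem apx1_gr (r q B : ℕ) (hq : 0 < q) : Apx1 fun _ U g => Gr U r q B g := by
  intro ε₁ h1
  obtain ⟨R, K, V, C, ε₀, hK, hV, hC, hε₀, H⟩ := apx_gr r q B h1
  exact ⟨R, q, K, V, C, ε₀, hq, hK, hV, hC, hε₀, H⟩

/-! ## The theorem -/

/-- The functions of `k` gates at the leaves. -/
theorem leaf_g (q d r B k e : ℕ) (hq : 0 < q) {ε : ℝ} (hε : 0 < ε) :
    LeafGen (GateTestG q d r B k) e ε := by
  classical
  obtain ⟨R, Q, K, V, c, κ, ε₀, hQ, hK, hV, hc, hc1, hκ, hε₀, HS⟩ := str_gg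
    (apx1_gr r q B hq) r B k (show 0 < ε / 2 by positivity)
  obtain ⟨ε₁, hε₁⟩ : ∃ ε₁ : ℝ, ε₁ = min (1 / 2) (min (ε₀ / 4) (ε / 2)) := ⟨_, rfl⟩
  have hε₁0 : 0 < ε₁ := by
    rw [hε₁]
    exact lt_min (by norm_num) (lt_min (by positivity) (by positivity))
  have hε₁1 : ε₁ ≤ 1 / 2 := by rw [hε₁]; exact min_le_left _ _
  have hε₁2 : 4 * ε₁ ≤ ε₀ := by
    have h : ε₁ ≤ ε₀ / 4 := by rw [hε₁]; exact (min_le_right _ _).trans (min_le_left _ _)
    linarith
  have hε₁3 : ε₁ ≤ ε / 2 := by rw [hε₁]; exact (min_le_right _ _).trans (min_le_right _ _)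
  obtain ⟨C, hC, hbig⟩ := bigT R e hc hc1 hε₁0
  obtain ⟨E, G, hNG, n₀, HG⟩ := fw_union (fun n => sc_pb q d R Q K V n)
    (fun n => sc_union (sc_bigT R c C n) (sc_mixT R Q (κ * C) n))
    (fl_gen q d R Q e K V hQ hK hV hε₁0)
    (fw_union (fun n => sc_bigT R c C n) (fun n => sc_mixT R Q (κ * C) n) hbig
      (mixT R Q e hQ (κ * C) hε₁0))
  refine ⟨E, G, hNG, n₀, fun n hn L a hL => ?_⟩
  have hne : Nonempty (Fin (2 ^ E n)) := ⟨⟨0, by positivity⟩⟩
  have hX := HG n hn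
  obtain ⟨hP, Ω', i1, i2, X', hX', hlf⟩ := fw_cond (Or.inl (PB.one R Q hK hV)) hε₁0.le hε₁1 hX
    (fun f hf x => by
      rcases hf with hf | ⟨ι, i1, T, M, ζ, h1, h2, h3, h4, h5, rfl⟩ |
        ⟨ι, i1, T, M, N, ζ, h1, h2, h3, h4, h5, h6, rfl⟩
      · exact fl_norm hQ hf x
      · exact (ml_norm_pr (fun m _ => h4 m) _).le
      · exact (ml_norm_pr (fun m _ => h4 m) _).le) L hL a
  obtain ⟨D, hD⟩ : ∃ D : ℝ, D = (1 / 2) ^ L.card := ⟨_, rfl⟩
  have hD0 : 0 < D := by rw [hD]; positivity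
  refine ⟨hP.trans (mul_le_mul_of_nonneg_right (by linarith) (by positivity)), fun f hf => ?_⟩
  obtain ⟨g, F, hg, hgF⟩ := GateTestG.fx hf L a
  have h1 := HS C hC n (vio q d n) g F (fun j => gate_g (hg j)) X'
    (fun f hf => (hX' f (Or.inl hf)).trans hε₁2)
    (fun f hf => (hX' f (Or.inr hf)).trans hε₁2)
  simp only [← hgF] at h1
  have h2 := hlf (fun y => ((ind (f (Xd.fx L a y)) : ℝ) : ℂ))
  simp only [ft_leaf] at h2
  rw [ft_ofReal, ft_ofReal, ← Complex.ofReal_mul] at h2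
  have h3 := Complex.ofReal_injective h2
  rw [h3, ft_unif]
  obtain ⟨P, hPd⟩ : ∃ P : ℝ, P = avg fun p : Fin (2 ^ E n) => one (Tr L a (out G n p)) :=
    ⟨_, rfl⟩
  obtain ⟨A', hA'⟩ : ∃ A' : ℝ, A' = avg fun ω' : Ω' => ind (f (Xd.fx L a (X' ω'))) := ⟨_, rfl⟩
  obtain ⟨A, hA⟩ : ∃ A : ℝ, A = avg fun x : Cube n => ind (f (Xd.fx L a x)) := ⟨_, rfl⟩
  have hA0 : 0 ≤ A' := by
    rw [hA']
    exact avg_nonneg fun ω => by unfold ind; split_ifs <;> norm_num
  have hA1 : A' ≤ 1 := by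
    rw [hA']
    refine (avg_mono (g := fun _ => (1 : ℝ)) fun ω => ?_).trans (le_of_eq (avg_const _))
    unfold ind
    split_ifs <;> norm_num
  rw [← hPd, ← hA', ← hA, ← hD]
  rw [← hPd, ← hD] at hP
  rw [← hA', ← hA] at h1
  have h4 : P * A' - D * A = (P - D) * A' + D * (A' - A) := by ring
  rw [h4]
  refine (abs_add_le _ _).trans ?_
  rw [abs_mul, abs_mul, abs_of_nonneg hA0, abs_of_pos hD0]
  have h5 : |P - D| * A' ≤ ε / 2 * D := by
    calc |P - D| * A' ≤ |P - D| * 1 := mul_le_mul_of_nonneg_left hA1 (abs_nonneg _)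
      _ ≤ ε₁ * D := by rw [mul_one]; exact hP
      _ ≤ ε / 2 * D := mul_le_mul_of_nonneg_right hε₁3 hD0.le
  have h6 : D * |A' - A| ≤ D * (ε / 2) := mul_le_mul_of_nonneg_left h1 hD0.le
  linarith

/-- One explicit generator with logarithmic seeds fools all functions which, on each of at most
`n ^ h` subcubes which partition the cube, are functions of `k` gates. -/
theorem final_g (q d r B k h : ℕ) (hq : 0 < q) {ε : ℝ} (hε : 0 < ε) :
    LogGen (PartTestG q d r B k h) ε :=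
  part_of h (fun _ hε => leaf_g q d r B k (h + 1) hq hε) hε

end Pool.Agent.MP_ca1109_lc.Xr
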