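import Pool.Agent.MP_ca1109_lc.Xr.Defs

/-!
# Row ISO: the terms of a block can be isolated
-/

namespace Pool.Agent.MP_ca1109_lc.Xr

open Finset Pool.Agent.MP_ca1109_lc.Mpg Pool.Agent.MP_ca1109_lc.Agp
open Pool.Agent.MP_ca1109_lc.Dnf (Cube ch one Term)
open Pool.Agent.MP_ca1109_lc.Xp (fl)
open Pool.Agent.MP_ca1109_lc.Xl (Tr tm pr Rd)

variable {n : ℕ} {ι β : Type}

theorem iso_tog (S : Finset (Fin n)) (f : Finset (Fin n) → ℤ) {i : Fin n} (hi : i ∈ S)
    (hf : ∀ A, i ∉ A → f (insert i A) = f A) : ∑ A ∈ S.powerset, (-1) ^ A.card * f A = 0 := by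
  classical
  rw [← insert_erase hi, sum_powerset_insert (notMem_erase i S), ← sum_add_distrib]
  refine sum_eq_zero fun A hA => ?_
  have h1 : i ∉ A := fun h => notMem_erase i S (mem_powerset.1 hA h)
  rw [card_insert_of_notMem h1, hf A h1, pow_succ]
  ring

theorem iso_inv {z : ℂ} (hz : ‖z‖ = 1) : ‖1 - z⁻¹‖ = ‖1 - z‖ := by
  have h0 : z ≠ 0 := fun h => by rw [h, norm_zero] at hz; exact zero_ne_one hz
  have h1 : 1 - z⁻¹ = -(z⁻¹ * (1 - z)) := by
    field_simp
    ring
  rw [h1, norm_neg, norm_mul, norm_inv, hz, inv_one, one_mul]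

theorem iso_pm {z : ℂ} (hz : ‖z‖ = 1) {k : ℤ} (hk : k = 1 ∨ k = -1) : ‖1 - z ^ k‖ = ‖1 - z‖ := by
  rcases hk with rfl | rfl
  · rw [zpow_one]
  · rw [zpow_neg_one, iso_inv hz]

theorem iso_prod {γ : Type*} (I : Finset γ) (g : γ → ℂ) (k : γ → ℤ) (hg : ∀ i ∈ I, ‖g i‖ = 1)
    (hk : ∀ i ∈ I, k i = 1 ∨ k i = -1) : ‖1 - ∏ i ∈ I, g i ^ k i‖ ≤ ∑ i ∈ I, ‖1 - g i‖ := by
  classical
  induction I using Finset.induction_on with
  | empty => simp
  | insert a I ha ih =>
    rw [prod_insert ha, sum_insert ha]
    have h1 := ih (fun i hi => hg i (mem_insert_of_mem hi)) fun i hi => hk i (mem_insert_of_mem hi)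
    have h2 : 1 - g a ^ k a * ∏ i ∈ I, g i ^ k i =
        (1 - g a ^ k a) + g a ^ k a * (1 - ∏ i ∈ I, g i ^ k i) := by ring
    rw [h2]
    refine (norm_add_le _ _).trans ?_
    rw [norm_mul, norm_zpow, hg a (mem_insert_self a I), one_zpow, one_mul,
      iso_pm (hg a (mem_insert_self a I)) (hk a (mem_insert_self a I))]
    linarith

/-- The literals off `v`. -/
noncomputable def iso_e (T : ι → Term n) (v : Fin n) (m : ι) (x : Cube n) : ℤ :=
  open Classical in if Tr ((T m).S.erase v) (T m).a x then 1 else 0

/-- The sign of the literal at `v`. -/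
def iso_s (T : ι → Term n) (v : Fin n) (m : ι) : ℤ := if (T m).a v = true then 1 else -1

theorem iso_tr {T : ι → Term n} {v : Fin n} {m : ι} (hm : v ∈ (T m).S) (x : Cube n) (b : Bool) :
    Tr (T m).S (T m).a (Function.update x v b) ↔
      (T m).a v = b ∧ Tr ((T m).S.erase v) (T m).a x := by
  constructor
  · intro h
    refine ⟨?_, fun i hi => ?_⟩
    · have := h v hm
      rw [Function.update_self] at this
      exact this.symm
    · obtain ⟨h1, h2⟩ := mem_erase.1 hi
      have := h i h2
      rwa [Function.update_of_ne h1] at this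
  · rintro ⟨h1, h2⟩ i hi
    by_cases h : i = v
    · subst h
      rw [Function.update_self, h1]
    · rw [Function.update_of_ne h]
      exact h2 i (mem_erase.2 ⟨h, hi⟩)

theorem iso_norm_pr {T : ι → Term n} {ζ : ι → ℂ} (hζ : ∀ m, ‖ζ m‖ = 1) (C : Finset ι)
    (x : Cube n) : ‖pr T ζ C x‖ = 1 := by
  unfold pr
  rw [norm_prod]
  refine prod_eq_one fun m _ => ?_
  split_ifs
  · exact hζ m
  · exact norm_one

/-- The quotient of the values at the two points. -/
theorem iso_quot {T : ι → Term n} {ζ : ι → ℂ} (hζ : ∀ m, ‖ζ m‖ = 1) {C : Finset ι} {v : Fin n}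
    (hC : ∀ m ∈ C, v ∈ (T m).S) {δ : ℝ}
    (hδ : ∀ x, ‖pr T ζ C (fl v x) - pr T ζ C x‖ ≤ δ) (x : Cube n) :
    ‖1 - ∏ m ∈ C, ζ m ^ (iso_s T v m * iso_e T v m x)‖ ≤ δ := by
  classical
  have h0 : ∀ m, ζ m ≠ 0 := fun m h => by
    have := hζ m
    rw [h, norm_zero] at this
    exact zero_ne_one this
  have hfl : fl v (Function.update x v false) = Function.update x v true := by
    unfold fl
    rw [Function.update_self, Function.update_idem]
    rfl
  have h1 : (∏ m ∈ C, ζ m ^ (iso_s T v m * iso_e T v m x)) *
      pr T ζ C (Function.update x v false) = pr T ζ C (Function.update x v true) := by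
    unfold pr
    rw [← prod_mul_distrib]
    refine prod_congr rfl fun m hm => ?_
    unfold iso_s iso_e
    have ht := iso_tr (hC m hm) x true
    have hf := iso_tr (hC m hm) x false
    by_cases h2 : Tr ((T m).S.erase v) (T m).a x
    · rcases Bool.eq_false_or_eq_true ((T m).a v) with h3 | h3
      · rw [if_pos h3, if_pos h2, if_pos (ht.2 ⟨h3, h2⟩), if_neg fun h => by
          have := (hf.1 h).1
          rw [h3] at this
          exact absurd this (by decide)]
        simp
      · rw [if_neg (by rw [h3]; decide), if_pos h2, if_pos (hf.2 ⟨h3, h2⟩), if_neg fun h => by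
          have := (ht.1 h).1
          rw [h3] at this
          exact absurd this (by decide)]
        rw [mul_one, zpow_neg_one, inv_mul_cancel₀ (h0 m)]
    · rw [if_neg h2, mul_zero, zpow_zero, if_neg fun h => h2 (hf.1 h).2,
        if_neg fun h => h2 (ht.1 h).2, mul_one]
  have h2 := hδ (Function.update x v false)
  rw [hfl, ← h1] at h2
  have h3 : (∏ m ∈ C, ζ m ^ (iso_s T v m * iso_e T v m x)) *
      pr T ζ C (Function.update x v false) - pr T ζ C (Function.update x v false) =
      -((1 - ∏ m ∈ C, ζ m ^ (iso_s T v m * iso_e T v m x)) *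
        pr T ζ C (Function.update x v false)) := by ring
  rw [h3, norm_neg, norm_mul, iso_norm_pr hζ, mul_one] at h2
  exact h2

theorem iso [DecidableEq β] {s : ℕ} {K : β → Finset (Fin n)} {y : β → Cube n} {v : Fin n}
    {C : Finset (β × Finset (Fin n))} {q : β} {ζ : β × Finset (Fin n) → ℂ}
    (hζ : ∀ m, ‖ζ m‖ = 1) (hC : ∀ m ∈ C, v ∈ K m.1 ∪ m.2) (hd : ∀ m ∈ C, Disjoint (K m.1) m.2)
    (hI : Isl s K y v C q) {δ : ℝ}
    (hδ : ∀ x, ‖pr (bf K y) ζ C (fl v x) - pr (bf K y) ζ C x‖ ≤ δ) :
    ∀ m ∈ C, m.1 = q → ‖1 - ζ m‖ ≤ 2 ^ s * δ := by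
  classical
  rintro ⟨q', B⟩ hm hq'
  have hq : q' = q := hq'
  subst hq
  obtain ⟨D, U, p, hKD, hUK, hvU, hsz, hp, hk⟩ := hI
  have hδ0 : 0 ≤ δ := (norm_nonneg _).trans (hδ fun _ => false)
  obtain ⟨hBD, hs⟩ := hsz _ hm rfl
  have hKD' : ∀ i ∈ K q', i ∉ D := fun i h => disjoint_left.1 hKD h
  -- the points
  set X : Finset (Fin n) → Finset (Fin n) → Cube n := fun A E i =>
    if i ∈ D then decide (i ∈ A) else if i ∈ E then !(p i) else p i with hX
  set I : Finset (Finset (Fin n) × Finset (Fin n)) := (B.erase v).powerset ×ˢ U.powerset with hI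
  set G : Finset (Fin n) × Finset (Fin n) → ℂ := fun i =>
    ∏ m ∈ C, ζ m ^ (iso_s (bf K y) v m * iso_e (bf K y) v m (X i.1 i.2)) with hG
  set k : Finset (Fin n) × Finset (Fin n) → ℤ := fun i => (-1) ^ i.1.card * (-1) ^ i.2.card with hk'
  have hpm : ∀ i, k i = 1 ∨ k i = -1 := by
    intro i
    simp only [hk', ← pow_add]
    exact neg_one_pow_eq_or ℤ _
  have hG1 : ∀ i, ‖G i‖ = 1 := by
    intro i
    simp only [hG]
    rw [norm_prod]
    refine prod_eq_one fun m _ => ?_
    rw [norm_zpow, hζ m, one_zpow]
  have hGδ : ∀ i, ‖1 - G i‖ ≤ δ := fun i => iso_quot hζ hC hδ _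
  -- the exponents
  have hexp : ∀ m ∈ C, (∑ i ∈ I, k i * iso_e (bf K y) v m (X i.1 i.2)) =
      if m = (q', B) then (-1) ^ (B.erase v).card else 0 := by
    intro m hmC
    rw [hI, sum_product]
    simp only [hk']
    by_cases hmq : m.1 = q'
    · -- the same block
      obtain ⟨q₂, B'⟩ := m
      have hq₂ : q₂ = q' := hmq
      subst hq₂
      obtain ⟨hB'D, _⟩ := hsz _ hmC rfl
      have hval : ∀ A E, E ∈ U.powerset → iso_e (bf K y) v (q₂, B') (X A E) =
          (if E = ∅ then 1 else 0) * if B'.erase v ⊆ A then 1 else 0 := by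
        intro A E hE
        have hEU := mem_powerset.1 hE
        unfold iso_e
        have h1 : Tr ((bf K y (q₂, B')).S.erase v) (bf K y (q₂, B')).a (X A E) ↔
            E = ∅ ∧ B'.erase v ⊆ A := by
          constructor
          · intro h
            constructor
            · rw [eq_empty_iff_forall_notMem]
              intro i hi
              have hiK := hUK (hEU hi)
              have hiv : i ≠ v := fun h => hvU (h ▸ hEU hi)
              have h2 := h i (mem_erase.2 ⟨hiv, mem_union_left _ hiK⟩)
              simp only [hX, bf, bt] at h2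
              rw [if_neg (hKD' i hiK), if_pos hi, if_pos hiK, hp i hiK hiv] at h2
              revert h2
              cases y q₂ i <;> decide
            · intro i hi
              obtain ⟨hiv, hiB⟩ := mem_erase.1 hi
              have h2 := h i (mem_erase.2 ⟨hiv, mem_union_right _ hiB⟩)
              simp only [hX, bf, bt] at h2
              rw [if_pos (hB'D hiB), if_neg fun h => hKD' i h (hB'D hiB)] at h2
              exact of_decide_eq_true h2
          · rintro ⟨hE0, hA⟩ i hi
            obtain ⟨hiv, hiS⟩ := mem_erase.1 hi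
            simp only [hX, bf, bt] at hiS ⊢
            rcases mem_union.1 hiS with hiK | hiB
            · rw [if_neg (hKD' i hiK), hE0, if_neg (notMem_empty i), if_pos hiK, hp i hiK hiv]
            · rw [if_pos (hB'D hiB), if_neg fun h => hKD' i h (hB'D hiB)]
              exact decide_eq_true (hA (mem_erase.2 ⟨hiv, hiB⟩))
        by_cases h2 : E = ∅ <;> by_cases h3 : B'.erase v ⊆ A
        · rw [if_pos (h1.2 ⟨h2, h3⟩), if_pos h2, if_pos h3, mul_one]
        · rw [if_neg fun h => h3 (h1.1 h).2, if_neg h3, mul_zero]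
        · rw [if_neg fun h => h2 (h1.1 h).1, if_neg h2, zero_mul]
        · rw [if_neg fun h => h2 (h1.1 h).1, if_neg h2, zero_mul]
      have h4 : ∀ A, (∑ E ∈ U.powerset, (-1 : ℤ) ^ A.card * (-1) ^ E.card *
          iso_e (bf K y) v (q₂, B') (X A E)) =
          (-1) ^ A.card * if B'.erase v ⊆ A then 1 else 0 := by
        intro A
        rw [sum_eq_single (∅ : Finset (Fin n))]
        · rw [hval A ∅ (empty_mem_powerset U), if_pos rfl, card_empty, pow_zero, mul_one, one_mul]
        · intro E hE hE0
          rw [hval A E hE, if_neg hE0, zero_mul, mul_zero]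
        · intro h
          exact absurd (empty_mem_powerset U) h
      rw [sum_congr rfl fun A _ => h4 A]
      by_cases h5 : B.erase v ⊆ B'.erase v
      · by_cases h6 : B'.erase v ⊆ B.erase v
        · have h7 : B' = B := by
            have h8 : B'.erase v = B.erase v := Subset.antisymm h6 h5
            by_cases h9 : v ∈ K q₂
            · have h10 : v ∉ B' := fun h => disjoint_left.1 (hd _ hmC) h9 h
              have h11 : v ∉ B := fun h => disjoint_left.1 (hd _ hm) h9 h
              rwa [erase_eq_of_notMem h10, erase_eq_of_notMem h11] at h8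
            · have h10 : v ∈ B' := by
                rcases mem_union.1 (hC _ hmC) with h | h
                · exact absurd h h9
                · exact h
              have h11 : v ∈ B := by
                rcases mem_union.1 (hC _ hm) with h | h
                · exact absurd h h9
                · exact h
              rw [← insert_erase h10, ← insert_erase h11, h8]
          subst h7
          rw [if_pos rfl, sum_eq_single (B'.erase v)]
          · rw [if_pos Subset.rfl, mul_one]
          · intro A hA hA'
            rw [if_neg fun h => hA' (Subset.antisymm (mem_powerset.1 hA) h), mul_zero]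
          · intro h
            exact absurd (mem_powerset.2 Subset.rfl) h
        · rw [if_neg fun h => by
            rw [Prod.mk.injEq] at h
            exact h6 (by rw [h.2])]
          refine sum_eq_zero fun A hA => ?_
          rw [if_neg fun h => h6 (h.trans (mem_powerset.1 hA)), mul_zero]
      · rw [if_neg fun h => by
            rw [Prod.mk.injEq] at h
            exact h5 (by rw [h.2])]
        obtain ⟨i, hi, hi'⟩ := not_subset.1 h5
        refine iso_tog _ (fun A => if B'.erase v ⊆ A then 1 else 0) hi fun A _ => ?_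
        have h7 : (B'.erase v ⊆ insert i A) ↔ B'.erase v ⊆ A := by
          constructor
          · intro h j hj
            rcases mem_insert.1 (h hj) with h8 | h8
            · exact absurd (h8 ▸ hj) hi'
            · exact h8
          · exact fun h => h.trans (subset_insert i A)
        by_cases h8 : B'.erase v ⊆ A
        · rw [if_pos (h7.2 h8), if_pos h8]
        · rw [if_neg fun h => h8 (h7.1 h), if_neg h8]
    · rw [if_neg fun h => hmq (by rw [h])]
      rcases hk m hmC hmq with ⟨u, hu, huv, huU, huD, hpu⟩ | ⟨u, huU, huK⟩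
      · -- killed
        refine sum_eq_zero fun A _ => sum_eq_zero fun E hE => ?_
        have h1 : ¬ Tr ((bf K y m).S.erase v) (bf K y m).a (X A E) := by
          intro h
          have h2 := h u (mem_erase.2 ⟨huv, mem_union_left _ hu⟩)
          simp only [hX, bf, bt] at h2
          rw [if_neg huD, if_neg fun h => huU (mem_powerset.1 hE h), if_pos hu] at h2
          exact hpu h2
        unfold iso_e
        rw [if_neg h1, mul_zero]
      · -- insensitive
        refine sum_eq_zero fun A _ => ?_
        have h1 : (∑ E ∈ U.powerset, (-1 : ℤ) ^ A.card * (-1) ^ E.card *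
            iso_e (bf K y) v m (X A E)) =
            (-1) ^ A.card * ∑ E ∈ U.powerset, (-1) ^ E.card * iso_e (bf K y) v m (X A E) := by
          rw [mul_sum]
          exact sum_congr rfl fun E _ => by ring
        rw [h1, iso_tog _ (fun E => iso_e (bf K y) v m (X A E)) huU fun E _ => ?_, mul_zero]
        unfold iso_e
        have h2 : Tr ((bf K y m).S.erase v) (bf K y m).a (X A (insert u E)) ↔
            Tr ((bf K y m).S.erase v) (bf K y m).a (X A E) := by
          unfold Tr
          refine forall_congr' fun i => forall_congr' fun hi => ?_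
          have hiu : i ≠ u := fun h => huK (h ▸ (mem_erase.1 hi).2)
          have h3 : X A (insert u E) i = X A E i := by
            simp only [hX, mem_insert, hiu, false_or]
          rw [h3]
        by_cases h3 : Tr ((bf K y m).S.erase v) (bf K y m).a (X A E)
        · rw [if_pos (h2.2 h3), if_pos h3]
        · rw [if_neg fun h => h3 (h2.1 h), if_neg h3]
  -- the product
  have hprod : ∏ i ∈ I, G i ^ k i =
      ζ (q', B) ^ (iso_s (bf K y) v (q', B) * (-1) ^ (B.erase v).card) := by
    have h0 : ∀ m, ζ m ≠ 0 := fun m h => by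
      have := hζ m
      rw [h, norm_zero] at this
      exact zero_ne_one this
    have h1 : ∏ i ∈ I, G i ^ k i =
        ∏ m ∈ C, ζ m ^ (iso_s (bf K y) v m *
          ∑ i ∈ I, k i * iso_e (bf K y) v m (X i.1 i.2)) := by
      have h2 : ∀ i ∈ I, G i ^ k i =
          ∏ m ∈ C, ζ m ^ (iso_s (bf K y) v m * (k i * iso_e (bf K y) v m (X i.1 i.2))) := by
        intro i _
        simp only [hG]
        rw [← prod_zpow]
        refine prod_congr rfl fun m _ => ?_
        rw [← zpow_mul]
        congr 1
        ring
      rw [prod_congr rfl h2, prod_comm]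
      refine prod_congr rfl fun m _ => ?_
      rw [mul_sum]
      have h3 : ∀ (J : Finset (Finset (Fin n) × Finset (Fin n)))
          (f : Finset (Fin n) × Finset (Fin n) → ℤ), ∏ i ∈ J, ζ m ^ f i = ζ m ^ ∑ i ∈ J, f i := by
        intro J f
        induction J using Finset.induction_on with
        | empty => simp
        | insert a J ha ih => rw [prod_insert ha, sum_insert ha, ih, zpow_add₀ (h0 m)]
      exact h3 I _
    rw [h1, prod_congr rfl fun m hm' => by rw [hexp m hm']]
    rw [prod_eq_single (q', B)]
    · rw [if_pos rfl]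
    · intro m _ hne
      rw [if_neg hne, mul_zero, zpow_zero]
    · intro h
      exact absurd hm h
  have hfin := iso_prod I G k (fun i _ => hG1 i) fun i _ => hpm i
  rw [hprod] at hfin
  have hsg : iso_s (bf K y) v (q', B) * (-1) ^ (B.erase v).card = 1 ∨
      iso_s (bf K y) v (q', B) * (-1) ^ (B.erase v).card = -1 := by
    unfold iso_s
    rcases neg_one_pow_eq_or ℤ (B.erase v).card with h | h <;> rw [h] <;> split_ifs <;> simp
  rw [iso_pm (hζ _) hsg] at hfin
  refine hfin.trans ?_
  calc ∑ i ∈ I, ‖1 - G i‖ ≤ ∑ _i ∈ I, δ := sum_le_sum fun i _ => hGδ i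
    _ = (2 : ℝ) ^ ((B.erase v).card + U.card) * δ := by
        rw [sum_const, nsmul_eq_mul, hI, card_product, card_powerset, card_powerset, pow_add]
        push_cast
        ring
    _ ≤ 2 ^ s * δ := by
        refine mul_le_mul_of_nonneg_right (pow_le_pow_right₀ one_le_two ?_) hδ0
        have h1 := card_le_card (erase_subset v B)
        have h2 : U.card + B.card ≤ s := hs
        omega

end Pool.Agent.MP_ca1109_lc.Xr
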