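import Pool.Agent.MP_ca1109_lc.Xr.Defs
import Pool.Agent.MP_ca1109_lc.Xa.PB
import Pool.Agent.MP_ca1109_lc.Pb.TB

/-!
# Threshold gates with real weights over terms: the ramp
-/

namespace Pool.Agent.MP_ca1109_lc.Xr

open Finset Pool.Agent.H66 Pool.Agent.MP_ca1109_lc.Mpg Pool.Agent.MP_ca1109_lc.Agp
open Pool.Agent.MP_ca1109_lc.Dnf (Cube ch one Term)
open Pool.Agent.MP_ca1109_lc.Xl (Tr tm pr Rd)
open Pool.Agent.MP_ca1109_lc.Xt (rs rv ph)
open Pool.Agent.MP_ca1109_lc.Xg (hx)
open Pool.Agent.MP_ca1109_lc.Pb (At HCt FoolA tt)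

variable {n : ℕ} {κ : Type}

/-! ## Functions of the true heavy terms and phases -/

/-- A function of the true terms in `H`, times the product of the phases of the true terms in `M`. -/
theorem tr_at [DecidableEq κ] {r : ℕ} {K V : ℝ} {T : κ → Term n} {M H : Finset κ} {ζ : κ → ℂ}
    {ψ : Finset κ → ℂ} (hM : Rd r T M) (h0 : ∀ m ∈ M, (T m).S ≠ ∅) (hH : H ⊆ M)
    (hζ : ∀ m ∈ M, ‖ζ m‖ = 1) (hψ : ∀ A, ‖ψ A‖ ≤ 1)
    (hV : ∑ m ∈ M, (1 / 2 : ℝ) ^ (T m).S.card * ‖1 - ζ m‖ ^ 2 ≤ V)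
    (hK : ∑ m ∈ H, (1 / 2 : ℝ) ^ (T m).S.card ≤ K) :
    At r K V (fun x => ψ (hx H T x) * pr T ζ M x) := by
  classical
  refine ⟨{m // m ∈ M}, inferInstance, fun j => T j.1, fun j => ζ j.1,
    univ.filter fun j => j.1 ∈ H, fun A => ψ (A.image fun j => j.1),
    fun j => nonempty_iff_ne_empty.2 (h0 _ j.2), fun v => ?_, fun j => hζ _ j.2,
    fun A => hψ _, ?_, ?_, fun x => ?_⟩
  · refine le_trans (le_of_eq ?_) (hM v)
    rw [← card_map (Function.Embedding.subtype _)]
    congr 1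
    ext m
    simp only [mem_map, mem_filter, mem_univ, true_and, Function.Embedding.subtype_apply]
    constructor
    · rintro ⟨j, hj, rfl⟩
      exact ⟨j.2, hj⟩
    · rintro ⟨hm, hv⟩
      exact ⟨⟨m, hm⟩, hv, rfl⟩
  · rw [Finset.sum_coe_sort M fun m => (1 / 2 : ℝ) ^ (T m).S.card * ‖1 - ζ m‖ ^ 2]
    exact hV
  · refine le_trans (le_of_eq ?_) hK
    rw [sum_filter, Finset.sum_coe_sort M fun m => if m ∈ H then (1 / 2 : ℝ) ^ (T m).S.card else 0,
      ← sum_filter]
    refine sum_congr ?_ fun _ _ => rfl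
    ext m
    rw [mem_filter]
    exact ⟨fun h => h.2, fun h => ⟨hH h, h⟩⟩
  · show ψ (hx H T x) * pr T ζ M x = _
    unfold tt pr
    refine congrArg₂ (· * ·) (congrArg ψ ?_) ?_
    · ext m
      simp only [hx, mem_image, mem_filter, mem_univ, true_and]
      constructor
      · rintro ⟨hm, hs⟩
        exact ⟨⟨m, hH hm⟩, ⟨hm, hs⟩, rfl⟩
      · rintro ⟨j, ⟨hj, hs⟩, rfl⟩
        exact ⟨hj, hs⟩
    · rw [← Finset.prod_coe_sort M]
      exact prod_congr rfl fun j _ => if_congr Iff.rfl rfl rfl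

/-! ## The statistic -/

theorem tr_rs_union (T : κ → Term n) {M : Finset κ} (p : κ → Prop) [DecidablePred p] (u : κ → ℝ)
    (x : Cube n) : rs T u M x = rs T u (M.filter p) x + rs T u (M.filter fun m => ¬ p m) x := by
  unfold rs
  rw [sum_filter_add_sum_filter_not]

/-- The value of the statistic is the sum of the weights of the true terms. -/
theorem tr_rs_hx (T : κ → Term n) (H : Finset κ) (u : κ → ℝ) (x : Cube n) :
    rs T u H x = ∑ m ∈ hx H T x, u m := by
  classical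
  unfold rs hx
  rw [sum_filter]
  refine sum_congr rfl fun m _ => ?_
  unfold tm
  by_cases h : Tr (T m).S (T m).a x
  · rw [if_pos (show (T m).Sat x from h), Dnf.one_true h, mul_one]
  · rw [if_neg (show ¬ (T m).Sat x from h), Dnf.one_false h, mul_zero]

/-- The weights `0`. -/
theorem tr_rs_core (T : κ → Term n) (M : Finset κ) (u : κ → ℝ) (x : Cube n) :
    rs T u M x = rs T u (M.filter fun m => u m ≠ 0) x := by
  classical
  rw [tr_rs_union T (fun m => u m ≠ 0)]
  have h : rs T u (M.filter fun m => ¬ u m ≠ 0) x = 0 := by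
    unfold rs
    refine sum_eq_zero fun m hm => ?_
    rw [not_not.1 (mem_filter.1 hm).2, zero_mul]
  rw [h, add_zero]

/-- The mass of the phases of weights at most `D`. -/
theorem tr_mass (T : κ → Term n) {M : Finset κ} {u : κ → ℝ} {D : ℝ} (hD : 0 < D)
    (hT : ∀ m ∈ M, |u m| ≤ D) (s : ℝ) :
    ∑ m ∈ M, (1 / 2 : ℝ) ^ (T m).S.card *
        ‖1 - Complex.exp ((s * (u m / D) : ℝ) * Complex.I)‖ ^ 2 ≤ s ^ 2 * vd T M u D := by
  unfold vd
  rw [mul_sum]
  refine sum_le_sum fun m hm => ?_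
  have h1 : ‖1 - Complex.exp ((s * (u m / D) : ℝ) * Complex.I)‖ ≤ |s * (u m / D)| := by
    rw [norm_sub_rev, mul_comm]
    exact Real.norm_exp_I_mul_ofReal_sub_one_le
  have h2 : ‖1 - Complex.exp ((s * (u m / D) : ℝ) * Complex.I)‖ ^ 2 ≤ s ^ 2 * (u m / D) ^ 2 := by
    rw [← mul_pow, ← sq_abs (s * (u m / D))]
    exact pow_le_pow_left₀ (norm_nonneg _) h1 2
  have h3 : (u m / D) ^ 2 ≤ 1 := by
    rw [← sq_abs, abs_div, abs_of_pos hD]
    have h4 : |u m| / D ≤ 1 := by
      rw [div_le_iff₀ hD, one_mul]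
      exact hT m hm
    have h5 : 0 ≤ |u m| / D := by positivity
    nlinarith
  rw [min_eq_right h3]
  calc (1 / 2 : ℝ) ^ (T m).S.card * ‖1 - Complex.exp ((s * (u m / D) : ℝ) * Complex.I)‖ ^ 2
      ≤ (1 / 2 : ℝ) ^ (T m).S.card * (s ^ 2 * (u m / D) ^ 2) :=
        mul_le_mul_of_nonneg_left h2 (by positivity)
    _ = s ^ 2 * ((1 / 2) ^ (T m).S.card * (u m / D) ^ 2) := by ring

theorem tr_heavy (T : κ → Term n) {M : Finset κ} {u : κ → ℝ} {D : ℝ} (hD : 0 < D) :
    ∑ m ∈ M.filter (fun m => D < |u m|), (1 / 2 : ℝ) ^ (T m).S.card ≤ vd T M u D := by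
  classical
  unfold vd
  refine le_trans (le_of_eq (sum_congr rfl fun m hm => ?_))
    (sum_le_sum_of_subset_of_nonneg (filter_subset _ _) fun m _ _ => by positivity)
  have h1 := (mem_filter.1 hm).2
  have h2 : 1 ≤ (u m / D) ^ 2 := by
    rw [← sq_abs, abs_div, abs_of_pos hD]
    have h4 : 1 ≤ |u m| / D := by
      rw [le_div_iff₀ hD, one_mul]
      exact h1.le
    nlinarith
  rw [min_eq_left h2, mul_one]

theorem tr_vd_sub (T : κ → Term n) {M M' : Finset κ} (h : M' ⊆ M) (u : κ → ℝ) (D : ℝ) :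
    vd T M' u D ≤ vd T M u D := by
  unfold vd
  exact sum_le_sum_of_subset_of_nonneg h fun m _ _ => by positivity

theorem tr_vd_nonneg (T : κ → Term n) (M : Finset κ) (u : κ → ℝ) (D : ℝ) : 0 ≤ vd T M u D := by
  unfold vd
  exact sum_nonneg fun m _ => by positivity

/-- The variance of the weights at most `D`. -/
theorem tr_rv (T : κ → Term n) {M : Finset κ} {u : κ → ℝ} {D : ℝ} (hD : 0 < D)
    (hT : ∀ m ∈ M, |u m| ≤ D) : rv T u M = vd T M u D * D ^ 2 := by
  unfold rv vd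
  rw [sum_mul]
  refine sum_congr rfl fun m hm => ?_
  have h3 : (u m / D) ^ 2 ≤ 1 := by
    rw [← sq_abs, abs_div, abs_of_pos hD]
    have h4 : |u m| / D ≤ 1 := by
      rw [div_le_iff₀ hD, one_mul]
      exact hT m hm
    have h5 : 0 ≤ |u m| / D := by positivity
    nlinarith
  rw [min_eq_right h3]
  field_simp

/-- The ramp at `θ'` with width `D`. -/
theorem tbt_ramp [DecidableEq κ] {r : ℕ} {K R ε₂ P : ℝ} (hR0 : 0 < R) (hε₂0 : 0 < ε₂)
    (hε₂1 : ε₂ ≤ 1) {N : ℕ} (φ : Fin N → ℂ) (b : Fin N → ℤ) (hP : 0 < P)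
    (hb1 : ∀ v c : ℝ, |c| ≤ R + 1 →
      ‖∑ j, φ j * Complex.exp (Complex.I * (2 * Real.pi * b j * (c + v) / P))‖ ≤ 1 + ε₂)
    (hb2 : ∀ v c : ℝ, |v| ≤ R → |c| ≤ R + 1 →
        ‖∑ j, φ j * Complex.exp (Complex.I * (2 * Real.pi * b j * (c + v) / P)) -
          ((max 0 (min 1 (c + v)) : ℝ) : ℂ)‖ ≤ ε₂)
    {T : κ → Term n} {M₀ : Finset κ} {u : κ → ℝ} {D : ℝ} (hM₀r : Rd r T M₀)
    (hne : ∀ m ∈ M₀, (T m).S ≠ ∅) (hD : 0 < D) (hD1 : vd T M₀ u D ≤ K) (θ' : ℝ) :
    ∃ f : Cube n → ℂ, HCt r K (K * ∑ j, (2 * Real.pi * b j / P) ^ 2) (1 + ∑ j, ‖φ j‖) f ∧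
      (∀ x, ‖f x‖ ≤ 1 + ε₂) ∧ ∀ x,
        ‖((max 0 (min 1 ((rs T u M₀ x - θ') / D + 1)) : ℝ) : ℂ) - f x‖ ≤
          3 * one (R * D ≤ |rs T u (M₀.filter fun m => ¬ D < |u m|) x -
            avg (rs T u (M₀.filter fun m => ¬ D < |u m|))|) + ε₂ := by
  classical
  set H := M₀.filter fun m => D < |u m| with hH
  set L := M₀.filter fun m => ¬ D < |u m| with hL
  have hHM : H ⊆ M₀ := filter_subset _ _
  have hLM : L ⊆ M₀ := filter_subset _ _
  have hHK : ∑ m ∈ H, (1 / 2 : ℝ) ^ (T m).S.card ≤ K := (tr_heavy T hD).trans hD1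
  have hLK : vd T L u D ≤ K := (tr_vd_sub T hLM u D).trans hD1
  have hLD : ∀ m ∈ L, |u m| ≤ D := fun m hm => not_lt.1 (mem_filter.1 hm).2
  have hK0 : 0 ≤ K := (tr_vd_nonneg T L u D).trans hLK
  set a : ℝ := avg (rs T u L) with ha
  -- the shift
  set cs : Finset κ → ℝ := fun A => (∑ m ∈ A, u m + a - θ') / D + 1 with hcs
  set ψ : Fin N → Finset κ → ℂ := fun j A =>
    if |cs A| ≤ R + 1 then Complex.exp ((2 * Real.pi * b j * cs A / P : ℝ) * Complex.I) else 0
    with hψ
  set ψ' : Finset κ → ℂ := fun A => if R + 1 < cs A then 1 else 0 with hψ'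
  set ζ : Fin N → κ → ℂ := fun j m =>
    if m ∈ L then Complex.exp ((2 * Real.pi * b j / P * (u m / D) : ℝ) * Complex.I) else 1 with hζ
  set c₁ : Fin N → ℂ := fun j => φ j * Complex.exp ((-(2 * Real.pi * b j * (a / D) / P) : ℝ) *
    Complex.I) with hc₁
  have hψ1 : ∀ j A, ‖ψ j A‖ ≤ 1 := by
    intro j A
    simp only [hψ]
    split_ifs
    · rw [Complex.norm_exp_ofReal_mul_I]
    · rw [norm_zero]; exact zero_le_one
  have hψ'1 : ∀ A, ‖ψ' A‖ ≤ 1 := by
    intro A
    simp only [hψ']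
    split_ifs
    · rw [norm_one]
    · rw [norm_zero]; exact zero_le_one
  have hζ1 : ∀ j m, ‖ζ j m‖ = 1 := by
    intro j m
    simp only [hζ]
    split_ifs
    · rw [Complex.norm_exp_ofReal_mul_I]
    · rw [norm_one]
  have hc1 : ∀ j, ‖c₁ j‖ = ‖φ j‖ := by
    intro j
    simp only [hc₁]
    rw [norm_mul, Complex.norm_exp_ofReal_mul_I, mul_one]
  -- the product of the weights
  have hpr : ∀ j x, pr T (ζ j) M₀ x =
      Complex.exp ((2 * Real.pi * b j * (rs T u L x / D) / P : ℝ) * Complex.I) := by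
    intro j x
    unfold pr rs
    have h1 : ((2 * Real.pi * b j * ((∑ m ∈ L, u m * tm (T m).S (T m).a x) / D) / P : ℝ) : ℂ) *
        Complex.I = ∑ m ∈ L, ((2 * Real.pi * b j / P * (u m / D) * tm (T m).S (T m).a x : ℝ) : ℂ) *
          Complex.I := by
      rw [← sum_mul, ← Complex.ofReal_sum]
      congr 2
      rw [sum_div, mul_sum, sum_div]
      refine sum_congr rfl fun m _ => ?_
      ring
    have h0 : ∀ G : κ → ℂ, ∏ m ∈ L, G m =
        ∏ m ∈ M₀, if ¬ D < |u m| then G m else 1 := by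
      intro G
      rw [hL]
      exact prod_filter _ _
    rw [h1, Complex.exp_sum, h0]
    refine prod_congr rfl fun m hm => ?_
    have h2 : (m ∈ L) ↔ ¬ D < |u m| := by
      rw [hL, mem_filter]
      exact ⟨fun h => h.2, fun h => ⟨hm, h⟩⟩
    unfold tm
    by_cases h3 : Tr (T m).S (T m).a x
    · rw [if_pos h3, Dnf.one_true h3, mul_one]
      simp only [hζ]
      by_cases h4 : m ∈ L
      · rw [if_pos h4, if_pos (h2.1 h4)]
      · rw [if_neg h4, if_neg fun h5 => h4 (h2.2 h5)]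
    · rw [if_neg h3, Dnf.one_false h3, mul_zero, Complex.ofReal_zero, zero_mul, Complex.exp_zero]
      simp
  have hpr1 : ∀ x : Cube n, pr T (fun _ => (1 : ℂ)) M₀ x = 1 := by
    intro x
    unfold pr
    simp
  -- the function
  set f : Cube n → ℂ := fun x => ∑ j, c₁ j * (ψ j (hx H T x) * pr T (ζ j) M₀ x) +
    ψ' (hx H T x) * pr T (fun _ => 1) M₀ x with hf
  have hfin : ∀ x, |cs (hx H T x)| ≤ R + 1 → f x = ∑ j, φ j *
      Complex.exp (Complex.I * (2 * Real.pi * b j *
        (cs (hx H T x) + (rs T u L x - a) / D : ℝ) / P)) := by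
    intro x hx'
    simp only [hf, hpr1, mul_one]
    have h1 : ψ' (hx H T x) = 0 := by
      simp only [hψ']
      rw [if_neg]
      intro h2
      have := (abs_le.1 hx').2
      linarith
    rw [h1, add_zero]
    refine sum_congr rfl fun j _ => ?_
    rw [hpr j x]
    simp only [hc₁, hψ]
    rw [if_pos hx', mul_assoc, ← Complex.exp_add, ← Complex.exp_add]
    congr 2
    push_cast
    ring
  have hfout : ∀ x, ¬ |cs (hx H T x)| ≤ R + 1 → f x = ψ' (hx H T x) := by
    intro x hx'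
    simp only [hf, hpr1, mul_one]
    have h1 : ∀ j, ψ j (hx H T x) = 0 := by
      intro j
      simp only [hψ]
      rw [if_neg hx']
    simp [h1]
  refine ⟨f, ?_, ?_, ?_⟩
  · -- the combination
    have hs0 : 0 ≤ ∑ j, (2 * Real.pi * b j / P) ^ 2 := sum_nonneg fun j _ => sq_nonneg _
    have hmass : ∀ j, ∑ m ∈ M₀, (1 / 2 : ℝ) ^ (T m).S.card * ‖1 - ζ j m‖ ^ 2 ≤
        K * ∑ j, (2 * Real.pi * b j / P) ^ 2 := by
      intro j
      have h1 : ∑ m ∈ M₀, (1 / 2 : ℝ) ^ (T m).S.card * ‖1 - ζ j m‖ ^ 2 =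
          ∑ m ∈ L, (1 / 2 : ℝ) ^ (T m).S.card *
            ‖1 - Complex.exp ((2 * Real.pi * b j / P * (u m / D) : ℝ) * Complex.I)‖ ^ 2 := by
        symm
        refine (sum_congr rfl fun m hm => ?_).trans (sum_subset hLM fun m _ hm => ?_)
        · simp only [hζ]
          rw [if_pos hm]
        · simp only [hζ]
          rw [if_neg hm]
          simp
      rw [h1]
      refine (tr_mass T hD hLD _).trans ?_
      have h2 : (2 * Real.pi * b j / P) ^ 2 ≤ ∑ j, (2 * Real.pi * b j / P) ^ 2 :=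
        single_le_sum (f := fun j => (2 * Real.pi * b j / P) ^ 2) (fun i _ => sq_nonneg _)
          (mem_univ j)
      calc (2 * Real.pi * b j / P) ^ 2 * vd T L u D ≤ (2 * Real.pi * b j / P) ^ 2 * K :=
            mul_le_mul_of_nonneg_left hLK (sq_nonneg _)
        _ = K * (2 * Real.pi * b j / P) ^ 2 := by ring
        _ ≤ _ := mul_le_mul_of_nonneg_left h2 hK0
    refine ⟨Option (Fin N), inferInstance, fun o => o.elim 1 c₁,
      fun o x => (o.elim ψ' ψ) (hx H T x) * pr T (o.elim (fun _ => 1) ζ) M₀ x, fun o => ?_, ?_,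
      fun x => ?_⟩
    · cases o with
      | none =>
        refine tr_at hM₀r hne hHM (fun m _ => norm_one) hψ'1 ?_ hHK
        refine le_trans (le_of_eq (sum_eq_zero fun m _ => ?_)) (mul_nonneg hK0 hs0)
        simp
      | some j => exact tr_at hM₀r hne hHM (fun m _ => hζ1 j m) (hψ1 j) (hmass j) hHK
    · rw [Fintype.sum_option]
      simp [hc1]
    · rw [Fintype.sum_option]
      simp only [hf, Option.elim]
      ring
  · -- the bound
    intro x
    by_cases hx' : |cs (hx H T x)| ≤ R + 1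
    · rw [hfin x hx']
      have h1 := hb1 ((rs T u L x - a) / D) (cs (hx H T x)) hx'
      push_cast at h1 ⊢
      linarith
    · rw [hfout x hx']
      linarith [hψ'1 (hx H T x)]
  · -- the error
    intro x
    have hS : rs T u M₀ x = ∑ m ∈ hx H T x, u m + rs T u L x := by
      rw [tr_rs_union T (fun m => D < |u m|), tr_rs_hx]
    set c : ℝ := cs (hx H T x) with hc'
    set v : ℝ := (rs T u L x - a) / D with hv
    have hcv : c + v = (rs T u M₀ x - θ') / D + 1 := by
      rw [hc', hv, hS]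
      simp only [hcs]
      field_simp
      ring
    rw [← hcv]
    set g : ℝ := max 0 (min 1 (c + v)) with hg
    have hg0 : 0 ≤ g := le_max_left _ _
    have hg1 : g ≤ 1 := max_le zero_le_one (min_le_left _ _)
    have hfx : ‖f x‖ ≤ 1 + ε₂ := by
      by_cases hx' : |cs (hx H T x)| ≤ R + 1
      · rw [hfin x hx']
        have h1 := hb1 ((rs T u L x - a) / D) (cs (hx H T x)) hx'
        push_cast at h1 ⊢
        exact h1
      · rw [hfout x hx']
        linarith [hψ'1 (hx H T x)]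
    by_cases h1 : R * D ≤ |rs T u L x - a|
    · rw [Dnf.one_true h1]
      have h2 := norm_sub_le ((g : ℝ) : ℂ) (f x)
      rw [Complex.norm_real, Real.norm_eq_abs, abs_of_nonneg hg0] at h2
      linarith
    · rw [Dnf.one_false h1, mul_zero, zero_add]
      have hvR : |v| ≤ R := by
        rw [hv, abs_div, abs_of_pos hD, div_le_iff₀ hD]
        exact (not_le.1 h1).le
      by_cases hx' : |cs (hx H T x)| ≤ R + 1
      · rw [hfin x hx', norm_sub_rev]
        have h2 := hb2 ((rs T u L x - a) / D) (cs (hx H T x)) hvR hx'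
        push_cast at h2 ⊢
        exact h2
      · rw [hfout x hx']
        have hvR' := abs_le.1 hvR
        simp only [hψ']
        split_ifs with h3
        · have h4 : 1 ≤ c + v := by
            rw [hc']
            linarith
          rw [hg, min_eq_left h4, max_eq_right zero_le_one, Complex.ofReal_one, sub_self,
            norm_zero]
          exact hε₂0.le
        · have h4 : c + v ≤ 0 := by
            rw [hc']
            rw [abs_le, not_and_or] at hx'
            rcases hx' with hx' | hx'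
            · linarith [not_le.1 hx']
            · exact absurd (not_le.1 hx') h3
          rw [hg, min_eq_right (h4.trans zero_le_one), max_eq_left h4, Complex.ofReal_zero,
            sub_self, norm_zero]
          exact hε₂0.le

end Pool.Agent.MP_ca1109_lc.Xr
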