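import Pool.Agent.MP_ca1109_lc.Xu.Test

/-!
# Partitions into subcubes of small average codimension, with functions of gates: the class
-/

namespace Pool.Agent.MP_ca1109_lc.Xr

open Pool.Agent.MP_ca1109_lc.Xu (litSum)

/-- A gate over a list of conjunctions of literals, of any length and any widths. At most `V` of them,
those in `X`, each of which has more than `W` literals in variables not in `L`, are exempt; every
variable occurs in at most `r` of the others. The gate tests one of the following:
* the sum of the coefficients of the true conjunctions, in an abelian group (finite or infinite)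
  killed by `q`, lies in a set of at most `B` elements; here the conjunctions of at most `d` literals
  with coefficients killed by `2 ^ q` do not count for the bound `r` either;
* the sum of the coefficients of the true conjunctions, in any abelian group (finite or infinite),
  lies in a set of at most `B` elements;
* the sum of the real weights of the true conjunctions is at least `θ`. -/
def GateW (q d r B V W : ℕ) {n : ℕ} (L : Finset (Fin n)) (g : (Fin n → Bool) → Bool) : Prop :=
  ∃ (N : ℕ) (S : Fin N → Finset (Fin n)) (y : Fin N → Fin n → Bool) (X : Finset (Fin N)),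
    X.card ≤ V ∧ (∀ m ∈ X, W < (S m \ L).card) ∧
    ((∃ (G : Type) (_ : AddCommGroup G) (c : Fin N → G) (A : Finset G),
      (∀ v : G, q • v = 0) ∧ A.card ≤ B ∧
      (∀ i, {m | m ∉ X ∧ i ∈ S m ∧ (d < (S m).card ∨ 2 ^ q • c m ≠ 0)}.ncard ≤ r) ∧
      ∀ x, g x = true ↔ litSum S y c x ∈ A) ∨
    (∃ (G : Type) (_ : AddCommGroup G) (c : Fin N → G) (A : Finset G),
      A.card ≤ B ∧ (∀ i, {m | m ∉ X ∧ i ∈ S m}.ncard ≤ r) ∧
      ∀ x, g x = true ↔ litSum S y c x ∈ A) ∨
    ∃ (w : Fin N → ℝ) (θ : ℝ), (∀ i, {m | m ∉ X ∧ i ∈ S m}.ncard ≤ r) ∧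
      ∀ x, g x = true ↔ θ ≤ litSum S y w x)

/-- `f` is a Boolean function of `k` gates, in each of which at most `n ^ h` conjunctions, of more than
`(h + 1) ⌈log₂ n⌉` literals in variables not in `L`, are exempt. -/
def GateTestW (q d r B k h n : ℕ) (L : Finset (Fin n)) (f : (Fin n → Bool) → Bool) : Prop :=
  ∃ (g : Fin k → (Fin n → Bool) → Bool) (F : (Fin k → Bool) → Bool),
    (∀ j, GateW q d r B (n ^ h) ((h + 1) * Nat.clog 2 n) L (g j)) ∧ ∀ x, f x = F fun j => g j x

/-- The cube is partitioned into subcubes (the subcube `j` is given by the values `a j` of the bits in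
`L j`), of average codimension at most `D`: this is the sum of `|L j| 2 ^ (-|L j|)`, the average of
`|L j|` for the subcube `j` of a random point. On each subcube `f` agrees with a function in `P` for
`L j`. For instance, the subcubes are the leaves of a decision tree of average depth at most `D`. -/
def AvgPart {n : ℕ} (P : Finset (Fin n) → ((Fin n → Bool) → Bool) → Prop) (D : ℕ)
    (f : (Fin n → Bool) → Bool) : Prop :=
  ∃ (N : ℕ) (L : Fin N → Finset (Fin n)) (a : Fin N → Fin n → Bool)
    (g : Fin N → (Fin n → Bool) → Bool),
    ∑ j, ((L j).card : ℝ) * (1 / 2) ^ (L j).card ≤ D ∧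
    (∀ x : Fin n → Bool, ∃! j, ∀ i ∈ L j, x i = a j i) ∧ (∀ j, P (L j) (g j)) ∧
    ∀ (j : Fin N) (x : Fin n → Bool), (∀ i ∈ L j, x i = a j i) → f x = g j x

/-- On each of any number of subcubes of average codimension at most `h ⌈log₂ n⌉`, `f` is an arbitrary
Boolean function of `k` gates. -/
def AvgTest (q d r B k h n : ℕ) (f : (Fin n → Bool) → Bool) : Prop :=
  AvgPart (GateTestW q d r B k h n) (h * Nat.clog 2 n) f

end Pool.Agent.MP_ca1109_lc.Xr
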