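import Pool.Agent.MP_ca1109_lc.Xr.WI
import Pool.Agent.MP_ca1109_lc.Xr.TestW
import Pool.Agent.MP_ca1109_lc.Xr.FWT
import Pool.Agent.MP_ca1109_lc.Xr.ANYG

/-!
# Wide conjunctions are free: the theorem
-/

namespace Pool.Agent.MP_ca1109_lc.Xr

open Finset Pool.Agent.MP_ca1109_lc.Mpg Pool.Agent.MP_ca1109_lc.Agp
open Pool.Agent.MP_ca1109_lc.Xu (litSum Part)
open Pool.Agent.MP_ca1109_lc.Xd (LeafGen part_of)

variable {n : ℕ}

open Classical in
/-- The exempt conjunctions are dropped. -/
theorem wf_litSum {Γ : Type*} [AddCommMonoid Γ] {N : ℕ} (S : Fin N → Finset (Fin n))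
    (y : Fin N → Fin n → Bool) (X : Finset (Fin N)) (c : Fin N → Γ) (x : Fin n → Bool)
    (hx : ¬ ∃ m ∈ X, ∀ i ∈ S m, x i = y m i) :
    litSum S y c x = litSum (fun m => if m ∈ X then ∅ else S m) y
      (fun m => if m ∈ X then 0 else c m) x := by
  unfold litSum
  refine sum_congr rfl fun m _ => ?_
  by_cases hm : m ∈ X
  · simp only [if_pos hm, ite_self]
    exact if_neg fun h => hx ⟨m, hm, h⟩
  · simp only [if_neg hm]

/-- Without the exempt conjunctions the gate is in the class without them. -/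
theorem GateW.drop {q d r B V W : ℕ} {L : Finset (Fin n)} {g : (Fin n → Bool) → Bool}
    (h : GateW q d r B V W L g) :
    ∃ (g' : (Fin n → Bool) → Bool) (κ : Type) (_ : Fintype κ) (S : κ → Finset (Fin n))
      (y : κ → Fin n → Bool), GateA q d r B g' ∧ Fintype.card κ ≤ V ∧ (∀ t, W < (S t \ L).card) ∧
      ∀ x, g x ≠ g' x → ∃ t, ∀ i ∈ S t, x i = y t i := by
  classical
  obtain ⟨N, S, y, X, hX, hW, h⟩ := h
  have hex : ∀ g' : (Fin n → Bool) → Bool, GateA q d r B g' →
      (∀ x, (¬ ∃ m ∈ X, ∀ i ∈ S m, x i = y m i) → g x = g' x) →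
      ∃ (g' : (Fin n → Bool) → Bool) (κ : Type) (_ : Fintype κ) (S : κ → Finset (Fin n))
        (y : κ → Fin n → Bool), GateA q d r B g' ∧ Fintype.card κ ≤ V ∧ (∀ t, W < (S t \ L).card) ∧
        ∀ x, g x ≠ g' x → ∃ t, ∀ i ∈ S t, x i = y t i := by
    intro g' hg' hgg
    refine ⟨g', {m // m ∈ X}, inferInstance, fun t => S t.1, fun t => y t.1, hg', ?_,
      fun t => hW t.1 t.2, fun x hx => ?_⟩
    · rw [Fintype.card_coe]
      exact hX
    · by_contra hcon
      refine hx (hgg x ?_)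
      rintro ⟨m, hm, hmx⟩
      exact hcon ⟨⟨m, hm⟩, hmx⟩
  have hmem : ∀ {m : Fin N} {i : Fin n}, i ∈ (if m ∈ X then (∅ : Finset (Fin n)) else S m) →
      m ∉ X ∧ i ∈ S m := by
    intro m i hi
    by_cases hm : m ∈ X
    · rw [if_pos hm] at hi
      exact absurd hi (notMem_empty i)
    · rw [if_neg hm] at hi
      exact ⟨hm, hi⟩
  rcases h with ⟨G, i1, c, A, hq, hA, hr, hg⟩ | ⟨G, i1, c, A, hA, hr, hg⟩ | ⟨w, θ, hr, hg⟩
  · refine hex (fun x => decide (litSum (fun m => if m ∈ X then ∅ else S m) y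
      (fun m => if m ∈ X then 0 else c m) x ∈ A)) ⟨N, fun m => if m ∈ X then ∅ else S m, y, Or.inl ⟨G, i1,
      fun m => if m ∈ X then 0 else c m, A, hq, hA, fun i => ?_, fun x => by simp⟩⟩ fun x hx => ?_
    · refine (Set.ncard_le_ncard ?_ (Set.toFinite _)).trans (hr i)
      rintro m ⟨h1, h2⟩
      have h3 := hmem h1
      simp only [if_neg h3.1] at h2
      exact ⟨h3.1, h3.2, h2⟩
    · rw [Bool.eq_iff_iff, hg, wf_litSum S y X c x hx, decide_eq_true_iff]
  · refine hex (fun x => decide (litSum (fun m => if m ∈ X then ∅ else S m) y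
      (fun m => if m ∈ X then 0 else c m) x ∈ A)) ⟨N, fun m => if m ∈ X then ∅ else S m, y, Or.inr (Or.inl ⟨G, i1,
      fun m => if m ∈ X then 0 else c m, A, hA, fun i => ?_, fun x => by simp⟩)⟩ fun x hx => ?_
    · refine (Set.ncard_le_ncard ?_ (Set.toFinite _)).trans (hr i)
      intro m h1
      exact hmem h1
    · rw [Bool.eq_iff_iff, hg, wf_litSum S y X c x hx, decide_eq_true_iff]
  · refine hex (fun x => decide (θ ≤ litSum (fun m => if m ∈ X then ∅ else S m) y
      (fun m => if m ∈ X then 0 else w m) x)) ⟨N, fun m => if m ∈ X then ∅ else S m, y, Or.inr (Or.inr ⟨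
      fun m => if m ∈ X then 0 else w m, θ, fun i => ?_, fun x => by simp⟩)⟩ fun x hx => ?_
    · refine (Set.ncard_le_ncard ?_ (Set.toFinite _)).trans (hr i)
      intro m h1
      exact hmem h1
    · rw [Bool.eq_iff_iff, hg, wf_litSum S y X w x hx, decide_eq_true_iff]

/-- Functions of `k` gates agree with functions of `k` gates without exempt conjunctions outside few
small subcubes. -/
theorem GateTestW.up {q d r B k h : ℕ} {L : Finset (Fin n)} {f : (Fin n → Bool) → Bool}
    (hf : GateTestW q d r B k h n L f) :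
    Up (GateTestA q d r B k n) (k * n ^ h) ((h + 1) * Nat.clog 2 n) L f := by
  classical
  obtain ⟨g, F, hg, hf⟩ := hf
  choose g' κ iκ S y h1 h2 h3 h4 using fun j => (hg j).drop
  refine ⟨fun x => F fun j => g' j x, (j : Fin k) × κ j, inferInstance, fun t => S t.1 t.2,
    fun t => y t.1 t.2, ⟨g', F, h1, fun x => rfl⟩, ?_, fun t => h3 _ _, fun x hx => ?_⟩
  · rw [Fintype.card_sigma]
    refine (sum_le_sum fun j _ => h2 j).trans (le_of_eq ?_)
    rw [sum_const, card_univ, Fintype.card_fin, smul_eq_mul]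
  · by_contra hcon
    refine hx ?_
    rw [hf]
    congr 1
    funext j
    by_contra hj
    obtain ⟨t, ht⟩ := h4 j x hj
    exact hcon ⟨⟨j, t⟩, ht⟩

theorem leafGen_mono {P Q : ∀ n : ℕ, ((Fin n → Bool) → Bool) → Prop} {e : ℕ} {ε : ℝ}
    (h : LeafGen P e ε) (hQ : ∀ n f, Q n f → P n f) : LeafGen Q e ε := by
  obtain ⟨E, G, h1, n₀, h2⟩ := h
  exact ⟨E, G, h1, n₀, fun n hn L a hL => ⟨(h2 n hn L a hL).1,
    fun f hf => (h2 n hn L a hL).2 f (hQ n f hf)⟩⟩

/-- One explicit generator with logarithmic seeds fools all functions which, on each of any number of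
subcubes of average codimension at most `h ⌈log₂ n⌉` which partition the cube, are functions of `k`
gates, where up to `n ^ h` wide conjunctions of each gate are exempt from the bound on the occurrences
of the variables. -/
theorem final_avg (q d r B k h : ℕ) (hq : 0 < q) {ε : ℝ} (hε : 0 < ε) :
    LogGen (AvgTest q d r B k h) ε :=
  avg_of h (fun e _ hε => LeafGenL.mono (wide_leaf e h k (fun _ hε =>
    leafGen_mono (leaf_g q d r B k (e + h + 1) hq hε) fun _ _ hf => hf.toG) hε)
      fun _ _ _ hf => hf.up) hε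

/-! ## Partitions into few subcubes -/

/-- A partition into `N₀` subcubes has average codimension at most `log₂ N₀`. -/
theorem avg_le {N : ℕ} (L : Fin N → Finset (Fin n)) (a : Fin N → Fin n → Bool) {h : ℕ}
    (hN : N ≤ n ^ h) (hL : ∀ x : Fin n → Bool, ∃! j, ∀ i ∈ L j, x i = a j i) :
    ∑ j, ((L j).card : ℝ) * (1 / 2) ^ (L j).card ≤ ((h * Nat.clog 2 n : ℕ) : ℝ) := by
  classical
  have hN0 : 0 < N := by
    obtain ⟨j, -, -⟩ := hL fun _ => true
    exact j.pos
  have hNr : (0 : ℝ) < N := by exact_mod_cast hN0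
  have hsum : ∑ j, (1 / 2 : ℝ) ^ (L j).card = 1 := by
    have hcount : ∀ x : Fin n → Bool, (∑ j, (1 : ℝ) * Dnf.one (Xl.Tr (L j) (a j) x)) = 1 := by
      intro x
      obtain ⟨t, ht, hu⟩ := hL x
      rw [Finset.sum_eq_single t]
      · rw [one_mul]
        exact Dnf.one_true ht
      · intro t' _ hne
        rw [one_mul]
        exact Dnf.one_false fun h => hne (hu t' h)
      · exact fun h => absurd (mem_univ t) h
    have h1 : (avg fun x : Fin n → Bool => ∑ j, (1 : ℝ) * Dnf.one (Xl.Tr (L j) (a j) x)) = 1 := by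
      simp only [hcount]
      exact avg_const 1
    rw [Xd.ft_avg_sum (fun _ => (1 : ℝ)) fun j (x : Fin n → Bool) =>
      Dnf.one (Xl.Tr (L j) (a j) x)] at h1
    simp only [wi_cell, one_mul] at h1
    exact h1
  have hl2 : (0 : ℝ) < Real.log 2 := Real.log_pos (by norm_num)
  have hterm : ∀ j, ((L j).card : ℝ) * (1 / 2) ^ (L j).card * Real.log 2 ≤
      (1 / 2) ^ (L j).card * Real.log N + (1 / N - (1 / 2) ^ (L j).card) := by
    intro j
    have hp : (0 : ℝ) < (1 / 2) ^ (L j).card := by positivity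
    have h1 : Real.log (1 / (N * (1 / 2 : ℝ) ^ (L j).card)) ≤
        1 / (N * (1 / 2 : ℝ) ^ (L j).card) - 1 := Real.log_le_sub_one_of_pos (by positivity)
    have h2 : Real.log (1 / (N * (1 / 2 : ℝ) ^ (L j).card)) =
        ((L j).card : ℝ) * Real.log 2 - Real.log N := by
      rw [one_div, Real.log_inv, Real.log_mul hNr.ne' hp.ne', Real.log_pow, one_div, Real.log_inv]
      ring
    rw [h2] at h1
    have h3 := mul_le_mul_of_nonneg_left h1 hp.le
    have h4 : (1 / 2 : ℝ) ^ (L j).card * (1 / (N * (1 / 2 : ℝ) ^ (L j).card) - 1) =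
        1 / N - (1 / 2) ^ (L j).card := by
      field_simp
    rw [h4] at h3
    linarith
  have h1 := sum_le_sum fun j (_ : j ∈ univ) => hterm j
  rw [sum_add_distrib, sum_sub_distrib, ← sum_mul, ← sum_mul, hsum, sum_const, card_univ,
    Fintype.card_fin, nsmul_eq_mul] at h1
  have h2 : (N : ℝ) * (1 / N) = 1 := by field_simp
  rw [h2, sub_self, add_zero, one_mul] at h1
  have h3 : Real.log N ≤ ((h * Nat.clog 2 n : ℕ) : ℝ) * Real.log 2 := by
    rw [← Real.log_pow]
    refine Real.log_le_log hNr ?_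
    have h4 : N ≤ 2 ^ (h * Nat.clog 2 n) := by
      refine hN.trans ?_
      rw [mul_comm, pow_mul]
      exact Nat.pow_le_pow_left (Nat.le_pow_clog (by norm_num) n) h
    exact_mod_cast h4
  exact le_of_mul_le_mul_right (h1.trans h3) hl2

/-- The class contains the functions of gates on the subcubes of partitions into at most `n ^ h`
subcubes. -/
theorem PartTestA.toW {q d r B k h : ℕ} {f : (Fin n → Bool) → Bool}
    (hf : PartTestA q d r B k h n f) : AvgTest q d r B k h n f := by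
  obtain ⟨N, L, a, g, hN, hL, hg, hf⟩ := hf
  refine ⟨N, L, a, g, avg_le L a hN hL, hL, fun j => ?_, hf⟩
  obtain ⟨g', F, hg', hF⟩ := hg j
  refine ⟨g', F, fun i => ?_, hF⟩
  obtain ⟨N, S, y, h⟩ := hg' i
  refine ⟨N, S, y, ∅, by simp, by simp, ?_⟩
  simpa using h

end Pool.Agent.MP_ca1109_lc.Xr
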