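import Pool.Agent.MP_ca1109_lc.Xd.FQ
import Pool.Agent.MP_ca1109_lc.Xr.TestW

/-!
# Partitions of small average codimension, and wide conjunctions

* `LeafGenL P e ε`: a generator which at every leaf with at most `e ⌈log₂ n⌉` queries fools the
  functions in the class of this leaf, with relative error `ε`.
* `avg_of`: from the leaves to these partitions.
* `Up Q N₁ W L f`: `f` agrees with a function in `Q` outside at most `N₁` subcubes, each of which has
  more than `W` conditions on bits not in `L`.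
* `wide_leaf`: a generator for `P` at the leaves is a generator for `Up (P n) ..` at the leaves.
-/

namespace Pool.Agent.MP_ca1109_lc.Xr

open Finset Pool.Agent.H66 Pool.Agent.MP_ca1109_lc.Mpg Pool.Agent.MP_ca1109_lc.Agp
open Pool.Agent.MP_ca1109_lc.Dnf (Cube one Term)
open Pool.Agent.MP_ca1109_lc.Xl (Tr)
open Pool.Agent.MP_ca1109_lc.Xa (fp_eventually fp_avg_fin)
open Pool.Agent.MP_ca1109_lc.Xd (LeafGen ft_avg_sum)

variable {n : ℕ}

/-- A generator which at every leaf with at most `e ⌈log₂ n⌉` queries fools the functions in the class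
of this leaf, with relative error `ε`. -/
def LeafGenL (P : ∀ n : ℕ, Finset (Fin n) → ((Fin n → Bool) → Bool) → Prop) (e : ℕ) (ε : ℝ) :
    Prop :=
  ∃ E G, NG E G ∧ ∃ n₀ : ℕ, ∀ n ≥ n₀, ∀ (L : Finset (Fin n)) (a : Cube n),
    L.card ≤ e * Nat.clog 2 n →
    |(avg fun p : Fin (2 ^ E n) => one (Tr L a (out G n p))) - (1 / 2) ^ L.card| ≤
      ε * (1 / 2) ^ L.card ∧
    ∀ f : Cube n → Bool, P n L f →
      |(avg fun p : Fin (2 ^ E n) => one (Tr L a (out G n p)) * ind (f (out G n p))) -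
        avg fun x : Cube n => one (Tr L a x) * ind (f x)| ≤ ε * (1 / 2) ^ L.card

theorem LeafGenL.mono {P Q : ∀ n : ℕ, Finset (Fin n) → ((Fin n → Bool) → Bool) → Prop} {e : ℕ}
    {ε : ℝ} (h : LeafGenL P e ε) (hQ : ∀ n L f, Q n L f → P n L f) : LeafGenL Q e ε := by
  obtain ⟨E, G, h1, n₀, h2⟩ := h
  exact ⟨E, G, h1, n₀, fun n hn L a hL => ⟨(h2 n hn L a hL).1,
    fun f hf => (h2 n hn L a hL).2 f (hQ n L f hf)⟩⟩

theorem wi_ind (b : Bool) : 0 ≤ ind b ∧ ind b ≤ 1 := by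
  unfold ind
  split_ifs <;> norm_num

theorem wi_cell (S : Finset (Fin n)) (y : Cube n) :
    (avg fun x : Cube n => one (Tr S y x)) = (1 / 2) ^ S.card := by
  rw [Xp.avg_E]
  exact Dnf.E_term (⟨S, y⟩ : Term n)

/-- From the leaves to the partitions of small average codimension. -/
theorem avg_of {P : ∀ n : ℕ, Finset (Fin n) → ((Fin n → Bool) → Bool) → Prop} (h : ℕ)
    (H : ∀ (e : ℕ) (ε : ℝ), 0 < ε → LeafGenL P e ε) {ε : ℝ} (hε : 0 < ε) :
    LogGen (fun n f => AvgPart (P n) (h * Nat.clog 2 n) f) ε := by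
  classical
  obtain ⟨C, hC⟩ := exists_nat_gt (4 * (h : ℝ) / ε)
  have hC0 : (0 : ℝ) < C := lt_of_le_of_lt (by positivity) hC
  obtain ⟨E, G, hNG, n₀, HG⟩ := H C (ε / 4) (by positivity)
  refine fp_eventually (𝒯 := fun n f => max n₀ 2 ≤ n ∧ AvgPart (P n) (h * Nat.clog 2 n) f)
    (logGen_of hNG fun n T hT => ?_) (max n₀ 2) fun n hn T hT => ⟨hn, hT⟩
  obtain ⟨hn, N, L, a, g, hD, huniq, hP, hT⟩ := hT
  have hn0 : n₀ ≤ n := (le_max_left _ _).trans hn
  have hn2 : 2 ≤ n := (le_max_right _ _).trans hn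
  have hlog : 0 < Nat.clog 2 n := Nat.clog_pos (by norm_num) hn2
  have hlog' : (0 : ℝ) < (Nat.clog 2 n : ℝ) := by exact_mod_cast hlog
  have hne : Nonempty (Fin (2 ^ E n)) := ⟨⟨0, by positivity⟩⟩
  have e1 : nr (2 ^ E n) (fun p => ind (T (out G n p))) =
      avg fun p : Fin (2 ^ E n) => ind (T (out G n p)) := by
    rw [← fp_avg_fin]
  rw [e1, prob_eq_avg]
  -- the pointwise identities
  have hcount : ∀ x : Cube n, (∑ j, (1 : ℝ) * one (Tr (L j) (a j) x)) = 1 := by
    intro x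
    obtain ⟨t, ht, hu⟩ := huniq x
    rw [Finset.sum_eq_single t]
    · rw [one_mul]
      exact Dnf.one_true ht
    · intro t' _ hne
      rw [one_mul]
      exact Dnf.one_false fun h => hne (hu t' h)
    · exact fun h => absurd (mem_univ t) h
  have hf : ∀ x : Cube n, ind (T x) = ∑ j, (1 : ℝ) * (one (Tr (L j) (a j) x) * ind (g j x)) := by
    intro x
    obtain ⟨t, ht, hu⟩ := huniq x
    rw [Finset.sum_eq_single t]
    · rw [one_mul, Dnf.one_true (show Tr (L t) (a t) x from ht), one_mul, hT t x ht]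
    · intro t' _ hne
      rw [one_mul, Dnf.one_false (fun h : Tr (L t') (a t') x => hne (hu t' h)), zero_mul]
    · exact fun h => absurd (mem_univ t) h
  simp only [hf]
  rw [ft_avg_sum (fun _ => (1 : ℝ)) fun j (p : Fin (2 ^ E n)) =>
      one (Tr (L j) (a j) (out G n p)) * ind (g j (out G n p)),
    ft_avg_sum (fun _ => (1 : ℝ)) fun j (x : Cube n) => one (Tr (L j) (a j) x) * ind (g j x),
    ← Finset.sum_sub_distrib]
  -- the numbers
  obtain ⟨pG, hpG⟩ : ∃ pG : Fin N → ℝ, pG = fun j =>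
    avg fun p : Fin (2 ^ E n) => one (Tr (L j) (a j) (out G n p)) := ⟨_, rfl⟩
  obtain ⟨pU, hpU⟩ : ∃ pU : Fin N → ℝ, pU = fun j => (1 / 2 : ℝ) ^ (L j).card := ⟨_, rfl⟩
  have hsG : ∑ j, pG j = 1 := by
    have h1 : (avg fun p : Fin (2 ^ E n) => ∑ j, (1 : ℝ) * one (Tr (L j) (a j) (out G n p))) =
        1 := by
      simp only [hcount]
      exact avg_const 1
    rw [ft_avg_sum (fun _ => (1 : ℝ)) fun j (p : Fin (2 ^ E n)) =>
      one (Tr (L j) (a j) (out G n p))] at h1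
    rw [hpG]
    simpa using h1
  have hsU : ∑ j, pU j = 1 := by
    have h1 : (avg fun x : Cube n => ∑ j, (1 : ℝ) * one (Tr (L j) (a j) x)) = 1 := by
      simp only [hcount]
      exact avg_const 1
    rw [ft_avg_sum (fun _ => (1 : ℝ)) fun j (x : Cube n) => one (Tr (L j) (a j) x)] at h1
    rw [hpU]
    simp only [wi_cell, one_mul] at h1
    exact h1
  have hpU0 : ∀ j, 0 ≤ pU j := fun j => by rw [hpU]; positivity
  -- the deep cells
  obtain ⟨Dp, hDp⟩ : ∃ Dp : Finset (Fin N), Dp = univ.filter fun j =>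
    ¬ (L j).card ≤ C * Nat.clog 2 n := ⟨_, rfl⟩
  have hdeep : ∑ j ∈ Dp, pU j ≤ ε / 4 := by
    have h1 : (∑ j ∈ Dp, pU j) * ((C : ℝ) * Nat.clog 2 n) ≤ h * Nat.clog 2 n := by
      rw [sum_mul]
      calc ∑ j ∈ Dp, pU j * ((C : ℝ) * Nat.clog 2 n) ≤ ∑ j ∈ Dp, ((L j).card : ℝ) * pU j := by
            refine sum_le_sum fun j hj => ?_
            rw [hDp, mem_filter, not_le] at hj
            have h2 : (C : ℝ) * Nat.clog 2 n ≤ (L j).card := by exact_mod_cast hj.2.le
            rw [mul_comm]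
            exact mul_le_mul_of_nonneg_right h2 (hpU0 j)
        _ ≤ ∑ j, ((L j).card : ℝ) * pU j :=
            sum_le_sum_of_subset_of_nonneg (subset_univ _) fun j _ _ =>
              mul_nonneg (Nat.cast_nonneg _) (hpU0 j)
        _ ≤ h * Nat.clog 2 n := by
            rw [hpU]
            exact_mod_cast hD
    have h2 : (∑ j ∈ Dp, pU j) * C ≤ h := by
      refine le_of_mul_le_mul_right ?_ hlog'
      calc (∑ j ∈ Dp, pU j) * C * (Nat.clog 2 n : ℝ) =
          (∑ j ∈ Dp, pU j) * ((C : ℝ) * Nat.clog 2 n) := by ring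
        _ ≤ _ := h1
    have h3 : (h : ℝ) ≤ ε / 4 * C := by
      rw [div_lt_iff₀ hε] at hC
      linarith
    exact le_of_mul_le_mul_right (h2.trans h3) hC0
  have hsplitU : ∑ j ∈ Dp, pU j + ∑ j ∈ univ \ Dp, pU j = 1 := by
    rw [add_comm, sum_sdiff (subset_univ Dp), hsU]
  have hsplitG : ∑ j ∈ Dp, pG j + ∑ j ∈ univ \ Dp, pG j = 1 := by
    rw [add_comm, sum_sdiff (subset_univ Dp), hsG]
  have hshallow : ∀ j ∈ univ \ Dp, (L j).card ≤ C * Nat.clog 2 n := by
    intro j hj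
    rw [hDp, mem_sdiff, mem_filter] at hj
    by_contra hcon
    exact hj.2 ⟨mem_univ j, hcon⟩
  have hsh0 : 0 ≤ ∑ j ∈ univ \ Dp, pU j := sum_nonneg fun j _ => hpU0 j
  have hde0 : 0 ≤ ∑ j ∈ Dp, pU j := sum_nonneg fun j _ => hpU0 j
  have hGlow : (1 - ε / 4) * ∑ j ∈ univ \ Dp, pU j ≤ ∑ j ∈ univ \ Dp, pG j := by
    rw [mul_sum]
    refine sum_le_sum fun j hj => ?_
    have h1 := (abs_le.1 (HG n hn0 (L j) (a j) (hshallow j hj)).1).1
    rw [hpG, hpU]
    show (1 - ε / 4) * (1 / 2 : ℝ) ^ (L j).card ≤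
      avg fun p : Fin (2 ^ E n) => one (Tr (L j) (a j) (out G n p))
    linarith
  have hGdeep : ∑ j ∈ Dp, pG j ≤ ε / 4 + ∑ j ∈ Dp, pU j := by
    have h1 : (1 - ε / 4) * ∑ j ∈ univ \ Dp, pU j =
        (∑ j ∈ univ \ Dp, pU j) - ε / 4 * ∑ j ∈ univ \ Dp, pU j := by ring
    have h2 : ε / 4 * ∑ j ∈ univ \ Dp, pU j ≤ ε / 4 * 1 :=
      mul_le_mul_of_nonneg_left (by linarith) (by positivity)
    linarith
  -- the differences
  obtain ⟨Δ, hΔ⟩ : ∃ Δ : Fin N → ℝ, Δ = fun j =>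
    1 * (avg fun p : Fin (2 ^ E n) => one (Tr (L j) (a j) (out G n p)) * ind (g j (out G n p))) -
      1 * avg fun x : Cube n => one (Tr (L j) (a j) x) * ind (g j x) := ⟨_, rfl⟩
  have hle : ∀ (Ω : Type) [Fintype Ω] [Nonempty Ω] (X : Ω → Cube n) (j : Fin N),
      0 ≤ (avg fun ω => one (Tr (L j) (a j) (X ω)) * ind (g j (X ω))) ∧
      (avg fun ω => one (Tr (L j) (a j) (X ω)) * ind (g j (X ω))) ≤
        avg fun ω => one (Tr (L j) (a j) (X ω)) := by
    intro Ω _ _ X j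
    refine ⟨avg_nonneg fun ω => mul_nonneg (Dnf.one_nonneg _) (wi_ind _).1,
      avg_mono fun ω => ?_⟩
    calc one (Tr (L j) (a j) (X ω)) * ind (g j (X ω)) ≤ one (Tr (L j) (a j) (X ω)) * 1 :=
          mul_le_mul_of_nonneg_left (wi_ind _).2 (Dnf.one_nonneg _)
      _ = _ := mul_one _
  have hΔs : ∀ j ∈ univ \ Dp, |Δ j| ≤ ε / 4 * pU j := by
    intro j hj
    have h1 := (HG n hn0 (L j) (a j) (hshallow j hj)).2 (g j) (hP j)
    rw [hΔ, hpU]
    simpa only [one_mul] using h1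
  have hΔd : ∀ j ∈ Dp, |Δ j| ≤ pG j + pU j := by
    intro j _
    have h1 := hle (Fin (2 ^ E n)) (fun p => out G n p) j
    have h2 := hle (Cube n) (fun x => x) j
    have h3 : (avg fun x : Cube n => one (Tr (L j) (a j) x)) = pU j := by
      rw [hpU]
      exact wi_cell _ _
    have h4 : (avg fun p : Fin (2 ^ E n) => one (Tr (L j) (a j) (out G n p))) = pG j := by
      rw [hpG]
    rw [h4] at h1
    rw [h3] at h2
    rw [hΔ]
    show |1 * (avg fun p : Fin (2 ^ E n) => one (Tr (L j) (a j) (out G n p)) *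
      ind (g j (out G n p))) - 1 * avg fun x : Cube n => one (Tr (L j) (a j) x) * ind (g j x)| ≤
      pG j + pU j
    rw [one_mul, one_mul, abs_le]
    constructor <;> linarith [h1.1, h1.2, h2.1, h2.2]
  have hsum : |∑ j, Δ j| ≤ ε := by
    refine (abs_sum_le_sum_abs _ _).trans ?_
    rw [← sum_sdiff (subset_univ Dp)]
    have h1 := sum_le_sum hΔs
    have h2 := sum_le_sum hΔd
    rw [← mul_sum] at h1
    rw [sum_add_distrib] at h2
    have h3 : ε / 4 * ∑ j ∈ univ \ Dp, pU j ≤ ε / 4 * 1 :=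
      mul_le_mul_of_nonneg_left (by linarith) (by positivity)
    linarith
  rw [hΔ] at hsum
  exact hsum

/-! ## Wide conjunctions -/

/-- `f` agrees with a function in `Q` outside at most `N₁` subcubes, each of which has more than `W`
conditions on bits not in `L`. -/
def Up (Q : ((Fin n → Bool) → Bool) → Prop) (N₁ W : ℕ) (L : Finset (Fin n))
    (f : (Fin n → Bool) → Bool) : Prop :=
  ∃ (f' : (Fin n → Bool) → Bool) (κ : Type) (_ : Fintype κ) (S : κ → Finset (Fin n))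
    (y : κ → Fin n → Bool), Q f' ∧ Fintype.card κ ≤ N₁ ∧ (∀ t, W < (S t \ L).card) ∧
    ∀ x, f x ≠ f' x → ∃ t, ∀ i ∈ S t, x i = y t i

theorem wi_point {κ : Type} [Fintype κ] (L : Finset (Fin n)) (a : Cube n) {f f' : Cube n → Bool}
    (S : κ → Finset (Fin n)) (y : κ → Fin n → Bool)
    (hf : ∀ x, f x ≠ f' x → ∃ t, ∀ i ∈ S t, x i = y t i) (x : Cube n) :
    |one (Tr L a x) * ind (f x) - one (Tr L a x) * ind (f' x)| ≤
      ∑ t, one (Tr L a x) * one (Tr (S t) (y t) x) := by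
  have h0 : ∀ t, 0 ≤ one (Tr L a x) * one (Tr (S t) (y t) x) := fun t =>
    mul_nonneg (Dnf.one_nonneg _) (Dnf.one_nonneg _)
  by_cases h : f x = f' x
  · rw [h, sub_self, abs_zero]
    exact sum_nonneg fun t _ => h0 t
  · obtain ⟨t, ht⟩ := hf x h
    have h1 : one (Tr (S t) (y t) x) = 1 := Dnf.one_true ht
    have h2 : one (Tr L a x) ≤ ∑ t, one (Tr L a x) * one (Tr (S t) (y t) x) := by
      calc one (Tr L a x) = one (Tr L a x) * one (Tr (S t) (y t) x) := by rw [h1, mul_one]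
        _ ≤ _ := single_le_sum (f := fun t => one (Tr L a x) * one (Tr (S t) (y t) x))
          (fun t _ => h0 t) (mem_univ t)
    refine le_trans ?_ h2
    have h4 := wi_ind (f x)
    have h5 := wi_ind (f' x)
    have h6 := Dnf.one_nonneg (Tr L a x)
    rw [← mul_sub, abs_mul, abs_of_nonneg h6]
    have h8 : |ind (f x) - ind (f' x)| ≤ 1 := by
      rw [abs_le]
      constructor <;> linarith
    calc one (Tr L a x) * |ind (f x) - ind (f' x)| ≤ one (Tr L a x) * 1 :=
          mul_le_mul_of_nonneg_left h8 h6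
      _ = _ := mul_one _

theorem wi_avg {Ω κ : Type} [Fintype Ω] [Nonempty Ω] [Fintype κ] (X : Ω → Cube n)
    (L : Finset (Fin n)) (a : Cube n) {f f' : Cube n → Bool}
    (S : κ → Finset (Fin n)) (y : κ → Fin n → Bool)
    (hf : ∀ x, f x ≠ f' x → ∃ t, ∀ i ∈ S t, x i = y t i) {η : ℝ} {N₁ : ℕ}
    (hκ : Fintype.card κ ≤ N₁) (hη : 0 ≤ η)
    (hS : ∀ t, (avg fun ω => one (Tr L a (X ω)) * one (Tr (S t) (y t) (X ω))) ≤ η) :
    |(avg fun ω => one (Tr L a (X ω)) * ind (f (X ω))) -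
      avg fun ω => one (Tr L a (X ω)) * ind (f' (X ω))| ≤ N₁ * η := by
  have hc : (0 : ℝ) < Fintype.card Ω := by exact_mod_cast Fintype.card_pos
  have h1 : (avg fun ω => one (Tr L a (X ω)) * ind (f (X ω))) -
      (avg fun ω => one (Tr L a (X ω)) * ind (f' (X ω))) =
      avg fun ω => (one (Tr L a (X ω)) * ind (f (X ω)) - one (Tr L a (X ω)) * ind (f' (X ω))) := by
    unfold avg
    rw [sum_sub_distrib, sub_div]
  have h2 : |avg fun ω => (one (Tr L a (X ω)) * ind (f (X ω)) -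
      one (Tr L a (X ω)) * ind (f' (X ω)))| ≤
      avg fun ω => ∑ t, one (Tr L a (X ω)) * one (Tr (S t) (y t) (X ω)) := by
    unfold avg
    rw [abs_div, abs_of_pos hc]
    refine div_le_div_of_nonneg_right ?_ hc.le
    exact (abs_sum_le_sum_abs _ _).trans
      (sum_le_sum fun ω _ => wi_point L a S y hf (X ω))
  rw [h1]
  refine h2.trans ?_
  have h3 : (avg fun ω => ∑ t, one (Tr L a (X ω)) * one (Tr (S t) (y t) (X ω))) =
      ∑ t, avg fun ω => one (Tr L a (X ω)) * one (Tr (S t) (y t) (X ω)) := by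
    unfold avg
    rw [sum_comm, sum_div]
  rw [h3]
  refine (sum_le_sum fun t _ => hS t).trans ?_
  rw [sum_const, card_univ, nsmul_eq_mul]
  exact mul_le_mul_of_nonneg_right (by exact_mod_cast hκ) hη

/-- Wide conjunctions are free. -/
theorem wide_leaf {P : ∀ n : ℕ, ((Fin n → Bool) → Bool) → Prop} (e h k : ℕ)
    (H : ∀ ε : ℝ, 0 < ε → LeafGen P (e + h + 1) ε) {ε : ℝ} (hε : 0 < ε) :
    LeafGenL (fun n L f => Up (P n) (k * n ^ h) ((h + 1) * Nat.clog 2 n) L f) e ε := by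
  classical
  obtain ⟨ε₁, hε₁⟩ : ∃ ε₁ : ℝ, ε₁ = min 1 (ε / 2) := ⟨_, rfl⟩
  have hε₁0 : 0 < ε₁ := by
    rw [hε₁]
    exact lt_min one_pos (by positivity)
  have hε₁1 : ε₁ ≤ 1 := by rw [hε₁]; exact min_le_left _ _
  have hε₁2 : ε₁ ≤ ε / 2 := by rw [hε₁]; exact min_le_right _ _
  obtain ⟨E, G, hNG, n₀, HG⟩ := H ε₁ hε₁0
  obtain ⟨n₁, hn₁⟩ := exists_nat_gt (6 * (k : ℝ) / ε)
  refine ⟨E, G, hNG, max n₀ (max n₁ 1), fun n hn L a hL => ?_⟩
  have hn0 : n₀ ≤ n := (le_max_left _ _).trans hn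
  have hn1 : n₁ ≤ n := (le_max_left _ _).trans ((le_max_right _ _).trans hn)
  have hn2 : 1 ≤ n := (le_max_right _ _).trans ((le_max_right _ _).trans hn)
  have hnr : (1 : ℝ) ≤ n := by exact_mod_cast hn2
  have hnp : (0 : ℝ) < n := by linarith
  have hne : Nonempty (Fin (2 ^ E n)) := ⟨⟨0, by positivity⟩⟩
  have hL' : L.card ≤ (e + h + 1) * Nat.clog 2 n :=
    hL.trans (Nat.mul_le_mul_right _ (by omega))
  obtain ⟨W, hW⟩ : ∃ W : ℕ, W = (h + 1) * Nat.clog 2 n := ⟨_, rfl⟩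
  have hLW : L.card + W ≤ (e + h + 1) * Nat.clog 2 n := by
    rw [hW]
    calc L.card + (h + 1) * Nat.clog 2 n ≤ e * Nat.clog 2 n + (h + 1) * Nat.clog 2 n :=
          Nat.add_le_add_right hL _
      _ = _ := by ring
  have hD : (0 : ℝ) < (1 / 2) ^ L.card := by positivity
  have hG := HG n hn0 L a hL'
  refine ⟨hG.1.trans (mul_le_mul_of_nonneg_right (by linarith) hD.le), ?_⟩
  rintro f ⟨f', κ, _, S, y, hf', hκ, hS, hdiff⟩
  rw [← hW] at hS
  -- the subcubes are small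
  have hmono : ∀ t : κ, ∃ (S' : Finset (Fin n)) (b : Cube n), S'.card = L.card + W ∧
      ∀ x : Cube n, one (Tr L a x) * one (Tr (S t) (y t) x) ≤ one (Tr S' b x) := by
    intro t
    obtain ⟨S', hS', hc'⟩ := Finset.exists_subset_card_eq (hS t).le
    refine ⟨L ∪ S', fun i => if i ∈ L then a i else y t i, ?_, fun x => ?_⟩
    · rw [card_union_of_disjoint, hc']
      refine disjoint_left.2 fun i hi hi' => ?_
      exact (mem_sdiff.1 (hS' hi')).2 hi
    · by_cases hT : Tr L a x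
      · by_cases hT' : Tr (S t) (y t) x
        · have h1 : Tr (L ∪ S') (fun i => if i ∈ L then a i else y t i) x := by
            intro i hi
            show x i = if i ∈ L then a i else y t i
            by_cases hiL : i ∈ L
            · rw [if_pos hiL]
              exact hT i hiL
            · rw [if_neg hiL]
              rcases mem_union.1 hi with h | h
              · exact absurd h hiL
              · exact hT' i (mem_sdiff.1 (hS' h)).1
          rw [Dnf.one_true hT, Dnf.one_true hT', Dnf.one_true h1, one_mul]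
        · rw [Dnf.one_false hT', mul_zero]
          exact Dnf.one_nonneg _
      · rw [Dnf.one_false hT, zero_mul]
        exact Dnf.one_nonneg _
  have hX : ∀ t, (avg fun p : Fin (2 ^ E n) => one (Tr L a (out G n p)) *
      one (Tr (S t) (y t) (out G n p))) ≤ 2 * (1 / 2) ^ (L.card + W) := by
    intro t
    obtain ⟨S', b, hc', hm⟩ := hmono t
    have h1 := (HG n hn0 S' b (by rw [hc']; exact hLW)).1
    rw [hc'] at h1
    have h2 := (abs_le.1 h1).2
    have h3 : (avg fun p : Fin (2 ^ E n) => one (Tr L a (out G n p)) *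
        one (Tr (S t) (y t) (out G n p))) ≤
        avg fun p : Fin (2 ^ E n) => one (Tr S' b (out G n p)) := avg_mono fun p => hm _
    have h4 : ε₁ * (1 / 2 : ℝ) ^ (L.card + W) ≤ 1 * (1 / 2) ^ (L.card + W) :=
      mul_le_mul_of_nonneg_right hε₁1 (by positivity)
    linarith
  have hU : ∀ t, (avg fun x : Cube n => one (Tr L a x) * one (Tr (S t) (y t) x)) ≤
      (1 / 2) ^ (L.card + W) := by
    intro t
    obtain ⟨S', b, hc', hm⟩ := hmono t
    refine (avg_mono hm).trans (le_of_eq ?_)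
    rw [wi_cell, hc']
  have h1 := wi_avg (fun p : Fin (2 ^ E n) => out G n p) L a S y hdiff hκ
    (show (0 : ℝ) ≤ 2 * (1 / 2) ^ (L.card + W) by positivity) hX
  have h2 := wi_avg (fun x : Cube n => x) L a S y hdiff hκ
    (show (0 : ℝ) ≤ (1 / 2) ^ (L.card + W) by positivity) hU
  have h3 := hG.2 f' hf'
  -- the numbers
  have hW2 : ((1 : ℝ) / 2) ^ (L.card + W) ≤ 1 / (n : ℝ) ^ (h + 1) * (1 / 2) ^ L.card := by
    rw [pow_add, mul_comm]
    refine mul_le_mul_of_nonneg_right ?_ hD.le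
    rw [one_div_pow]
    apply one_div_le_one_div_of_le (by positivity)
    rw [hW, mul_comm, pow_mul]
    exact pow_le_pow_left₀ (by positivity) (Xp.ma_clog' n) _
  have h4 : ((k * n ^ h : ℕ) : ℝ) * (3 * (1 / 2) ^ (L.card + W)) ≤ ε / 2 * (1 / 2) ^ L.card := by
    have h5 : 6 * (k : ℝ) / ε ≤ n := by
      have : (n₁ : ℝ) ≤ n := by exact_mod_cast hn1
      linarith
    have h6 : 6 * (k : ℝ) ≤ n * ε := by
      rwa [div_le_iff₀ hε] at h5
    calc ((k * n ^ h : ℕ) : ℝ) * (3 * (1 / 2) ^ (L.card + W)) ≤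
        ((k * n ^ h : ℕ) : ℝ) * (3 * (1 / (n : ℝ) ^ (h + 1) * (1 / 2) ^ L.card)) :=
          mul_le_mul_of_nonneg_left (by linarith) (Nat.cast_nonneg _)
      _ = 3 * k / n * (1 / 2) ^ L.card := by
        push_cast
        rw [pow_succ]
        field_simp
      _ ≤ ε / 2 * (1 / 2) ^ L.card := by
        refine mul_le_mul_of_nonneg_right ?_ hD.le
        rw [div_le_iff₀ hnp]
        linarith
  have h5 : (avg fun p : Fin (2 ^ E n) => one (Tr L a (out G n p)) * ind (f (out G n p))) -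
      (avg fun x : Cube n => one (Tr L a x) * ind (f x)) =
      ((avg fun p : Fin (2 ^ E n) => one (Tr L a (out G n p)) * ind (f (out G n p))) -
        avg fun p : Fin (2 ^ E n) => one (Tr L a (out G n p)) * ind (f' (out G n p))) +
      (((avg fun p : Fin (2 ^ E n) => one (Tr L a (out G n p)) * ind (f' (out G n p))) -
        avg fun x : Cube n => one (Tr L a x) * ind (f' x)) -
      ((avg fun x : Cube n => one (Tr L a x) * ind (f x)) -
        avg fun x : Cube n => one (Tr L a x) * ind (f' x))) := by ring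
  rw [h5]
  refine (abs_add_le _ _).trans ?_
  refine (add_le_add h1 ((abs_sub _ _).trans (add_le_add h3 h2))).trans ?_
  have h6 : ε₁ * (1 / 2 : ℝ) ^ L.card ≤ ε / 2 * (1 / 2) ^ L.card :=
    mul_le_mul_of_nonneg_right hε₁2 hD.le
  have h7 : ((k * n ^ h : ℕ) : ℝ) * (2 * (1 / 2) ^ (L.card + W)) +
      ((k * n ^ h : ℕ) : ℝ) * (1 / 2) ^ (L.card + W) =
      ((k * n ^ h : ℕ) : ℝ) * (3 * (1 / 2) ^ (L.card + W)) := by ring
  linarith

end Pool.Agent.MP_ca1109_lc.Xr
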